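import Pool.Agent.EVC.MV

/-!
# [EC-GO] a criterion for good configurations
-/

set_option autoImplicit false

open EVS

namespace EVC

variable {S : Type} [Semigroup S] [Finite S]

omit [Finite S] in
theorem go_J2_mul {x s : S} (h : J2 x s) (u v : S) : J2 x (u * s * v) := by
  obtain ⟨p, q, r, hs⟩ := h
  refine ⟨(u : WithOne S) * p, q, r * (v : WithOne S), ?_⟩
  rw [WithOne.coe_mul, WithOne.coe_mul, hs]
  simp only [mul_assoc]

theorem go_fin {b x : S} (h : SF S b x) (ρ : S →ₙ* S) (w : S) (hw : om w = b) (hwb : b * w ≠ w)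
    (h4 : ∀ t, ¬ Un t → b * ρ t = ρ t) {e : Option S} (ψ : S →ₙ* S)
    (hψ : ∀ s, ¬ Orb2 e x s → ψ s = ρ s) (hψx : ψ x = w) (hno : ∀ s, J2 x s → ¬ Orb2 e x s) :
    Good S x := by
  refine ⟨ψ, ?_, ?_⟩
  · rw [hψx, h.gp]
    rintro (h5 | h5)
    · exact hwb h5
    · have h6 := h5 w
      rw [hw] at h6
      exact hwb h6
  · intro p s hs
    have hJ : J2 x s := ⟨1, p, 1, by rw [hs, one_mul, mul_one]⟩
    rw [hψ s (hno s hJ), h.gp]
    left
    exact h4 s (fun hu => h.un_j2 s hu hJ)

/-- PROOF.  First case: there is a unit `g`.  Let `e' = om g`, an identity element (also on the right, `h.hc`), and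
`e = some e'`.  `UU e s ↔ Un s`: `e' * om s = om s`, so `UU e s` means `om s = e'`; if `Un s`, then `om s = om g` by `h.un_om`.
`OkE b e`: `e'` is an identity.  For `g` with `om g = e'`: `Un g`.
`Src2 b e x`: `b * om x = b` (`h.hxb`, `h.hb`); `¬ Un x` (otherwise `om x = b` is an identity and `b * x = x`, against `h.hx`);
`act e x = e' * x = x`; if `Orb2 e x (s * t)`, then `s * t = g x k` with units `g`, `k`; if `s` and `t` are not units, then by
`h.prod` `Lw b (s t)` or `J2 x (s t)`; with the inverses (`h.un_inv`) `x = g⁻¹ (s t) k⁻¹`, so `Lw b x` or `J2 x x`,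
contradiction to `h.hx`, `h.xj2`.
Second case: there is no unit: `e = none`; `UU none s` is false; `Src2`: `Orb2 none x (s t)` means `s t = x`, impossible by
`h.prod` (`Lw b x` or `J2 x x`).
Apply `MV` and get `ψ` with `ψ x = w` and `ψ s = ρ s` for `s` not in the orbit.  `Good`: `φ = ψ`.  `w` is no group element by
`h.gp` (`Un w` would give that `om w = b` is an identity, so `b * w = w`).  Let `s = x p x` with `p : WithOne S`; then
`J2 x s`.  `s` is not in the orbit: otherwise (first case) `s = g x k`, `x = g⁻¹ s k⁻¹` would be `J2`; (second case) `s = x`.  So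
`ψ s = ρ s`, and `s` is not a unit (`h.un_j2`), so `b * ρ s = ρ s` by `h4`, and `h.gp` gives `IsGp (ψ s)`. -/
theorem good_of {b x : S} (h : SF S b x) (ρ : S →ₙ* S) (w : S) (hw : om w = b) (hwb : b * w ≠ w)
    (h2 : b * w = ρ x) (h1 : ∀ g, Un g → ρ (om g) * w = w)
    (h3 : ∀ g k, Un g → Un k → g * x = x * k → ρ g * w = w * ρ k)
    (h4 : ∀ t, ¬ Un t → b * ρ t = ρ t) (h6 : (∀ g : S, ¬ Un g) → b * (w * w) = w * w)
    (h6' : ∀ g, Un g → b * (w * ρ g * w) = w * ρ g * w) : Good S x := by
  by_cases hun : ∃ g : S, Un g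
  · obtain ⟨g, hg⟩ := hun
    have hee : om g * om g = om g := om_idem g
    have hr : ∀ t, t * om g = t := fun t => by rw [← h.hc _ t hee, hg t]
    have hU : ∀ s, om s = om g → Un s := by
      intro s hs t
      rw [hs]
      exact hg t
    have hUU : ∀ s, UU (some (om g)) s ↔ Un s := by
      intro s
      show om g * om s = om g ↔ Un s
      rw [hg]
      exact ⟨hU s, fun hs => h.un_om s g hs hg⟩
    have hinv : ∀ s, Orb2 (some (om g)) x s → ∃ u v : S, x = u * s * v := by
      intro s hs
      obtain ⟨g1, k, hg1, -, hk, -, hsk⟩ := hs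
      have e0 : om g * s = s := hg s
      rw [e0] at hsk
      obtain ⟨g1', -, -, hgg⟩ := h.un_inv g1 (hU g1 hg1)
      obtain ⟨k', -, hkk, -⟩ := h.un_inv k (hU k hk)
      refine ⟨g1', k', ?_⟩
      rw [hsk]
      calc x = om g * x * om g := by rw [hg, hr]
        _ = (g1' * g1) * x * (k * k') := by rw [hgg, hkk, hg1, hk]
        _ = g1' * (g1 * x * k) * k' := by simp only [mul_assoc]
    have hno : ∀ s, J2 x s → ¬ Orb2 (some (om g)) x s := by
      intro s hs ho
      obtain ⟨u, v, huv⟩ := hinv s ho
      apply h.xj2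
      have h5 := go_J2_mul hs u v
      rwa [← huv] at h5
    have he : OkE b (some (om g)) := by
      intro e' he'
      obtain rfl := Option.some.inj he'
      exact ⟨hee, hg b⟩
    have hx : Src2 b (some (om g)) x := by
      refine ⟨by rw [h.hxb, h.hb], ?_, hg x, ?_⟩
      · rw [hUU]
        intro hu
        have h5 := hu x
        rw [h.hxb] at h5
        exact h.hx h5
      · intro s t ho
        rw [hUU, hUU]
        by_contra hcon
        rw [not_or] at hcon
        rcases h.prod s t hcon.1 hcon.2 with h5 | h5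
        · obtain ⟨u, v, huv⟩ := hinv _ ho
          apply h.hx
          have h6 : Lw b (u * (s * t) * v) := (Lw.mul_left h.hc h.hb h5 u).mul_right v
          rw [← huv] at h6
          exact h6
        · exact hno _ h5 ho
    obtain ⟨ψ, hψ, hψx⟩ := MV h.hc h.hb he hx h.hxb ρ w hw h2
      (by
        intro e' he'
        obtain rfl := Option.some.inj he'
        exact h1 g hg)
      (by
        intro e' g1 k he' hg1 _ hk _ hgk
        obtain rfl := Option.some.inj he'
        exact h3 g1 k (hU g1 hg1) (hU k hk) hgk)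
      (by
        intro t ht
        rw [hUU] at ht
        exact h4 t ht)
      (by
        intro h0
        exact absurd h0 (by simp))
      (by
        intro e' g1 he' hg1 _
        obtain rfl := Option.some.inj he'
        exact h6' g1 (hU g1 hg1))
    exact go_fin h ρ w hw hwb h4 ψ hψ hψx hno
  · have hnu : ∀ g : S, ¬ Un g := fun g hg => hun ⟨g, hg⟩
    have hno : ∀ s, J2 x s → ¬ Orb2 none x s := by
      intro s hs ho
      have h5 : s = x := ho
      rw [h5] at hs
      exact h.xj2 hs
    have he : OkE b (none : Option S) := by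
      intro e' he'
      exact absurd he' (by simp)
    have hx : Src2 b none x := by
      refine ⟨by rw [h.hxb, h.hb], fun h5 => h5, rfl, ?_⟩
      intro s t ho
      exfalso
      rcases h.prod s t (hnu s) (hnu t) with h5 | h5
      · have h6 : s * t = x := ho
        rw [h6] at h5
        exact h.hx h5
      · exact hno _ h5 ho
    obtain ⟨ψ, hψ, hψx⟩ := MV h.hc h.hb he hx h.hxb ρ w hw h2
      (by
        intro e' he'
        exact absurd he' (by simp))
      (by
        intro e' g1 k he'
        exact absurd he' (by simp))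
      (fun t _ => h4 t (hnu t)) (fun _ => h6 hnu)
      (by
        intro e' g1 he'
        exact absurd he' (by simp))
    exact go_fin h ρ w hw hwb h4 ψ hψ hψx hno

end EVC
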