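import Pool.Agent.EVC.BT4
import Pool.Agent.EVC.GO

/-!
# [EC-BL] endomorphisms of the blow-up
-/

set_option autoImplicit false

open EVS

namespace EVC

section
variable {S : Type} [Semigroup S] [Finite S] {b x : S} {Ω : Type} {F : Set Ω} {N : Set (Set Ω)}
  {h : SF S b x} {hΩ : OmOk F N}

/-- PROOF.  `jj b * t = t` (`rg_iff_b`), apply `φ`. -/
theorem rg_map (φ : BU h hΩ →ₙ* BU h hΩ) (hβ : φ (jj h hΩ b) = jj h hΩ b) {t : BU h hΩ} (ht : Rg t) :
    Rg (φ t) := by
  have h1 : jj h hΩ b * t = t := (rg_iff_b t).1 ht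
  have h2 : jj h hΩ b * φ t = φ t := by
    calc jj h hΩ b * φ t = φ (jj h hΩ b) * φ t := by rw [hβ]
      _ = φ (jj h hΩ b * t) := (map_mul φ _ _).symm
      _ = φ t := by rw [h1]
  exact (rg_iff_b _).2 h2

/-- PROOF.  apply `φ` to the equations in `IsGp`; `gp_BU`. -/
theorem gp_map [Finite Ω] (φ : BU h hΩ →ₙ* BU h hΩ) {t : BU h hΩ} (ht : Rg t ∨ Un (pr t)) :
    Rg (φ t) ∨ Un (pr (φ t)) := by
  obtain ⟨e, k, he, h1, h2, h3, h4⟩ := (gp_BU t).2 ht
  refine (gp_BU (φ t)).1 ⟨φ e, φ k, ?_, ?_, ?_, ?_, ?_⟩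
  · rw [← map_mul, he]
  · rw [← map_mul, h1]
  · rw [← map_mul, h2]
  · rw [← map_mul, h3]
  · rw [← map_mul, h4]

/-- PROOF.  `top e` is idempotent, `top g * (inverse) = top (om g) = top e` (`h.un_inv`, `h.un_om`, and `om e = e`).  By `gp_map`
`φ (top g)` is `Rg` or a unit.  If `Rg`, then `φ (top e) = φ (top g) * φ (top g⁻¹)` is `Rg`, `jj b * φ (top e) = φ (top e)`;
but `jj b * top e = jj b` (`jj_b_mul`, `top_val`, `b * e = b`), so `jj b = φ (jj b) = φ (jj b) * φ (top e) = jj b * φ (top e)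
= φ (top e)`, contradiction. -/
theorem top_map [Finite Ω] (φ : BU h hΩ →ₙ* BU h hΩ) (hβ : φ (jj h hΩ b) = jj h hΩ b) {e : S} (he : Un e)
    (hee : e * e = e) (h1 : φ (top h hΩ e he) ≠ jj h hΩ b) (g : S) (hg : Un g) :
    Un (pr (φ (top h hΩ g hg))) := by
  have hoe : om e = e := om_of_idem hee
  have hid : ∀ t : S, e * t = t := fun t => by
    have := he t
    rwa [hoe] at this
  obtain ⟨k, hk, hgk, _⟩ := h.un_inv g hg
  have hgk' : g * k = e := by rw [hgk, h.un_om g e hg he, hoe]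
  have hcongr : ∀ (a : S) (ha : Un a), a = e → top h hΩ a ha = top h hΩ e he := by
    intro a ha hae
    subst hae
    rfl
  have hprod : top h hΩ g hg * top h hΩ k hk = top h hΩ e he := by
    rw [(top_mul g k hg hk).1]
    exact hcongr _ _ hgk'
  have hbe : b * e = b := by rw [← h.hc e b hee, hid]
  have hjj : jj h hΩ e = jj h hΩ b := by
    apply BU_ext
    · rw [(jj_val e).1, (jj_val b).1, hbe, h.hb]
    · rw [(jj_val e).2.1, (jj_val b).2.1]
  have hpe : pr (top h hΩ e he) = e := (top_val e he).1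
  have hbt : jj h hΩ b * top h hΩ e he = jj h hΩ b := by
    rw [(jj_b_mul _).1, hpe, hjj]
  have hg' : Rg (top h hΩ g hg) ∨ Un (pr (top h hΩ g hg)) := by
    right
    rw [(top_val g hg).1]
    exact hg
  rcases gp_map φ hg' with hr | hu
  · exfalso
    have hr2 : Rg (φ (top h hΩ e he)) := by
      rw [← hprod, map_mul]
      exact (pr_mul_rg _ _ (Or.inl hr)).1
    apply h1
    calc φ (top h hΩ e he) = jj h hΩ b * φ (top h hΩ e he) := ((rg_iff_b _).1 hr2).symm
      _ = φ (jj h hΩ b) * φ (top h hΩ e he) := by rw [hβ]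
      _ = φ (jj h hΩ b * top h hΩ e he) := (map_mul φ _ _).symm
      _ = φ (jj h hΩ b) := by rw [hbt]
      _ = jj h hΩ b := hβ
  · exact hu

/-- PROOF.  `t` is `jj (pr t)`-related: `om t = jj b` (`om_nonunit`).  First case, `φ t` is `Rg` or a unit: it is a group element
(`gp_BU`), so `φ t = om (φ t) * φ t = φ (om t) * φ t = φ (jj b * t)` (`isGp_iff`, `map_om`, centrality).  Second case: `φ t` is
not `Rg` and not a unit: then `om (φ t) = jj b`, so `φ (jj b) = φ (om t) = jj b`.  So `H` says `φ (top e) = jj b`, and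
`φ t = φ (top e * t) = jj b * φ t` is `Rg` (`top_mul_val`: `top e * t = t` as `e` is an identity, `TT_ext`), contradiction. -/
theorem flag_b [Finite Ω] (φ : BU h hΩ →ₙ* BU h hΩ)
    (H : φ (jj h hΩ b) ≠ jj h hΩ b ∨ ∃ (e : S) (he : Un e), e * e = e ∧ φ (top h hΩ e he) = jj h hΩ b)
    {t : BU h hΩ} (ht : ¬ Rg t) (hu : ¬ Un (pr t)) :
    φ t = φ (jj h hΩ b * t) ∧ (Rg (φ t) ∨ Un (pr (φ t))) := by
  have hom : om t = jj h hΩ b := om_nonunit t ht hu
  by_cases hc : Rg (φ t) ∨ Un (pr (φ t))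
  · refine ⟨?_, hc⟩
    have h1 : φ t * om (φ t) = φ t := isGp_iff.1 ((gp_BU (φ t)).2 hc)
    calc φ t = om (φ t) * φ t := by rw [om_comm, h1]
      _ = φ (om t) * φ t := by rw [map_om]
      _ = φ (om t * t) := (map_mul φ _ _).symm
      _ = φ (jj h hΩ b * t) := by rw [hom]
  · exfalso
    have hr : ¬ Rg (φ t) := fun h' => hc (Or.inl h')
    have hn : ¬ Un (pr (φ t)) := fun h' => hc (Or.inr h')
    have h2 : om (φ t) = jj h hΩ b := om_nonunit _ hr hn
    have h3 : φ (jj h hΩ b) = jj h hΩ b := by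
      calc φ (jj h hΩ b) = φ (om t) := by rw [hom]
        _ = om (φ t) := map_om φ t
        _ = jj h hΩ b := h2
    rcases H with H | ⟨e, he, hee, H⟩
    · exact H h3
    · have hoe : om e = e := om_of_idem hee
      have hid : ∀ s : S, e * s = s := fun s => by
        have := he s
        rwa [hoe] at this
      have h4 : top h hΩ e he * t = t := by
        apply BU_ext
        · rw [(top_mul_val e he t).1, hid]
        · exact (top_mul_val e he t).2.1
      apply hr
      rw [rg_iff_b]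
      calc jj h hΩ b * φ t = φ (top h hΩ e he) * φ t := by rw [H]
        _ = φ (top h hΩ e he * t) := (map_mul φ _ _).symm
        _ = φ t := by rw [h4]

/-- A nonregular element of the image is not a unit and `pr` behaves well.
PROOF.  `om v = jj b` (`om_nonunit`; `pr v = x` is not `Lw`, not a unit: `h.hx`, `h.hxb`), so `om (φ v) = jj b`; if `φ v` were a
unit, then `pr (om (φ v))` would be an identity of `S` by `un_om_BU`, but it is `b * b = b` (`jj_val`), and `b * x ≠ x`. -/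
theorem nonunit_map [Finite Ω] (φ : BU h hΩ →ₙ* BU h hΩ) (hβ : φ (jj h hΩ b) = jj h hΩ b)
    {v : BU h hΩ} (hv : ¬ Rg v) (hvu : ¬ Un (pr v)) : ¬ Un (pr (φ v)) := by
  intro hu
  have h1 : om v = jj h hΩ b := om_nonunit v hv hvu
  have h2 : om (φ v) = jj h hΩ b := by rw [← map_om, h1, hβ]
  have h3 : om (pr (φ v)) = b := by
    rw [← (un_om_BU (φ v) hu).1, h2, (jj_val b).1, h.hb]
  apply h.hx
  have h4 := hu x
  rwa [h3] at h4

end

end EVC
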