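import Pool.Agent.EVC.BL

/-!
# [EC-BM] bad configurations: nonregular squares are transferred
-/

set_option autoImplicit false

open EVS

namespace EVC

section
variable {S : Type} [Semigroup S] [Finite S] {b x : S} {Ω : Type} {F : Set Ω} {N : Set (Set Ω)}
  {h : SF S b x} {hΩ : OmOk F N}

/-- Bad configurations, case with units.
PROOF.  Suppose `Rg (φ v * φ (top g) * φ v)` for all units `g`.  We show `Good S x` with `good_of`.  Let `W = φ v`, `w = pr W`.
`W` is not `Rg` and not a unit (`nonunit_map`; `v` is not `Rg` and not a unit because of `pr v = x`).  So `om w = b`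
(`h.omb`), `b * w ≠ w`.
Define `ρ s = pr (φ (top s))` if `Un s` and `ρ s = pr (φ (jj s))` otherwise.  `ρ (s t) = ρ s * ρ t`: both units:
`top_mul` and `pr_mul_of` (the product of two elements with `Un (pr _)` (`top_map`) is not `Rg`: `h.un_mul`, `h.un_lw`, the
supports are `univ` or `F`).  `s` a unit, `t` not: `s t` is not a unit (multiply by the inverse), `top s * jj t = jj (s t)`
(`jj_b_mul`-like computation: `jj t = jj b * jj t`, or compare components with `top_mul_val`, `rg_iff`), `φ (jj t)` is `Rg` (`rg_map`), so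
`pr_mul_rg`.  Both not units: `s t` is not a unit (if `Un (s t)`, then `om (s t)`... use `h.prod` with `h.un_lw`, `h.un_j2`).
`h2`: `b * w = pr (jj b * W)` and `jj b * W = φ (jj b * v) = φ (jj x)` (`jj_b_mul`), `x` is not a unit.
`h1`: `W = φ (top e * v) = φ (top (om g)) * W`, `om g = e` (idempotent units are equal), `pr_mul_of`.
`h3`: `g * x = x * k`: `top g * v = v * top k` (`top_mul_val`, `TT_ext`), apply `φ`; the products `φ (top g) * W`, `W * φ (top k)` are not
`Rg` (multiply by the inverse), so `pr_mul_of` on both sides.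
`h4`: `φ (jj t)` is `Rg`.  `h6`: there is the unit `e`.
`h6'`: `A = W * φ (top g)` is not `Rg` (inverse), `pr A = w * ρ g`, and `Rg (A * W)` means `Lw b (w * ρ g * w)` or
`lb A ∩ lb W = ∅` (`rg_mul_iff`).  The second is impossible: `lb W ∩ F` is nonempty (`cases_BU`), and `lb A ⊇ lb W ∩ F`: if
`J2 (pr A)`, then `lb A ⊇ F` by `lb_mul_j2`; otherwise `lb A = lb W ∩ lb (φ (top g))` (`lb_mul_of`) and the support of the unit is `univ`
or `F` (`cases_BU`). -/
theorem badI [Finite Ω] (hbad : ¬ Good S x) (φ : BU h hΩ →ₙ* BU h hΩ)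
    (hβ : φ (jj h hΩ b) = jj h hΩ b) {e : S} (he : Un e) (hee : e * e = e)
    (h1 : φ (top h hΩ e he) ≠ jj h hΩ b) {v : BU h hΩ} (hv : pr v = x) (hW : ¬ Rg (φ v)) :
    ∃ (g : S) (hg : Un g), ¬ Rg (φ v * φ (top h hΩ g hg) * φ v) := by
  classical
  by_contra hcon
  have hcon' : ∀ (g : S) (hg : Un g), Rg (φ v * φ (top h hΩ g hg) * φ v) := by
    intro g hg
    by_contra hc
    exact hcon ⟨g, hg, hc⟩
  apply hbad
  have hoe : om e = e := om_of_idem hee
  have hid : ∀ t : S, e * t = t := fun t => by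
    have := he t
    rwa [hoe] at this
  have hidr : ∀ t : S, t * e = t := fun t => by rw [← h.hc e t hee, hid]
  have hvr : ¬ Rg v := by
    intro hr
    have : Lw b (pr v) := hr
    rw [hv] at this
    exact h.hx this
  have hxu : ¬ Un x := by
    intro hu
    have := hu x
    rw [h.hxb] at this
    exact h.hx this
  have hvu : ¬ Un (pr v) := by rwa [hv]
  have hwu : ¬ Un (pr (φ v)) := nonunit_map φ hβ hvr hvu
  -- inverses
  have hcongr : ∀ (a a' : S) (ha : Un a) (ha' : Un a'), a = a' →
      top h hΩ a ha = top h hΩ a' ha' := by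
    intro a a' ha ha' hae
    subst hae
    rfl
  have hinv : ∀ (g : S) (hg : Un g), ∃ (k : S) (hk : Un k), g * k = e ∧ k * g = e ∧
      top h hΩ g hg * top h hΩ k hk = top h hΩ e he ∧
      top h hΩ k hk * top h hΩ g hg = top h hΩ e he := by
    intro g hg
    obtain ⟨k, hk, h5, h6⟩ := h.un_inv g hg
    have h7 : om g = e := by rw [h.un_om g e hg he, hoe]
    rw [h7] at h5 h6
    refine ⟨k, hk, h5, h6, ?_, ?_⟩
    · rw [(top_mul g k hg hk).1]
      exact hcongr _ _ _ _ h5
    · rw [(top_mul k g hk hg).1]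
      exact hcongr _ _ _ _ h6
  have hev : top h hΩ e he * v = v := by
    apply BU_ext
    · rw [(top_mul_val e he v).1, hid]
    · exact (top_mul_val e he v).2.1
  have hve : v * top h hΩ e he = v := by
    apply BU_ext
    · rw [(top_mul_val e he v).2.2.1, hidr]
    · exact (top_mul_val e he v).2.2.2
  have htu : ∀ (g : S) (hg : Un g), Un (pr (φ (top h hΩ g hg))) :=
    fun g hg => top_map φ hβ he hee h1 g hg
  have htr : ∀ (g : S) (hg : Un g), ¬ Rg (φ (top h hΩ g hg)) :=
    fun g hg hr => h.un_lw _ (htu g hg) hr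
  have hjr : ∀ s : S, Rg (φ (jj h hΩ s)) := fun s => rg_map φ hβ (jj_val s).2.2
  have hL : ∀ (g : S) (hg : Un g), ¬ Rg (φ (top h hΩ g hg) * φ v) := by
    intro g hg hr
    obtain ⟨k, hk, -, -, -, h5⟩ := hinv g hg
    apply hW
    have h6 : φ (top h hΩ k hk) * (φ (top h hΩ g hg) * φ v) = φ v := by
      rw [← mul_assoc, ← map_mul, h5, ← map_mul, hev]
    rw [← h6]
    exact (pr_mul_rg _ _ (Or.inr hr)).1
  have hR : ∀ (g : S) (hg : Un g), ¬ Rg (φ v * φ (top h hΩ g hg)) := by
    intro g hg hr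
    obtain ⟨k, hk, -, -, h5, -⟩ := hinv g hg
    apply hW
    have h6 : (φ v * φ (top h hΩ g hg)) * φ (top h hΩ k hk) = φ v := by
      rw [mul_assoc, ← map_mul, h5, ← map_mul, hve]
    rw [← h6]
    exact (pr_mul_rg _ _ (Or.inl hr)).1
  have hbc : ∀ s : S, b * s = s * b := fun s => h.hc b s h.hb
  -- the homomorphism
  let ρ : S → S := fun s => if hs : Un s then pr (φ (top h hΩ s hs)) else pr (φ (jj h hΩ s))
  have hρu : ∀ (s : S) (hs : Un s), ρ s = pr (φ (top h hΩ s hs)) := by
    intro s hs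
    simp only [ρ, dif_pos hs]
  have hρn : ∀ s : S, ¬ Un s → ρ s = pr (φ (jj h hΩ s)) := by
    intro s hs
    simp only [ρ, dif_neg hs]
  have hmul : ∀ s t : S, ρ (s * t) = ρ s * ρ t := by
    intro s t
    by_cases hs : Un s
    · by_cases ht : Un t
      · have hst := h.un_mul s t hs ht
        rw [hρu _ hst, hρu _ hs, hρu _ ht]
        have h5 : φ (top h hΩ (s * t) hst) = φ (top h hΩ s hs) * φ (top h hΩ t ht) := by
          rw [← map_mul, (top_mul s t hs ht).1]
        rw [h5]
        apply pr_mul_of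
        rw [← h5]
        exact htr _ _
      · have hst : ¬ Un (s * t) := by
          intro hst
          obtain ⟨k, hk, -, h5, -, -⟩ := hinv s hs
          apply ht
          have h6 : k * (s * t) = t := by rw [← mul_assoc, h5, hid]
          rw [← h6]
          exact h.un_mul _ _ hk hst
        rw [hρn _ hst, hρu _ hs, hρn _ ht]
        have h5 : jj h hΩ (s * t) = top h hΩ s hs * jj h hΩ t := by
          apply BU_ext
          · rw [(jj_val _).1, (top_mul_val s hs _).1, (jj_val _).1, ← mul_assoc, ← mul_assoc, hbc s]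
          · rw [(jj_val _).2.1, (top_mul_val s hs _).2.1, (jj_val _).2.1]
        rw [h5, map_mul]
        exact (pr_mul_rg _ _ (Or.inr (hjr t))).2
    · by_cases ht : Un t
      · have hst : ¬ Un (s * t) := by
          intro hst
          obtain ⟨k, hk, h5, -, -, -⟩ := hinv t ht
          apply hs
          have h6 : (s * t) * k = s := by rw [mul_assoc, h5, hidr]
          rw [← h6]
          exact h.un_mul _ _ hst hk
        rw [hρn _ hst, hρn _ hs, hρu _ ht]
        have h5 : jj h hΩ (s * t) = jj h hΩ s * top h hΩ t ht := by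
          apply BU_ext
          · rw [(jj_val _).1, (top_mul_val t ht _).2.2.1, (jj_val _).1, mul_assoc]
          · rw [(jj_val _).2.1, (top_mul_val t ht _).2.2.2, (jj_val _).2.1]
        rw [h5, map_mul]
        exact (pr_mul_rg _ _ (Or.inl (hjr s))).2
      · have hst : ¬ Un (s * t) := by
          intro hst
          rcases h.prod s t hs ht with h5 | h5
          · exact h.un_lw _ hst h5
          · exact h.un_j2 _ hst h5
        rw [hρn _ hst, hρn _ hs, hρn _ ht, jj_mul, map_mul]
        exact (pr_mul_rg _ _ (Or.inl (hjr s))).2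
  refine good_of h ⟨ρ, hmul⟩ (pr (φ v)) (h.omb _ hW hwu) hW ?_ ?_ ?_ ?_ ?_ ?_
  · show b * pr (φ v) = ρ x
    have hjx : jj h hΩ x = jj h hΩ b * v := by rw [(jj_b_mul v).1, hv]
    rw [hρn _ hxu, hjx, map_mul, hβ, (jj_b_mul (φ v)).1, (jj_val _).1]
  · intro g hg
    show ρ (om g) * pr (φ v) = pr (φ v)
    have h7 : om g = e := by rw [h.un_om g e hg he, hoe]
    rw [h7, hρu e he, ← pr_mul_of _ _ (hL e he), ← map_mul, hev]
  · intro g k hg hk hgk
    show ρ g * pr (φ v) = pr (φ v) * ρ k
    rw [hρu g hg, hρu k hk, ← pr_mul_of _ _ (hL g hg), ← pr_mul_of _ _ (hR k hk), ← map_mul,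
      ← map_mul]
    have h5 : top h hΩ g hg * v = v * top h hΩ k hk := by
      apply BU_ext
      · rw [(top_mul_val g hg v).1, (top_mul_val k hk v).2.2.1, hv, hgk]
      · rw [(top_mul_val g hg v).2.1, (top_mul_val k hk v).2.2.2]
    rw [h5]
  · intro t ht
    show b * ρ t = ρ t
    rw [hρn t ht]
    exact hjr t
  · intro hU
    exact absurd he (hU e)
  · intro g hg
    show b * (pr (φ v) * ρ g * pr (φ v)) = pr (φ v) * ρ g * pr (φ v)
    rw [hρu g hg]
    have hA := hR g hg
    rcases (rg_mul_iff _ _).1 (hcon' g hg) with h5 | h5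
    · rw [pr_mul_of _ _ hA] at h5
      exact h5
    · exfalso
      have hWF : (lb (φ v) ∩ F).Nonempty := by
        rcases cases_BU (φ v) with h6 | h6
        · exact absurd h6 hW
        · exact h6.1
      have hsub : lb (φ v) ∩ F ⊆ lb (φ v * φ (top h hΩ g hg)) := by
        by_cases hj : J2 x (pr (φ v) * pr (φ (top h hΩ g hg)))
        · by_cases hF : lb (φ v) ∩ lb (φ (top h hΩ g hg)) ⊆ F
          · rw [(lb_mul_j2 _ _ hA hj).1 hF]
            exact Set.inter_subset_right
          · rw [(lb_mul_j2 _ _ hA hj).2 hF]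
            exact Set.subset_univ _
        · rw [lb_mul_of _ _ hA hj]
          rcases cases_BU (φ (top h hΩ g hg)) with h6 | ⟨-, h6 | h6 | h6⟩
          · exact absurd h6 (htr g hg)
          · rcases h6.2 with h7 | h7
            · rw [h7]
              exact fun a ha => ⟨ha.1, Set.mem_univ _⟩
            · rw [h7]
          · exact absurd (htu g hg) h6.1
          · exact absurd (htu g hg) h6.1
      obtain ⟨a, ha⟩ := hWF
      have : a ∈ lb (φ v * φ (top h hΩ g hg)) ∩ lb (φ v) := ⟨hsub ha, ha.1⟩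
      rw [h5] at this
      exact this

/-- Bad configurations, case without units.
PROOF.  Suppose `Rg (W * W)` for `W = φ v`.  `good_of` with `ρ s = pr (φ (jj s))` (multiplicative: `jj_mul`, `rg_map`,
`pr_mul_rg`) and `w = pr W`, as in `badI`; `h6`: `rg_mul_iff` gives `Lw b (w * w)` or `lb W ∩ lb W = ∅`, the second is impossible by
`rg_iff`. -/
theorem badII [Finite Ω] (hbad : ¬ Good S x) (hU : ∀ g : S, ¬ Un g) (φ : BU h hΩ →ₙ* BU h hΩ)
    (hβ : φ (jj h hΩ b) = jj h hΩ b) {v : BU h hΩ} (hv : pr v = x) (hW : ¬ Rg (φ v)) :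
    ¬ Rg (φ v * φ v) := by
  intro hcon
  apply hbad
  have hjr : ∀ s : S, Rg (φ (jj h hΩ s)) := fun s => rg_map φ hβ (jj_val s).2.2
  have hmul : ∀ s t : S, pr (φ (jj h hΩ (s * t))) = pr (φ (jj h hΩ s)) * pr (φ (jj h hΩ t)) := by
    intro s t
    rw [jj_mul, map_mul]
    exact (pr_mul_rg _ _ (Or.inl (hjr s))).2
  refine good_of h ⟨fun s => pr (φ (jj h hΩ s)), hmul⟩ (pr (φ v)) (h.omb _ hW (hU _)) hW
    ?_ ?_ ?_ ?_ ?_ ?_
  · show b * pr (φ v) = pr (φ (jj h hΩ x))
    have hjx : jj h hΩ x = jj h hΩ b * v := by rw [(jj_b_mul v).1, hv]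
    rw [hjx, map_mul, hβ, (jj_b_mul (φ v)).1, (jj_val _).1]
  · exact fun g hg => absurd hg (hU g)
  · exact fun g k hg => absurd hg (hU g)
  · intro t _
    exact hjr t
  · intro _
    rcases (rg_mul_iff _ _).1 hcon with h5 | h5
    · exact h5
    · exfalso
      rw [Set.inter_self] at h5
      exact hW ((rg_iff _).2 h5)
  · exact fun g hg => absurd hg (hU g)

end

end EVC
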