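import Pool.Agent.EVC.Defs

/-!
# [EC-BT1] the blow-up of a configuration: normal forms
-/

set_option autoImplicit false

open EVS

namespace EVC

section
variable {S : Type} [Semigroup S] [Finite S]

/-- the product of pairs (element, support) -/
def pm {Ω : Type} (r s : S × Set Ω) : S × Set Ω := (r.1 * s.1, r.2 ∩ s.2)

/-- the admissible pairs -/
def RR (b x : S) {Ω : Type} (F : Set Ω) (N : Set (Set Ω)) (r : S × Set Ω) : Prop :=
  Lw b r.1 ∨ (Un r.1 ∧ (r.2 = Set.univ ∨ r.2 = F)) ∨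
  (¬ Lw b r.1 ∧ ¬ Un r.1 ∧ ¬ J2 x r.1 ∧ r.2 ∈ N) ∨
  (¬ Lw b r.1 ∧ J2 x r.1 ∧ (r.2 ∩ F = ∅ → r.2 = ∅))

open Classical in
/-- the normal form of a pair -/
noncomputable def cn (b x : S) {Ω : Type} (F : Set Ω) (r : S × Set Ω) : S × Set Ω :=
  if Lw b r.1 ∨ r.2 = ∅ then (b * r.1, ∅)
  else if J2 x r.1 then (r.1, if r.2 ⊆ F then F else Set.univ)
  else r

/-- conditions for the supports -/
structure OmOk {Ω : Type} (F : Set Ω) (N : Set (Set Ω)) : Prop where
  ne : F.Nonempty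
  inter : ∀ A ∈ N, (A ∩ F).Nonempty ∧ A ∩ F ∈ N
  two : ∀ A ∈ N, ∀ B ∈ N, A ∩ B ∩ F = ∅ → A ∩ B = ∅

variable {b x : S} {Ω : Type} {F : Set Ω} {N : Set (Set Ω)}

theorem bt1_j2_left {x t : S} (g : S) (h : J2 x t) : J2 x (g * t) := by
  obtain ⟨p, q, r, hpqr⟩ := h
  refine ⟨g * p, q, r, ?_⟩
  rw [WithOne.coe_mul, hpqr]
  simp only [mul_assoc]

theorem bt1_j2_right {x t : S} (g : S) (h : J2 x t) : J2 x (t * g) := by
  obtain ⟨p, q, r, hpqr⟩ := h
  refine ⟨p, q, r * g, ?_⟩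
  rw [WithOne.coe_mul, hpqr]
  simp only [mul_assoc]

theorem bt1_inv (h : SF S b x) {g : S} (hg : Un g) : ∃ k : S, Un k ∧ (∀ t, k * (g * t) = t) ∧
    ∀ t, t * g * k = t := by
  obtain ⟨k, hk, h1, h2⟩ := h.un_inv g hg
  refine ⟨k, hk, fun t => ?_, fun t => ?_⟩
  · rw [← mul_assoc, h2]
    exact hg t
  · rw [mul_assoc, h1, ← h.hc (om g) t (om_idem g)]
    exact hg t

theorem bt1_un_left (h : SF S b x) {g t : S} (hg : Un g) (hgt : Un (g * t)) : Un t := by
  obtain ⟨k, hk, h1, -⟩ := bt1_inv h hg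
  rw [← h1 t]
  exact h.un_mul _ _ hk hgt

theorem bt1_un_right (h : SF S b x) {g t : S} (hg : Un g) (hgt : Un (t * g)) : Un t := by
  obtain ⟨k, hk, -, h1⟩ := bt1_inv h hg
  rw [← h1 t]
  exact h.un_mul _ _ hgt hk

theorem bt1_j2l (h : SF S b x) {g t : S} (hg : Un g) (hgt : J2 x (g * t)) : J2 x t := by
  obtain ⟨k, hk, h1, -⟩ := bt1_inv h hg
  rw [← h1 t]
  exact bt1_j2_left k hgt

theorem bt1_j2r (h : SF S b x) {g t : S} (hg : Un g) (hgt : J2 x (t * g)) : J2 x t := by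
  obtain ⟨k, hk, -, h1⟩ := bt1_inv h hg
  rw [← h1 t]
  exact bt1_j2_right k hgt

/-- PROOF.  Let `r = (s, A)`, `r' = (t, B)`.  If `Lw b (s t)`, done.  Otherwise `s`, `t` are not `Lw` (`Lw.mul_right`,
`Lw.mul_left`).  Cases.  `Un s`, `Un t`: `h.un_mul`, and `A ∩ B` is `univ` or `F`.  `Un s`, `t` not a unit, not `J2`: `s t` is
not a unit (otherwise `t = s⁻¹ (s t)` is one; use `h.un_inv` and that `om s` is an identity) and not `J2` (otherwise
`t = s⁻¹ (s t)` is `J2`); `A ∩ B = B` or `F ∩ B ∈ N` by `hΩ.inter`.  The same with `s`, `t` exchanged.  `Un s`, `J2 x t`: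
`J2 x (s t)`; `A = univ` or `A = F`: `A ∩ B ∩ F = B ∩ F`, so if it is empty, then `B = ∅`.  The same exchanged.
Both not units: `h.prod` gives `J2 x (s t)`; if one of them is `J2`, `h.j2_low` gives a contradiction; otherwise `A, B ∈ N` and
`hΩ.two`. -/
theorem RR_mul (h : SF S b x) (hΩ : OmOk F N) {r r' : S × Set Ω} (hr : RR b x F N r) (hr' : RR b x F N r') :
    RR b x F N (pm r r') := by
  obtain ⟨s, A⟩ := r
  obtain ⟨t, B⟩ := r'
  unfold RR pm at *
  simp only at *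
  by_cases hL : Lw b (s * t)
  · exact Or.inl hL
  right
  have hLs : ¬ Lw b s := fun h' => hL (h'.mul_right t)
  have hLt : ¬ Lw b t := fun h' => hL (Lw.mul_left h.hc h.hb h' s)
  rcases hr with h1 | ⟨u1, a1⟩ | ⟨-, nu1, nj1, a1⟩ | ⟨-, j1, a1⟩
  · exact absurd h1 hLs
  · rcases hr' with h2 | ⟨u2, a2⟩ | ⟨-, nu2, nj2, a2⟩ | ⟨-, j2, a2⟩
    · exact absurd h2 hLt
    · left
      refine ⟨h.un_mul _ _ u1 u2, ?_⟩
      rcases a1 with rfl | rfl <;> rcases a2 with rfl | rfl <;> simp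
    · right; left
      refine ⟨hL, fun h' => nu2 (bt1_un_left h u1 h'), fun h' => nj2 (bt1_j2l h u1 h'), ?_⟩
      rcases a1 with rfl | rfl
      · rw [Set.univ_inter]
        exact a2
      · rw [Set.inter_comm]
        exact (hΩ.inter B a2).2
    · right; right
      refine ⟨hL, bt1_j2_left s j2, fun h' => ?_⟩
      rcases a1 with rfl | rfl
      · rw [Set.univ_inter] at h' ⊢
        exact a2 h'
      · have h3 : B ∩ A = ∅ := by
          rw [Set.inter_comm A B, Set.inter_assoc, Set.inter_self] at h'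
          exact h'
        rw [a2 h3, Set.inter_empty]
  · rcases hr' with h2 | ⟨u2, a2⟩ | ⟨-, nu2, nj2, a2⟩ | ⟨-, j2, a2⟩
    · exact absurd h2 hLt
    · right; left
      refine ⟨hL, fun h' => nu1 (bt1_un_right h u2 h'), fun h' => nj1 (bt1_j2r h u2 h'), ?_⟩
      rcases a2 with rfl | rfl
      · rw [Set.inter_univ]
        exact a1
      · exact (hΩ.inter A a1).2
    · rcases h.prod s t nu1 nu2 with h3 | h3
      · exact absurd h3 hL
      · exact Or.inr (Or.inr ⟨hL, h3, fun h' => hΩ.two A a1 B a2 h'⟩)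
    · exact absurd (h.j2_low t s j2 nu1).2 hL
  · rcases hr' with h2 | ⟨u2, a2⟩ | ⟨-, nu2, nj2, a2⟩ | ⟨-, j2, a2⟩
    · exact absurd h2 hLt
    · right; right
      refine ⟨hL, bt1_j2_right t j1, fun h' => ?_⟩
      rcases a2 with rfl | rfl
      · rw [Set.inter_univ] at h' ⊢
        exact a1 h'
      · have h3 : A ∩ B = ∅ := by
          rw [Set.inter_assoc, Set.inter_self] at h'
          exact h'
        exact h3
    · exact absurd (h.j2_low s t j1 nu2).1 hL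
    · exact absurd (h.j2_low s t j1 (fun hu => h.un_j2 t hu j2)).1 hL

end

end EVC
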