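import Pool.Agent.EVC.BT1

/-!
# [EC-BT1b] the blow-up of a configuration: the normal form is multiplicative
-/

set_option autoImplicit false

open EVS

namespace EVC

section
variable {S : Type} [Semigroup S] [Finite S] {b x : S} {Ω : Type} {F : Set Ω} {N : Set (Set Ω)}

private theorem bt1b_lw {r : S × Set Ω} (h : Lw b r.1 ∨ r.2 = ∅) : cn b x F r = (b * r.1, ∅) := by
  unfold cn
  rw [if_pos h]

private theorem bt1b_j2 {r : S × Set Ω} (h : ¬ (Lw b r.1 ∨ r.2 = ∅)) (hj : J2 x r.1) :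
    (r.2 ⊆ F → cn b x F r = (r.1, F)) ∧ (¬ r.2 ⊆ F → cn b x F r = (r.1, Set.univ)) := by
  unfold cn
  rw [if_neg h, if_pos hj]
  exact ⟨fun h' => by rw [if_pos h'], fun h' => by rw [if_neg h']⟩

private theorem bt1b_else {r : S × Set Ω} (h : ¬ (Lw b r.1 ∨ r.2 = ∅)) (hj : ¬ J2 x r.1) :
    cn b x F r = r := by
  unfold cn
  rw [if_neg h, if_neg hj]

private theorem bt1b_fst (r : S × Set Ω) : (cn b x F r).1 = r.1 ∨ (cn b x F r).1 = b * r.1 := by
  by_cases h : Lw b r.1 ∨ r.2 = ∅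
  · right
    rw [bt1b_lw h]
  · left
    by_cases hj : J2 x r.1
    · by_cases hF : r.2 ⊆ F
      · rw [(bt1b_j2 h hj).1 hF]
      · rw [(bt1b_j2 h hj).2 hF]
    · rw [bt1b_else h hj]

private theorem bt1b_bmul (hc : CentralIdem S) (hb : b * b = b) (r r' : S × Set Ω) :
    b * ((cn b x F r).1 * (cn b x F r').1) = b * (r.1 * r'.1) := by
  have hcb : ∀ t : S, b * t = t * b := fun t => hc b t hb
  have e1 : ∀ u v : S, b * ((b * u) * v) = b * (u * v) := by
    intro u v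
    rw [mul_assoc b u v, ← mul_assoc b b, hb]
  have e2 : ∀ u v : S, b * (u * (b * v)) = b * (u * v) := by
    intro u v
    rw [← mul_assoc u b v, ← hcb u, e1]
  rcases bt1b_fst (b := b) (x := x) (F := F) r with h1 | h1 <;>
    rcases bt1b_fst (b := b) (x := x) (F := F) r' with h2 | h2 <;> rw [h1, h2]
  · rw [e2]
  · rw [e1]
  · rw [e1, e2]

private theorem bt1b_low (hc : CentralIdem S) (hb : b * b = b) (r r' : S × Set Ω)
    (h : Lw b (r.1 * r'.1)) : Lw b ((cn b x F r).1 * (cn b x F r').1) := by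
  rcases bt1b_fst (b := b) (x := x) (F := F) r with h1 | h1
  · rcases bt1b_fst (b := b) (x := x) (F := F) r' with h2 | h2
    · rw [h1, h2]
      exact h
    · rw [h2]
      exact Lw.mul_left hc hb (lw_b hb _) _
  · rw [h1]
    exact Lw.mul_right (lw_b hb _) _

private theorem bt1b_J2_right {s : S} (h : J2 x s) (t : S) : J2 x (s * t) := by
  obtain ⟨p, q, r, e⟩ := h
  exact ⟨p, q, r * t, by rw [WithOne.coe_mul, e]; simp only [mul_assoc]⟩

private theorem bt1b_J2_left {s : S} (h : J2 x s) (t : S) : J2 x (t * s) := by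
  obtain ⟨p, q, r, e⟩ := h
  exact ⟨t * p, q, r, by rw [WithOne.coe_mul, e]; simp only [mul_assoc]⟩

/-- the sets of the pairs agree after taking the normal form -/
private theorem bt1b_set (hΩ : OmOk F N) {p : S} (hp : ¬ Lw b p) (hj : J2 x p) {A A' B : Set Ω}
    (hA' : (A ⊆ F ∧ A' = F) ∨ (¬ A ⊆ F ∧ A' = Set.univ)) (hA : A ≠ ∅) (hAF : A ∩ F ≠ ∅)
    (hB : B = Set.univ ∨ B = F) : cn b x F (p, A' ∩ B) = cn b x F (p, A ∩ B) := by
  have hF : F ≠ ∅ := hΩ.ne.ne_empty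
  have h1 : A' ∩ B ≠ ∅ := by
    rcases hA' with ⟨_, e1⟩ | ⟨_, e1⟩ <;> rcases hB with e2 | e2 <;> rw [e1, e2]
    · rwa [Set.inter_univ]
    · rwa [Set.inter_self]
    · rw [Set.inter_univ]
      intro h
      exact hF (Set.subset_eq_empty (Set.subset_univ F) h)
    · rwa [Set.univ_inter]
  have h2 : A ∩ B ≠ ∅ := by
    rcases hB with e2 | e2 <;> rw [e2]
    · rwa [Set.inter_univ]
    · exact hAF
  have n1 : ¬ (Lw b ((p, A' ∩ B) : S × Set Ω).1 ∨ ((p, A' ∩ B) : S × Set Ω).2 = ∅) :=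
    fun h => h.elim hp h1
  have n2 : ¬ (Lw b ((p, A ∩ B) : S × Set Ω).1 ∨ ((p, A ∩ B) : S × Set Ω).2 = ∅) :=
    fun h => h.elim hp h2
  have k1 := bt1b_j2 (F := F) n1 hj
  have k2 := bt1b_j2 (F := F) n2 hj
  have hiff : A' ∩ B ⊆ F ↔ A ∩ B ⊆ F := by
    rcases hB with e2 | e2
    · rw [e2, Set.inter_univ, Set.inter_univ]
      rcases hA' with ⟨e3, e1⟩ | ⟨e3, e1⟩
      · rw [e1]
        exact ⟨fun _ => e3, fun _ => subset_rfl⟩
      · rw [e1]
        exact ⟨fun h => absurd (fun a _ => h (Set.mem_univ a)) e3, fun h => absurd h e3⟩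
    · rw [e2]
      exact ⟨fun _ => Set.inter_subset_right, fun _ => Set.inter_subset_right⟩
  by_cases h : A ∩ B ⊆ F
  · rw [k1.1 (hiff.2 h), k2.1 h]
  · rw [k1.2 (fun h' => h (hiff.1 h')), k2.2 h]

/-- a unit has support `univ` or `F` -/
private theorem bt1b_un (h : SF S b x) {r : S × Set Ω} (hr : RR b x F N r) (hu : Un r.1) :
    r.2 = Set.univ ∨ r.2 = F := by
  rcases hr with h1 | h1 | h1 | h1
  · exact absurd h1 (h.un_lw _ hu)
  · exact h1.2
  · exact absurd hu h1.2.1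
  · exact absurd h1.2.1 (h.un_j2 _ hu)

private theorem bt1b_jj (h : SF S b x) {r : S × Set Ω} (hr : RR b x F N r) (hl : ¬ Lw b r.1)
    (hj : J2 x r.1) : r.2 ∩ F = ∅ → r.2 = ∅ := by
  rcases hr with h1 | h1 | h1 | h1
  · exact absurd h1 hl
  · exact absurd hj (h.un_j2 _ h1.1)
  · exact absurd hj h1.2.2.1
  · exact h1.2.2

/-- PROOF.  `(b s, ∅)` is `Lw` (`lw_b`).  `(s, A')` with `J2 x s`, `¬ Lw b s` and `A'` equal to `F` or `univ`:
`A' ∩ F = F` is nonempty. -/
theorem RR_cn (h : SF S b x) (hΩ : OmOk F N) {r : S × Set Ω} (hr : RR b x F N r) :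
    RR b x F N (cn b x F r) := by
  by_cases h1 : Lw b r.1 ∨ r.2 = ∅
  · rw [bt1b_lw h1]
    exact Or.inl (lw_b h.hb _)
  · by_cases hj : J2 x r.1
    · have hl : ¬ Lw b r.1 := fun h' => h1 (Or.inl h')
      by_cases hF : r.2 ⊆ F
      · rw [(bt1b_j2 h1 hj).1 hF]
        refine Or.inr (Or.inr (Or.inr ⟨hl, hj, fun h' => ?_⟩))
        exact absurd ((Set.inter_self F).symm.trans h') hΩ.ne.ne_empty
      · rw [(bt1b_j2 h1 hj).2 hF]
        refine Or.inr (Or.inr (Or.inr ⟨hl, hj, fun h' => ?_⟩))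
        exact absurd ((Set.univ_inter F).symm.trans h') hΩ.ne.ne_empty
    · rw [bt1b_else h1 hj]
      exact hr

/-- PROOF.  `b * (b * s) = b * s`; `F ⊆ F`; `F` and `univ` are nonempty; if `¬ A ⊆ F`, then `¬ univ ⊆ F`. -/
theorem cn_cn (h : SF S b x) (hΩ : OmOk F N) (r : S × Set Ω) :
    cn b x F (cn b x F r) = cn b x F r := by
  by_cases h1 : Lw b r.1 ∨ r.2 = ∅
  · rw [bt1b_lw h1, bt1b_lw (r := (b * r.1, ∅)) (Or.inl (lw_b h.hb _))]
    show (b * (b * r.1), (∅ : Set Ω)) = (b * r.1, ∅)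
    rw [← mul_assoc, h.hb]
  · by_cases hj : J2 x r.1
    · have hl : ¬ Lw b r.1 := fun h' => h1 (Or.inl h')
      by_cases hF : r.2 ⊆ F
      · have n1 : ¬ (Lw b ((r.1, F) : S × Set Ω).1 ∨ ((r.1, F) : S × Set Ω).2 = ∅) :=
          fun h' => h'.elim hl hΩ.ne.ne_empty
        rw [(bt1b_j2 h1 hj).1 hF, (bt1b_j2 n1 hj).1 subset_rfl]
      · have n1 : ¬ (Lw b ((r.1, Set.univ) : S × Set Ω).1 ∨
            ((r.1, Set.univ) : S × Set Ω).2 = ∅) :=
          fun h' => h'.elim hl (fun h2 => hΩ.ne.ne_empty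
            (Set.subset_eq_empty (Set.subset_univ F) h2))
        rw [(bt1b_j2 h1 hj).2 hF,
          (bt1b_j2 n1 hj).2 (fun h' => hF (fun a _ => h' (Set.mem_univ a)))]
    · rw [bt1b_else h1 hj, bt1b_else h1 hj]

/-- PROOF.  Let `r = (s, A)`, `r' = (t, B)`, `p = s t`.  The first component of `pm (cn r) (cn r')` is `p` or `b * p`
(idempotents are central).  If `Lw b p`, both sides are `(b p, ∅)` (`b * (b * p) = b * p`).  Let `¬ Lw b p`; then `¬ Lw b s`,
`¬ Lw b t`.  If `A = ∅` or `B = ∅`, both sides are `(b p, ∅)`.  Now `A`, `B` nonempty.  If `s`, `t` are not `J2`, `cn r = r`,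
`cn r' = r'`.  If `J2 x s`: then `t` is a unit (otherwise `h.j2_low` gives `Lw b p`), so `¬ J2 x t` (`h.un_j2`), `cn r' = r'`, and
`B = univ` or `B = F` (from `hr'`); `J2 x p`; `cn r = (s, A')` with `A' = F` if `A ⊆ F` and `A' = univ` otherwise.  `A ∩ B` and
`A' ∩ B` are nonempty (for `B = F`: `A ∩ F` is nonempty by `hr` as `A` is).  For `B = F` both sides are `(p, F)`; for
`B = univ`: `A ⊆ F ↔ A' ⊆ F` (if `¬ A ⊆ F` then `¬ univ ⊆ F`).  The same if `J2 x t`. -/
theorem cn_mul (h : SF S b x) (hΩ : OmOk F N) {r r' : S × Set Ω} (hr : RR b x F N r) (hr' : RR b x F N r') :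
    cn b x F (pm (cn b x F r) (cn b x F r')) = cn b x F (pm r r') := by
  have hc := h.hc
  have hb := h.hb
  by_cases hp : Lw b (r.1 * r'.1)
  · rw [bt1b_lw (r := pm r r') (Or.inl hp),
      bt1b_lw (r := pm (cn b x F r) (cn b x F r')) (Or.inl (bt1b_low hc hb r r' hp))]
    exact Prod.ext (bt1b_bmul hc hb r r') rfl
  · have hs : ¬ Lw b r.1 := fun h' => hp (Lw.mul_right h' _)
    have ht : ¬ Lw b r'.1 := fun h' => hp (Lw.mul_left hc hb h' _)
    by_cases hA : r.2 = ∅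
    · have e1 : (pm (cn b x F r) (cn b x F r')).2 = ∅ := by
        rw [bt1b_lw (r := r) (Or.inr hA)]
        exact Set.empty_inter _
      have e2 : (pm r r').2 = ∅ := by
        show r.2 ∩ r'.2 = ∅
        rw [hA, Set.empty_inter]
      rw [bt1b_lw (Or.inr e1), bt1b_lw (Or.inr e2)]
      exact Prod.ext (bt1b_bmul hc hb r r') rfl
    by_cases hB : r'.2 = ∅
    · have e1 : (pm (cn b x F r) (cn b x F r')).2 = ∅ := by
        rw [bt1b_lw (r := r') (Or.inr hB)]
        exact Set.inter_empty _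
      have e2 : (pm r r').2 = ∅ := by
        show r.2 ∩ r'.2 = ∅
        rw [hB, Set.inter_empty]
      rw [bt1b_lw (Or.inr e1), bt1b_lw (Or.inr e2)]
      exact Prod.ext (bt1b_bmul hc hb r r') rfl
    have n1 : ¬ (Lw b r.1 ∨ r.2 = ∅) := fun h' => h'.elim hs hA
    have n2 : ¬ (Lw b r'.1 ∨ r'.2 = ∅) := fun h' => h'.elim ht hB
    by_cases js : J2 x r.1
    · have hut : Un r'.1 := by
        by_contra hu
        exact hp (h.j2_low _ _ js hu).1
      have jt : ¬ J2 x r'.1 := h.un_j2 _ hut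
      rw [bt1b_else n2 jt]
      have hAF : r.2 ∩ F ≠ ∅ := fun h' => hA (bt1b_jj h hr hs js h')
      have hBB := bt1b_un h hr' hut
      have jp : J2 x (r.1 * r'.1) := bt1b_J2_right js _
      by_cases hF : r.2 ⊆ F
      · rw [(bt1b_j2 n1 js).1 hF]
        exact bt1b_set hΩ hp jp (Or.inl ⟨hF, rfl⟩) hA hAF hBB
      · rw [(bt1b_j2 n1 js).2 hF]
        exact bt1b_set hΩ hp jp (Or.inr ⟨hF, rfl⟩) hA hAF hBB
    · by_cases jt : J2 x r'.1
      · have hus : Un r.1 := by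
          by_contra hu
          exact hp (h.j2_low _ _ jt hu).2
        rw [bt1b_else n1 js]
        have hBF : r'.2 ∩ F ≠ ∅ := fun h' => hB (bt1b_jj h hr' ht jt h')
        have hAA := bt1b_un h hr hus
        have jp : J2 x (r.1 * r'.1) := bt1b_J2_left jt _
        have key : ∀ A' : Set Ω, (r'.2 ⊆ F ∧ A' = F) ∨ (¬ r'.2 ⊆ F ∧ A' = Set.univ) →
            cn b x F (pm r (r'.1, A')) = cn b x F (pm r r') := by
          intro A' hA'
          have := bt1b_set (b := b) (x := x) hΩ hp jp hA' hB hBF hAA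
          rw [Set.inter_comm A', Set.inter_comm r'.2] at this
          exact this
        by_cases hF : r'.2 ⊆ F
        · rw [(bt1b_j2 n2 jt).1 hF]
          exact key F (Or.inl ⟨hF, rfl⟩)
        · rw [(bt1b_j2 n2 jt).2 hF]
          exact key Set.univ (Or.inr ⟨hF, rfl⟩)
      · rw [bt1b_else n1 js, bt1b_else n2 jt]

end

end EVC
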