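import Pool.Agent.EVC.BT1b

/-!
# [EC-BT2] the blow-up of a configuration: the semigroup
-/

set_option autoImplicit false

open EVS

namespace EVC

section
variable {S : Type} [Semigroup S] [Finite S] {b x : S} {Ω : Type} {F : Set Ω} {N : Set (Set Ω)}

/-- the blow-up: the admissible pairs in normal form -/
def BU (_h : SF S b x) (_hΩ : OmOk F N) : Type := {r : S × Set Ω // RR b x F N r ∧ cn b x F r = r}

/-- the element of the blow-up given by an admissible pair -/
noncomputable def mk (h : SF S b x) (hΩ : OmOk F N) (r : S × Set Ω) (hr : RR b x F N r) : BU h hΩ :=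
  ⟨cn b x F r, RR_cn h hΩ hr, cn_cn h hΩ r⟩

variable {h : SF S b x} {hΩ : OmOk F N}

/-- first component -/
def pr (t : BU h hΩ) : S := t.1.1

/-- support -/
def lb (t : BU h hΩ) : Set Ω := t.1.2

theorem BU_ext {s t : BU h hΩ} (h1 : pr s = pr t) (h2 : lb s = lb t) : s = t :=
  Subtype.ext (Prod.ext h1 h2)

theorem mk_self (t : BU h hΩ) : mk h hΩ t.1 t.2.1 = t := Subtype.ext t.2.2

noncomputable instance : Mul (BU h hΩ) :=
  ⟨fun s t => mk h hΩ (pm s.1 t.1) (RR_mul h hΩ s.2.1 t.2.1)⟩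

theorem BU_mul_val (s t : BU h hΩ) : (s * t).1 = cn b x F (pm s.1 t.1) := rfl

theorem mk_mul {r r' : S × Set Ω} (hr : RR b x F N r) (hr' : RR b x F N r') :
    mk h hΩ r hr * mk h hΩ r' hr' = mk h hΩ (pm r r') (RR_mul h hΩ hr hr') :=
  Subtype.ext (cn_mul h hΩ hr hr')

omit [Finite S] in
theorem pm_assoc (r s t : S × Set Ω) : pm (pm r s) t = pm r (pm s t) := by
  unfold pm
  rw [mul_assoc, Set.inter_assoc]

noncomputable instance : Semigroup (BU h hΩ) where
  mul_assoc := by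
    intro r s t
    have e1 : (r * s) * t = mk h hΩ (pm (pm r.1 s.1) t.1)
        (RR_mul h hΩ (RR_mul h hΩ r.2.1 s.2.1) t.2.1) := by
      conv_lhs => rw [← mk_self r, ← mk_self s, ← mk_self t, mk_mul, mk_mul]
    have e2 : r * (s * t) = mk h hΩ (pm r.1 (pm s.1 t.1))
        (RR_mul h hΩ r.2.1 (RR_mul h hΩ s.2.1 t.2.1)) := by
      conv_lhs => rw [← mk_self r, ← mk_self s, ← mk_self t, mk_mul, mk_mul]
    rw [e1, e2]
    exact Subtype.ext (by show cn b x F _ = cn b x F _; rw [pm_assoc])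

instance [Finite Ω] : Finite (BU h hΩ) := by
  unfold BU
  infer_instance

open Classical in
/-- the function given by a pair -/
noncomputable def bt2_Fn (b : S) {Ω : Type} (r : S × Set Ω) : Ω → S :=
  fun ω => if ω ∈ r.2 then r.1 else b * r.1

omit [Finite S] in
theorem bt2_mem {r : S × Set Ω} {ω : Ω} (h : ω ∈ r.2) : bt2_Fn b r ω = r.1 := if_pos h

omit [Finite S] in
theorem bt2_not_mem {r : S × Set Ω} {ω : Ω} (h : ω ∉ r.2) : bt2_Fn b r ω = b * r.1 := if_neg h

omit [Finite S] in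
theorem bt2_mul (hc : CentralIdem S) (hb : b * b = b) (r r' : S × Set Ω) :
    bt2_Fn b r * bt2_Fn b r' = bt2_Fn b (pm r r') := by
  funext ω
  change bt2_Fn b r ω * bt2_Fn b r' ω = bt2_Fn b (pm r r') ω
  have hc' := hc b r.1 hb
  by_cases h1 : ω ∈ r.2
  · by_cases h2 : ω ∈ r'.2
    · rw [bt2_mem h1, bt2_mem h2, bt2_mem (r := pm r r') ⟨h1, h2⟩]
      rfl
    · rw [bt2_mem h1, bt2_not_mem h2, bt2_not_mem (r := pm r r') (fun h3 => h2 h3.2)]
      change r.1 * (b * r'.1) = b * (r.1 * r'.1)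
      rw [← mul_assoc, ← hc', mul_assoc]
  · by_cases h2 : ω ∈ r'.2
    · rw [bt2_not_mem h1, bt2_mem h2, bt2_not_mem (r := pm r r') (fun h3 => h1 h3.1)]
      exact mul_assoc _ _ _
    · rw [bt2_not_mem h1, bt2_not_mem h2, bt2_not_mem (r := pm r r') (fun h3 => h1 h3.1)]
      change b * r.1 * (b * r'.1) = b * (r.1 * r'.1)
      calc b * r.1 * (b * r'.1) = b * (r.1 * b) * r'.1 := by simp only [mul_assoc]
        _ = b * (b * r.1) * r'.1 := by rw [hc']
        _ = (b * b) * (r.1 * r'.1) := by simp only [mul_assoc]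
        _ = _ := by rw [hb]

omit [Finite S] in
theorem bt2_lw (hF : F.Nonempty) {r r' : S × Set Ω} (he : bt2_Fn b r = bt2_Fn b r')
    (h1 : Lw b r.1) : cn b x F r = cn b x F r' := by
  have hconst : ∀ ω, bt2_Fn b r ω = r.1 := by
    intro ω
    by_cases h2 : ω ∈ r.2
    · exact bt2_mem h2
    · rw [bt2_not_mem h2]
      exact h1
  have e1 : cn b x F r = (b * r.1, ∅) := if_pos (Or.inl h1)
  rw [e1]
  by_cases h2 : r'.2 = ∅
  · have e2 : cn b x F r' = (b * r'.1, ∅) := if_pos (Or.inr h2)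
    obtain ⟨ω, _⟩ := hF
    have h3 : bt2_Fn b r' ω = b * r'.1 := bt2_not_mem (by rw [h2]; exact Set.notMem_empty ω)
    have h4 : b * r'.1 = r.1 := by rw [← h3, ← he, hconst]
    rw [e2, h4]
    rw [show b * r.1 = r.1 from h1]
  · obtain ⟨ω, hω⟩ := Set.nonempty_iff_ne_empty.mpr h2
    have h3 : bt2_Fn b r' ω = r'.1 := bt2_mem hω
    have h4 : r'.1 = r.1 := by rw [← h3, ← he, hconst]
    have h5 : Lw b r'.1 := by rw [h4]; exact h1
    have e2 : cn b x F r' = (b * r'.1, ∅) := if_pos (Or.inl h5)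
    rw [e2, h4]

omit [Finite S] in
theorem bt2_sub (hb : b * b = b) {r r' : S × Set Ω} (he : bt2_Fn b r = bt2_Fn b r')
    (h1 : ¬ Lw b r.1) {ω : Ω} (hω : ω ∈ r.2) : ω ∈ r'.2 ∧ r.1 = r'.1 := by
  have h2 : r.1 = bt2_Fn b r' ω := by rw [← he, bt2_mem hω]
  by_cases h3 : ω ∈ r'.2
  · exact ⟨h3, by rw [h2, bt2_mem h3]⟩
  · exfalso
    apply h1
    rw [h2, bt2_not_mem h3]
    exact lw_b hb _

omit [Finite S] in
theorem bt2_inj (hb : b * b = b) (hF : F.Nonempty) {r r' : S × Set Ω}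
    (he : bt2_Fn b r = bt2_Fn b r') : cn b x F r = cn b x F r' := by
  by_cases h1 : Lw b r.1
  · exact bt2_lw hF he h1
  by_cases h2 : Lw b r'.1
  · exact (bt2_lw hF he.symm h2).symm
  by_cases h3 : r.2 = ∅
  · by_cases h4 : r'.2 = ∅
    · have e1 : cn b x F r = (b * r.1, ∅) := if_pos (Or.inr h3)
      have e2 : cn b x F r' = (b * r'.1, ∅) := if_pos (Or.inr h4)
      obtain ⟨ω, _⟩ := hF
      have h5 : bt2_Fn b r ω = b * r.1 := bt2_not_mem (by rw [h3]; exact Set.notMem_empty ω)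
      have h6 : bt2_Fn b r' ω = b * r'.1 := bt2_not_mem (by rw [h4]; exact Set.notMem_empty ω)
      rw [e1, e2, ← h5, ← h6, he]
    · obtain ⟨ω, hω⟩ := Set.nonempty_iff_ne_empty.mpr h4
      have h5 := (bt2_sub hb he.symm h2 hω).1
      rw [h3] at h5
      exact absurd h5 (Set.notMem_empty ω)
  · obtain ⟨ω, hω⟩ := Set.nonempty_iff_ne_empty.mpr h3
    have h5 := (bt2_sub hb he h1 hω).2
    have h6 : r.2 = r'.2 := by
      apply Set.Subset.antisymm
      · intro z hz
        exact (bt2_sub hb he h1 hz).1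
      · intro z hz
        exact (bt2_sub hb he.symm h2 hz).1
    have h7 : r = r' := Prod.ext h5 h6
    rw [h7]

/-- The blow-up is in the variety.
PROOF.  `mem_of_div` (EVS/H1.lean) applied to the semigroup `Ω → S` (`Pi.semigroup`), which satisfies the identities of `V`
(componentwise: for `φ : ℕ → (Ω → S)` and `ω`, `FreeSemigroup.lift φ w ω = FreeSemigroup.lift (fun i => φ i ω) w` by
`map_lift` for the projection `Pi.evalMulHom`), and to the set `D` of the functions `Fn r`, `r` admissible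
(`RR b x F N r`), where `Fn (s, A) ω = s` for `ω ∈ A` and `= b * s` for `ω ∉ A`, and to `g : (Ω → S) → BU h hΩ` with
`g (Fn r) = mk h hΩ r _`, defined by choice (for functions not in `D` take any value).
`Fn r * Fn r' = Fn (pm r r')`: `b` is central and idempotent.
`Fn r = Fn r'` implies `cn b x F r = cn b x F r'`: let `r = (s, A)`, `r' = (t, B)`.  If `Lw b s`: `Fn r` is the constant `s`
(`b s = s`) and `cn r = (s, ∅)`; if `B` is nonempty, evaluating at a point of `B` gives `t = s`; if `B = ∅`, evaluation at a point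
(`Ω` is nonempty by `hΩ.ne`) gives `b t = s`; in both cases `cn r' = (b t, ∅) = (s, ∅)`.  Symmetric for `Lw b t`.  If both are not
`Lw`: if `A = ∅ = B`, then `b s = b t`.  Otherwise a point `ω` of `A` (say): `s = Fn r' ω` is `t` or `b t`; the second is impossible (`s`
is not `Lw`), so `s = t` and `ω ∈ B`.  So `A ⊆ B`, and `B` nonempty, symmetric `B ⊆ A`; `r = r'`. -/
theorem mem_BU {V : Set (Wd × Wd)} (hV : Mem V S) : Mem V (BU h hΩ) := by
  classical
  have hb := h.hb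
  let D : Set (Ω → S) := {f | ∃ r, RR b x F N r ∧ bt2_Fn b r = f}
  let z : BU h hΩ := mk h hΩ (b * x, ∅) (Or.inl (lw_b hb x))
  let g : (Ω → S) → BU h hΩ := fun f =>
    if hf : ∃ r, RR b x F N r ∧ bt2_Fn b r = f then mk h hΩ hf.choose hf.choose_spec.1 else z
  have hgF : ∀ (r : S × Set Ω) (hr : RR b x F N r), g (bt2_Fn b r) = mk h hΩ r hr := by
    intro r hr
    have hf : ∃ r', RR b x F N r' ∧ bt2_Fn b r' = bt2_Fn b r := ⟨r, hr, rfl⟩
    have e1 : g (bt2_Fn b r) = mk h hΩ hf.choose hf.choose_spec.1 := dif_pos hf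
    rw [e1]
    exact Subtype.ext (bt2_inj hb hΩ.ne hf.choose_spec.2)
  refine mem_of_div D g ?_ ?_ ?_ ?_
  · rintro _ ⟨r, hr, rfl⟩ _ ⟨r', hr', rfl⟩
    exact ⟨pm r r', RR_mul h hΩ hr hr', (bt2_mul h.hc hb r r').symm⟩
  · rintro _ ⟨r, hr, rfl⟩ _ ⟨r', hr', rfl⟩
    rw [bt2_mul h.hc hb r r', hgF _ (RR_mul h hΩ hr hr'), hgF _ hr, hgF _ hr', mk_mul]
  · intro t
    exact ⟨bt2_Fn b t.1, ⟨t.1, t.2.1, rfl⟩, (hgF t.1 t.2.1).trans (mk_self t)⟩
  · intro p hp φ
    funext ω
    have e1 := map_lift (Pi.evalMulHom (fun _ : Ω => S) ω) φ p.1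
    have e2 := map_lift (Pi.evalMulHom (fun _ : Ω => S) ω) φ p.2
    have e3 := hV p hp (fun i => (Pi.evalMulHom (fun _ : Ω => S) ω) (φ i))
    exact e1.trans (e3.trans e2.symm)

end

end EVC
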