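import Pool.Agent.EVC.BT2

/-!
# [EC-BT3] the blow-up of a configuration: elements and products
-/

set_option autoImplicit false

open EVS

namespace EVC

section
variable {S : Type} [Semigroup S] [Finite S] {b x : S} {Ω : Type} {F : Set Ω} {N : Set (Set Ω)}

/-- the regular elements which are not units -/
def Rg {h : SF S b x} {hΩ : OmOk F N} (t : BU h hΩ) : Prop := Lw b (pr t)

/-- the element `(b * s, ∅)` -/
noncomputable def jj (h : SF S b x) (hΩ : OmOk F N) (s : S) : BU h hΩ :=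
  mk h hΩ (b * s, ∅) (Or.inl (lw_b h.hb s))

/-- the element `(g, univ)` for a unit `g` -/
noncomputable def top (h : SF S b x) (hΩ : OmOk F N) (g : S) (hg : Un g) : BU h hΩ :=
  mk h hΩ (g, Set.univ) (Or.inr (Or.inl ⟨hg, Or.inl rfl⟩))

/-- the element `(g, F)` for a unit `g` -/
noncomputable def fu (h : SF S b x) (hΩ : OmOk F N) (g : S) (hg : Un g) : BU h hΩ :=
  mk h hΩ (g, F) (Or.inr (Or.inl ⟨hg, Or.inr rfl⟩))

variable {h : SF S b x} {hΩ : OmOk F N}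

omit [Finite S] in
theorem bt3_cn (b x : S) (F : Set Ω) (p : S) (A : Set Ω) :
    ((Lw b p ∨ A = ∅) ∧ cn b x F (p, A) = (b * p, ∅)) ∨
    (¬ Lw b p ∧ A ≠ ∅ ∧ J2 x p ∧ A ⊆ F ∧ cn b x F (p, A) = (p, F)) ∨
    (¬ Lw b p ∧ A ≠ ∅ ∧ J2 x p ∧ ¬ A ⊆ F ∧ cn b x F (p, A) = (p, Set.univ)) ∨
    (¬ Lw b p ∧ A ≠ ∅ ∧ ¬ J2 x p ∧ cn b x F (p, A) = (p, A)) := by
  unfold cn
  by_cases h1 : Lw b p ∨ A = ∅
  · left
    exact ⟨h1, by rw [if_pos h1]⟩
  · right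
    have h1' := h1
    rw [not_or] at h1'
    obtain ⟨h2, h3⟩ := h1'
    by_cases h4 : J2 x p
    · by_cases h5 : A ⊆ F
      · left
        refine ⟨h2, h3, h4, h5, ?_⟩
        rw [if_neg h1, if_pos h4, if_pos h5]
      · right; left
        refine ⟨h2, h3, h4, h5, ?_⟩
        rw [if_neg h1, if_pos h4, if_neg h5]
    · right; right
      refine ⟨h2, h3, h4, ?_⟩
      rw [if_neg h1, if_neg h4]

/-- the product of two elements -/
theorem bt3_mul (s t : BU h hΩ) :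
    ((Lw b (pr s * pr t) ∨ lb s ∩ lb t = ∅) ∧ pr (s * t) = b * (pr s * pr t) ∧ lb (s * t) = ∅) ∨
    (¬ Lw b (pr s * pr t) ∧ lb s ∩ lb t ≠ ∅ ∧ J2 x (pr s * pr t) ∧ lb s ∩ lb t ⊆ F ∧
      pr (s * t) = pr s * pr t ∧ lb (s * t) = F) ∨
    (¬ Lw b (pr s * pr t) ∧ lb s ∩ lb t ≠ ∅ ∧ J2 x (pr s * pr t) ∧ ¬ lb s ∩ lb t ⊆ F ∧
      pr (s * t) = pr s * pr t ∧ lb (s * t) = Set.univ) ∨
    (¬ Lw b (pr s * pr t) ∧ lb s ∩ lb t ≠ ∅ ∧ ¬ J2 x (pr s * pr t) ∧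
      pr (s * t) = pr s * pr t ∧ lb (s * t) = lb s ∩ lb t) := by
  have e : (s * t).1 = cn b x F (pr s * pr t, lb s ∩ lb t) := BU_mul_val s t
  rcases bt3_cn b x F (pr s * pr t) (lb s ∩ lb t) with ⟨h1, h2⟩ | ⟨h1, h2, h3, h4, h5⟩ |
    ⟨h1, h2, h3, h4, h5⟩ | ⟨h1, h2, h3, h5⟩
  · rw [h2] at e
    exact Or.inl ⟨h1, congrArg Prod.fst e, congrArg Prod.snd e⟩
  · rw [h5] at e
    exact Or.inr (Or.inl ⟨h1, h2, h3, h4, congrArg Prod.fst e, congrArg Prod.snd e⟩)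
  · rw [h5] at e
    exact Or.inr (Or.inr (Or.inl ⟨h1, h2, h3, h4, congrArg Prod.fst e, congrArg Prod.snd e⟩))
  · rw [h5] at e
    exact Or.inr (Or.inr (Or.inr ⟨h1, h2, h3, congrArg Prod.fst e, congrArg Prod.snd e⟩))

/-- PROOF.  `t.1 = cn t.1` (`t.2.2`).  If the first case of `cn` applies, then `lb t = ∅` and `pr t = b * pr t`.  If not, then
`lb t ≠ ∅` and `¬ Lw b (pr t)`. -/
theorem rg_iff (t : BU h hΩ) : Rg t ↔ lb t = ∅ := by
  have e : cn b x F (pr t, lb t) = (pr t, lb t) := t.2.2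
  unfold Rg
  rcases bt3_cn b x F (pr t) (lb t) with ⟨h1, h2⟩ | ⟨h1, h2, -⟩ | ⟨h1, h2, -⟩ | ⟨h1, h2, -⟩
  · rw [e] at h2
    have h3 : pr t = b * pr t := congrArg Prod.fst h2
    have h4 : lb t = ∅ := congrArg Prod.snd h2
    exact ⟨fun _ => h4, fun _ => h3.symm⟩
  · exact ⟨fun h3 => absurd h3 h1, fun h3 => absurd h3 h2⟩
  · exact ⟨fun h3 => absurd h3 h1, fun h3 => absurd h3 h2⟩
  · exact ⟨fun h3 => absurd h3 h1, fun h3 => absurd h3 h2⟩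

/-- PROOF.  `t.2.1 : RR ..` and `t.2.2 : cn .. t.1 = t.1` (in the `J2` case the support is `F` or `univ` by `cn`; nonempty by
`rg_iff`).  `(lb t ∩ F).Nonempty`: `univ ∩ F`, `F ∩ F`, or `hΩ.inter`. -/
theorem cases_BU (t : BU h hΩ) : Rg t ∨ ((lb t ∩ F).Nonempty ∧
    ((Un (pr t) ∧ (lb t = Set.univ ∨ lb t = F)) ∨ (¬ Un (pr t) ∧ ¬ J2 x (pr t) ∧ lb t ∈ N) ∨
      (¬ Un (pr t) ∧ J2 x (pr t) ∧ (lb t = Set.univ ∨ lb t = F)))) := by
  by_cases hr : Rg t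
  · exact Or.inl hr
  · right
    have hne : lb t ≠ ∅ := fun h0 => hr ((rg_iff t).2 h0)
    have hF : ∀ A : Set Ω, (A = Set.univ ∨ A = F) → (A ∩ F).Nonempty := by
      rintro A (rfl | rfl)
      · rw [Set.univ_inter]
        exact hΩ.ne
      · rw [Set.inter_self]
        exact hΩ.ne
    have hR : RR b x F N (pr t, lb t) := t.2.1
    rcases hR with h1 | ⟨h1, h2⟩ | ⟨h1, h2, h3, h4⟩ | ⟨h1, h2, h3⟩
    · exact absurd h1 hr
    · exact ⟨hF _ h2, Or.inl ⟨h1, h2⟩⟩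
    · exact ⟨(hΩ.inter _ h4).1, Or.inr (Or.inl ⟨h2, h3, h4⟩)⟩
    · have h2' : J2 x (pr t) := h2
      have e : cn b x F (pr t, lb t) = (pr t, lb t) := t.2.2
      have h4 : lb t = Set.univ ∨ lb t = F := by
        rcases bt3_cn b x F (pr t) (lb t) with ⟨h5, -⟩ | ⟨-, -, -, -, h5⟩ | ⟨-, -, -, -, h5⟩ |
          ⟨-, -, h5, -⟩
        · rcases h5 with h5 | h5
          · exact absurd h5 hr
          · exact absurd h5 hne
        · right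
          rw [e] at h5
          exact congrArg Prod.snd h5
        · left
          rw [e] at h5
          exact congrArg Prod.snd h5
        · exact absurd h2' h5
      exact ⟨hF _ h4, Or.inr (Or.inr ⟨fun hu => h.un_j2 _ hu h2', h2', h4⟩)⟩

/-- PROOF.  `BU_mul_val` and the definition of `cn`; `rg_iff`. -/
theorem rg_mul_iff (s t : BU h hΩ) : Rg (s * t) ↔ Lw b (pr s * pr t) ∨ lb s ∩ lb t = ∅ := by
  unfold Rg
  rcases bt3_mul s t with ⟨h1, h2, h3⟩ | ⟨h1, h2, h3, h4, h5, h6⟩ | ⟨h1, h2, h3, h4, h5, h6⟩ |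
    ⟨h1, h2, h3, h5, h6⟩
  · rw [h2]
    exact ⟨fun _ => h1, fun _ => lw_b h.hb _⟩
  · rw [h5]
    exact ⟨fun h7 => absurd h7 h1, fun h7 => by rcases h7 with h7 | h7; exacts [h7, absurd h7 h2]⟩
  · rw [h5]
    exact ⟨fun h7 => absurd h7 h1, fun h7 => by rcases h7 with h7 | h7; exacts [h7, absurd h7 h2]⟩
  · rw [h5]
    exact ⟨fun h7 => absurd h7 h1, fun h7 => by rcases h7 with h7 | h7; exacts [h7, absurd h7 h2]⟩

/-- PROOF.  `BU_mul_val` and the definition of `cn`: the first component is `p` or `b * p`. -/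
theorem b_pr_mul (s t : BU h hΩ) : b * pr (s * t) = b * (pr s * pr t) := by
  rcases bt3_mul s t with ⟨h1, h2, h3⟩ | ⟨h1, h2, h3, h4, h5, h6⟩ | ⟨h1, h2, h3, h4, h5, h6⟩ |
    ⟨h1, h2, h3, h5, h6⟩
  · rw [h2, ← mul_assoc b b, h.hb]
  · rw [h5]
  · rw [h5]
  · rw [h5]

/-- PROOF.  `rg_mul_iff`: the first case of `cn` does not apply. -/
theorem pr_mul_of (s t : BU h hΩ) (hst : ¬ Rg (s * t)) : pr (s * t) = pr s * pr t := by
  rcases bt3_mul s t with ⟨h1, h2, h3⟩ | ⟨h1, h2, h3, h4, h5, h6⟩ | ⟨h1, h2, h3, h4, h5, h6⟩ |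
    ⟨h1, h2, h3, h5, h6⟩
  · exact absurd ((rg_mul_iff s t).2 h1) hst
  · exact h5
  · exact h5
  · exact h5

/-- PROOF.  If `Rg s`: `Lw b (pr s * pr t)` (`Lw.mul_right`), so `pr (s * t) = b * (pr s * pr t) = pr s * pr t`. -/
theorem pr_mul_rg (s t : BU h hΩ) (hst : Rg s ∨ Rg t) : Rg (s * t) ∧ pr (s * t) = pr s * pr t := by
  have h0 : Lw b (pr s * pr t) := by
    rcases hst with h1 | h1
    · exact Lw.mul_right h1 _
    · exact Lw.mul_left h.hc h.hb h1 _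
  refine ⟨(rg_mul_iff s t).2 (Or.inl h0), ?_⟩
  rcases bt3_mul s t with ⟨h1, h2, h3⟩ | ⟨h1, -⟩ | ⟨h1, -⟩ | ⟨h1, -⟩
  · rw [h2]
    exact h0
  · exact absurd h0 h1
  · exact absurd h0 h1
  · exact absurd h0 h1

/-- PROOF.  The definition of `cn`, third case. -/
theorem lb_mul_of (s t : BU h hΩ) (hst : ¬ Rg (s * t)) (hj : ¬ J2 x (pr s * pr t)) :
    lb (s * t) = lb s ∩ lb t := by
  rcases bt3_mul s t with ⟨h1, h2, h3⟩ | ⟨h1, h2, h3, h4, h5, h6⟩ | ⟨h1, h2, h3, h4, h5, h6⟩ |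
    ⟨h1, h2, h3, h5, h6⟩
  · exact absurd ((rg_mul_iff s t).2 h1) hst
  · exact absurd h3 hj
  · exact absurd h3 hj
  · exact h6

/-- PROOF.  The definition of `cn`, second case. -/
theorem lb_mul_j2 (s t : BU h hΩ) (hst : ¬ Rg (s * t)) (hj : J2 x (pr s * pr t)) :
    (lb s ∩ lb t ⊆ F → lb (s * t) = F) ∧ (¬ lb s ∩ lb t ⊆ F → lb (s * t) = Set.univ) := by
  rcases bt3_mul s t with ⟨h1, h2, h3⟩ | ⟨h1, h2, h3, h4, h5, h6⟩ | ⟨h1, h2, h3, h4, h5, h6⟩ |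
    ⟨h1, h2, h3, h5, h6⟩
  · exact absurd ((rg_mul_iff s t).2 h1) hst
  · exact ⟨fun _ => h6, fun h7 => absurd h4 h7⟩
  · exact ⟨fun h7 => absurd h7 h4, fun _ => h6⟩
  · exact absurd hj h3

/-- PROOF.  The definition of `cn`: the support of `s * t` is `∅`, `F` or `lb s ∩ lb t` or (if `lb s ∩ lb t` is not a subset of
`F`) `univ`. -/
theorem lb_mul_sub (s t : BU h hΩ) (hst : lb s ⊆ F ∨ lb t ⊆ F) : lb (s * t) ⊆ F := by
  have h0 : lb s ∩ lb t ⊆ F := by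
    rcases hst with h1 | h1
    · exact fun a ha => h1 ha.1
    · exact fun a ha => h1 ha.2
  rcases bt3_mul s t with ⟨h1, h2, h3⟩ | ⟨h1, h2, h3, h4, h5, h6⟩ | ⟨h1, h2, h3, h4, h5, h6⟩ |
    ⟨h1, h2, h3, h5, h6⟩
  · rw [h3]
    exact Set.empty_subset _
  · rw [h6]
  · exact absurd h0 h4
  · rw [h6]
    exact h0

end

end EVC
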