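import Pool.Agent.EVC.BT3

/-!
# [EC-BT3b] the blow-up of a configuration: the elements `jj s`, `top g`, `fu g`
-/

set_option autoImplicit false

open EVS

namespace EVC

section
variable {S : Type} [Semigroup S] [Finite S] {b x : S} {Ω : Type} {F : Set Ω} {N : Set (Set Ω)}
  {h : SF S b x} {hΩ : OmOk F N}

omit [Finite S] in
private theorem bt3b_j2_left {s : S} (h : J2 x s) (a : S) : J2 x (a * s) := by
  obtain ⟨p, q, r, h⟩ := h
  refine ⟨a * p, q, r, ?_⟩
  rw [WithOne.coe_mul, h]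
  simp only [mul_assoc]

omit [Finite S] in
private theorem bt3b_j2_right {s : S} (h : J2 x s) (a : S) : J2 x (s * a) := by
  obtain ⟨p, q, r, h⟩ := h
  refine ⟨p, q, r * a, ?_⟩
  rw [WithOne.coe_mul, h]
  simp only [mul_assoc]

private theorem bt3b_un_right (hc : CentralIdem S) {g : S} (hg : Un g) (t : S) : t * om g = t := by
  rw [← hc (om g) t (om_idem g)]
  exact hg t

omit [Finite S] in
private theorem bt3b_cn_empty (s : S) : cn b x F (s, ∅) = (b * s, ∅) := by
  unfold cn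
  rw [if_pos (Or.inr rfl)]

/-- PROOF.  `mk_mul`; `pm`; `b * s * (b * t) = b * (s * t)`; `Subtype.ext` and `cn` of pairs with support `∅`
(`cn (s, ∅) = (b * s, ∅)`).  -/
theorem jj_mul (s t : S) : jj h hΩ (s * t) = jj h hΩ s * jj h hΩ t := by
  unfold jj
  rw [mk_mul]
  apply Subtype.ext
  show cn b x F (b * (s * t), ∅) = cn b x F (pm (b * s, ∅) (b * t, ∅))
  have e : pm ((b * s, ∅) : S × Set Ω) (b * t, ∅) = (b * (s * t), ∅) := by
    unfold pm
    rw [Set.inter_self]
    congr 1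
    show b * s * (b * t) = b * (s * t)
    rw [h.hc b s h.hb, mul_assoc, ← mul_assoc b b t, h.hb, ← mul_assoc, ← h.hc b s h.hb, mul_assoc]
  rw [e]

/-- PROOF.  `cn (b * s, ∅) = (b * (b * s), ∅)`. -/
theorem jj_val (s : S) : pr (jj h hΩ s) = b * s ∧ lb (jj h hΩ s) = ∅ ∧ Rg (jj h hΩ s) := by
  have e : (jj h hΩ s).1 = (b * s, ∅) := by
    show cn b x F (b * s, ∅) = _
    rw [bt3b_cn_empty, ← mul_assoc, h.hb]
  have e1 : pr (jj h hΩ s) = b * s := congrArg Prod.fst e
  refine ⟨e1, congrArg Prod.snd e, ?_⟩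
  show Lw b (pr (jj h hΩ s))
  rw [e1]
  exact lw_b h.hb s

/-- PROOF.  `TT_ext`-style: both sides have support `∅` (`rg_iff`) and first component `b * (pr t)`
(`b_pr_mul`, `b * (b * b * pr t)`). -/
theorem jj_b_mul (t : BU h hΩ) : jj h hΩ b * t = jj h hΩ (pr t) ∧ t * jj h hΩ b = jj h hΩ (pr t) := by
  obtain ⟨h1, h2, h3⟩ := jj_val (h := h) (hΩ := hΩ) b
  obtain ⟨k1, k2, k3⟩ := jj_val (h := h) (hΩ := hΩ) (pr t)
  constructor
  · obtain ⟨r1, r2⟩ := pr_mul_rg (jj h hΩ b) t (Or.inl h3)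
    refine BU_ext ?_ ?_
    · rw [r2, k1, h1, h.hb]
    · rw [k2, (rg_iff _).1 r1]
  · obtain ⟨r1, r2⟩ := pr_mul_rg t (jj h hΩ b) (Or.inr h3)
    refine BU_ext ?_ ?_
    · rw [r2, k1, h1, h.hb, h.hc b _ h.hb]
    · rw [k2, (rg_iff _).1 r1]

/-- PROOF.  `jj_b_mul`, `jj_val`: if `Rg t`, then both have the same first component and support `∅`. -/
theorem rg_iff_b (t : BU h hΩ) : Rg t ↔ jj h hΩ b * t = t := by
  rw [(jj_b_mul t).1]
  obtain ⟨k1, k2, k3⟩ := jj_val (h := h) (hΩ := hΩ) (pr t)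
  constructor
  · intro ht
    refine BU_ext ?_ ?_
    · rw [k1]
      exact ht
    · rw [k2, (rg_iff _).1 ht]
  · intro ht
    rw [ht] at k3
    exact k3

/-- PROOF.  `cn (g, univ) = (g, univ)`: `g` is not `Lw` (`h.un_lw`), not `J2` (`h.un_j2`), `univ` is nonempty (`hΩ.ne`).  For
`fu` the same. -/
theorem top_val (g : S) (hg : Un g) : pr (top h hΩ g hg) = g ∧ lb (top h hΩ g hg) = Set.univ ∧
    pr (fu h hΩ g hg) = g ∧ lb (fu h hΩ g hg) = F := by
  have hF : F ≠ ∅ := hΩ.ne.ne_empty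
  have hU : (Set.univ : Set Ω) ≠ ∅ := fun e => hF (by
    rw [Set.eq_empty_iff_forall_notMem]
    intro ω _
    have : ω ∈ (Set.univ : Set Ω) := Set.mem_univ ω
    rw [e] at this
    exact this)
  have key : ∀ A : Set Ω, A ≠ ∅ → cn b x F (g, A) = (g, A) := by
    intro A hA
    unfold cn
    rw [if_neg, if_neg]
    · exact h.un_j2 g hg
    · rintro (hl | hl)
      · exact h.un_lw g hg hl
      · exact hA hl
  have e1 : (top h hΩ g hg).1 = (g, Set.univ) := key _ hU
  have e2 : (fu h hΩ g hg).1 = (g, F) := key _ hF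
  exact ⟨congrArg Prod.fst e1, congrArg Prod.snd e1, congrArg Prod.fst e2, congrArg Prod.snd e2⟩

/-- PROOF.  `mk_mul`, `pm`, `Set.univ ∩ Set.univ = Set.univ`, etc. -/
theorem top_mul (g k : S) (hg : Un g) (hk : Un k) :
    top h hΩ g hg * top h hΩ k hk = top h hΩ (g * k) (h.un_mul g k hg hk) ∧
    fu h hΩ g hg * top h hΩ k hk = fu h hΩ (g * k) (h.un_mul g k hg hk) ∧
    top h hΩ g hg * fu h hΩ k hk = fu h hΩ (g * k) (h.un_mul g k hg hk) ∧
    fu h hΩ g hg * fu h hΩ k hk = fu h hΩ (g * k) (h.un_mul g k hg hk) := by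
  refine ⟨?_, ?_, ?_, ?_⟩
  · unfold top
    rw [mk_mul]
    apply Subtype.ext
    show cn b x F (pm (g, Set.univ) (k, Set.univ)) = cn b x F (g * k, Set.univ)
    unfold pm
    rw [Set.univ_inter]
  · unfold top fu
    rw [mk_mul]
    apply Subtype.ext
    show cn b x F (pm (g, F) (k, Set.univ)) = cn b x F (g * k, F)
    unfold pm
    rw [Set.inter_univ]
  · unfold top fu
    rw [mk_mul]
    apply Subtype.ext
    show cn b x F (pm (g, Set.univ) (k, F)) = cn b x F (g * k, F)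
    unfold pm
    rw [Set.univ_inter]
  · unfold fu
    rw [mk_mul]
    apply Subtype.ext
    show cn b x F (pm (g, F) (k, F)) = cn b x F (g * k, F)
    unfold pm
    rw [Set.inter_self]

/-- PROOF.  Both sides are determined by `cn` of the pair `(g * pr t, lb t)` resp. `(pr t * g, lb t)`.  If `Rg t`, use
`pr_mul_rg` and `rg_iff`.  If not: `g * pr t` is not `Lw` (multiply by the inverse, `h.un_inv`), so `¬ Rg`, `lb = lb t` by `lb_mul_of`
or `lb_mul_j2` (in the `J2` case `lb t` is `univ` or `F`, `cases_BU`; `J2 x (g * pr t)` iff `J2 x (pr t)`; if `lb t = univ ⊆ F`, then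
`F = univ`). -/
theorem top_mul_val (g : S) (hg : Un g) (t : BU h hΩ) :
    pr (top h hΩ g hg * t) = g * pr t ∧ lb (top h hΩ g hg * t) = lb t ∧
    pr (t * top h hΩ g hg) = pr t * g ∧ lb (t * top h hΩ g hg) = lb t := by
  obtain ⟨v1, v2, -, -⟩ := top_val (h := h) (hΩ := hΩ) g hg
  by_cases ht : Rg t
  · obtain ⟨r1, r2⟩ := pr_mul_rg (top h hΩ g hg) t (Or.inr ht)
    obtain ⟨s1, s2⟩ := pr_mul_rg t (top h hΩ g hg) (Or.inl ht)
    refine ⟨by rw [r2, v1], ?_, by rw [s2, v1], ?_⟩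
    · rw [(rg_iff _).1 r1, (rg_iff _).1 ht]
    · rw [(rg_iff _).1 s1, (rg_iff _).1 ht]
  · have hlt : lb t ≠ ∅ := fun e => ht ((rg_iff t).2 e)
    obtain ⟨k, hk, k1, k2⟩ := h.un_inv g hg
    have hl : k * (g * pr t) = pr t := by rw [← mul_assoc, k2, hg]
    have hr : pr t * g * k = pr t := by rw [mul_assoc, k1, bt3b_un_right h.hc hg]
    have n1 : ¬ Rg (top h hΩ g hg * t) := by
      rw [rg_mul_iff, v1, v2, Set.univ_inter]
      rintro (e | e)
      · apply ht
        show Lw b (pr t)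
        rw [← hl]
        exact Lw.mul_left h.hc h.hb e k
      · exact hlt e
    have n2 : ¬ Rg (t * top h hΩ g hg) := by
      rw [rg_mul_iff, v1, v2, Set.inter_univ]
      rintro (e | e)
      · apply ht
        show Lw b (pr t)
        rw [← hr]
        exact e.mul_right k
      · exact hlt e
    have hJ : J2 x (pr t) → lb t = Set.univ ∨ lb t = F := by
      intro hj
      rcases cases_BU t with e | ⟨_, e | e | e⟩
      · exact absurd e ht
      · exact e.2
      · exact absurd hj e.2.1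
      · exact e.2.2
    have hfin : ∀ A : Set Ω, (lb t ⊆ F → A = F) ∧ (¬ lb t ⊆ F → A = Set.univ) → J2 x (pr t) →
        A = lb t := by
      intro A hA hj
      rcases hJ hj with e | e
      · by_cases hs : lb t ⊆ F
        · rw [hA.1 hs]
          rw [e] at hs ⊢
          exact Set.univ_subset_iff.1 hs
        · rw [hA.2 hs, e]
      · rw [hA.1 (by rw [e]), e]
    refine ⟨by rw [pr_mul_of _ _ n1, v1], ?_, by rw [pr_mul_of _ _ n2, v1], ?_⟩
    · by_cases hj : J2 x (pr (top h hΩ g hg) * pr t)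
      · have h3 := lb_mul_j2 _ _ n1 hj
        rw [v2, Set.univ_inter] at h3
        rw [v1] at hj
        refine hfin _ h3 ?_
        rw [← hl]
        exact bt3b_j2_left hj k
      · rw [lb_mul_of _ _ n1 hj, v2, Set.univ_inter]
    · by_cases hj : J2 x (pr t * pr (top h hΩ g hg))
      · have h3 := lb_mul_j2 _ _ n2 hj
        rw [v2, Set.inter_univ] at h3
        rw [v1] at hj
        refine hfin _ h3 ?_
        rw [← hr]
        exact bt3b_j2_right hj k
      · rw [lb_mul_of _ _ n2 hj, v2, Set.inter_univ]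

end

end EVC
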