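import Pool.Agent.EVC.BT3b

/-!
# [EC-BT4] the blow-up of a configuration: idempotents and group elements
-/

set_option autoImplicit false

open EVS

namespace EVC

section
variable {S : Type} [Semigroup S] [Finite S] {b x : S} {Ω : Type} {F : Set Ω} {N : Set (Set Ω)}
  {h : SF S b x} {hΩ : OmOk F N}

/-- PROOF.  `s * t` and `t * s` are `cn` of the pairs `(pr s * pr t, lb s ∩ lb t)` and `(pr t * pr s, lb t ∩ lb s)`. -/
theorem comm_BU (s t : BU h hΩ) (hst : pr s * pr t = pr t * pr s) : s * t = t * s := by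
  apply Subtype.ext
  rw [BU_mul_val, BU_mul_val]
  have e : pm s.1 t.1 = pm t.1 s.1 := Prod.ext hst (Set.inter_comm _ _)
  rw [e]

/-- PROOF.  `pr t` is idempotent: if `Rg t`, then `pr t = pr (t * t) = pr t * pr t` (`pr_mul_rg`), otherwise `pr_mul_of`.
If `¬ Rg t`: the idempotent `pr t` is a group element (`om (pr t) = pr t`, `isGp_iff`), so `h.gp` gives `Un (pr t)`, i.e.
`pr t * s = s`. -/
theorem idem_BU (t : BU h hΩ) (ht : t * t = t) : pr t * pr t = pr t ∧ (Rg t ∨ ∀ s : S, pr t * s = s) := by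
  by_cases hr : Rg t
  · have h1 := (pr_mul_rg t t (Or.inl hr)).2
    rw [ht] at h1
    exact ⟨h1.symm, Or.inl hr⟩
  · have h1 := pr_mul_of t t (by rw [ht]; exact hr)
    rw [ht] at h1
    have h2 : om (pr t) = pr t := om_of_idem h1.symm
    have h3 : IsGp (pr t) := isGp_iff.2 (by rw [h2]; exact h1.symm)
    rcases (h.gp (pr t)).1 h3 with h4 | h4
    · exact absurd h4 hr
    · refine ⟨h1.symm, Or.inr fun s => ?_⟩
      have h5 := h4 s
      rwa [h2] at h5

/-- PROOF.  `idem_BU`, `h.hc`, `comm_BU`. -/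
theorem central_BU : CentralIdem (BU h hΩ) := by
  intro e s he
  exact comm_BU e s (h.hc (pr e) (pr s) (idem_BU e he).1)

/-- `jj (b * s) = jj s` -/
theorem bt4_jj_b (s : S) : jj h hΩ (b * s) = jj h hΩ s := by
  apply Subtype.ext
  show cn b x F (b * (b * s), ∅) = cn b x F (b * s, ∅)
  rw [← mul_assoc, h.hb]

theorem bt4_jj_mul (s : S) (t : BU h hΩ) : jj h hΩ s * t = jj h hΩ (s * pr t) := by
  have h1 : jj h hΩ s * jj h hΩ b = jj h hΩ s := by
    rw [← jj_mul, ← h.hc b s h.hb, bt4_jj_b]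
  rw [← h1, mul_assoc, (jj_b_mul t).1, jj_mul]

variable [Finite Ω]

/-- PROOF.  `Rg t`: `jj b * t = t` (`rg_iff_b`), so `jj b * pw t n = pw t n` by induction, and `om t` is a power of `t`. -/
theorem rg_om (t : BU h hΩ) (ht : Rg t) : Rg (om t) := by
  rw [rg_iff_b] at ht ⊢
  have key : ∀ n, jj h hΩ b * pw t n = pw t n := by
    intro n
    induction n with
    | zero => exact ht
    | succ n ih => rw [pw_succ, ← mul_assoc, ih]
  obtain ⟨n, hn⟩ := om_eq_pw t
  rw [hn]
  exact key n

/-- PROOF.  By induction `pr (pw t n) = pw (pr t) n`, `Un (pw (pr t) n)` and `lb (pw t n) = lb t` (the product of two units is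
not `Rg`: not `Lw` by `h.un_lw`, and `lb t ∩ lb t = lb t` is nonempty; not `J2`; `pr_mul_of`, `lb_mul_of`).  `om t` is a power
of `t`, and it is idempotent, so `pr (om t)` is idempotent and a unit; the idempotent unit is `om (pr t)` (an identity; or use
that `om (pr t)` is the only idempotent power: `om_eq`). -/
theorem un_om_BU (t : BU h hΩ) (ht : Un (pr t)) : pr (om t) = om (pr t) ∧ lb (om t) = lb t := by
  have hnr : ¬ Rg t := h.un_lw _ ht
  have key : ∀ n, pr (pw t n) = pw (pr t) n ∧ Un (pw (pr t) n) ∧ lb (pw t n) = lb t := by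
    intro n
    induction n with
    | zero => exact ⟨rfl, ht, rfl⟩
    | succ n ih =>
      obtain ⟨h1, h2, h3⟩ := ih
      have h4 : Un (pw (pr t) n * pr t) := h.un_mul _ _ h2 ht
      have h5 : ¬ Rg (pw t n * t) := by
        rw [rg_mul_iff, h1, h3, Set.inter_self, ← rg_iff]
        rintro (h6 | h6)
        · exact h.un_lw _ h4 h6
        · exact hnr h6
      refine ⟨?_, h4, ?_⟩
      · rw [pw_succ, pr_mul_of _ _ h5, h1, pw_succ]
      · rw [pw_succ, lb_mul_of _ _ h5 (by rw [h1]; exact h.un_j2 _ h4), h3, Set.inter_self]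
  obtain ⟨n, hn⟩ := om_eq_pw t
  obtain ⟨h1, h2, h3⟩ := key n
  have h4 := (idem_BU (om t) (om_idem t)).1
  rw [hn, h1] at h4
  rw [hn, h1, om_eq h4]
  exact ⟨rfl, h3⟩

theorem bt4_om_jj (s : S) : jj h hΩ (om s) = om (jj h hΩ s) :=
  map_om (⟨jj h hΩ, jj_mul⟩ : S →ₙ* BU h hΩ) s

/-- PROOF.  First `om t` is `Rg`: let `om t = pw t n` (`om_eq_pw`).  If not `Rg`, then `pr (om t)` is an identity of `S` by
`idem_BU`.  But by induction for all `n`: `Rg (pw t n)` or `pr (pw t n) = pw (pr t) n` (`pr_mul_of`, `pr_mul_rg`).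
So `pw (pr t) n` is an identity; `pw (pr t) n` is idempotent, so `om (pr t) = pw (pr t) n` (`om_eq`), i.e. `Un (pr t)`,
contradiction.
So `om t = jj b * om t`.  By induction `jj b * pw t n = jj (pw (pr t) n)` (`jj_b_mul`, `jj_mul`, `pw_succ`; `jj b * jj s = jj (b * s)
= jj s`).  So `om t = jj (pw (pr t) n)`, and this is idempotent, so with `om_of_idem` and `map_om` for the homomorphism
`jj` (`⟨jj h hΩ, jj_mul⟩`): `om t = om (jj (pw (pr t) n)) = jj (om (pw (pr t) n)) = jj (om (pr t)) = jj b` (`om_pw`, `h.omb`). -/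
theorem om_nonunit (t : BU h hΩ) (ht : ¬ Rg t) (hu : ¬ Un (pr t)) : om t = jj h hΩ b := by
  obtain ⟨n, hn⟩ := om_eq_pw t
  have key : ∀ n, Rg (pw t n) ∨ pr (pw t n) = pw (pr t) n := by
    intro n
    induction n with
    | zero => exact Or.inr rfl
    | succ n ih =>
      rcases ih with h1 | h1
      · exact Or.inl (pr_mul_rg _ _ (Or.inl h1)).1
      · by_cases h2 : Rg (pw t n * t)
        · exact Or.inl h2
        · refine Or.inr ?_
          rw [pw_succ, pr_mul_of _ _ h2, h1, pw_succ]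
  have hrg : Rg (om t) := by
    by_contra h0
    obtain ⟨h1, h2⟩ := idem_BU (om t) (om_idem t)
    rcases h2 with h2 | h2
    · exact h0 h2
    · rw [hn] at h0 h1 h2
      have h3 := (key n).resolve_left h0
      rw [h3] at h1 h2
      apply hu
      intro s
      rw [om_eq h1]
      exact h2 s
  have hjb : ∀ n, jj h hΩ b * pw t n = jj h hΩ (pw (pr t) n) := by
    intro n
    induction n with
    | zero => exact (jj_b_mul t).1
    | succ n ih => rw [pw_succ, ← mul_assoc, ih, bt4_jj_mul, pw_succ]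
  have h1 : om t = jj h hΩ (pw (pr t) n) := by
    have h2 := (rg_iff_b _).1 hrg
    rw [← h2]
    conv_lhs => rw [hn]
    exact hjb n
  calc om t = om (om t) := (om_om t).symm
    _ = om (jj h hΩ (pw (pr t) n)) := by rw [h1]
    _ = jj h hΩ (om (pw (pr t) n)) := (bt4_om_jj _).symm
    _ = jj h hΩ b := by rw [om_pw, h.omb _ ht hu]

/-- PROOF.  `IsGp t ↔ t * om t = t` (`isGp_iff`).  `→`: if `t` is not `Rg` and no unit, then `om t = jj b` (`om_nonunit`) and
`t * jj b = t` gives `Rg t` (`rg_iff_b`, `jj_b_mul`), contradiction.  `←`, `Rg t`: `t = jj (pr t)` (`rg_iff_b`, `jj_b_mul`), so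
`t * om t = jj (pr t * om (pr t)) = jj (pr t)` (`map_om` for `jj`; `pr t` is a group element by `h.gp`).  `←`, `Un (pr t)`:
`un_om_BU`: `om t` has first component `om (pr t)`, an identity, and the same support as `t`; `t * om t = t` by
`pr_mul_of`, `lb_mul_of` (not `Rg`, not `J2`, as for units in `un_om_BU`). -/
theorem gp_BU (t : BU h hΩ) : IsGp t ↔ Rg t ∨ Un (pr t) := by
  rw [isGp_iff]
  constructor
  · intro h1
    by_contra h2
    rw [not_or] at h2
    rw [om_nonunit t h2.1 h2.2, (jj_b_mul t).2, ← (jj_b_mul t).1, ← rg_iff_b] at h1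
    exact h2.1 h1
  · rintro (h1 | h1)
    · have h2 : t = jj h hΩ (pr t) := by
        rw [← (jj_b_mul t).1]
        exact ((rg_iff_b t).1 h1).symm
      have h3 : pr t * om (pr t) = pr t := isGp_iff.1 ((h.gp _).2 (Or.inl h1))
      have h4 : om t = jj h hΩ (om (pr t)) := by
        rw [bt4_om_jj, ← h2]
      calc t * om t = jj h hΩ (pr t) * jj h hΩ (om (pr t)) := by rw [h4, ← h2]
        _ = jj h hΩ (pr t * om (pr t)) := (jj_mul _ _).symm
        _ = t := by rw [h3, ← h2]
    · obtain ⟨h2, h3⟩ := un_om_BU t h1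
      have h4 : pr t * om (pr t) = pr t := isGp_iff.1 ((h.gp _).2 (Or.inr h1))
      have h5 : ¬ Rg (t * om t) := by
        rw [rg_mul_iff, h2, h3, h4, Set.inter_self, ← rg_iff]
        rintro (h6 | h6)
        · exact h.un_lw _ h1 h6
        · exact h.un_lw _ h1 h6
      refine BU_ext ?_ ?_
      · rw [pr_mul_of _ _ h5, h2, h4]
      · rw [lb_mul_of _ _ h5 (by rw [h2, h4]; exact h.un_j2 _ h1), h3, Set.inter_self]

end

end EVC
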