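import Pool.Agent.EVC.Defs

/-!
# [EC-CP] maps of a path
-/

set_option autoImplicit false

open EVS

namespace EVC

/-- adjacency (or equality) in the path `0, ..., n - 1` -/
def near {n : ℕ} (i j : Fin n) : Prop := (i : ℕ) ≤ j + 1 ∧ (j : ℕ) ≤ i + 1

private theorem cp_symm {n : ℕ} {i j : Fin n} (h : near i j) : near j i := ⟨h.2, h.1⟩

private theorem cp_inj {n : ℕ} (hn : 4 ≤ n) (σ : Fin n → Fin n)
    (hσ : ∀ i j, near i j ↔ near (σ i) (σ j)) : Function.Injective σ := by
  have key : ∀ i j : Fin n, (i : ℕ) < j → σ i ≠ σ j := by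
    intro i j hij h
    have hk : ∀ k, near i k ↔ near j k := by
      intro k
      rw [hσ i k, hσ j k, h]
    have hi := i.2
    have hj := j.2
    by_cases h0 : (i : ℕ) = 0
    · by_cases h1 : (j : ℕ) + 1 < n
      · have h2 := (hk ⟨j + 1, h1⟩).mpr ⟨by simp only []; omega, by simp only []; omega⟩
        have h3 : (j : ℕ) + 1 ≤ i + 1 := h2.2
        omega
      · have h2 := (hk ⟨1, by omega⟩).mp ⟨by simp only []; omega, by simp only []; omega⟩
        have h3 : (j : ℕ) ≤ 1 + 1 := h2.1
        omega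
    · have h2 := (hk ⟨i - 1, by omega⟩).mp ⟨by simp only []; omega, by simp only []; omega⟩
      have h3 : (j : ℕ) ≤ (i - 1) + 1 := h2.1
      omega
  intro i j h
  rcases lt_trichotomy (i : ℕ) (j : ℕ) with h1 | h1 | h1
  · exact absurd h (key i j h1)
  · exact Fin.ext h1
  · exact absurd h.symm (key j i h1)

private theorem cp_id {n : ℕ} (hn : 0 < n) (σ : Fin n → Fin n)
    (hσ : ∀ i j, near i j ↔ near (σ i) (σ j)) (hinj : Function.Injective σ)
    (h0 : σ ⟨0, hn⟩ = ⟨0, hn⟩) : ∀ i, σ i = i := by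
  have key : ∀ k : ℕ, ∀ hk : k < n, σ ⟨k, hk⟩ = ⟨k, hk⟩ := by
    intro k
    induction k using Nat.strong_induction_on with
    | _ k ih =>
      intro hk
      rcases Nat.eq_zero_or_pos k with h1 | h1
      · subst h1
        exact h0
      · have hk1 : k - 1 < n := by omega
        have h2 := ih (k - 1) (by omega) hk1
        have h3 : near (⟨k - 1, hk1⟩ : Fin n) ⟨k, hk⟩ :=
          ⟨by simp only []; omega, by simp only []; omega⟩
        rw [hσ, h2] at h3
        have h4 : k - 1 ≤ (σ ⟨k, hk⟩ : ℕ) + 1 := h3.1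
        have h5 : (σ ⟨k, hk⟩ : ℕ) ≤ (k - 1) + 1 := h3.2
        have h6 : (σ ⟨k, hk⟩ : ℕ) ≠ k - 1 := by
          intro h
          have h7 : σ ⟨k, hk⟩ = σ ⟨k - 1, hk1⟩ := by
            rw [h2]
            exact Fin.ext h
          have h8 := congrArg Fin.val (hinj h7)
          simp only [] at h8
          omega
        have h9 : (σ ⟨k, hk⟩ : ℕ) + 1 ≠ k - 1 := by
          intro h
          have hk2 : k - 2 < n := by omega
          have h10 := ih (k - 2) (by omega) hk2
          have h7 : σ ⟨k, hk⟩ = σ ⟨k - 2, hk2⟩ := by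
            rw [h10]
            apply Fin.ext
            simp only []
            omega
          have h8 := congrArg Fin.val (hinj h7)
          simp only [] at h8
          omega
        apply Fin.ext
        show (σ ⟨k, hk⟩ : ℕ) = k
        omega
  intro i
  exact key i i.2

private theorem cp_zero {n : ℕ} (hn : 4 ≤ n) (σ : Fin n → Fin n)
    (hσ : ∀ i j, near i j ↔ near (σ i) (σ j)) (hinj : Function.Injective σ) :
    (σ ⟨0, by omega⟩ : ℕ) = 0 ∨ (σ ⟨0, by omega⟩ : ℕ) = n - 1 := by
  by_contra hcon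
  push Not at hcon
  obtain ⟨h1, h2⟩ := hcon
  have hsurj : Function.Surjective σ := Finite.injective_iff_surjective.mp hinj
  have hm := (σ ⟨0, by omega⟩).2
  obtain ⟨m, hm'⟩ : ∃ m : ℕ, (σ ⟨0, by omega⟩ : ℕ) = m := ⟨_, rfl⟩
  rw [hm'] at h1 h2 hm
  obtain ⟨a, ha⟩ := hsurj ⟨m - 1, by omega⟩
  obtain ⟨c, hc⟩ := hsurj ⟨m + 1, by omega⟩
  have ha' : (σ a : ℕ) = m - 1 := by rw [ha]
  have hc' : (σ c : ℕ) = m + 1 := by rw [hc]
  have h3 : near (⟨0, by omega⟩ : Fin n) a := by
    rw [hσ]
    exact ⟨by omega, by omega⟩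
  have h4 : near (⟨0, by omega⟩ : Fin n) c := by
    rw [hσ]
    exact ⟨by omega, by omega⟩
  have h5 : (a : ℕ) ≤ 0 + 1 := h3.2
  have h6 : (c : ℕ) ≤ 0 + 1 := h4.2
  have h7 : (a : ℕ) ≠ 0 := by
    intro h
    have h8 : a = ⟨0, by omega⟩ := Fin.ext h
    rw [h8] at ha'
    omega
  have h9 : (c : ℕ) ≠ 0 := by
    intro h
    have h8 : c = ⟨0, by omega⟩ := Fin.ext h
    rw [h8] at hc'
    omega
  have h10 : a = c := Fin.ext (by omega)
  rw [h10] at ha'
  omega

/-- Maps of the path which preserve and reflect adjacency.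
PROOF.  `σ` is injective: if `σ i = σ j`, then `near i k ↔ near (σ i) (σ k) = near (σ j) (σ k) ↔ near j k` for all `k`; for
`i < j` take `k = i - 1` if `i > 0` (near `i`, not near `j`), and `k = j + 1` if `i = 0`, `j < n - 1`, and if `i = 0`, `j = n - 1`,
then `k = 1` is near `0` and not near `n - 1` as `n - 1 > 2` (`n ≥ 4`).
So `σ` is a bijection (`Finite.injective_iff_bijective`).  `0` has exactly two near elements (`0` and `1`), the same holds for `σ 0`
(as `σ` is a bijection that preserves and reflects `near`), so `σ 0 = 0` or `σ 0 = n - 1`: for `0 < m < n - 1` the three elements `m - 1`,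
`m`, `m + 1` are near `m`, and their preimages are near `0`.
If `σ 0 = 0`: by induction `σ k = k`: `σ (k + 1)` is near `σ k = k` and different from `σ k = k` and `σ (k - 1) = k - 1`
(injectivity), so it is `k + 1`.  If `σ 0 = n - 1`: apply this to `i ↦ Fin.rev (σ i)`. -/
theorem path_aut {n : ℕ} (hn : 4 ≤ n) (σ : Fin n → Fin n) (hσ : ∀ i j, near i j ↔ near (σ i) (σ j)) :
    (∀ i, σ i = i) ∨ ∀ i, σ i = Fin.rev i := by
  have hinj := cp_inj hn σ hσ
  rcases cp_zero hn σ hσ hinj with h | h
  · left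
    exact cp_id (by omega) σ hσ hinj (Fin.ext h)
  · right
    have hrev : ∀ i j : Fin n, near i j ↔ near (Fin.rev i) (Fin.rev j) := by
      intro i j
      unfold near
      rw [Fin.val_rev, Fin.val_rev]
      have hi := i.2
      have hj := j.2
      omega
    have h1 := cp_id (by omega) (fun i => Fin.rev (σ i))
      (fun i j => (hσ i j).trans (hrev _ _)) (Fin.rev_injective.comp hinj) (by
        apply Fin.ext
        show ((Fin.rev (σ ⟨0, by omega⟩) : Fin n) : ℕ) = 0
        rw [Fin.val_rev]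
        omega)
    intro i
    have h2 : Fin.rev (σ i) = i := h1 i
    rw [← h2, Fin.rev_rev, h2]

end EVC
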