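import Pool.Agent.EVC.BM
import Pool.Agent.EVC.CP

/-!
# [EC-CI1] the case with units: supports
-/

set_option autoImplicit false

open EVS

namespace EVC

section
variable (n : ℕ) (S : Type)

/-- the points -/
abbrev Om : Type := (Fin n × Fin n) ⊕ Option S

/-- the lower part -/
def F1 : Set (Om n S) := Set.range Sum.inr

variable {n S}

/-- the support of the `i`-th copy of `x` -/
def PP (i : Fin n) : Set (Om n S) :=
  {ω | (∃ j k : Fin n, near j k ∧ (j = i ∨ k = i) ∧ ω = Sum.inl (j, k)) ∨ ω = Sum.inr none}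

/-- the support of a lower copy of `x` -/
def QQ (a : Option S) : Set (Om n S) := {Sum.inr a}

variable (n S)

/-- the supports of the copies of `x` -/
def N1 : Set (Set (Om n S)) := {A | (∃ i : Fin n, A = PP i) ∨ ∃ a : Option S, A = QQ a}

variable {n S}

theorem ci1_near_self (i : Fin n) : near i i := ⟨by omega, by omega⟩

theorem ci1_mem_inl {i j k : Fin n} : (Sum.inl (j, k) : Om n S) ∈ (PP i : Set (Om n S)) ↔ near j k ∧ (j = i ∨ k = i) := by
  constructor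
  · rintro (⟨j', k', h1, h2, h3⟩ | h)
    · have h4 := Sum.inl.inj h3
      rw [Prod.mk.injEq] at h4
      obtain ⟨rfl, rfl⟩ := h4
      exact ⟨h1, h2⟩
    · exact absurd h Sum.inl_ne_inr
  · rintro ⟨h1, h2⟩
    exact Or.inl ⟨j, k, h1, h2, rfl⟩

theorem ci1_mem_inr {i : Fin n} {a : Option S} : (Sum.inr a : Om n S) ∈ (PP i : Set (Om n S)) ↔ a = none := by
  constructor
  · rintro (⟨j', k', h1, h2, h3⟩ | h)
    · exact absurd h3 Sum.inr_ne_inl
    · exact Sum.inr.inj h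
  · rintro rfl
    exact Or.inr rfl

theorem ci1_inl_F {p : Fin n × Fin n} : (Sum.inl p : Om n S) ∉ F1 n S := by
  rintro ⟨a, ha⟩
  exact Sum.inr_ne_inl ha

theorem ci1_inr_F {a : Option S} : (Sum.inr a : Om n S) ∈ F1 n S := ⟨a, rfl⟩

theorem ci1_PPF (i : Fin n) : (PP i ∩ F1 n S : Set (Om n S)) = QQ none := by
  ext ω
  constructor
  · rintro ⟨h1, a, rfl⟩
    rw [ci1_mem_inr] at h1
    rw [h1]
    rfl
  · intro h
    have h' : ω = Sum.inr none := h
    rw [h']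
    exact ⟨Or.inr rfl, ci1_inr_F⟩

theorem ci1_QQF (a : Option S) : (QQ a : Set (Om n S)) ⊆ F1 n S := by
  intro ω h
  have h' : ω = Sum.inr a := h
  rw [h']
  exact ci1_inr_F

/-- PROOF.  `PP i ∩ F1 = QQ none`, `QQ a ∩ F1 = QQ a`; for `A = PP i`, `B = PP j`: `A ∩ B ∩ F1 ∋ inr none`; if one of them is some
`QQ a`, then `A ∩ B ⊆ F1`. -/
theorem omOk1 : OmOk (F1 n S) (N1 n S) := by
  constructor
  · exact ⟨Sum.inr none, ci1_inr_F⟩
  · rintro A (⟨i, rfl⟩ | ⟨a, rfl⟩)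
    · rw [ci1_PPF]
      exact ⟨⟨Sum.inr none, rfl⟩, Or.inr ⟨none, rfl⟩⟩
    · rw [Set.inter_eq_left.2 (ci1_QQF a)]
      exact ⟨⟨Sum.inr a, rfl⟩, Or.inr ⟨a, rfl⟩⟩
  · intro A hA B hB h
    have key : ∀ (T : Set (Om n S)), T ⊆ F1 n S → T ∩ F1 n S = ∅ → T = ∅ := fun T hT h0 => by
      rwa [Set.inter_eq_left.2 hT] at h0
    rcases hA with ⟨i, rfl⟩ | ⟨a, rfl⟩
    · rcases hB with ⟨j, rfl⟩ | ⟨a, rfl⟩
      · exfalso
        have h1 : (Sum.inr none : Om n S) ∈ (PP i ∩ PP j ∩ F1 n S : Set (Om n S)) :=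
          ⟨⟨Or.inr rfl, Or.inr rfl⟩, ci1_inr_F⟩
        rw [h] at h1
        exact h1
      · exact key _ (fun ω hω => ci1_QQF a hω.2) h
    · exact key _ (fun ω hω => ci1_QQF a hω.1) h

/-- PROOF.  `inl (i, i)` is in `PP i` and not in `F1`. -/
theorem PP_not (i : Fin n) : ¬ (PP i : Set (Om n S)) ⊆ F1 n S := by
  intro h
  exact ci1_inl_F (h (ci1_mem_inl.2 ⟨ci1_near_self i, Or.inl rfl⟩))

/-- PROOF.  A point `inl (k, l)` in both has `near k l`, `i` is `k` or `l` and `j` is `k` or `l`, so `near i j`.  Conversely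
`inl (i, j)` is in both if `near i j`. -/
theorem PP_inter (i j : Fin n) : (PP i ∩ PP j : Set (Om n S)) ⊆ F1 n S ↔ ¬ near i j := by
  constructor
  · intro h hn
    exact ci1_inl_F (h ⟨ci1_mem_inl.2 ⟨hn, Or.inl rfl⟩, ci1_mem_inl.2 ⟨hn, Or.inr rfl⟩⟩)
  · rintro hn ω ⟨h1, h2⟩
    rcases ω with ⟨k, l⟩ | a
    · exfalso
      rw [ci1_mem_inl] at h1 h2
      obtain ⟨hkl, h3⟩ := h1
      obtain ⟨-, h4⟩ := h2
      apply hn
      obtain ⟨h5, h6⟩ := hkl
      rcases h3 with rfl | rfl <;> rcases h4 with rfl | rfl <;> constructor <;> omega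
    · exact ci1_inr_F

theorem PP_ne (i j : Fin n) : (PP i ∩ PP j : Set (Om n S)) ≠ ∅ := by
  intro h
  have h1 : (Sum.inr none : Om n S) ∈ (PP i ∩ PP j : Set (Om n S)) := ⟨Or.inr rfl, Or.inr rfl⟩
  rw [h] at h1
  exact h1

theorem PP_F (i : Fin n) : (PP i ∩ F1 n S : Set (Om n S)) = QQ none ∧ (F1 n S ∩ PP i : Set (Om n S)) = QQ none := by
  exact ⟨ci1_PPF i, by rw [Set.inter_comm]; exact ci1_PPF i⟩

theorem QQ_sub (a : Option S) : (QQ a : Set (Om n S)) ⊆ F1 n S := by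
  exact ci1_QQF a

theorem QQ_inter {a a' : Option S} (haa : a ≠ a') : (QQ a ∩ QQ a' : Set (Om n S)) = ∅ := by
  rw [Set.eq_empty_iff_forall_notMem]
  rintro ω ⟨h1, h2⟩
  have h3 : ω = Sum.inr a := h1
  have h4 : ω = Sum.inr a' := h2
  rw [h3] at h4
  exact haa (Sum.inr.inj h4)

theorem QQ_ne (a : Option S) : (QQ a ∩ QQ a : Set (Om n S)) ≠ ∅ := by
  rw [Set.inter_self]
  intro h
  have h1 : (Sum.inr a : Om n S) ∈ (QQ a : Set (Om n S)) := rfl
  rw [h] at h1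
  exact h1

/-- PROOF.  `inl (i, i) ∈ PP j` implies `i = j`. -/
theorem PP_inj {i j : Fin n} (hij : (PP i : Set (Om n S)) = PP j) : i = j := by
  have h1 : (Sum.inl (i, i) : Om n S) ∈ (PP i : Set (Om n S)) := ci1_mem_inl.2 ⟨ci1_near_self i, Or.inl rfl⟩
  rw [hij, ci1_mem_inl] at h1
  rcases h1.2 with h2 | h2 <;> exact h2

/-- the reversal of the path on supports -/
def rvS (A : Set (Om n S)) : Set (Om n S) :=
  {ω | Sum.elim (fun p : Fin n × Fin n => (Sum.inl (Fin.rev p.1, Fin.rev p.2) : Om n S))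
    (fun a : Option S => Sum.inr a) ω ∈ A}

/-- PROOF.  `near (rev j) (rev k) ↔ near j k`, `Fin.rev_rev`. -/
theorem rvS_PP (i : Fin n) : rvS (PP i : Set (Om n S)) = PP (Fin.rev i) ∧
    rvS (Set.univ : Set (Om n S)) = Set.univ := by
  have hr : ∀ j k : Fin n, near (Fin.rev j) (Fin.rev k) → near j k := by
    intro j k h
    obtain ⟨h1, h2⟩ := h
    rw [Fin.val_rev, Fin.val_rev] at h1 h2
    have h3 := j.isLt
    have h4 := k.isLt
    constructor <;> omega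
  have hr' : ∀ j k : Fin n, near j k → near (Fin.rev j) (Fin.rev k) := by
    intro j k h
    apply hr
    rw [Fin.rev_rev, Fin.rev_rev]
    exact h
  refine ⟨?_, ?_⟩
  · ext ω
    rcases ω with ⟨j, k⟩ | a
    · have e : (Sum.inl (j, k) : Om n S) ∈ rvS (PP i : Set (Om n S)) ↔
          (Sum.inl (Fin.rev j, Fin.rev k) : Om n S) ∈ (PP i : Set (Om n S)) := Iff.rfl
      rw [e, ci1_mem_inl, ci1_mem_inl]
      constructor
      · rintro ⟨h1, h2⟩
        refine ⟨hr _ _ h1, ?_⟩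
        rcases h2 with h2 | h2
        · left; rw [← h2, Fin.rev_rev]
        · right; rw [← h2, Fin.rev_rev]
      · rintro ⟨h1, h2⟩
        refine ⟨hr' _ _ h1, ?_⟩
        rcases h2 with h2 | h2
        · left; rw [h2, Fin.rev_rev]
        · right; rw [h2, Fin.rev_rev]
    · have e : (Sum.inr a : Om n S) ∈ rvS (PP i : Set (Om n S)) ↔
          (Sum.inr a : Om n S) ∈ (PP i : Set (Om n S)) := Iff.rfl
      rw [e, ci1_mem_inr, ci1_mem_inr]
  · ext ω
    exact ⟨fun _ => Set.mem_univ _, fun _ => Set.mem_univ _⟩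

end

end EVC
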