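import Pool.Agent.EVC.CI1

/-!
# [EC-CI2] the case with units: the elements of the blow-up
-/

set_option autoImplicit false

open EVS

namespace EVC

section
variable {S : Type} [Semigroup S] [Finite S] {b x : S}

theorem RR_x {Ω : Type} {F : Set Ω} {N : Set (Set Ω)} (h : SF S b x) {A : Set Ω} (hA : A ∈ N) :
    RR b x F N (x, A) := by
  refine Or.inr (Or.inr (Or.inl ⟨h.hx, ?_, h.xj2, hA⟩))
  intro hu
  exact h.hx (by have := hu x; rwa [h.hxb] at this)

theorem RR_j2 {Ω : Type} {F : Set Ω} {N : Set (Set Ω)} {s : S} (hs : J2 x s) {A : Set Ω}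
    (hA : A ∩ F = ∅ → A = ∅) : RR b x F N (s, A) := by
  by_cases hl : Lw b s
  · exact Or.inl hl
  · exact Or.inr (Or.inr (Or.inr ⟨hl, hs, hA⟩))

/-- the blow-up in the case with units -/
abbrev BI (h : SF S b x) (n : ℕ) : Type := BU h (omOk1 (n := n) (S := S))

variable (h : SF S b x) (n : ℕ)

/-- the `i`-th copy of `x` -/
noncomputable def xi (i : Fin n) : BI h n := mk h omOk1 (x, PP i) (RR_x h (Or.inl ⟨i, rfl⟩))

/-- the lower copies of `x` -/
noncomputable def eta (a : Option S) : BI h n := mk h omOk1 (x, QQ a) (RR_x h (Or.inr ⟨a, rfl⟩))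

/-- the upper copy of `x g x` -/
noncomputable def hat (g : S) : BI h n := mk h omOk1 (x * g * x, Set.univ)
  (RR_j2 ⟨1, g, 1, by simp⟩ (fun h0 => absurd h0 (by
    rw [Set.univ_inter]; exact (omOk1 (n := n) (S := S)).ne.ne_empty)))

/-- the bounded part -/
def T0 : Set (BI h n) := {t | lb t ⊆ F1 n S ∨ Un (pr t)}

variable {h n}

omit [Finite S] in
private theorem ci2_cn {Ω : Type} {F : Set Ω} {s : S} {A : Set Ω} (h1 : ¬ Lw b s) (h2 : A ≠ ∅)
    (h3 : ¬ J2 x s) : cn b x F (s, A) = (s, A) := by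
  unfold cn
  rw [if_neg (fun h4 => h4.elim h1 h2), if_neg h3]

omit [Semigroup S] [Finite S] in
private theorem ci2_PP_ne (i : Fin n) : (PP i : Set (Om n S)) ≠ ∅ := by
  have h1 := PP_ne (S := S) i i
  rwa [Set.inter_self] at h1

omit [Semigroup S] [Finite S] in
private theorem ci2_QQ_ne (a : Option S) : (QQ a : Set (Om n S)) ≠ ∅ := by
  have h1 := QQ_ne (n := n) (S := S) a
  rwa [Set.inter_self] at h1

/-- PROOF.  `cn (x, A) = (x, A)` for nonempty `A`, as `x` is not `Lw` (`h.hx`) and not `J2` (`h.xj2`).  `¬ Rg`: `h.hx`. -/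
theorem xi_val (i : Fin n) : pr (xi h n i) = x ∧ lb (xi h n i) = PP i := by
  have h1 : (xi h n i).1 = (x, PP i) := ci2_cn h.hx (ci2_PP_ne i) h.xj2
  exact ⟨congrArg Prod.fst h1, congrArg Prod.snd h1⟩

theorem eta_val (a : Option S) : pr (eta h n a) = x ∧ lb (eta h n a) = QQ a := by
  have h1 : (eta h n a).1 = (x, QQ a) := ci2_cn h.hx (ci2_QQ_ne a) h.xj2
  exact ⟨congrArg Prod.fst h1, congrArg Prod.snd h1⟩

/-- PROOF.  By definition of `cn`; if `Lw`, the value is `(b * (x g x), ∅)` and `b * (x g x) = x g x`. -/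
theorem hat_val (g : S) : pr (hat h n g) = x * g * x ∧ (¬ Rg (hat h n g) → lb (hat h n g) = Set.univ) := by
  classical
  have h0 : (hat h n g).1 = cn b x (F1 n S) (x * g * x, Set.univ) := rfl
  by_cases hl : Lw b (x * g * x)
  · have h1 : (hat h n g).1 = (b * (x * g * x), ∅) := by
      rw [h0]
      unfold cn
      rw [if_pos (Or.inl hl)]
    have h2 : pr (hat h n g) = x * g * x := by
      have h3 : pr (hat h n g) = b * (x * g * x) := congrArg Prod.fst h1
      rw [h3]
      exact hl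
    refine ⟨h2, fun hr => absurd ?_ hr⟩
    unfold Rg
    rw [h2]
    exact hl
  · have hne : (Set.univ : Set (Om n S)) ≠ ∅ := by
      obtain ⟨ω, _⟩ := (omOk1 (n := n) (S := S)).ne
      exact Set.Nonempty.ne_empty ⟨ω, trivial⟩
    have hj : J2 x (x * g * x) := ⟨1, g, 1, by simp⟩
    have h1 : (hat h n g).1 = (x * g * x, if (Set.univ : Set (Om n S)) ⊆ F1 n S then F1 n S
        else Set.univ) := by
      rw [h0]
      unfold cn
      rw [if_neg (fun h4 => h4.elim hl hne), if_pos hj]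
    refine ⟨congrArg Prod.fst h1, fun _ => ?_⟩
    have h2 : lb (hat h n g) = if (Set.univ : Set (Om n S)) ⊆ F1 n S then F1 n S
        else Set.univ := congrArg Prod.snd h1
    rw [h2]
    split_ifs with h3
    · exact Set.univ_subset_iff.mp h3
    · rfl

/-- PROOF.  `cases_BU`: a support in `N1` which is not a subset of `F1` is some `PP i`; `lb t = F1` is excluded; `Rg t` gives
`lb t = ∅`. -/
theorem notT0 {t : BI h n} (ht : t ∉ T0 h n) : ¬ Rg t ∧ ¬ Un (pr t) ∧ ¬ lb t ⊆ F1 n S ∧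
    ((∃ i : Fin n, lb t = PP i ∧ ¬ J2 x (pr t)) ∨ (lb t = Set.univ ∧ J2 x (pr t))) := by
  have h1 : ¬ lb t ⊆ F1 n S := fun h1 => ht (Or.inl h1)
  have h2 : ¬ Un (pr t) := fun h2 => ht (Or.inr h2)
  have h3 : ¬ Rg t := by
    intro h3
    rw [rg_iff] at h3
    apply h1
    rw [h3]
    exact Set.empty_subset _
  refine ⟨h3, h2, h1, ?_⟩
  rcases cases_BU t with h4 | ⟨_, h4 | h4 | h4⟩
  · exact absurd h4 h3
  · exact absurd h4.1 h2
  · left
    obtain ⟨_, h5, h6⟩ := h4
    rcases h6 with ⟨i, hi⟩ | ⟨a, ha⟩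
    · exact ⟨i, hi, h5⟩
    · exfalso
      apply h1
      rw [ha]
      exact QQ_sub a
  · right
    obtain ⟨_, h5, h6⟩ := h4
    rcases h6 with h6 | h6
    · exact ⟨h6, h5⟩
    · exact absurd h6.subset h1

/-- PROOF.  `fu e` has components `(e, F1)` (`top_val`) and `e` is an identity (`he`, `hee`: `om e = e` by `om_of_idem`; on the
right by centrality).  `pr`: if not `Rg`, `pr_mul_of`; if `Rg`: `rg_mul_iff`: `Lw b (pr t)`, or `F1 ∩ lb t = ∅`, which by
`cases_BU` means `Rg t` again; use `pr_mul_rg`.  The support: `lb_mul_sub` (`lb (fu e) = F1`).  If `lb t ⊆ F1` and not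
`Rg t`: `lb_mul_of` gives `F1 ∩ lb t = lb t` and `lb_mul_j2` gives `F1` (and then `lb t` is `univ` or `F1` by `cases_BU`, so
`F1` as it is a subset of `F1`); `BU_ext`.  Commutation: `comm_BU`. -/
theorem fu_mul {e : S} (he : Un e) (hee : e * e = e) (t : BI h n) :
    pr (fu h omOk1 e he * t) = pr t ∧ (Rg (fu h omOk1 e he * t) ↔ Rg t) ∧
    lb (fu h omOk1 e he * t) ⊆ F1 n S ∧ fu h omOk1 e he * t ∈ T0 h n ∧
    (lb t ⊆ F1 n S → fu h omOk1 e he * t = t) ∧ fu h omOk1 e he * t = t * fu h omOk1 e he := by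
  have hid : ∀ s : S, e * s = s := by
    intro s
    have h1 := he s
    rwa [om_of_idem hee] at h1
  obtain ⟨_, _, hfp, hfl⟩ := top_val (h := h) (hΩ := omOk1 (n := n) (S := S)) e he
  have hrg : Rg (fu h omOk1 e he * t) ↔ Rg t := by
    rw [rg_mul_iff, hfp, hfl, hid]
    constructor
    · rintro (h1 | h1)
      · exact h1
      · rcases cases_BU t with h2 | ⟨h2, _⟩
        · exact h2
        · exfalso
          rw [Set.inter_comm] at h1
          exact h2.ne_empty h1
    · exact fun h1 => Or.inl h1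
  have hpr : pr (fu h omOk1 e he * t) = pr t := by
    by_cases h1 : Rg t
    · rw [(pr_mul_rg _ t (Or.inr h1)).2, hfp, hid]
    · rw [pr_mul_of _ t (fun h2 => h1 (hrg.mp h2)), hfp, hid]
  have hlb : lb (fu h omOk1 e he * t) ⊆ F1 n S := lb_mul_sub _ t (Or.inl hfl.subset)
  refine ⟨hpr, hrg, hlb, Or.inl hlb, ?_, ?_⟩
  · intro hsub
    apply BU_ext hpr
    by_cases h1 : Rg t
    · rw [(rg_iff _).mp (hrg.mpr h1), (rg_iff _).mp h1]
    · have h2 : ¬ Rg (fu h omOk1 e he * t) := fun h2 => h1 (hrg.mp h2)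
      by_cases h3 : J2 x (pr t)
      · have h4 := (lb_mul_j2 _ t h2 (by rwa [hfp, hid])).1 (by
          rw [hfl]
          exact Set.inter_subset_left)
        rw [h4]
        rcases cases_BU t with h5 | ⟨_, h5 | h5 | h5⟩
        · exact absurd h5 h1
        · exact absurd h3 (h.un_j2 _ h5.1)
        · exact absurd h3 h5.2.1
        · rcases h5.2.2 with h6 | h6
          · rw [h6] at hsub ⊢
            exact Set.univ_subset_iff.mp hsub
          · exact h6.symm
      · rw [lb_mul_of _ t h2 (by rwa [hfp, hid]), hfl]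
        exact Set.inter_eq_right.mpr hsub
  · apply comm_BU
    rw [hfp]
    exact h.hc e (pr t) hee

/-- PROOF.  `fu_mul`, `lb_mul_of` (`J2 x x` is false), `PP_F`, `xi_val`, `eta_val`, `BU_ext`. -/
theorem fu_xi {e : S} (he : Un e) (hee : e * e = e) (i : Fin n) :
    fu h omOk1 e he * xi h n i = eta h n none := by
  have hid : ∀ s : S, e * s = s := by
    intro s
    have h1 := he s
    rwa [om_of_idem hee] at h1
  obtain ⟨_, _, hfp, hfl⟩ := top_val (h := h) (hΩ := omOk1 (n := n) (S := S)) e he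
  obtain ⟨h1, h2, _⟩ := fu_mul (h := h) he hee (xi h n i)
  obtain ⟨hx1, hx2⟩ := xi_val (h := h) i
  obtain ⟨he1, he2⟩ := eta_val (h := h) (n := n) none
  apply BU_ext
  · rw [h1, hx1, he1]
  · have h3 : ¬ Rg (fu h omOk1 e he * xi h n i) := by
      intro h3
      have h4 := h2.mp h3
      unfold Rg at h4
      rw [hx1] at h4
      exact h.hx h4
    rw [lb_mul_of _ _ h3 (by rw [hfp, hid, hx1]; exact h.xj2), hfl, hx2, he2]
    exact (PP_F i).2

end

end EVC
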