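import Pool.Agent.EVC.CI2

/-!
# [EC-CI2b] the case with units: products of the copies
-/

set_option autoImplicit false

open EVS

namespace EVC

section
variable {S : Type} [Semigroup S] [Finite S] {b x : S} {h : SF S b x} {n : ℕ}

omit [Finite S] in
theorem ci2b_cn {s : S} {A B : Set (Om n S)} (hj : J2 x s) (hA : A ≠ ∅) (hB : B ≠ ∅)
    (hAB : A ⊆ F1 n S ↔ B ⊆ F1 n S) : cn b x (F1 n S) (s, A) = cn b x (F1 n S) (s, B) := by
  classical
  unfold cn
  by_cases hl : Lw b s
  · rw [if_pos (Or.inl hl), if_pos (Or.inl hl)]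
  · have h1 : ¬ (Lw b s ∨ A = ∅) := not_or.2 ⟨hl, hA⟩
    have h2 : ¬ (Lw b s ∨ B = ∅) := not_or.2 ⟨hl, hB⟩
    rw [if_neg h1, if_neg h2, if_pos hj, if_pos hj]
    by_cases hA' : A ⊆ F1 n S
    · rw [if_pos hA', if_pos (hAB.1 hA')]
    · rw [if_neg hA', if_neg (fun h1 => hA' (hAB.2 h1))]

omit [Finite S] in
theorem ci2b_j2 (g : S) : J2 x (x * g * x) := ⟨1, g, 1, by simp⟩

theorem ci2b_un {e : S} (he : Un e) (hee : e * e = e) (s : S) : e * s = s := by
  have h1 := he s
  rwa [om_of_idem hee] at h1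

omit [Semigroup S] [Finite S] in
theorem ci2b_univ (n : ℕ) : (Set.univ : Set (Om n S)) ≠ ∅ := by
  intro h0
  exact (omOk1 (n := n) (S := S)).ne.ne_empty (Set.subset_empty_iff.1 (h0 ▸ Set.subset_univ _))

omit [Semigroup S] [Finite S] in
theorem ci2b_F (n : ℕ) : (F1 n S ∩ Set.univ : Set (Om n S)) ≠ ∅ := by
  rw [Set.inter_univ]
  exact (omOk1 (n := n) (S := S)).ne.ne_empty

theorem ci2b_prod {g : S} (hg : Un g) {A B : Set (Om n S)} (hA : A ∈ N1 n S) (hB : B ∈ N1 n S) :
    mk h omOk1 (x, A) (RR_x h hA) * top h omOk1 g hg * mk h omOk1 (x, B) (RR_x h hB) =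
      mk h omOk1 (pm (pm (x, A) (g, Set.univ)) (x, B)) (RR_mul h omOk1 (RR_mul h omOk1 (RR_x h hA)
        (Or.inr (Or.inl ⟨hg, Or.inl rfl⟩))) (RR_x h hB)) := by
  unfold top
  rw [mk_mul, mk_mul]

/-- PROOF.  All elements are values of `mk`, use `mk_mul`: `xi i * top g * xi j = mk (x g x, PP i ∩ univ ∩ PP j)`.  If
`Lw b (x g x)`, both sides have support `∅` and first component `b * (x g x)`.  If not: `cn` with `J2`: the support is `univ` if
`PP i ∩ PP j` is not a subset of `F1`, i.e. if `near i j` (`PP_inter`, `PP_ne`), otherwise `F1`. -/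
theorem xi_mul {e : S} (he : Un e) (hee : e * e = e) {g : S} (hg : Un g) (i j : Fin n) :
    (near i j → xi h n i * top h omOk1 g hg * xi h n j = hat h n g) ∧
    (¬ near i j → xi h n i * top h omOk1 g hg * xi h n j = fu h omOk1 e he * hat h n g) := by
  have e1 : xi h n i * top h omOk1 g hg * xi h n j = _ :=
    ci2b_prod (h := h) hg (A := PP i) (B := PP j) (Or.inl ⟨i, rfl⟩) (Or.inl ⟨j, rfl⟩)
  rw [e1]
  have hPP : (PP i ∩ Set.univ) ∩ PP j = (PP i ∩ PP j : Set (Om n S)) := by rw [Set.inter_univ]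
  have hne : ((PP i ∩ Set.univ) ∩ PP j : Set (Om n S)) ≠ ∅ := by
    rw [hPP]
    exact PP_ne i j
  constructor
  · intro hij
    refine Subtype.ext (ci2b_cn (ci2b_j2 g) hne (ci2b_univ n) ?_)
    constructor
    · intro h1
      change (PP i ∩ Set.univ) ∩ PP j ⊆ F1 n S at h1
      rw [hPP] at h1
      exact absurd hij ((PP_inter i j).1 h1)
    · intro h1
      exact absurd ((Set.subset_univ _).trans h1) (PP_not (S := S) i)
  · intro hij
    unfold fu hat
    rw [mk_mul]
    refine Subtype.ext ?_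
    change cn b x (F1 n S) (x * g * x, (PP i ∩ Set.univ) ∩ PP j) =
      cn b x (F1 n S) (e * (x * g * x), F1 n S ∩ Set.univ)
    rw [ci2b_un he hee]
    refine ci2b_cn (ci2b_j2 g) hne (ci2b_F n) ⟨fun _ => Set.inter_subset_left, fun _ => ?_⟩
    rw [hPP]
    exact (PP_inter i j).2 hij

/-- PROOF.  As `xi_mul`: `mk (x g x, QQ a ∩ univ ∩ QQ a)`. -/
theorem eta_mul {e : S} (he : Un e) (hee : e * e = e) {g : S} (hg : Un g) (a : Option S) :
    eta h n a * top h omOk1 g hg * eta h n a = fu h omOk1 e he * hat h n g := by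
  have e1 : eta h n a * top h omOk1 g hg * eta h n a = _ :=
    ci2b_prod (h := h) hg (A := QQ a) (B := QQ a) (Or.inr ⟨a, rfl⟩) (Or.inr ⟨a, rfl⟩)
  rw [e1]
  have hPP : (QQ a ∩ Set.univ) ∩ QQ a = (QQ a ∩ QQ a : Set (Om n S)) := by rw [Set.inter_univ]
  unfold fu hat
  rw [mk_mul]
  refine Subtype.ext ?_
  change cn b x (F1 n S) (x * g * x, (QQ a ∩ Set.univ) ∩ QQ a) =
    cn b x (F1 n S) (e * (x * g * x), F1 n S ∩ Set.univ)
  rw [ci2b_un he hee, hPP]
  exact ci2b_cn (ci2b_j2 g) (QQ_ne a) (ci2b_F n) ⟨fun _ => Set.inter_subset_left,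
    fun _ => Set.inter_subset_left.trans (QQ_sub a)⟩

/-- PROOF.  `rg_mul_iff`, `QQ_inter`. -/
theorem eta_mul_ne {g : S} (hg : Un g) {a a' : Option S} (haa : a ≠ a') :
    Rg (eta h n a * top h omOk1 g hg * eta h n a') := by
  have e1 : eta h n a * top h omOk1 g hg * eta h n a' = _ :=
    ci2b_prod (h := h) hg (A := QQ a) (B := QQ a') (Or.inr ⟨a, rfl⟩) (Or.inr ⟨a', rfl⟩)
  rw [e1]
  have hPP : (QQ a ∩ Set.univ) ∩ QQ a' = (∅ : Set (Om n S)) := by
    rw [Set.inter_univ, QQ_inter haa]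
  have h2 : cn b x (F1 n S) (pm (pm (x, QQ a) (g, Set.univ)) (x, QQ a')) =
      (b * (x * g * x), ∅) := if_pos (Or.inr hPP)
  change Lw b (cn b x (F1 n S) (pm (pm (x, QQ a) (g, Set.univ)) (x, QQ a'))).1
  rw [h2]
  exact lw_b h.hb _

/-- PROOF.  `h.form` (there is a unit): `pr t = g x k`.  Compare components (`top_mul_val`, `BU_ext`). -/
theorem dec1 {e : S} (he : Un e) {t : BI h n} (ht : ¬ Rg t) (hu : ¬ Un (pr t)) (hj : ¬ J2 x (pr t)) :
    ∃ (g k : S) (hg : Un g) (hk : Un k), (∀ i : Fin n, lb t = PP i → t = top h omOk1 g hg * xi h n i * top h omOk1 k hk) ∧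
      (∀ a : Option S, lb t = QQ a → t = top h omOk1 g hg * eta h n a * top h omOk1 k hk) := by
  rcases h.form (pr t) ht hu hj with h1 | ⟨g, k, hg, hk, hpr⟩
  · exact absurd he (h1.2 e)
  · refine ⟨g, k, hg, hk, ?_, ?_⟩
    · intro i hi
      apply BU_ext
      · rw [(top_mul_val k hk _).2.2.1, (top_mul_val g hg _).1, (xi_val i).1, hpr]
      · rw [(top_mul_val k hk _).2.2.2, (top_mul_val g hg _).2.1, (xi_val i).2, hi]
    · intro a ha
      apply BU_ext
      · rw [(top_mul_val k hk _).2.2.1, (top_mul_val g hg _).1, (eta_val a).1, hpr]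
      · rw [(top_mul_val k hk _).2.2.2, (top_mul_val g hg _).2.1, (eta_val a).2, ha]

/-- PROOF.  `h.j2form` (there is a unit): `pr t = p x q x r`.  By `xi_mul` (`near i i`) the product `xi i * top q * xi i` is `hat q`,
with first component `x q x`, not `Lw` (otherwise `pr t` would be), and support `univ`.  Compare components (`top_mul_val`,
`BU_ext`).  For `lb t = F1` use `eta_mul`, `fu_mul` (the support of `fu e * hat q` is a subset of `F1`, and it is `univ` or `F1` by
`cases_BU`). -/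
theorem dec2 {e : S} (he : Un e) (hee : e * e = e) {t : BI h n} (ht : ¬ Rg t) (hj : J2 x (pr t)) :
    ∃ (p q r : S) (hp : Un p) (hq : Un q) (hr : Un r),
      (lb t = Set.univ → t = top h omOk1 p hp * hat h n q * top h omOk1 r hr) ∧
      (lb t = F1 n S → t = top h omOk1 p hp * (fu h omOk1 e he * hat h n q) * top h omOk1 r hr) := by
  rcases h.j2form (pr t) ht hj with h1 | ⟨p, q, r, hp, hq, hr, hpr⟩
  · exact absurd he (h1.2 e)
  · have hpr' : pr t = p * (x * q * x) * r := by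
      rw [hpr]
      simp only [mul_assoc]
    have hxqx : ¬ Lw b (x * q * x) := by
      intro h2
      apply ht
      unfold Rg
      rw [hpr']
      exact (h2.mul_left h.hc h.hb p).mul_right r
    have hRg : ¬ Rg (hat h n q) := by
      unfold Rg
      rw [(hat_val q).1]
      exact hxqx
    refine ⟨p, q, r, hp, hq, hr, ?_, ?_⟩
    · intro hl
      apply BU_ext
      · rw [(top_mul_val r hr _).2.2.1, (top_mul_val p hp _).1, (hat_val q).1, hpr']
      · rw [(top_mul_val r hr _).2.2.2, (top_mul_val p hp _).2.1, (hat_val q).2 hRg, hl]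
    · intro hl
      have hf := fu_mul (h := h) he hee (hat h n q)
      have hRg2 : ¬ Rg (fu h omOk1 e he * hat h n q) := fun h2 => hRg (hf.2.1.1 h2)
      have htv := top_val (h := h) (hΩ := omOk1 (n := n) (S := S)) e he
      apply BU_ext
      · rw [(top_mul_val r hr _).2.2.1, (top_mul_val p hp _).1, hf.1, (hat_val q).1, hpr']
      · rw [(top_mul_val r hr _).2.2.2, (top_mul_val p hp _).2.1, hl]
        refine ((lb_mul_j2 _ _ hRg2 ?_).1 ?_).symm
        · rw [htv.2.2.1, (hat_val q).1, ci2b_un he hee]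
          exact ci2b_j2 q
        · rw [htv.2.2.2]
          exact Set.inter_subset_left

end

end EVC
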