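import Pool.Agent.EVC.CI2b

/-!
# [EC-CI3] the case with units: endomorphisms, first cases
-/

set_option autoImplicit false

open EVS

namespace EVC

section
variable {S : Type} [Semigroup S] [Finite S] {b x : S} {h : SF S b x} {n : ℕ}

/-- four types of endomorphisms of the blow-up -/
def FlagI {e : S} (he : Un e) (φ : BI h n →ₙ* BI h n) (c : Fin 4) : Prop :=
  (c = 0 ∧ ∀ t : BI h n, t ∉ T0 h n → φ t = φ (jj h omOk1 b * t)) ∨
  (c = 1 ∧ ∀ t : BI h n, t ∉ T0 h n → φ t = φ (fu h omOk1 e he * t)) ∨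
  (c = 2 ∧ ∀ t : BI h n, t ∉ T0 h n → pr (φ t) = pr (φ (fu h omOk1 e he * t)) ∧
    (Rg (φ t) ↔ Rg (φ (fu h omOk1 e he * t))) ∧ (¬ Rg (φ t) → lb (φ t) = lb t)) ∨
  (c = 3 ∧ ∀ t : BI h n, t ∉ T0 h n → pr (φ t) = pr (φ (fu h omOk1 e he * t)) ∧
    (Rg (φ t) ↔ Rg (φ (fu h omOk1 e he * t))) ∧ (¬ Rg (φ t) → lb (φ t) = rvS (lb t)))

/-- the conclusion for one endomorphism -/
def Concl {e : S} (he : Un e) (φ : BI h n →ₙ* BI h n) : Prop :=
  (∃ c : Fin 4, FlagI he φ c) ∧ ∀ t ∈ T0 h n, φ t ∈ T0 h n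

/-- PROOF.  Type `c = 0` by `flag_b` (`notT0` gives the hypotheses).  `t ∈ T0`: if `t` is `Rg` or a unit, use `gp_map` (a `Rg`
element has support `∅`, `rg_iff`, so it is in `T0`); otherwise `flag_b` again. -/
theorem case_a {e : S} (he : Un e) (hee : e * e = e) (φ : BI h n →ₙ* BI h n)
    (H : φ (jj h omOk1 b) ≠ jj h omOk1 b ∨ φ (top h omOk1 e he) = jj h omOk1 b) : Concl he φ := by
  have H' : φ (jj h omOk1 b) ≠ jj h omOk1 b ∨
      ∃ (e : S) (he : Un e), e * e = e ∧ φ (top h omOk1 e he) = jj h omOk1 b := by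
    rcases H with H | H
    · exact Or.inl H
    · exact Or.inr ⟨e, he, hee, H⟩
  refine ⟨⟨0, Or.inl ⟨rfl, fun t ht => ?_⟩⟩, fun t _ => ?_⟩
  · obtain ⟨h1, h2, _⟩ := notT0 ht
    exact (flag_b φ H' h1 h2).1
  · have h3 : Rg (φ t) ∨ Un (pr (φ t)) := by
      by_cases h1 : Rg t
      · exact gp_map φ (Or.inl h1)
      · by_cases h2 : Un (pr t)
        · exact gp_map φ (Or.inr h2)
        · exact (flag_b φ H' h1 h2).2
    rcases h3 with h3 | h3
    · left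
      rw [rg_iff] at h3
      rw [h3]
      exact Set.empty_subset _
    · exact Or.inr h3

/-- If all copies of `x` have regular images, then the type is `c = 0`.
PROOF.  `t ∉ T0`.  By `notT0`: either `lb t = PP i`, `pr t` not `J2`: `t = top g * xi i * top k` (`dec1`), so `φ t` is `Rg`
(`pr_mul_rg` twice); or `lb t = univ`, `J2 x (pr t)`: `t = top p * hat q * top r` (`dec2`) and `hat q = xi i * top q * xi i`
(`xi_mul`, `near i i`; `i = ⟨0, hn⟩`), again `φ t` is `Rg`.  So `φ t = jj b * φ t = φ (jj b * t)` (`rg_iff_b`, `hβ`). -/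
theorem flag0_of (hn : 0 < n) {e : S} (he : Un e) (hee : e * e = e) (φ : BI h n →ₙ* BI h n)
    (hβ : φ (jj h omOk1 b) = jj h omOk1 b) (H : ∀ i : Fin n, Rg (φ (xi h n i))) : FlagI he φ 0 := by
  refine Or.inl ⟨rfl, fun t ht => ?_⟩
  obtain ⟨h1, h2, _, h4⟩ := notT0 ht
  have h5 : Rg (φ t) := by
    rcases h4 with ⟨i, hi, hj⟩ | ⟨hu, hj⟩
    · obtain ⟨g, k, hg, hk, hd, _⟩ := dec1 (h := h) (n := n) he h1 h2 hj
      rw [hd i hi, map_mul, map_mul]
      exact (pr_mul_rg _ _ (Or.inl (pr_mul_rg _ _ (Or.inr (H i))).1)).1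
    · obtain ⟨p, q, r, hp, hq, hr, hd, _⟩ := dec2 (h := h) (n := n) he hee h1 hj
      have h6 := (xi_mul (h := h) (n := n) he hee hq ⟨0, hn⟩ ⟨0, hn⟩).1
        ⟨Nat.le_succ _, Nat.le_succ _⟩
      rw [hd hu, map_mul, map_mul, ← h6, map_mul]
      exact (pr_mul_rg _ _ (Or.inl (pr_mul_rg _ _ (Or.inr
        (pr_mul_rg _ _ (Or.inr (H ⟨0, hn⟩))).1)).1)).1
  rw [map_mul, hβ]
  exact ((rg_iff_b _).mp h5).symm

/-- If one copy of `x` has a regular image, then all.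
PROOF.  For every unit `g`: `hat g = xi i * top g * xi i` (`xi_mul`), so `φ (hat g)` is `Rg` (`pr_mul_rg`), so
`φ (xi j) * φ (top g) * φ (xi j) = φ (hat g)` is `Rg` for all `g`, and `badI` gives that `φ (xi j)` is `Rg`. -/
theorem all_rg (hbad : ¬ Good S x) {e : S} (he : Un e) (hee : e * e = e) (φ : BI h n →ₙ* BI h n)
    (hβ : φ (jj h omOk1 b) = jj h omOk1 b) (h1 : φ (top h omOk1 e he) ≠ jj h omOk1 b) {i : Fin n}
    (H : Rg (φ (xi h n i))) (j : Fin n) : Rg (φ (xi h n j)) := by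
  by_contra hW
  obtain ⟨g, hg, h2⟩ := badI hbad φ hβ he hee h1 (xi_val (h := h) j).1 hW
  apply h2
  have h3 := (xi_mul (h := h) (n := n) he hee hg i i).1 ⟨Nat.le_succ _, Nat.le_succ _⟩
  have h4 := (xi_mul (h := h) (n := n) he hee hg j j).1 ⟨Nat.le_succ _, Nat.le_succ _⟩
  rw [← map_mul, ← map_mul, h4, ← h3, map_mul]
  exact (pr_mul_rg _ _ (Or.inr H)).1

end

end EVC
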