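import Pool.Agent.EVC.CI3

/-!
# [EC-CI3b] the case with units: endomorphisms mapping `fu e` to `jj b`
-/

set_option autoImplicit false

open EVS

namespace EVC

section
variable {S : Type} [Semigroup S] [Finite S] {b x : S} {h : SF S b x} {n : ℕ}

private theorem ci3b_alg {T : Type} [Semigroup T] (f A G B : T) (hff : f * f = f)
    (hc : ∀ t : T, f * t = t * f) : (f * A) * G * (f * B) = f * (A * G * B) := by
  calc (f * A) * G * (f * B) = (f * A) * G * (B * f) := by rw [hc B]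
    _ = f * ((A * G * B) * f) := by simp only [mul_assoc]
    _ = f * (f * (A * G * B)) := by rw [← hc (A * G * B)]
    _ = f * (A * G * B) := by rw [← mul_assoc, hff]

/-- PROOF.  Let `W i = φ (xi i)`, `f = fu e`.  Pigeonhole: the map `Fin (M + 1) → T0`, `k ↦ f * W (2 k)` (`fu_mul`: it is in `T0`;
`2 k < n`) is not injective, where `M = Nat.card (T0 h n)`; let `i = 2 k`, `j = 2 k'`, `k ≠ k'`, `f * W i = f * W j`; `i`, `j` are not
near.  For a unit `g`: `W i * φ (top g) * W j = φ (f * hat g) = jj b * φ (hat g)` is `Rg` (`xi_mul`, `hf`).  `f` is central and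
idempotent (`fu_mul`, `top_mul`), so `f * (W i * φ (top g) * W i) = (f * W i) * φ (top g) * (f * W i) = (f * W i) * φ (top g) * (f * W j)
= f * (W i * φ (top g) * W j)` is `Rg`, hence `W i * φ (top g) * W i` is `Rg` (`fu_mul`).  By `badI` `W i` is `Rg`.  `all_rg`, `flag0_of`.
`t ∈ T0`: `gp_map` if `t` is `Rg` or a unit; otherwise `lb t ⊆ F1`, `t = f * t` (`fu_mul`), `φ t = jj b * φ t` is `Rg`. -/
theorem case_b1 (hbad : ¬ Good S x) (hn : 2 * Nat.card (T0 h n) + 2 ≤ n) {e : S} (he : Un e) (hee : e * e = e)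
    (φ : BI h n →ₙ* BI h n)
    (hβ : φ (jj h omOk1 b) = jj h omOk1 b) (h1 : φ (top h omOk1 e he) ≠ jj h omOk1 b)
    (hf : φ (fu h omOk1 e he) = jj h omOk1 b) : Concl he φ := by
  obtain ⟨_, _, hfp, hfl⟩ := top_val (h := h) (hΩ := omOk1 (n := n) (S := S)) e he
  have hff : fu h omOk1 e he * fu h omOk1 e he = fu h (omOk1 (n := n) (S := S)) e he :=
    (fu_mul (h := h) (n := n) he hee (fu h omOk1 e he)).2.2.2.2.1 hfl.subset
  have hfc : ∀ t : BI h n, fu h omOk1 e he * t = t * fu h omOk1 e he := fun t =>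
    (fu_mul (h := h) (n := n) he hee t).2.2.2.2.2
  have hfin : Finite (T0 h n) := inferInstance
  have hsmall : ∀ k : Fin (Nat.card (T0 h n) + 1), 2 * (k : ℕ) < n := by
    intro k
    have hk := k.2
    omega
  have hex : ∃ k k' : Fin (Nat.card (T0 h n) + 1), k ≠ k' ∧
      fu h omOk1 e he * φ (xi h n ⟨2 * (k : ℕ), hsmall k⟩) =
      fu h omOk1 e he * φ (xi h n ⟨2 * (k' : ℕ), hsmall k'⟩) := by
    by_contra hcon
    push Not at hcon
    let ψ : Fin (Nat.card (T0 h n) + 1) → T0 h n := fun k =>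
      ⟨fu h omOk1 e he * φ (xi h n ⟨2 * (k : ℕ), hsmall k⟩),
        (fu_mul (h := h) (n := n) he hee _).2.2.2.1⟩
    have hψ : Function.Injective ψ := by
      intro k k' hkk
      by_contra hne
      exact hcon k k' hne (congrArg Subtype.val hkk)
    have h2 := Nat.card_le_card_of_injective ψ hψ
    rw [Nat.card_eq_fintype_card, Fintype.card_fin] at h2
    omega
  obtain ⟨k, k', hkk, heq⟩ := hex
  have hnear : ¬ near (⟨2 * (k : ℕ), hsmall k⟩ : Fin n) ⟨2 * (k' : ℕ), hsmall k'⟩ := by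
    rintro ⟨h2, h3⟩
    apply hkk
    apply Fin.ext
    have h4 : 2 * (k : ℕ) ≤ 2 * (k' : ℕ) + 1 := h2
    have h5 : 2 * (k' : ℕ) ≤ 2 * (k : ℕ) + 1 := h3
    omega
  have hrg : Rg (φ (xi h n ⟨2 * (k : ℕ), hsmall k⟩)) := by
    by_contra hW
    obtain ⟨g, hg, h2⟩ := badI hbad φ hβ he hee h1 (xi_val (h := h) _).1 hW
    apply h2
    have h3 := (xi_mul (h := h) (n := n) he hee hg _ _).2 hnear
    have h4 : Rg (φ (xi h n ⟨2 * (k : ℕ), hsmall k⟩) * φ (top h omOk1 g hg) *
        φ (xi h n ⟨2 * (k' : ℕ), hsmall k'⟩)) := by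
      rw [← map_mul, ← map_mul, h3, map_mul, hf]
      exact (pr_mul_rg _ _ (Or.inl (jj_val b).2.2)).1
    rw [← (fu_mul (h := h) (n := n) he hee _).2.1, ← ci3b_alg _ _ _ _ hff hfc, heq,
      ← heq] at h4 ⊢
    exact h4
  have hall := all_rg hbad he hee φ hβ h1 hrg
  refine ⟨⟨0, flag0_of (by omega) he hee φ hβ hall⟩, fun t ht => ?_⟩
  by_cases h2 : Rg t ∨ Un (pr t)
  · rcases gp_map φ h2 with h3 | h3
    · left
      rw [rg_iff] at h3
      rw [h3]
      exact Set.empty_subset _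
    · exact Or.inr h3
  · push Not at h2
    have h3 : lb t ⊆ F1 n S := by
      rcases ht with h3 | h3
      · exact h3
      · exact absurd h3 h2.2
    have h4 := (fu_mul (h := h) (n := n) he hee t).2.2.2.2.1 h3
    left
    have h5 : Rg (φ t) := by
      rw [← h4, map_mul, hf]
      exact (pr_mul_rg _ _ (Or.inl (jj_val b).2.2)).1
    rw [rg_iff] at h5
    rw [h5]
    exact Set.empty_subset _

end

end EVC
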