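import Pool.Agent.EVC.CI3

/-!
# [EC-CI4] the case with units: nonregular images
-/

set_option autoImplicit false

open EVS

namespace EVC

section
variable {S : Type} [Semigroup S] [Finite S] {b x : S} {h : SF S b x} {n : ℕ}

private theorem ci4_left (h : SF S b x) {G w : S} (hG : Un G) (hu : Un (G * w)) : Un w := by
  obtain ⟨k, hk, _, h2⟩ := h.un_inv G hG
  have h3 := h.un_mul k (G * w) hk hu
  rw [← mul_assoc, h2, hG w] at h3
  exact h3

private theorem ci4_right (h : SF S b x) {G w : S} (hG : Un G) (hu : Un (w * G)) : Un w := by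
  obtain ⟨k, hk, h1, _⟩ := h.un_inv G hG
  have h3 := h.un_mul (w * G) k hu hk
  rw [mul_assoc, h1, ← h.hc (om G) w (om_idem G), hG w] at h3
  exact h3

/-- The form of the nonregular images.
PROOF.  `¬ Rg W` (`pr_mul_rg`).  If `J2 x (pr W)`: `pr (W * G) * pr W` is `pr W * pr G * pr W` or `b *` this, and `h.j2_low` (`pr G * pr W` is
not a unit) gives `Lw`, so `W * G * W` would be `Rg` (`rg_mul_iff`), contradiction.  So by `cases_BU` the support of `W` is in `N1`. -/
theorem img_form {W G : BI h n} (hWu : ¬ Un (pr W)) (hG : Un (pr G)) (hZ : ¬ Rg (W * G * W)) :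
    ¬ Rg W ∧ ¬ J2 x (pr W) ∧ ((∃ i : Fin n, lb W = PP i) ∨ ∃ a : Option S, lb W = QQ a) := by
  have hRW : ¬ Rg W := fun hr => hZ (pr_mul_rg (W * G) W (Or.inr hr)).1
  have hRWG : ¬ Rg (W * G) := fun hr => hZ (pr_mul_rg (W * G) W (Or.inl hr)).1
  have hJ : ¬ J2 x (pr W) := by
    intro hj
    apply hZ
    rw [rg_mul_iff, pr_mul_of W G hRWG]
    left
    have hnu : ¬ Un (pr G * pr W) := fun hu => hWu (ci4_left h hG hu)
    have := (h.j2_low (pr W) (pr G * pr W) hj hnu).1
    rwa [← mul_assoc] at this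
  refine ⟨hRW, hJ, ?_⟩
  rcases cases_BU W with hr | ⟨_, hu | hn | hj⟩
  · exact absurd hr hRW
  · exact absurd hu.1 hWu
  · exact hn.2.2
  · exact absurd hj.2.1 hJ

/-- The product of two copies.
PROOF.  `W * G` is not `Rg` (`pr_mul_rg`), so `pr (W * G) = pr W * pr G`, which is not `J2` (otherwise `h.j2_low` with `pr W'` not a unit
gives that the product is `Lw`) and `lb (W * G) = PP i ∩ univ` (`lb_mul_of`).  The product with `W'`: `h.prod` (`pr W * pr G`
is not a unit: otherwise `pr W` would be a unit) gives `J2`, so `lb_mul_j2` and `PP_inter`. -/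
theorem img_mul {W W' G : BI h n} (hWu : ¬ Un (pr W)) (hWu' : ¬ Un (pr W')) (hG : Un (pr G))
    (hGl : lb G = Set.univ) {i j : Fin n}
    (hi : lb W = PP i) (hj : lb W' = PP j) (hZ : ¬ Rg (W * G * W')) :
    pr (W * G * W') = pr W * pr G * pr W' ∧
    (near i j → lb (W * G * W') = Set.univ) ∧ (¬ near i j → lb (W * G * W') = F1 n S) := by
  have hRWG : ¬ Rg (W * G) := fun hr => hZ (pr_mul_rg (W * G) W' (Or.inl hr)).1
  have e1 : pr (W * G) = pr W * pr G := pr_mul_of W G hRWG
  have e2 : pr (W * G * W') = pr W * pr G * pr W' := by rw [pr_mul_of _ _ hZ, e1]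
  have hnl : ¬ Lw b (pr W * pr G * pr W') := by
    intro hl
    apply hZ
    rw [rg_mul_iff, e1]
    exact Or.inl hl
  have hJ : ¬ J2 x (pr W * pr G) := fun hj => hnl (h.j2_low _ _ hj hWu').1
  have hnu : ¬ Un (pr W * pr G) := fun hu => hWu (ci4_right h hG hu)
  have hl1 : lb (W * G) = PP i := by
    rw [lb_mul_of W G hRWG hJ, hi, hGl, Set.inter_univ]
  have hJ2 : J2 x (pr (W * G) * pr W') := by
    rw [e1]
    exact (h.prod _ _ hnu hWu').resolve_left hnl
  have hlb := lb_mul_j2 (W * G) W' hZ hJ2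
  rw [hl1, hj, PP_inter] at hlb
  refine ⟨e2, fun hn => hlb.2 (fun h' => h' hn), fun hn => hlb.1 hn⟩

/-- PROOF.  By `lb_mul_sub` if the support of `φ (top e)` were a subset of `F1`, then the support of `W = φ v = φ (top e) * φ v`
(`top_mul_val` for `e`: `top e * v = v`) would be.  `φ (top g) * φ (top g⁻¹) = φ (top e)` (`h.un_inv`, `h.un_om`), so the support of
`φ (top g)` is not a subset of `F1` (`lb_mul_sub`), and it is `univ` or `F1` (`cases_BU` and `top_map`). -/
theorem top_univ {e : S} (he : Un e) (hee : e * e = e) (φ : BI h n →ₙ* BI h n)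
    (hβ : φ (jj h omOk1 b) = jj h omOk1 b) (h1 : φ (top h omOk1 e he) ≠ jj h omOk1 b)
    {v : BI h n} (hv : ¬ lb (φ v) ⊆ F1 n S) (g : S) (hg : Un g) :
    lb (φ (top h omOk1 g hg)) = Set.univ := by
  have hid : ∀ t : S, e * t = t := fun t => by
    have := he t
    rwa [om_of_idem hee] at this
  have hE : ¬ lb (φ (top h omOk1 e he)) ⊆ F1 n S := by
    intro hsub
    apply hv
    obtain ⟨q1, q2, _, _⟩ := top_mul_val (h := h) (hΩ := omOk1 (n := n) (S := S)) e he v
    have e1 : top h omOk1 e he * v = v := BU_ext (by rw [q1, hid]) q2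
    have e2 : φ v = φ (top h omOk1 e he) * φ v := by rw [← map_mul, e1]
    rw [e2]
    exact lb_mul_sub _ _ (Or.inl hsub)
  obtain ⟨k, hk, k1, _⟩ := h.un_inv g hg
  have hG : ¬ lb (φ (top h omOk1 g hg)) ⊆ F1 n S := by
    intro hsub
    apply hE
    have e0 : g * k = e := by rw [k1, h.un_om g e hg he, om_of_idem hee]
    have e1 : top h omOk1 e he = top h (omOk1 (n := n) (S := S)) g hg * top h omOk1 k hk := by
      rw [(top_mul g k hg hk).1]
      apply BU_ext
      · rw [(top_val e he).1, (top_val (g * k) _).1, e0]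
      · rw [(top_val e he).2.1, (top_val (g * k) _).2.1]
    rw [e1, map_mul]
    exact lb_mul_sub _ _ (Or.inl hsub)
  have hun := top_map φ hβ he hee h1 g hg
  rcases cases_BU (φ (top h omOk1 g hg)) with hr | ⟨_, hu | hn | hj⟩
  · exact absurd (by rw [(rg_iff _).1 hr]; exact Set.empty_subset _) hG
  · rcases hu.2 with h2 | h2
    · exact h2
    · exact absurd (by rw [h2]) hG
  · exact absurd hun hn.1
  · exact absurd hun hj.1

end

end EVC
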