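import Pool.Agent.EVC.CI4

/-!
# [EC-CI4b] the case with units: the images of the lower copies
-/

set_option autoImplicit false

open EVS

namespace EVC

section
variable {S : Type} [Semigroup S] [Finite S] {b x : S} {h : SF S b x} {n : ℕ}

/-- The images of the lower copies are in the lower part.
PROOF.  Let `V a = φ (eta a)` and suppose that `lb (V a0)` is not a subset of `F1`.  Then `V a0` is not `Rg` (`rg_iff`), and by `badI`
there is a unit `g` such that `Z = V a0 * G * V a0` is not `Rg`, `G = φ (top g)`.  By `eta_mul` `Z = φ (fu e * hat g) = V a * G * V a` for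
all `a`.  `V a` is not a unit (`nonunit_map`; `eta a` is not `Rg`, not a unit as `pr (eta a) = x`), `Un (pr G)` (`top_map`),
`lb G = univ` (`top_univ`).  By `img_form` the support of `V a` is some `PP i` or `QQ a'`.  For `a0` it is `PP i0` (`QQ_sub`), so
`lb Z = univ` (`img_mul`, `near i0 i0`).  For arbitrary `a`: if `lb (V a) = QQ a'`, then `lb Z ⊆ F1` (`lb_mul_sub`, `QQ_sub`), impossible by
`PP_not i0` (`PP i0 ⊆ univ`).  So `lb (V a) = PP (i a)` for all `a`.  The map `a ↦ pr (V a)`, `Option S → S` is not injective (cardinalities):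
`a ≠ a'`, `pr (V a) = pr (V a')`.  `V a * G * V a' = φ (eta a * top g * eta a')` is `Rg` (`eta_mul_ne`, `rg_map`).  By `rg_mul_iff` `Lw b
(pr (V a * G) * pr (V a'))` or `lb (V a * G) ∩ lb (V a') = ∅`.  The first would make `V a * G * V a` `Rg` (`rg_mul_iff`, same first
component).  The second: `lb (V a * G) = PP (i a)` (`lb_mul_of`, not `J2` by `h.j2_low` as before, not `Rg`), and
`PP (i a) ∩ PP (i a')` is nonempty (`PP_ne`).  Contradiction. -/
theorem star (hbad : ¬ Good S x) {e : S} (he : Un e) (hee : e * e = e)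
    (φ : BI h n →ₙ* BI h n)
    (hβ : φ (jj h omOk1 b) = jj h omOk1 b) (h1 : φ (top h omOk1 e he) ≠ jj h omOk1 b)
    (a : Option S) : lb (φ (eta h n a)) ⊆ F1 n S := by
  classical
  by_contra hcon
  have hxu : ¬ Un x := by
    intro hu
    have := hu x
    rw [h.hxb] at this
    exact h.hx this
  have hVu : ∀ c : Option S, ¬ Un (pr (φ (eta h n c))) := by
    intro c
    apply nonunit_map φ hβ
    · intro hr
      have h2 : Lw b (pr (eta h n c)) := hr
      rw [(eta_val c).1] at h2
      exact h.hx h2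
    · rw [(eta_val c).1]
      exact hxu
  have hRa : ¬ Rg (φ (eta h n a)) := by
    intro hr
    apply hcon
    rw [(rg_iff _).1 hr]
    exact Set.empty_subset _
  obtain ⟨g, hg, hZa⟩ := badI hbad φ hβ he hee h1 (eta_val a).1 hRa
  have hZeq : ∀ c : Option S, φ (eta h n c) * φ (top h omOk1 g hg) * φ (eta h n c) =
      φ (fu h omOk1 e he * hat h n g) := by
    intro c
    rw [← map_mul, ← map_mul, eta_mul he hee hg c]
  have hZ : ∀ c : Option S,
      ¬ Rg (φ (eta h n c) * φ (top h omOk1 g hg) * φ (eta h n c)) := by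
    intro c
    rw [hZeq c, ← hZeq a]
    exact hZa
  have hG : Un (pr (φ (top h (omOk1 (n := n) (S := S)) g hg))) := top_map φ hβ he hee h1 g hg
  have hGl : lb (φ (top h (omOk1 (n := n) (S := S)) g hg)) = Set.univ :=
    top_univ he hee φ hβ h1 hcon g hg
  obtain ⟨i0, hi0⟩ : ∃ i : Fin n, lb (φ (eta h n a)) = PP i := by
    rcases (img_form (hVu a) hG (hZ a)).2.2 with h2 | ⟨c, h2⟩
    · exact h2
    · exfalso
      apply hcon
      rw [h2]
      exact QQ_sub c
  have hnear : near i0 i0 := by
    unfold near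
    omega
  have hlbZ : lb (φ (fu h omOk1 e he * hat h n g)) = Set.univ := by
    rw [← hZeq a]
    exact (img_mul (hVu a) (hVu a) hG hGl hi0 hi0 (hZ a)).2.1 hnear
  have hall : ∀ c : Option S, ∃ i : Fin n, lb (φ (eta h n c)) = PP i := by
    intro c
    rcases (img_form (hVu c) hG (hZ c)).2.2 with h2 | ⟨c', h2⟩
    · exact h2
    · exfalso
      have h3 := lb_mul_sub (φ (eta h n c) * φ (top h omOk1 g hg)) (φ (eta h n c))
        (Or.inr (by rw [h2]; exact QQ_sub c'))
      rw [hZeq c, hlbZ] at h3
      exact PP_not i0 ((Set.subset_univ _).trans h3)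
  choose i hi using hall
  obtain ⟨c, c', hcc, hpr⟩ : ∃ c c' : Option S, c ≠ c' ∧
      pr (φ (eta h n c)) = pr (φ (eta h n c')) := by
    by_contra hno
    have hinj : Function.Injective (fun c : Option S => pr (φ (eta h n c))) := by
      intro c c' h2
      by_contra h3
      exact hno ⟨c, c', h3, h2⟩
    have h2 := Nat.card_le_card_of_injective _ hinj
    rw [Finite.card_option] at h2
    omega
  have hR2 : Rg (φ (eta h n c) * φ (top h omOk1 g hg) * φ (eta h n c')) := by
    rw [← map_mul, ← map_mul]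
    exact rg_map φ hβ (eta_mul_ne hg hcc)
  rcases (rg_mul_iff _ _).1 hR2 with h2 | h2
  · rw [← hpr] at h2
    exact hZ c ((rg_mul_iff _ _).2 (Or.inl h2))
  · have hVG : ¬ Rg (φ (eta h n c) * φ (top h omOk1 g hg)) := fun hr =>
      hZ c (pr_mul_rg _ _ (Or.inl hr)).1
    have hj : ¬ J2 x (pr (φ (eta h n c)) * pr (φ (top h (omOk1 (n := n) (S := S)) g hg))) := by
      intro hj
      apply hZ c
      rw [rg_mul_iff, pr_mul_of _ _ hVG]
      exact Or.inl (h.j2_low _ _ hj (hVu c)).1
    rw [lb_mul_of _ _ hVG hj, hGl, Set.inter_univ, hi c, hi c'] at h2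
    exact PP_ne _ _ h2

end

end EVC
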