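import Pool.Agent.EVC.CI4b

/-!
# [EC-CI4c] the case with units: endomorphisms mapping `fu e` and `top e` to the same element
-/

set_option autoImplicit false

open EVS

namespace EVC

section
variable {S : Type} [Semigroup S] [Finite S] {b x : S} {h : SF S b x} {n : ℕ}

theorem ci4c_gp (φ : BI h n →ₙ* BI h n) (t : BI h n) (ht : Rg t ∨ Un (pr t)) :
    φ t ∈ T0 h n := by
  rcases gp_map φ ht with h1 | h1
  · left
    rw [(rg_iff _).1 h1]
    exact Set.empty_subset _
  · exact Or.inr h1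

theorem ci4c_un {e : S} (he : Un e) (hee : e * e = e) (s : S) : e * s = s := by
  have h1 := he s
  rwa [om_of_idem hee] at h1

/-- PROOF.  Type `c = 1`: `φ t = φ (top e * t) = φ (top e) * φ t = φ (fu e) * φ t` (`top_mul_val`, `BU_ext`: `top e * t = t`).
`t ∈ T0`: `gp_map` if `t` is `Rg` or a unit.  Otherwise `lb t ⊆ F1`, and by `cases_BU` `lb t = QQ a` (`PP_not`), not `J2`: `dec1` and `star`
and `lb_mul_sub`; or `J2` and `lb t = F1` (or `univ`, then `F1 = univ`): `dec2`, `eta_mul` (`fu e * hat q = eta none * top q * eta none`),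
`star`, `lb_mul_sub`. -/
theorem case_b2 (hbad : ¬ Good S x) (hn : 0 < n) {e : S} (he : Un e) (hee : e * e = e)
    (φ : BI h n →ₙ* BI h n)
    (hβ : φ (jj h omOk1 b) = jj h omOk1 b) (h1 : φ (top h omOk1 e he) ≠ jj h omOk1 b)
    (hf : φ (fu h omOk1 e he) = φ (top h omOk1 e he)) : Concl he φ := by
  classical
  have hF1 : ∀ t : BI h n, lb t ⊆ F1 n S → t ∈ T0 h n := fun t ht => Or.inl ht
  have hstar := star hbad he hee φ hβ h1
  refine ⟨⟨1, Or.inr (Or.inl ⟨rfl, fun t _ => ?_⟩)⟩, ?_⟩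
  · have e1 : top h omOk1 e he * t = t := by
      apply BU_ext
      · rw [(top_mul_val e he t).1, ci4c_un he hee]
      · rw [(top_mul_val e he t).2.1]
    rw [map_mul, hf, ← map_mul, e1]
  · intro t ht
    by_cases hR : Rg t
    · exact ci4c_gp φ t (Or.inl hR)
    by_cases hU : Un (pr t)
    · exact ci4c_gp φ t (Or.inr hU)
    have hl : lb t ⊆ F1 n S := ht.resolve_right hU
    have huniv : ¬ (Set.univ : Set (Om n S)) ⊆ F1 n S := fun h2 =>
      PP_not (S := S) (⟨0, hn⟩ : Fin n) ((Set.subset_univ _).trans h2)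
    rcases cases_BU t with h2 | ⟨-, ⟨h3, -⟩ | ⟨-, h4, h5⟩ | ⟨-, h4, h5⟩⟩
    · exact absurd h2 hR
    · exact absurd h3 hU
    · rcases h5 with ⟨i, hi⟩ | ⟨a, ha⟩
      · rw [hi] at hl
        exact absurd hl (PP_not i)
      · obtain ⟨g, k, hg, hk, -, h6⟩ := dec1 he hR hU h4
        apply hF1
        rw [h6 a ha, map_mul, map_mul]
        exact lb_mul_sub _ _ (Or.inl (lb_mul_sub _ _ (Or.inr (hstar a))))
    · rcases h5 with h5 | h5
      · rw [h5] at hl
        exact absurd hl huniv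
      · obtain ⟨p, q, r, hp, hq, hr, -, h6⟩ := dec2 he hee hR h4
        apply hF1
        rw [h6 h5, ← eta_mul he hee hq none, map_mul, map_mul]
        refine lb_mul_sub _ _ (Or.inl (lb_mul_sub _ _ (Or.inr ?_)))
        rw [map_mul]
        exact lb_mul_sub _ _ (Or.inr (hstar none))

end

end EVC
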