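import Pool.Agent.EVC.CI4

/-!
# [EC-CI5] the case with units: endomorphisms fixing `top e` and `fu e`
-/

set_option autoImplicit false

open EVS

namespace EVC

section
variable {S : Type} [Semigroup S] [Finite S] {b x : S} {h : SF S b x} {n : ℕ}

/-- PROOF.  If `Rg (φ (xi i))` for one `i`, then for all (`all_rg`), and the first alternative holds.  Otherwise no `W i = φ (xi i)`
is `Rg`.  Let `i0 = ⟨0, _⟩`; `badI` gives a unit `g` such that `Z = W i0 * G * W i0 = φ (hat g)` is not `Rg` (`xi_mul`, `near i0 i0`),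
`G = φ (top g)`; `Z = W i * G * W i` for all `i`.  `Un (pr G)` (`top_map`); `lb G = univ`: `G * φ (top g⁻¹) = φ (top e) = top e` has
support `univ`, so `lb G` is not a subset of `F1` (`lb_mul_sub`, `PP_not`), and it is `univ` or `F1` (`cases_BU`).  `W i` is not a unit
(`nonunit_map`).  By `img_form` `lb (W i)` is some `PP j` or `QQ a`.
If `lb Z ⊆ F1`, then no `lb (W i)` is a `PP j` (`img_mul` would give `lb Z = univ`, `near j j`), so all are `QQ a ⊆ F1`: second alternative.
If not, then no `lb (W i)` is a `QQ a` (`lb_mul_sub`), so `lb (W i) = PP (σ i)` for a function `σ` (choice).  If `near i j`, then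
`W i * G * W j = φ (hat g) = Z` (`xi_mul`), whose support is not a subset of `F1`, so `near (σ i) (σ j)` by `img_mul`.  If not `near i j`,
then `W i * G * W j = φ (fu e * hat g) = fu e * Z` has support contained in `F1` and is not `Rg` (`fu_mul`), so not
`near (σ i) (σ j)` (`img_mul` would give `univ`).  `path_aut`. -/
theorem img_xi (hbad : ¬ Good S x) (hn : 4 ≤ n) {e : S} (he : Un e) (hee : e * e = e)
    (φ : BI h n →ₙ* BI h n) (hβ : φ (jj h omOk1 b) = jj h omOk1 b)
    (h1 : φ (top h omOk1 e he) = top h omOk1 e he) (hf : φ (fu h omOk1 e he) = fu h omOk1 e he) :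
    (∀ i, Rg (φ (xi h n i))) ∨ (∀ i, ¬ Rg (φ (xi h n i)) ∧ lb (φ (xi h n i)) ⊆ F1 n S) ∨
    (∀ i, ¬ Rg (φ (xi h n i)) ∧ lb (φ (xi h n i)) = PP i) ∨
    (∀ i, ¬ Rg (φ (xi h n i)) ∧ lb (φ (xi h n i)) = PP (Fin.rev i)) := by
  have hn0 : 0 < n := by omega
  have hUF : ¬ (Set.univ : Set (Om n S)) ⊆ F1 n S := fun hu =>
    PP_not (S := S) (⟨0, hn0⟩ : Fin n) (fun ω _ => hu (Set.mem_univ ω))
  have hnear : ∀ i : Fin n, near i i := fun i => ⟨Nat.le_succ _, Nat.le_succ _⟩
  have hlt : lb (top h omOk1 e he : BI h n) = Set.univ := (top_val e he).2.1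
  have h1' : φ (top h omOk1 e he) ≠ jj h omOk1 b := by
    rw [h1]
    intro hc
    have h2 := congrArg lb hc
    rw [hlt, (jj_val b).2.1] at h2
    apply hUF
    rw [h2]
    exact Set.empty_subset _
  by_cases H : ∃ i, Rg (φ (xi h n i))
  · obtain ⟨i, hi⟩ := H
    exact Or.inl (all_rg hbad he hee φ hβ h1' hi)
  · have H' : ∀ i, ¬ Rg (φ (xi h n i)) := fun i hi => H ⟨i, hi⟩
    obtain ⟨g, hg, hZ0⟩ := badI hbad φ hβ he hee h1' (xi_val (h := h) (⟨0, hn0⟩ : Fin n)).1 (H' _)
    have hGu : Un (pr (φ (top h omOk1 g hg))) := top_map φ hβ he hee h1' g hg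
    have hGl : lb (φ (top h omOk1 g hg)) = Set.univ := by
      refine top_univ he hee φ hβ h1' (v := top h omOk1 e he) ?_ g hg
      rw [h1, hlt]
      exact hUF
    have hxr : ∀ i : Fin n, ¬ Rg (xi h n i) := by
      intro i hi
      have h2 : Lw b (pr (xi h n i)) := hi
      rw [(xi_val i).1] at h2
      exact h.hx h2
    have hxu : ∀ i : Fin n, ¬ Un (pr (xi h n i)) := by
      intro i hi
      rw [(xi_val i).1] at hi
      have h2 := hi x
      rw [h.hxb] at h2
      exact h.hx h2
    have hWu : ∀ i : Fin n, ¬ Un (pr (φ (xi h n i))) := fun i =>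
      nonunit_map φ hβ (hxr i) (hxu i)
    have hnearZ : ∀ i j : Fin n, near i j →
        φ (xi h n i) * φ (top h omOk1 g hg) * φ (xi h n j) = φ (hat h n g) := by
      intro i j hij
      rw [← map_mul, ← map_mul, (xi_mul he hee hg i j).1 hij]
    have hfarZ : ∀ i j : Fin n, ¬ near i j →
        φ (xi h n i) * φ (top h omOk1 g hg) * φ (xi h n j) =
          fu h omOk1 e he * φ (hat h n g) := by
      intro i j hij
      rw [← map_mul, ← map_mul, (xi_mul he hee hg i j).2 hij, map_mul, hf]
    have hZ : ¬ Rg (φ (hat h n g)) := by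
      rw [← hnearZ _ _ (hnear (⟨0, hn0⟩ : Fin n))]
      exact hZ0
    have hZi : ∀ i : Fin n,
        ¬ Rg (φ (xi h n i) * φ (top h omOk1 g hg) * φ (xi h n i)) := by
      intro i
      rw [hnearZ i i (hnear i)]
      exact hZ
    by_cases hZF : lb (φ (hat h n g)) ⊆ F1 n S
    · refine Or.inr (Or.inl fun i => ⟨H' i, ?_⟩)
      obtain ⟨-, -, ⟨j, hj⟩ | ⟨a, ha⟩⟩ := img_form (hWu i) hGu (hZi i)
      · exfalso
        have h2 := (img_mul (hWu i) (hWu i) hGu hGl hj hj (hZi i)).2.1 (hnear j)
        rw [hnearZ i i (hnear i)] at h2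
        rw [h2] at hZF
        exact hUF hZF
      · rw [ha]
        exact QQ_sub a
    · have hσ : ∀ i : Fin n, ∃ j : Fin n, lb (φ (xi h n i)) = PP j := by
        intro i
        obtain ⟨-, -, hj | ⟨a, ha⟩⟩ := img_form (hWu i) hGu (hZi i)
        · exact hj
        · exfalso
          apply hZF
          rw [← hnearZ i i (hnear i)]
          apply lb_mul_sub
          right
          rw [ha]
          exact QQ_sub a
      choose σ hσ using hσ
      have hpath : ∀ i j : Fin n, near i j ↔ near (σ i) (σ j) := by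
        intro i j
        constructor
        · intro hij
          by_contra hc
          have h2 := (img_mul (hWu i) (hWu j) hGu hGl (hσ i) (hσ j)
            (by rw [hnearZ i j hij]; exact hZ)).2.2 hc
          rw [hnearZ i j hij] at h2
          exact hZF (by rw [h2])
        · intro hij
          by_contra hc
          obtain ⟨-, hr, hl, -, -, -⟩ := fu_mul (h := h) (n := n) he hee (φ (hat h n g))
          have h2 := (img_mul (hWu i) (hWu j) hGu hGl (hσ i) (hσ j)
            (by rw [hfarZ i j hc, hr]; exact hZ)).2.1 hij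
          rw [hfarZ i j hc] at h2
          rw [h2] at hl
          exact hUF hl
      rcases path_aut hn σ hpath with hs | hs
      · refine Or.inr (Or.inr (Or.inl fun i => ⟨H' i, ?_⟩))
        rw [hσ i, hs i]
      · refine Or.inr (Or.inr (Or.inr fun i => ⟨H' i, ?_⟩))
        rw [hσ i, hs i]

end

end EVC
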