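import Pool.Agent.EVC.CI5

/-!
# [EC-CI5b] the case with units: endomorphisms fixing `top e` and `fu e`, conclusion
-/

set_option autoImplicit false

open EVS

namespace EVC

section
variable {S : Type} [Semigroup S] [Finite S] {b x : S} {h : SF S b x} {n : ℕ}

private theorem ci5b_near (i : Fin n) : near i i := ⟨Nat.le_succ _, Nat.le_succ _⟩

/-- the supports of the images in the third and fourth alternative -/
private theorem ci5b_lb (_hbad : ¬ Good S x) (hn : 4 ≤ n) {e : S} (he : Un e) (hee : e * e = e)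
    (φ : BI h n →ₙ* BI h n) (hβ : φ (jj h omOk1 b) = jj h omOk1 b)
    (h1 : φ (top h omOk1 e he) = top h omOk1 e he) (ρ : Fin n → Fin n)
    (hW : ∀ i, ¬ Rg (φ (xi h n i)) ∧ lb (φ (xi h n i)) = PP (ρ i)) (t : BI h n) (ht : t ∉ T0 h n)
    (hr : ¬ Rg (φ t)) :
    (∃ i, lb t = PP i ∧ lb (φ t) = PP (ρ i)) ∨ (lb t = Set.univ ∧ lb (φ t) = Set.univ) := by
  have h1' : φ (top h omOk1 e he) ≠ jj h omOk1 b := by
    rw [h1]
    intro h2
    have h3 : lb (top h (omOk1 (n := n) (S := S)) e he) = lb (jj h (omOk1 (n := n) (S := S)) b) := by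
      rw [h2]
    rw [(top_val e he).2.1, (jj_val b).2.1] at h3
    exact absurd h3 (Set.nonempty_iff_univ_nonempty.1 ⟨Sum.inr none⟩).ne_empty
  have i0 : Fin n := ⟨0, by omega⟩
  have hnot : ∀ i, ¬ lb (φ (xi h n i)) ⊆ F1 n S := by
    intro i
    rw [(hW i).2]
    exact PP_not _
  have hxu : ¬ Un x := by
    intro hu
    have h2 := hu x
    rw [h.hxb] at h2
    exact h.hx h2
  have hWu : ∀ i, ¬ Un (pr (φ (xi h n i))) := by
    intro i
    refine nonunit_map φ hβ ?_ ?_
    · change ¬ Lw b (pr (xi h n i))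
      rw [(xi_val i).1]
      exact h.hx
    · rw [(xi_val i).1]
      exact hxu
  have hG : ∀ (g : S) (hg : Un g), ∃ hg' : Un (pr (φ (top h omOk1 g hg))),
      φ (top h omOk1 g hg) = top h omOk1 (pr (φ (top h omOk1 g hg))) hg' := by
    intro g hg
    have hg' := top_map φ hβ he hee h1' g hg
    refine ⟨hg', BU_ext ?_ ?_⟩
    · rw [(top_val _ hg').1]
    · rw [(top_val _ hg').2.1]
      exact top_univ he hee φ hβ h1' (hnot i0) g hg
  obtain ⟨hR, hU, hl, h2 | h2⟩ := notT0 ht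
  · obtain ⟨i, hi, hj⟩ := h2
    left
    refine ⟨i, hi, ?_⟩
    obtain ⟨g, k, hg, hk, h3, -⟩ := dec1 he hR hU hj
    obtain ⟨hg', hg2⟩ := hG g hg
    obtain ⟨hk', hk2⟩ := hG k hk
    rw [h3 i hi, map_mul, map_mul, hg2, hk2, (top_mul_val _ hk' _).2.2.2, (top_mul_val _ hg' _).2.1]
    exact (hW i).2
  · obtain ⟨hu, hj⟩ := h2
    right
    refine ⟨hu, ?_⟩
    obtain ⟨p, q, r, hp, hq, hr', h3, -⟩ := dec2 he hee hR hj
    obtain ⟨hp', hp2⟩ := hG p hp
    obtain ⟨hr2, hr3⟩ := hG r hr'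
    have h4 : φ (hat h n q) = φ (xi h n i0) * φ (top h omOk1 q hq) * φ (xi h n i0) := by
      rw [← (xi_mul he hee hq i0 i0).1 (ci5b_near i0), map_mul, map_mul]
    have h5 : φ t = φ (top h omOk1 p hp) * φ (hat h n q) * φ (top h omOk1 r hr') := by
      rw [h3 hu, map_mul, map_mul]
    have h6 : ¬ Rg (φ (hat h n q)) := by
      intro h7
      apply hr
      rw [h5]
      exact (pr_mul_rg _ _ (Or.inl (pr_mul_rg _ _ (Or.inr h7)).1)).1
    rw [h5, hp2, hr3, (top_mul_val _ hr2 _).2.2.2, (top_mul_val _ hp' _).2.1, h4]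
    rw [h4] at h6
    exact (img_mul (hWu i0) (hWu i0) (top_map φ hβ he hee h1' q hq)
      (top_univ he hee φ hβ h1' (hnot i0) q hq) (hW i0).2 (hW i0).2 h6).2.1 (ci5b_near _)

/-- PROOF.  `t ∈ T0`: `gp_map` if `t` is `Rg` or a unit; otherwise `t = fu e * t` (`fu_mul`), so `φ t = fu e * φ t`
has support contained in `F1`.
The types.  For all `t` `φ (fu e * t) = fu e * φ t`, so by `fu_mul` `pr (φ t) = pr (φ (fu e * t))` and
`Rg (φ t) ↔ Rg (φ (fu e * t))`.  Use `img_xi`.  First alternative: `flag0_of`.  Let `W i = φ (xi i)`.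
Second alternative: type `c = 1`: it suffices that `lb (φ t) ⊆ F1` (`fu_mul`); `notT0` and `dec1`: `t = top g * xi i * top k`,
or `dec2`: `t = top p * hat q * top r` with `hat q = xi i * top q * xi i`: `lb_mul_sub`.
Third alternative, type `c = 2` (the fourth, `c = 3`, in the same way with `rvS_PP`): `φ t` not `Rg`.  For units `g`, `φ (top g)` is an
element with `Un (pr _)` and support `univ` (as in `img_xi`; `top_univ` with `v = xi i`), so it equals `top g' _` with
`g' = pr (φ (top g))` (`BU_ext`, `top_val`).  `t = top g * xi i * top k`, `lb t = PP i`: `lb (φ t) = lb (W i) = PP i` by `top_mul_val`.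
`t = top p * hat q * top r`, `lb t = univ`: `lb (φ t) = lb (φ (hat q))` by `top_mul_val`, `φ (hat q) = W i * φ (top q) * W i` is
not `Rg` (otherwise `φ t` would be), so its support is `univ` by `img_mul` (`W i` is not a unit by `nonunit_map`). -/
theorem case_b3 (hbad : ¬ Good S x) (hn : 4 ≤ n) {e : S} (he : Un e) (hee : e * e = e)
    (φ : BI h n →ₙ* BI h n) (hβ : φ (jj h omOk1 b) = jj h omOk1 b)
    (h1 : φ (top h omOk1 e he) = top h omOk1 e he) (hf : φ (fu h omOk1 e he) = fu h omOk1 e he) :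
    Concl he φ := by
  have hfφ : ∀ t, φ (fu h omOk1 e he * t) = fu h omOk1 e he * φ t := by
    intro t
    rw [map_mul, hf]
  refine ⟨?_, ?_⟩
  · rcases img_xi hbad hn he hee φ hβ h1 hf with H | H | H | H
    · exact ⟨0, flag0_of (by omega) he hee φ hβ H⟩
    · refine ⟨1, Or.inr (Or.inl ⟨rfl, ?_⟩)⟩
      intro t ht
      rw [hfφ]
      refine ((fu_mul he hee (φ t)).2.2.2.2.1 ?_).symm
      obtain ⟨hR, hU, hl, h2 | h2⟩ := notT0 ht
      · obtain ⟨i, hi, hj⟩ := h2
        obtain ⟨g, k, hg, hk, h3, -⟩ := dec1 he hR hU hj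
        rw [h3 i hi, map_mul, map_mul]
        exact lb_mul_sub _ _ (Or.inl (lb_mul_sub _ _ (Or.inr (H i).2)))
      · obtain ⟨hu, hj⟩ := h2
        obtain ⟨p, q, r, hp, hq, hr', h3, -⟩ := dec2 he hee hR hj
        have i0 : Fin n := ⟨0, by omega⟩
        rw [h3 hu, map_mul, map_mul, ← (xi_mul he hee hq i0 i0).1 (ci5b_near i0), map_mul, map_mul]
        exact lb_mul_sub _ _ (Or.inl (lb_mul_sub _ _ (Or.inr (lb_mul_sub _ _ (Or.inr (H i0).2)))))
    · refine ⟨2, Or.inr (Or.inr (Or.inl ⟨rfl, ?_⟩))⟩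
      intro t ht
      refine ⟨?_, ?_, ?_⟩
      · rw [hfφ, (fu_mul he hee (φ t)).1]
      · rw [hfφ, (fu_mul he hee (φ t)).2.1]
      · intro hr
        rcases ci5b_lb hbad hn he hee φ hβ h1 (fun i => i) H t ht hr with ⟨i, h2, h3⟩ | ⟨h2, h3⟩
        · rw [h2, h3]
        · rw [h2, h3]
    · refine ⟨3, Or.inr (Or.inr (Or.inr ⟨rfl, ?_⟩))⟩
      intro t ht
      refine ⟨?_, ?_, ?_⟩
      · rw [hfφ, (fu_mul he hee (φ t)).1]
      · rw [hfφ, (fu_mul he hee (φ t)).2.1]
      · intro hr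
        have i0 : Fin n := ⟨0, by omega⟩
        rcases ci5b_lb hbad hn he hee φ hβ h1 Fin.rev H t ht hr with ⟨i, h2, h3⟩ | ⟨h2, h3⟩
        · rw [h2, h3, (rvS_PP i).1]
        · rw [h2, h3, (rvS_PP (S := S) i0).2]
  · intro t ht
    by_cases h2 : Rg t ∨ Un (pr t)
    · rcases gp_map φ h2 with h3 | h3
      · left
        rw [(rg_iff _).1 h3]
        exact Set.empty_subset _
      · exact Or.inr h3
    · have hl : lb t ⊆ F1 n S := ht.resolve_right (fun h3 => h2 (Or.inr h3))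
      left
      rw [← (fu_mul he hee t).2.2.2.2.1 hl, hfφ]
      exact (fu_mul he hee (φ t)).2.2.1

end

end EVC
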