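import Pool.Agent.EVC.CI5b
import Pool.Agent.EVC.CI4c
import Pool.Agent.EVC.CI3b

/-!
# [EC-CI5c] the case with units: all endomorphisms
-/

set_option autoImplicit false

open EVS

namespace EVC

section
variable {S : Type} [Semigroup S] [Finite S] {b x : S} {h : SF S b x} {n : ℕ}

/-- PROOF.  If `φ (jj b) ≠ jj b` or `φ (top e) = jj b`: `case_a`.  Otherwise `φ (top e)` is an idempotent with `Un (pr _)` (`top_map`); an
idempotent unit of `S` is `e` (both are identities; `idem_BU`), its support is `univ` or `F1` (`cases_BU`); so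
`φ (top e) = top e` or `φ (top e) = fu e` (`BU_ext`, `top_val`).  The idempotent `φ (fu e)` is `Rg` or has `Un (pr _)` (`gp_map`).
If it is `Rg`: `jj b * fu e = jj b` (`jj_b_mul`, `top_val`, `b * e = b`), so `jj b = φ (jj b) * φ (fu e) = jj b * φ (fu e) = φ (fu e)`
(`rg_iff_b`): `case_b1`.  Otherwise `φ (fu e) = top e` or `fu e`.  As `fu e * top e = fu e` (`top_mul`), `φ (fu e) * φ (top e) = φ (fu e)`.
If `φ (top e) = top e`: `φ (fu e) = top e` is `case_b2`, `φ (fu e) = fu e` is `case_b3`.  If `φ (top e) = fu e`: `φ (fu e) = φ (fu e) * fu e`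
has support contained in `F1` (`lb_mul_sub`), so it is `fu e = φ (top e)` (if it is `top e`, then `univ ⊆ F1` contradicts
`PP_not`): `case_b2`. -/
theorem concl_all (hbad : ¬ Good S x) (hn : 4 ≤ n) (hn' : 2 * Nat.card (T0 h n) + 2 ≤ n) {e : S} (he : Un e)
    (hee : e * e = e) (φ : BI h n →ₙ* BI h n) : Concl he φ := by
  by_cases hβ : φ (jj h omOk1 b) = jj h omOk1 b
  swap
  · exact case_a he hee φ (Or.inl hβ)
  by_cases h1 : φ (top h omOk1 e he) = jj h omOk1 b
  · exact case_a he hee φ (Or.inr h1)
  have he1 : ∀ s : S, e * s = s := by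
    intro s
    have := he s
    rwa [om_of_idem hee] at this
  have hbe : b * e = b := by
    rw [h.hc b e h.hb]
    exact he1 b
  have cl : ∀ t : BI h n, t * t = t → Un (pr t) → t = top h omOk1 e he ∨ t = fu h omOk1 e he := by
    intro t ht hu
    have hid := (idem_BU t ht).1
    have ht1 : ∀ s : S, pr t * s = s := by
      intro s
      have := hu s
      rwa [om_of_idem hid] at this
    have hpe : pr t = e := by
      calc pr t = e * pr t := (he1 _).symm
        _ = pr t * e := h.hc e (pr t) hee
        _ = e := ht1 e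
    have hv := top_val (h := h) (hΩ := omOk1 (n := n) (S := S)) e he
    rcases cases_BU t with hr | ⟨-, ⟨-, hl | hl⟩ | ⟨hnu, -⟩ | ⟨hnu, -⟩⟩
    · exact absurd hr (h.un_lw _ hu)
    · exact Or.inl (BU_ext (hpe.trans hv.1.symm) (hl.trans hv.2.1.symm))
    · exact Or.inr (BU_ext (hpe.trans hv.2.2.1.symm) (hl.trans hv.2.2.2.symm))
    · exact absurd hu hnu
    · exact absurd hu hnu
  have hm := top_mul (h := h) (hΩ := omOk1 (n := n) (S := S)) e e he he
  simp only [hee] at hm
  obtain ⟨htt, hft, htf, hff⟩ := hm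
  have hT : φ (top h omOk1 e he) * φ (top h omOk1 e he) = φ (top h omOk1 e he) := by
    rw [← map_mul, htt]
  have hF : φ (fu h omOk1 e he) * φ (fu h omOk1 e he) = φ (fu h omOk1 e he) := by
    rw [← map_mul, hff]
  have hFT : φ (fu h omOk1 e he) * φ (top h omOk1 e he) = φ (fu h omOk1 e he) := by
    rw [← map_mul, hft]
  have hTu := top_map φ hβ he hee h1 e he
  have hvv := top_val (h := h) (hΩ := omOk1 (n := n) (S := S)) e he
  have hgp : Rg (φ (fu h omOk1 e he)) ∨ Un (pr (φ (fu h omOk1 e he))) := by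
    apply gp_map φ
    right
    rw [hvv.2.2.1]
    exact he
  rcases hgp with hr | hu
  · -- `φ (fu e)` is regular
    have hjf : jj h omOk1 b * fu h omOk1 e he = jj h (omOk1 (n := n) (S := S)) b := by
      rw [(jj_b_mul _).1, hvv.2.2.1]
      apply BU_ext
      · have e1 := jj_b_mul (h := h) (hΩ := omOk1 (n := n) (S := S)) (jj h omOk1 b)
        have e2 := jj_mul (h := h) (hΩ := omOk1 (n := n) (S := S)) b e
        rw [hbe] at e2
        have e3 := (jj_b_mul (h := h) (hΩ := omOk1 (n := n) (S := S)) (jj h omOk1 e)).1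
        have e4 : jj h (omOk1 (n := n) (S := S)) b * jj h omOk1 e = jj h omOk1 e := by
          exact (rg_iff_b _).1 (jj_val e).2.2
        rw [e2, e4]
      · rw [(jj_val e).2.1, (jj_val b).2.1]
    have hfb : φ (fu h omOk1 e he) = jj h omOk1 b := by
      have e1 := (rg_iff_b _).1 hr
      have e2 : φ (jj h omOk1 b) * φ (fu h omOk1 e he) = φ (jj h omOk1 b) := by
        rw [← map_mul, hjf]
      rw [hβ] at e2
      rw [← e1, e2]
    exact case_b1 hbad hn' he hee φ hβ h1 hfb
  · rcases cl _ hF hu with hf | hf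
    · -- `φ (fu e) = top e`
      rcases cl _ hT hTu with ht | ht
      · exact case_b2 hbad (by omega) he hee φ hβ h1 (hf.trans ht.symm)
      · exfalso
        rw [hf, ht, htf] at hFT
        have h2 : lb (fu h (omOk1 (n := n) (S := S)) e he) = lb (top h omOk1 e he) := by rw [hFT]
        rw [hvv.2.2.2, hvv.2.1] at h2
        have h3 := PP_not (S := S) (⟨0, by omega⟩ : Fin n)
        apply h3
        rw [h2]
        exact Set.subset_univ _
    · rcases cl _ hT hTu with ht | ht
      · exact case_b3 hbad hn he hee φ hβ ht hf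
      · exact case_b2 hbad (by omega) he hee φ hβ h1 (hf.trans ht.symm)

end

end EVC
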