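import Pool.Agent.EVC.CI5c

/-!
# [EC-CI6] the case with units: the bound for the number of endomorphisms
-/

set_option autoImplicit false

open EVS

namespace EVC

section
variable {S : Type} [Semigroup S] [Finite S] {b x : S}

/-- PROOF.  The map `t ↦ (pr t, {a | Sum.inr a ∈ lb t}, decide (lb t ⊆ F1))` from `T0 h n` to `S × Set (Option S) × Bool` is
injective: if `lb t ⊆ F1`, then `lb t` is determined by `{a | inr a ∈ lb t}`; if not, then `Un (pr t)`, and `lb t = univ` (`cases_BU`; a unit is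
not `Rg` by `h.un_lw`).  `M = Nat.card (S × Set (Option S) × Bool)`. -/
theorem card_T0 (h : SF S b x) : ∃ M : ℕ, ∀ n : ℕ, Nat.card (T0 h n) ≤ M := by
  refine ⟨Nat.card (S × Set (Option S) × Prop), fun n => ?_⟩
  have key : ∀ t : BI h n, t ∈ T0 h n → ¬ lb t ⊆ F1 n S → lb t = Set.univ := by
    intro t ht hl
    have hu : Un (pr t) := ht.resolve_left hl
    rcases cases_BU t with h1 | ⟨_, h2 | h2 | h2⟩
    · exact absurd h1 (h.un_lw _ hu)
    · rcases h2.2 with h3 | h3
      · exact h3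
      · exact absurd h3.subset hl
    · exact absurd hu h2.1
    · exact absurd hu h2.1
  let f : T0 h n → S × Set (Option S) × Prop := fun t =>
    (pr t.1, {a | Sum.inr a ∈ lb t.1}, lb t.1 ⊆ F1 n S)
  refine Nat.card_le_card_of_injective f ?_
  rintro ⟨t, ht⟩ ⟨t', ht'⟩ heq
  have e1 : pr t = pr t' := congrArg (fun z : S × Set (Option S) × Prop => z.1) heq
  have e2 : {a | Sum.inr a ∈ lb t} = {a | Sum.inr a ∈ lb t'} := congrArg (fun z : S × Set (Option S) × Prop => z.2.1) heq
  have e3 : (lb t ⊆ F1 n S) = (lb t' ⊆ F1 n S) := congrArg (fun z : S × Set (Option S) × Prop => z.2.2) heq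
  apply Subtype.ext
  change t = t'
  refine BU_ext e1 ?_
  by_cases hl : lb t ⊆ F1 n S
  · have hl' : lb t' ⊆ F1 n S := e3 ▸ hl
    ext ω
    constructor
    · intro hω
      obtain ⟨a, rfl⟩ := hl hω
      have h4 : a ∈ {a | Sum.inr a ∈ lb t'} := by
        rw [← e2]
        exact hω
      exact h4
    · intro hω
      obtain ⟨a, rfl⟩ := hl' hω
      have h4 : a ∈ {a | Sum.inr a ∈ lb t} := by
        rw [e2]
        exact hω
      exact h4
  · have hl' : ¬ lb t' ⊆ F1 n S := fun h5 => hl (e3 ▸ h5)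
    rw [key t ht hl, key t' ht' hl']

/-- PROOF.  Let `M = Nat.card (T0 h n)`.  For every endomorphism `φ` choose `c` with `FlagI he φ c`.  The map
`φ ↦ (c, φ restricted to T0 → T0)` to `Fin 4 × (T0 → T0)` is injective: let `φ`, `φ'` have the same `c` and the same restriction.  Let
`t ∉ T0`.  `jj b * t` (support `∅`) and `fu e * t` (`fu_mul`) are in `T0`.  `c = 0`, `c = 1`: clear.  `c = 2`, `3`: the first components of `φ t`,
`φ' t` agree, and so do the supports: if `Rg`, both are `∅` (`rg_iff`), otherwise both are `lb t` resp. `rvS (lb t)`; `BU_ext`.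
`Nat.card (Fin 4 × (T0 → T0)) = 4 * M ^ M`. -/
theorem nEnd_BI {h : SF S b x} {n : ℕ} {e : S} (he : Un e) (hee : e * e = e)
    (H : ∀ φ : BI h n →ₙ* BI h n, Concl he φ) :
    nEnd (BI h n) ≤ 4 * Nat.card (T0 h n) ^ Nat.card (T0 h n) := by
  have hc : ∀ φ : BI h n →ₙ* BI h n, ∃ c : Fin 4, FlagI he φ c := fun φ => (H φ).1
  choose c hc using hc
  let Φ : (BI h n →ₙ* BI h n) → Fin 4 × (T0 h n → T0 h n) := fun φ =>
    (c φ, fun t => ⟨φ t.1, (H φ).2 t.1 t.2⟩)
  have hinj : Function.Injective Φ := by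
    intro φ φ' heq
    have e1 : c φ = c φ' := congrArg Prod.fst heq
    have e2 : ∀ t ∈ T0 h n, φ t = φ' t := by
      intro t ht
      have h1 := congrArg (fun z => (z.2 ⟨t, ht⟩ : BI h n)) heq
      exact h1
    have hjT : ∀ t : BI h n, jj h omOk1 b * t ∈ T0 h n := by
      intro t
      left
      rw [(jj_b_mul t).1, (jj_val (pr t)).2.1]
      exact Set.empty_subset _
    have hfT : ∀ t : BI h n, fu h omOk1 e he * t ∈ T0 h n := fun t => (fu_mul he hee t).2.2.2.1
    have h1 := hc φ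
    have h2 := hc φ'
    rw [← e1] at h2
    ext1 t
    by_cases ht : t ∈ T0 h n
    · exact e2 t ht
    · rcases h1 with ⟨c1, h1⟩ | ⟨c1, h1⟩ | ⟨c1, h1⟩ | ⟨c1, h1⟩ <;>
      rcases h2 with ⟨c2, h2⟩ | ⟨c2, h2⟩ | ⟨c2, h2⟩ | ⟨c2, h2⟩ <;>
      first
      | (exfalso; rw [c1] at c2; exact absurd c2 (by decide))
      | (rw [h1 t ht, h2 t ht]; first | exact e2 _ (hjT t) | exact e2 _ (hfT t))
      | (obtain ⟨p1, r1, l1⟩ := h1 t ht
         obtain ⟨p2, r2, l2⟩ := h2 t ht
         have e3 := e2 _ (hfT t)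
         refine BU_ext ?_ ?_
         · rw [p1, p2, e3]
         · by_cases hr : Rg (φ t)
           · have hr' : Rg (φ' t) := r2.2 (by rw [← e3]; exact r1.1 hr)
             rw [(rg_iff _).1 hr, (rg_iff _).1 hr']
           · have hr' : ¬ Rg (φ' t) := fun h5 => hr (r1.2 (by rw [e3]; exact r2.1 h5))
             rw [l1 hr, l2 hr'])
  have h3 := Nat.card_le_card_of_injective Φ hinj
  rw [Nat.card_prod, Nat.card_fun, Nat.card_eq_fintype_card (α := Fin 4), Fintype.card_fin] at h3
  exact h3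

/-- PROOF.  `i ↦ xi h n i` is injective (`xi_val`, `PP_inj`). -/
theorem card_BI (h : SF S b x) (n : ℕ) : n ≤ Nat.card (BI h n) := by
  have h1 : Function.Injective (xi h n) := by
    intro i j hij
    have h2 : lb (xi h n i) = lb (xi h n j) := by rw [hij]
    rw [(xi_val i).2, (xi_val j).2] at h2
    exact PP_inj h2
  have h3 := Nat.card_le_card_of_injective _ h1
  rwa [Nat.card_eq_fintype_card (α := Fin n), Fintype.card_fin] at h3

end

end EVC
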