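import Pool.Agent.EVC.CI6

/-!
# [EC-CI6b] the case with units: conclusion
-/

set_option autoImplicit false

open EVS

namespace EVC

section
variable {S : Type} [Semigroup S] [Finite S] {b x : S}

/-- PROOF.  Let `e` be the idempotent power of a unit.  `M` from `card_T0`; suppose `V` is endomorphic; let `m` be the number in the
definition of `Endomorphic` for `B = 4 * (M + 1) ^ (M + 1)` and `n = m + 2 * M + 4`.  `BI h n` is in `V` (`mem_BU`), has at least `m`
elements, and at most `B` endomorphisms by `nEnd_BI` with `concl_all` (`k ^ k ≤ (M + 1) ^ (M + 1)` for `k ≤ M`), contradiction. -/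
theorem not_endo_I {V : Set (Wd × Wd)} (hV : Mem V S) (h : SF S b x) (hbad : ¬ Good S x)
    (hU : ∃ g : S, Un g) : ¬ Endomorphic V := by
  intro hE
  obtain ⟨g, hg⟩ := hU
  have hee : om g * om g = om g := om_idem g
  have he : Un (om g) := by
    intro t
    rw [om_of_idem hee]
    exact hg t
  obtain ⟨M, hM⟩ := card_T0 h
  obtain ⟨m, hm⟩ := hE (4 * (M + 1) ^ (M + 1))
  have hk := hM (m + 2 * M + 4)
  have h1 := hm (BI h (m + 2 * M + 4)) (mem_BU hV) (le_trans (by omega) (card_BI h _))
  have h2 := nEnd_BI (h := h) (n := m + 2 * M + 4) he hee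
    (fun φ => concl_all hbad (by omega) (by omega) he hee φ)
  have h3 : Nat.card (T0 h (m + 2 * M + 4)) ^ Nat.card (T0 h (m + 2 * M + 4)) ≤ (M + 1) ^ (M + 1) :=
    le_trans (Nat.pow_le_pow_left (by omega) _) (Nat.pow_le_pow_right (by omega) (by omega))
  have h4 := Nat.mul_le_mul_left 4 h3
  omega

end

end EVC
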