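import Pool.Agent.EVC.CI1

/-!
# [EC-CII] the case without units
-/

set_option autoImplicit false

open EVS

namespace EVC

section
variable {n : ℕ}

/-- the support of the `i`-th copy of `x` -/
def P2 (i : Fin n) : Set (Fin n × Fin n) := {p | near p.1 p.2 ∧ (p.1 = i ∨ p.2 = i)}

/-- the supports of the copies of `x` -/
def N2 (n : ℕ) : Set (Set (Fin n × Fin n)) := {A | ∃ i : Fin n, A = P2 i}

theorem cii_near_self (i : Fin n) : near i i := ⟨by omega, by omega⟩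

/-- PROOF.  `A ∩ univ = A`, `(i, i) ∈ P2 i`, `univ` is nonempty for `0 < n`. -/
theorem omOk2 (hn : 0 < n) : OmOk (Set.univ : Set (Fin n × Fin n)) (N2 n) := by
  constructor
  · exact ⟨(⟨0, hn⟩, ⟨0, hn⟩), Set.mem_univ _⟩
  · rintro A ⟨i, rfl⟩
    rw [Set.inter_univ]
    exact ⟨⟨(i, i), cii_near_self i, Or.inl rfl⟩, i, rfl⟩
  · intro A _ B _ h
    rwa [Set.inter_univ] at h

/-- PROOF.  As `PP_inter` (CI1.lean). -/
theorem P2_inter (i j : Fin n) : (P2 i ∩ P2 j : Set (Fin n × Fin n)) = ∅ ↔ ¬ near i j := by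
  constructor
  · intro h hn
    have h1 : (i, j) ∈ (P2 i ∩ P2 j : Set (Fin n × Fin n)) := ⟨⟨hn, Or.inl rfl⟩, ⟨hn, Or.inr rfl⟩⟩
    rw [h] at h1
    exact h1
  · intro hn
    rw [Set.eq_empty_iff_forall_notMem]
    rintro ⟨k, l⟩ ⟨⟨⟨h5, h6⟩, h3⟩, ⟨-, h4⟩⟩
    apply hn
    simp only at h3 h4 h5 h6
    rcases h3 with rfl | rfl <;> rcases h4 with rfl | rfl <;> constructor <;> omega

theorem P2_inj {i j : Fin n} (hij : (P2 i : Set (Fin n × Fin n)) = P2 j) : i = j := by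
  have h1 : (i, i) ∈ (P2 i : Set (Fin n × Fin n)) := ⟨cii_near_self i, Or.inl rfl⟩
  rw [hij] at h1
  rcases h1.2 with h2 | h2 <;> exact h2

variable {S : Type} [Semigroup S] [Finite S] {b x : S}

/-- the `i`-th copy of `x` -/
noncomputable def xj (h : SF S b x) (hn : 0 < n) (i : Fin n) : BU h (omOk2 hn) :=
  mk h (omOk2 hn) (x, P2 i) (Or.inr (Or.inr (Or.inl ⟨h.hx, fun hu => h.hx (by
    have := hu x; rwa [h.hxb] at this), h.xj2, ⟨i, rfl⟩⟩)))

variable {h : SF S b x} {hn : 0 < n}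

/-- PROOF.  `cn (x, A) = (x, A)`: `h.hx`, `h.xj2`, `P2 i` is nonempty. -/
theorem xj_val (i : Fin n) : pr (xj h hn i) = x ∧ lb (xj h hn i) = P2 i ∧ ¬ Rg (xj h hn i) := by
  have h0 : ¬ (Lw b (x, (P2 i : Set (Fin n × Fin n))).1 ∨ (x, (P2 i : Set (Fin n × Fin n))).2 = ∅) := by
    rintro (h1 | h1)
    · exact h.hx h1
    · have h2 : (i, i) ∈ (P2 i : Set (Fin n × Fin n)) := ⟨cii_near_self i, Or.inl rfl⟩
      have h3 : (P2 i : Set (Fin n × Fin n)) = ∅ := h1
      rw [h3] at h2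
      exact h2
  have h1 : (xj h hn i).1 = (x, P2 i) := by
    show cn b x Set.univ (x, P2 i) = (x, P2 i)
    unfold cn
    rw [if_neg h0, if_neg h.xj2]
  refine ⟨congrArg Prod.fst h1, congrArg Prod.snd h1, ?_⟩
  intro h2
  have h3 : pr (xj h hn i) = x := congrArg Prod.fst h1
  unfold Rg at h2
  rw [h3] at h2
  exact h.hx h2

omit [Finite S] in
theorem cii_j2 (x : S) : J2 x (x * x) := ⟨1, 1, 1, by rw [WithOne.coe_mul, one_mul, mul_one, mul_one]⟩

theorem cii_mul (hxx : ¬ Lw b (x * x)) {i j : Fin n} (hij : near i j) :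
    ¬ Rg (xj h hn i * xj h hn j) ∧ pr (xj h hn i * xj h hn j) = x * x ∧ lb (xj h hn i * xj h hn j) = Set.univ := by
  obtain ⟨h1, h2, -⟩ := xj_val (h := h) (hn := hn) i
  obtain ⟨h3, h4, -⟩ := xj_val (h := h) (hn := hn) j
  have h5 : ¬ Rg (xj h hn i * xj h hn j) := by
    rw [rg_mul_iff, h1, h2, h3, h4, P2_inter]
    rintro (h6 | h6)
    · exact hxx h6
    · exact h6 hij
  refine ⟨h5, ?_, ?_⟩
  · rw [pr_mul_of _ _ h5, h1, h3]
  · exact (lb_mul_j2 _ _ h5 (by rw [h1, h3]; exact cii_j2 x)).1 (Set.subset_univ _)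

/-- PROOF.  `rg_mul_iff`, `pr_mul_of`, `lb_mul_j2`, `P2_inter`: the product of the pairs is `(x * x, P2 i ∩ P2 j)`, and
`J2 x (x * x)`. -/
theorem xj_mul (hxx : ¬ Lw b (x * x)) (i j : Fin n) :
    (near i j → ¬ Rg (xj h hn i * xj h hn j) ∧ xj h hn i * xj h hn j = xj h hn i * xj h hn i) ∧
    (near i j → xj h hn i * xj h hn j = xj h hn j * xj h hn j) ∧
    (¬ near i j → Rg (xj h hn i * xj h hn j)) := by
  refine ⟨fun hij => ?_, fun hij => ?_, fun hij => ?_⟩
  · obtain ⟨h1, h2, h3⟩ := cii_mul (h := h) (hn := hn) hxx hij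
    obtain ⟨-, h5, h6⟩ := cii_mul (h := h) (hn := hn) hxx (cii_near_self i)
    exact ⟨h1, BU_ext (by rw [h2, h5]) (by rw [h3, h6])⟩
  · obtain ⟨-, h2, h3⟩ := cii_mul (h := h) (hn := hn) hxx hij
    obtain ⟨-, h5, h6⟩ := cii_mul (h := h) (hn := hn) hxx (cii_near_self j)
    exact BU_ext (by rw [h2, h5]) (by rw [h3, h6])
  · obtain ⟨-, h2, -⟩ := xj_val (h := h) (hn := hn) i
    obtain ⟨-, h4, -⟩ := xj_val (h := h) (hn := hn) j
    rw [rg_mul_iff, h2, h4, P2_inter]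
    exact Or.inr hij

/-- PROOF.  `cases_BU`: units do not exist.  If not `J2`: `h.form` gives `pr t = x`, and the support is some `P2 i`: `t = xj i`
(`BU_ext`).  If `J2`: `h.j2form` gives `pr t = x * x`, the support is `univ`, and `xj i * xj i` has the same components
(`pr_mul_of`, `lb_mul_j2` with `F = univ`; it is not `Rg` since `Lw b (x * x)` is false for `pr t`, and `P2 i ∩ P2 i ≠ ∅`). -/
theorem dec_II (hU : ∀ g : S, ¬ Un g) (t : BU h (omOk2 hn)) (ht : ¬ Rg t) :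
    (∃ i, t = xj h hn i) ∨ (¬ Lw b (x * x) ∧ ∀ i, t = xj h hn i * xj h hn i) := by
  rcases cases_BU t with h1 | ⟨-, ⟨h1, -⟩ | ⟨h1, h2, i, h3⟩ | ⟨h1, h2, h3⟩⟩
  · exact absurd h1 ht
  · exact absurd h1 (hU _)
  · left
    refine ⟨i, ?_⟩
    obtain ⟨h4, h5, -⟩ := xj_val (h := h) (hn := hn) i
    rcases h.form (pr t) ht h1 h2 with ⟨h6, -⟩ | ⟨g, k, h6, -⟩
    · exact BU_ext (by rw [h6, h4]) (by rw [h3, h5])
    · exact absurd h6 (hU g)
  · right
    rcases h.j2form (pr t) ht h2 with ⟨h6, -⟩ | ⟨g, q, r, h6, -⟩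
    · have h7 : ¬ Lw b (x * x) := by
        rw [← h6]
        exact ht
      refine ⟨h7, fun i => ?_⟩
      obtain ⟨-, h8, h9⟩ := cii_mul (h := h) (hn := hn) h7 (cii_near_self i)
      refine BU_ext (by rw [h6, h8]) ?_
      rw [h9]
      rcases h3 with h3 | h3 <;> exact h3
    · exact absurd h6 (hU g)

/-- PROOF.  `Good S x` would follow from `φ = id` (`MulHom.id`) if `x * x` were `Lw`: `¬ IsGp x` by `h.gp` (`h.hx`, no units);
`x p x` for `p = 1` is `x * x`; for `p = t : S`: `x * t` or ... by `h.j2_low`/`h.prod`: `x t x` is a product of three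
elements which are not units: `h.prod` for `x`, `t`: `Lw` or `J2`, then times `x`: `Lw` (`Lw.mul_right`, `h.j2_low`).  `h.gp`. -/
theorem xx_not (hbad : ¬ Good S x) (h : SF S b x) (hU : ∀ g : S, ¬ Un g) : ¬ Lw b (x * x) := by
  intro hL
  apply hbad
  refine ⟨MulHom.id S, ?_, ?_⟩
  · show ¬ IsGp x
    rw [h.gp]
    rintro (h1 | h1)
    · exact h.hx h1
    · exact hU _ h1
  · intro p s hs
    show IsGp s
    rw [h.gp]
    left
    revert hs
    refine WithOne.cases_on p ?_ ?_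
    · intro hs
      rw [mul_one, ← WithOne.coe_mul, WithOne.coe_inj] at hs
      rw [hs]
      exact hL
    · intro t hs
      rw [← WithOne.coe_mul, ← WithOne.coe_mul, WithOne.coe_inj] at hs
      rw [hs]
      rcases h.prod x t (hU _) (hU _) with h1 | h1
      · exact h1.mul_right x
      · exact (h.j2_low (x * t) x h1 (hU _)).1

end

end EVC
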