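import Pool.Agent.EVC.CII

/-!
# [EC-CIIb] the case without units: endomorphisms
-/

set_option autoImplicit false

open EVS

namespace EVC

section
variable {n : ℕ} {S : Type} [Semigroup S] [Finite S] {b x : S} {h : SF S b x} {hn : 0 < n}

theorem ciib_near_self (i : Fin n) : near i i := ⟨by omega, by omega⟩

theorem ciib_sq_val (hxx : ¬ Lw b (x * x)) (i : Fin n) :
    pr (xj h hn i * xj h hn i) = x * x ∧ lb (xj h hn i * xj h hn i) = Set.univ := by
  obtain ⟨h1, -, -⟩ := xj_val (h := h) (hn := hn) i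
  have h5 := ((xj_mul (h := h) (hn := hn) hxx i i).1 (ciib_near_self i)).1
  refine ⟨by rw [pr_mul_of _ _ h5, h1], ?_⟩
  refine (lb_mul_j2 _ _ h5 ?_).1 (Set.subset_univ _)
  rw [h1]
  exact ⟨1, 1, 1, by rw [WithOne.coe_mul, one_mul, mul_one, mul_one]⟩

theorem ciib_sq (hxx : ¬ Lw b (x * x)) (i j : Fin n) :
    xj h hn i * xj h hn i = xj h hn j * xj h hn j := by
  obtain ⟨h1, h2⟩ := ciib_sq_val (h := h) (hn := hn) hxx i
  obtain ⟨h3, h4⟩ := ciib_sq_val (h := h) (hn := hn) hxx j
  exact BU_ext (by rw [h1, h3]) (by rw [h2, h4])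

/-- PROOF.  Let `β = jj b`.  If `φ β ≠ β`, the first alternative holds by `flag_b` (no units).  Let `φ β = β`, `W i = φ (xj i)`.
`φ (xj i * xj i)` does not depend on `i`: for near `i`, `j` `xj i * xj i = xj j * xj j` (`xj_mul`), and any two indices are connected by a
path; or by `dec_II` (`xj i * xj i` is not `Rg` and not an `xj j`: `J2`).
If some `W i` is `Rg`: `W j * W j = W i * W i` is `Rg` for all `j` (`pr_mul_rg`), so `W j` is `Rg` by `badII`.  Then all `φ t`, `t` not
`Rg`, are `Rg` (`dec_II`), so `φ t = β * φ t = φ (β * t)` (`rg_iff_b`).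
If no `W i` is `Rg`: `W i * W i` is not `Rg` (`badII`), so `W i` is not `xj j * xj j` (the product of two such elements is `Rg`: `h.j2_low`),
so `W i = xj (σ i)` (`dec_II`).  `near i j`: `W i * W j = φ (xj i * xj j) = φ (xj i * xj i) = W i * W i` is not `Rg`, so
`near (σ i) (σ j)` (`xj_mul`).  Not `near i j`: `W i * W j` is `Rg` (`rg_map`), so not `near (σ i) (σ j)`.  `path_aut`. -/
theorem concl_II (hbad : ¬ Good S x) (hU : ∀ g : S, ¬ Un g) (hn4 : 4 ≤ n)
    (φ : BU h (omOk2 hn) →ₙ* BU h (omOk2 hn)) :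
    (∀ t, ¬ Rg t → φ t = φ (jj h (omOk2 hn) b * t)) ∨ (∀ i, φ (xj h hn i) = xj h hn i) ∨
      ∀ i, φ (xj h hn i) = xj h hn (Fin.rev i) := by
  have hxx : ¬ Lw b (x * x) := xx_not hbad h hU
  by_cases hβ : φ (jj h (omOk2 hn) b) = jj h (omOk2 hn) b
  swap
  · left
    intro t ht
    exact (flag_b φ (Or.inl hβ) ht (hU _)).1
  by_cases hR : ∃ i, Rg (φ (xj h hn i))
  · left
    obtain ⟨i, hi⟩ := hR
    have hall : ∀ j, Rg (φ (xj h hn j)) := by
      intro j
      by_contra hj
      refine badII hbad hU φ hβ (xj_val (h := h) (hn := hn) j).1 hj ?_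
      rw [← map_mul, ciib_sq hxx j i, map_mul]
      exact (pr_mul_rg _ _ (Or.inl hi)).1
    have hrg : ∀ t, ¬ Rg t → Rg (φ t) := by
      intro t ht
      rcases dec_II (hn := hn) hU t ht with ⟨j, rfl⟩ | ⟨-, hj⟩
      · exact hall j
      · rw [hj i, map_mul]
        exact (pr_mul_rg _ _ (Or.inl hi)).1
    intro t ht
    rw [map_mul, hβ]
    exact ((rg_iff_b _).1 (hrg t ht)).symm
  · right
    have hW : ∀ i, ¬ Rg (φ (xj h hn i)) := fun i hi => hR ⟨i, hi⟩
    have hWW : ∀ i, ¬ Rg (φ (xj h hn i) * φ (xj h hn i)) := fun i =>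
      badII hbad hU φ hβ (xj_val (h := h) (hn := hn) i).1 (hW i)
    have hσ : ∀ i, ∃ k, φ (xj h hn i) = xj h hn k := by
      intro i
      rcases dec_II hU _ (hW i) with hk | ⟨-, hk⟩
      · exact hk
      · exfalso
        apply hWW i
        obtain ⟨h1, h2⟩ := ciib_sq_val (h := h) (hn := hn) hxx i
        rw [rg_mul_iff]
        left
        rw [hk i, h1]
        refine (h.j2_low (x * x) (x * x) ?_ (hU _)).1
        exact ⟨1, 1, 1, by rw [WithOne.coe_mul, one_mul, mul_one, mul_one]⟩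
    choose σ hσ using hσ
    have hnear : ∀ i j, near i j ↔ near (σ i) (σ j) := by
      intro i j
      constructor
      · intro hij
        by_contra hnot
        have h1 := (xj_mul (h := h) (hn := hn) hxx (σ i) (σ j)).2.2 hnot
        rw [← hσ i, ← hσ j, ← map_mul, ((xj_mul (h := h) (hn := hn) hxx i j).1 hij).2, map_mul] at h1
        exact hWW i h1
      · intro hij
        by_contra hnot
        have h1 := rg_map φ hβ ((xj_mul (h := h) (hn := hn) hxx i j).2.2 hnot)
        rw [map_mul, hσ i, hσ j] at h1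
        exact ((xj_mul (h := h) (hn := hn) hxx (σ i) (σ j)).1 hij).1 h1
    rcases path_aut hn4 σ hnear with h1 | h1
    · left
      intro i
      rw [hσ i, h1 i]
    · right
      intro i
      rw [hσ i, h1 i]

end

end EVC
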