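import Pool.Agent.EVC.CIIb

/-!
# [EC-CIIc] the case without units: conclusion
-/

set_option autoImplicit false

open EVS

namespace EVC

section
variable {S : Type} [Semigroup S] [Finite S] {b x : S}

theorem ciic_inj {n : ℕ} {h : SF S b x} {hn : 0 < n} (hU : ∀ g : S, ¬ Un g)
    (φ ψ : BU h (omOk2 hn) →ₙ* BU h (omOk2 hn)) (hR : ∀ t, Rg t → φ t = ψ t)
    (hc : ((∀ t, ¬ Rg t → φ t = φ (jj h (omOk2 hn) b * t)) ∧ (∀ t, ¬ Rg t → ψ t = ψ (jj h (omOk2 hn) b * t))) ∨
      (∀ i, φ (xj h hn i) = ψ (xj h hn i))) : φ = ψ := by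
  refine MulHom.ext fun t => ?_
  by_cases ht : Rg t
  · exact hR t ht
  · rcases hc with ⟨h1, h2⟩ | h1
    · rw [h1 t ht, h2 t ht]
      exact hR _ (pr_mul_rg _ _ (Or.inl (jj_val b).2.2)).1
    · rcases dec_II (hn := hn) hU t ht with ⟨i, rfl⟩ | ⟨-, h3⟩
      · exact h1 i
      · rw [h3 ⟨0, hn⟩, map_mul, map_mul, h1]

theorem ciic_card {n : ℕ} {h : SF S b x} {hn : 0 < n} (hbad : ¬ Good S x) (hU : ∀ g : S, ¬ Un g) (hn4 : 4 ≤ n) :
    nEnd (BU h (omOk2 hn)) ≤ 3 * Nat.card S ^ Nat.card S := by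
  classical
  let T := BU h (omOk2 hn)
  let R := {t : BU h (omOk2 hn) // Rg t}
  have hmap : ∀ (φ : BU h (omOk2 hn) →ₙ* BU h (omOk2 hn)) (t : BU h (omOk2 hn)), Rg t → Rg (φ t) := by
    intro φ t ht
    rcases gp_map φ (Or.inl ht) with h1 | h1
    · exact h1
    · exact absurd h1 (hU _)
  have hex : ∀ φ : BU h (omOk2 hn) →ₙ* BU h (omOk2 hn), ∃ c : Fin 3,
      (c = 0 → ∀ t, ¬ Rg t → φ t = φ (jj h (omOk2 hn) b * t)) ∧ (c = 1 → ∀ i, φ (xj h hn i) = xj h hn i) ∧
      (c = 2 → ∀ i, φ (xj h hn i) = xj h hn (Fin.rev i)) := by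
    intro φ
    rcases concl_II hbad hU hn4 φ with h1 | h1 | h1
    · exact ⟨0, fun _ => h1, fun h => absurd h (by decide), fun h => absurd h (by decide)⟩
    · exact ⟨1, fun h => absurd h (by decide), fun _ => h1, fun h => absurd h (by decide)⟩
    · exact ⟨2, fun h => absurd h (by decide), fun h => absurd h (by decide), fun _ => h1⟩
  choose c hc using hex
  let f : (BU h (omOk2 hn) →ₙ* BU h (omOk2 hn)) → Fin 3 × (R → R) :=
    fun φ => (c φ, fun t => ⟨φ t.1, hmap φ t.1 t.2⟩)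
  have hf : Function.Injective f := by
    intro φ ψ hφψ
    have h1 : c φ = c ψ := congrArg Prod.fst hφψ
    have h2 : ∀ t, Rg t → φ t = ψ t := by
      intro t ht
      have h3 := congrFun (congrArg Prod.snd hφψ) ⟨t, ht⟩
      exact congrArg Subtype.val h3
    refine ciic_inj (hn := hn) hU φ ψ h2 ?_
    obtain ⟨h3, h4, h5⟩ := hc φ
    obtain ⟨h6, h7, h8⟩ := hc ψ
    rw [← h1] at h6 h7 h8
    have h9 : c φ = 0 ∨ c φ = 1 ∨ c φ = 2 := by
      generalize c φ = k
      revert k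
      decide
    rcases h9 with h9 | h9 | h9
    · exact Or.inl ⟨h3 h9, h6 h9⟩
    · right
      intro i
      rw [h4 h9, h7 h9]
    · right
      intro i
      rw [h5 h9, h8 h9]
  have hRS : Nat.card R ≤ Nat.card S := by
    refine Nat.card_le_card_of_injective (fun t : R => pr t.1) ?_
    rintro ⟨s, hs⟩ ⟨t, ht⟩ hst
    refine Subtype.ext (BU_ext hst ?_)
    rw [(rg_iff s).1 hs, (rg_iff t).1 ht]
  have h1 : nEnd (BU h (omOk2 hn)) ≤ Nat.card (Fin 3 × (R → R)) := Nat.card_le_card_of_injective f hf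
  have h2 : Nat.card (Fin 3 × (R → R)) = 3 * Nat.card R ^ Nat.card R := by
    rw [Nat.card_prod, Nat.card_fun, Nat.card_eq_fintype_card, Fintype.card_fin]
  have h3 : 0 < Nat.card S := by
    have : Nonempty S := ⟨b⟩
    exact Nat.card_pos
  rw [h2] at h1
  refine h1.trans (Nat.mul_le_mul_left 3 ?_)
  exact (Nat.pow_le_pow_left hRS _).trans (Nat.pow_le_pow_right h3 hRS)

/-- PROOF.  Let `M = Nat.card S`.  For `n ≥ 4` let `T = BU h (omOk2 hn)` and `R = {t | Rg t}`, `|R| ≤ M` (`t ↦ pr t` is injective on `R`,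
`rg_iff`).  Every endomorphism maps `R` to `R` (`gp_map`, there are no units).  `φ ↦ (type, φ restricted to R → R)` is injective
(`concl_II`, `dec_II`): in the first type `jj b * t` is in `R`; in the second and third type the images of `xj i` are
prescribed, and the other elements outside `R` are `xj i * xj i`.  So `nEnd T ≤ 3 * (M + 1) ^ (M + 1)`.  `T` is in `V` (`mem_BU`) and has at
least `n` elements (`xj`, `P2_inj`).  So `V` is not endomorphic (compare `not_endo_I`, CI6.lean). -/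
theorem not_endo_II {V : Set (Wd × Wd)} (hV : Mem V S) (h : SF S b x) (hbad : ¬ Good S x)
    (hU : ∀ g : S, ¬ Un g) : ¬ Endomorphic V := by
  intro H
  obtain ⟨n, hn⟩ := H (3 * Nat.card S ^ Nat.card S)
  have hN : 0 < n + 4 := by omega
  have h1 := hn (BU h (omOk2 hN)) (mem_BU hV) (by
    have h2 : Nat.card (Fin (n + 4)) ≤ Nat.card (BU h (omOk2 hN)) := by
      refine Nat.card_le_card_of_injective (xj h hN) ?_
      intro i j hij
      have h3 := (xj_val (h := h) (hn := hN) i).2.1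
      have h4 := (xj_val (h := h) (hn := hN) j).2.1
      rw [hij, h4] at h3
      exact (P2_inj h3).symm
    rw [Nat.card_eq_fintype_card, Fintype.card_fin] at h2
    omega)
  have h2 := ciic_card (h := h) (hn := hN) hbad hU (by omega)
  omega

end

end EVC
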