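import Pool.Agent.EVS.Final

/-!
# [EVC] configurations: the criterion for endomorphic varieties with central idempotents (MP_2a8755_al)
-/

set_option autoImplicit false

open EVS

namespace EVC

/-- `(S, x)` is a configuration: idempotents of `S` are central, `x` is not an element of a subgroup, `S` is generated
by `x` and the elements of subgroups, all products `x p x q x` (`p`, `q` in `S` or empty) are elements of subgroups, and
the only idempotents of `S` are the idempotent power `b` of `x`, an idempotent `y` below `b` (possibly `y = b`), and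
possibly an identity element of `S`. -/
structure Conf (S : Type) [Semigroup S] (x : S) : Prop where
  central : CentralIdem S
  notGp : ¬ IsGp x
  gen : ∀ s : S, ∃ l : List S, (∀ a ∈ l, IsGp a ∨ a = x) ∧ prd l = (s : WithOne S)
  cls : ∀ (p q : WithOne S) (s : S), (s : WithOne S) = x * p * x * q * x → IsGp s
  idem : ∃ (b y : S) (n : ℕ), pw x n = b ∧ b * b = b ∧ y * y = y ∧ b * y = y ∧
    ∀ f : S, f * f = f → f = b ∨ f = y ∨ ∀ s : S, f * s = s

/-- `(S, x)` is good: `S` has an endomorphism `φ` such that `φ x` is not an element of a subgroup, but all `φ (x p x)`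
(`p` in `S` or empty) are. -/
def Good (S : Type) [Semigroup S] (x : S) : Prop :=
  ∃ φ : S →ₙ* S, ¬ IsGp (φ x) ∧ ∀ (p : WithOne S) (s : S), (s : WithOne S) = x * p * x → IsGp (φ s)

/-- All configurations in the variety `V` are good. -/
def AllGood (V : Set (Wd × Wd)) : Prop :=
  ∀ (S : Type) [Semigroup S] [Finite S], Mem V S → ∀ x : S, Conf S x → Good S x

section
variable {S : Type} [Semigroup S]

/-- `s` is fixed by `b` -/
def Lw (b s : S) : Prop := b * s = s

/-- `s` has a factorization with two factors `x` -/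
def J2 (x s : S) : Prop := ∃ p q r : WithOne S, (s : WithOne S) = p * x * q * x * r

/-- the idempotent power of `s` is an identity element of `S` -/
def Un [Finite S] (s : S) : Prop := ∀ t : S, om s * t = t

/-- the facts about configurations used in the construction of varieties that are not endomorphic -/
structure SF (S : Type) [Semigroup S] [Finite S] (b x : S) : Prop where
  hc : CentralIdem S
  hb : b * b = b
  hxb : om x = b
  hx : b * x ≠ x
  gp : ∀ s : S, IsGp s ↔ Lw b s ∨ Un s
  un_mul : ∀ g h : S, Un g → Un h → Un (g * h)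
  un_inv : ∀ g : S, Un g → ∃ h : S, Un h ∧ g * h = om g ∧ h * g = om g
  un_om : ∀ g h : S, Un g → Un h → om g = om h
  un_lw : ∀ g : S, Un g → ¬ Lw b g
  un_j2 : ∀ g : S, Un g → ¬ J2 x g
  omb : ∀ s : S, ¬ Lw b s → ¬ Un s → om s = b
  form : ∀ s : S, ¬ Lw b s → ¬ Un s → ¬ J2 x s →
    (s = x ∧ ∀ g : S, ¬ Un g) ∨ ∃ g h : S, Un g ∧ Un h ∧ s = g * x * h
  xj2 : ¬ J2 x x
  j2_low : ∀ s t : S, J2 x s → ¬ Un t → Lw b (s * t) ∧ Lw b (t * s)
  prod : ∀ s t : S, ¬ Un s → ¬ Un t → Lw b (s * t) ∨ J2 x (s * t)
  j2form : ∀ s : S, ¬ Lw b s → J2 x s →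
    (s = x * x ∧ ∀ g : S, ¬ Un g) ∨ ∃ p q r : S, Un p ∧ Un q ∧ Un r ∧ s = p * x * q * x * r

theorem Lw.mul_right {b s : S} (h : Lw b s) (t : S) : Lw b (s * t) := by
  unfold Lw at *
  rw [← mul_assoc, h]

theorem Lw.mul_left (hc : CentralIdem S) {b s : S} (hb : b * b = b) (h : Lw b s) (t : S) : Lw b (t * s) := by
  unfold Lw at *
  rw [← mul_assoc, hc b t hb, mul_assoc, h]

theorem lw_b {b : S} (hb : b * b = b) (t : S) : Lw b (b * t) := by
  unfold Lw
  rw [← mul_assoc, hb]

end

end EVC
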