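import Pool.Agent.EVC.S2

/-!
# [EC-S3] the facts about configurations, second part
-/

set_option autoImplicit false

open EVS

namespace EVC

variable {S : Type} [Semigroup S] [Finite S]

theorem s3_cases {S : Type} [Semigroup S] (c : WithOne S) : c = 1 ∨ ∃ a : S, c = (a : WithOne S) :=
  WithOne.cases_on c (Or.inl rfl) (fun a => Or.inr ⟨a, rfl⟩)

/-- `b` commutes with all elements of `S` or the empty word -/
theorem s3_comm {x : S} (h : Conf S x) (u : WithOne S) :
    ((om x : S) : WithOne S) * u = u * ((om x : S) : WithOne S) := by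
  rcases s3_cases u with rfl | ⟨a, rfl⟩
  · rw [one_mul, mul_one]
  · rw [← WithOne.coe_mul, ← WithOne.coe_mul, h.central _ a (om_idem x)]

theorem s3_lw {x : S} (h : Conf S x) {s t : S} {u v : WithOne S} (hs : (s : WithOne S) = u * t * v)
    (ht : Lw (om x) t) : Lw (om x) s := by
  unfold Lw at *
  apply WithOne.coe_injective
  rw [WithOne.coe_mul, hs, ← mul_assoc, ← mul_assoc, s3_comm h, mul_assoc u, ← WithOne.coe_mul, ht]

theorem s3_cls {x : S} (h : Conf S x) {t : S} (ht : ¬ Un t) :
    Lw (om x) t ∨ ∃ p r : WithOne S, (t : WithOne S) = p * x * r := by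
  rcases conf_class h t with h1 | h1 | ⟨p, q, r, h1⟩ | ⟨p, r, -, -, h1⟩
  · exact Or.inl h1
  · exact absurd h1 ht
  · exact Or.inr ⟨p, q * x * r, by rw [h1]; simp only [mul_assoc]⟩
  · exact Or.inr ⟨p, r, h1⟩

theorem s3_unit {x : S} (h : Conf S x) {g : S} (hg : Un g) {c : WithOne S}
    (hc : c = 1 ∨ ∃ k : S, Un k ∧ c = (k : WithOne S)) :
    ∃ c' : S, Un c' ∧ (∀ t : S, (c' : WithOne S) * t = c * t) ∧ ∀ t : S, (t : WithOne S) * c' = t * c := by
  rcases hc with rfl | ⟨k, hk, rfl⟩
  · obtain ⟨h1, h2⟩ := un_om' h.central hg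
    refine ⟨om g, h1, fun t => ?_, fun t => ?_⟩
    · rw [← WithOne.coe_mul, hg t, one_mul]
    · rw [← WithOne.coe_mul, h2 t, mul_one]
  · exact ⟨k, hk, fun _ => rfl, fun _ => rfl⟩

/-- PROOF.  Apply `conf_class` to `t`.  If `Lw b t` (`b = om x`), then `s t`, `t s` are `Lw` (`Lw.mul_left`, `Lw.mul_right`).
Otherwise (`t` is not a unit) `t = p' x r'` for some `p'`, `r'` in `S` or empty, and `s = p x q x r`; then `s t` and `t s` have
three factors `x`: `conf_lw3`. -/
theorem sf_j2_low {x : S} (h : Conf S x) {s t : S} (hs : J2 x s) (ht : ¬ Un t) :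
    Lw (om x) (s * t) ∧ Lw (om x) (t * s) := by
  obtain ⟨p, q, r, hs⟩ := hs
  rcases s3_cls h ht with h1 | ⟨p', r', h1⟩
  · exact ⟨h1.mul_left h.central (om_idem x) s, h1.mul_right s⟩
  · constructor
    · refine conf_lw3 h (u := p) (p := q) (q := r * p') (v := r') ?_
      rw [WithOne.coe_mul, hs, h1]
      simp only [mul_assoc]
    · refine conf_lw3 h (u := p') (p := r' * p) (q := q) (v := r) ?_
      rw [WithOne.coe_mul, hs, h1]
      simp only [mul_assoc]

/-- PROOF.  Apply `conf_class` to both.  If one is `Lw`, so is the product.  Otherwise both have a factor `x`, and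
`s t` has two: `J2`. -/
theorem sf_prod {x : S} (h : Conf S x) {s t : S} (hs : ¬ Un s) (ht : ¬ Un t) :
    Lw (om x) (s * t) ∨ J2 x (s * t) := by
  rcases s3_cls h hs with h1 | ⟨p, r, h1⟩
  · exact Or.inl (h1.mul_right t)
  · rcases s3_cls h ht with h2 | ⟨p', r', h2⟩
    · exact Or.inl (h2.mul_left h.central (om_idem x) s)
    · refine Or.inr ⟨p, r * p', r', ?_⟩
      rw [WithOne.coe_mul, h1, h2]
      simp only [mul_assoc]

/-- PROOF.  `s = p x q x r`, not `Lw`.  Each of `p`, `q`, `r` is empty or a unit: if one of them is an element `t` of `S` which is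
not a unit, then by `conf_class` `Lw b t`, and then `Lw b s`, or `t` has a factor `x`, and then `s` has three
(`conf_lw3`), so `Lw b s`, a contradiction.  If there is a unit `g` in `S`, replace empty factors by `om g` (an identity, `un_om'`);
if there is none, all three are empty and `s = x * x`. -/
theorem sf_j2form {x : S} (h : Conf S x) {s : S} (hs : ¬ Lw (om x) s) (hj : J2 x s) :
    (s = x * x ∧ ∀ g : S, ¬ Un g) ∨ ∃ p q r : S, Un p ∧ Un q ∧ Un r ∧ s = p * x * q * x * r := by
  obtain ⟨p, q, r, hj⟩ := hj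
  have hp : p = 1 ∨ ∃ k : S, Un k ∧ p = (k : WithOne S) := by
    rcases s3_cases p with rfl | ⟨a, rfl⟩
    · exact Or.inl rfl
    · by_cases ha : Un a
      · exact Or.inr ⟨a, ha, rfl⟩
      · exfalso
        rcases s3_cls h ha with h1 | ⟨p', r', h1⟩
        · exact hs (s3_lw h (u := 1) (v := x * q * x * r) (by rw [hj]; simp only [mul_assoc, one_mul]) h1)
        · refine hs (conf_lw3 h (u := p') (p := r') (q := q) (v := r) ?_)
          rw [hj, h1]
          simp only [mul_assoc]
  have hq : q = 1 ∨ ∃ k : S, Un k ∧ q = (k : WithOne S) := by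
    rcases s3_cases q with rfl | ⟨a, rfl⟩
    · exact Or.inl rfl
    · by_cases ha : Un a
      · exact Or.inr ⟨a, ha, rfl⟩
      · exfalso
        rcases s3_cls h ha with h1 | ⟨p', r', h1⟩
        · exact hs (s3_lw h (u := p * x) (v := x * r) (by rw [hj]; simp only [mul_assoc]) h1)
        · refine hs (conf_lw3 h (u := p) (p := p') (q := r') (v := r) ?_)
          rw [hj, h1]
          simp only [mul_assoc]
  have hr : r = 1 ∨ ∃ k : S, Un k ∧ r = (k : WithOne S) := by
    rcases s3_cases r with rfl | ⟨a, rfl⟩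
    · exact Or.inl rfl
    · by_cases ha : Un a
      · exact Or.inr ⟨a, ha, rfl⟩
      · exfalso
        rcases s3_cls h ha with h1 | ⟨p', r', h1⟩
        · exact hs (s3_lw h (u := p * x * q * x) (v := 1) (by rw [hj]; simp only [mul_assoc, mul_one]) h1)
        · refine hs (conf_lw3 h (u := p) (p := q) (q := p') (v := r') ?_)
          rw [hj, h1]
          simp only [mul_assoc]
  by_cases hex : ∃ g : S, Un g
  · right
    obtain ⟨g, hg⟩ := hex
    obtain ⟨p', hp1, hp2, -⟩ := s3_unit h hg hp
    obtain ⟨q', hq1, -, hq3⟩ := s3_unit h hg hq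
    obtain ⟨r', hr1, -, hr3⟩ := s3_unit h hg hr
    refine ⟨p', q', r', hp1, hq1, hr1, ?_⟩
    apply WithOne.coe_injective
    rw [hj, ← hp2, ← WithOne.coe_mul, ← hq3, ← WithOne.coe_mul, ← WithOne.coe_mul, ← hr3, ← WithOne.coe_mul]
  · left
    push Not at hex
    refine ⟨?_, hex⟩
    rcases hp with rfl | ⟨k, hk, -⟩
    · rcases hq with rfl | ⟨k, hk, -⟩
      · rcases hr with rfl | ⟨k, hk, -⟩
        · apply WithOne.coe_injective
          rw [hj, WithOne.coe_mul]
          simp only [one_mul, mul_one]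
        · exact absurd hk (hex k)
      · exact absurd hk (hex k)
    · exact absurd hk (hex k)

/-- PROOF.  By `conf_class` `s = p x r` with `p`, `r` units or empty.  If there is a unit `g`, replace empty factors by
`om g` (an identity, `un_om'`).  If there is no unit, `s = x`. -/
theorem sf_form {x : S} (h : Conf S x) {s : S} (hs : ¬ Lw (om x) s) (hu : ¬ Un s) (hj : ¬ J2 x s) :
    (s = x ∧ ∀ g : S, ¬ Un g) ∨ ∃ g k : S, Un g ∧ Un k ∧ s = g * x * k := by
  rcases conf_class h s with h1 | h1 | h1 | ⟨p, r, hp, hr, h1⟩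
  · exact absurd h1 hs
  · exact absurd h1 hu
  · exact absurd h1 hj
  · by_cases hex : ∃ g : S, Un g
    · right
      obtain ⟨g, hg⟩ := hex
      obtain ⟨p', hp1, hp2, -⟩ := s3_unit h hg hp
      obtain ⟨r', hr1, -, hr3⟩ := s3_unit h hg hr
      refine ⟨p', r', hp1, hr1, ?_⟩
      apply WithOne.coe_injective
      rw [h1, ← hp2, ← WithOne.coe_mul, ← hr3, ← WithOne.coe_mul]
    · left
      push Not at hex
      refine ⟨?_, hex⟩
      rcases hp with rfl | ⟨k, hk, -⟩
      · rcases hr with rfl | ⟨k, hk, -⟩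
        · apply WithOne.coe_injective
          rw [h1, one_mul, mul_one]
        · exact absurd hk (hex k)
      · exact absurd hk (hex k)

/-- PROOF.  By `sf_form` or `sf_j2form` `s` is a product of units and one or two factors `x`, so `om s` is the product of
`om x` and identities (`om_mul`), i.e. `om s = om x`. -/
theorem sf_omb {x : S} (h : Conf S x) {s : S} (hs : ¬ Lw (om x) s) (hu : ¬ Un s) : om s = om x := by
  have hc := h.central
  by_cases hj : J2 x s
  · rcases sf_j2form h hs hj with ⟨rfl, -⟩ | ⟨p, q, r, hp, hq, hr, rfl⟩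
    · rw [om_mul hc, om_idem]
    · rw [om_mul hc, om_mul hc, om_mul hc, om_mul hc, hp, (un_om' hc hq).2, om_idem, (un_om' hc hr).2]
  · rcases sf_form h hs hu hj with ⟨rfl, -⟩ | ⟨g, k, hg, hk, rfl⟩
    · rfl
    · rw [om_mul hc, om_mul hc, hg, (un_om' hc hk).2]

theorem sf_of_conf {x : S} (h : Conf S x) : SF S (om x) x where
  hc := h.central
  hb := om_idem x
  hxb := rfl
  hx := sf_hx h
  gp := sf_gp h
  un_mul := fun _ _ hg hh => (sf_un h.central hg hh).2.1
  un_inv := fun _ hg => (sf_un h.central hg hg).2.2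
  un_om := fun _ _ hg hh => (sf_un h.central hg hh).1
  un_lw := fun _ hg => (sf_un_not h hg).1
  un_j2 := fun _ hg => (sf_un_not h hg).2
  omb := fun _ hs hu => sf_omb h hs hu
  form := fun _ hs hu hj => sf_form h hs hu hj
  xj2 := sf_xj2 h
  j2_low := fun _ _ hs ht => sf_j2_low h hs ht
  prod := fun _ _ hs ht => sf_prod h hs ht
  j2form := fun _ hs hj => sf_j2form h hs hj

end EVC
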