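import Pool.Agent.EVC.CI6b
import Pool.Agent.EVC.CIIc
import Pool.Agent.EVC.S3

/-!
# [EC-FA] bad configurations: the variety is not endomorphic
-/

set_option autoImplicit false

open EVS

namespace EVC

theorem allGood_of_endo {V : Set (Wd × Wd)} (hE : Endomorphic V) : AllGood V := by
  intro S _ _ hV x hx
  by_contra hbad
  have h := sf_of_conf hx
  by_cases hU : ∃ g : S, Un g
  · exact not_endo_I hV h hbad hU hE
  · exact not_endo_II hV h hbad (fun g hg => hU ⟨g, hg⟩) hE

end EVC
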