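import Pool.Agent.EVC.Q6
import Pool.Agent.EVC.FA

/-!
# [EVC] the classification of the endomorphic varieties containing `C2`, or with central idempotents
-/

set_option autoImplicit false

open EVS

namespace EVC

theorem classification (V : Set (Wd × Wd))
    (h : Mem V C2 ∨ ∀ (S : Type) [Semigroup S] [Finite S], Mem V S → CentralIdem S) :
    Endomorphic V ↔ (Mem V C2 → ¬ Mem V P ∧ ¬ Mem V Pᵐᵒᵖ) ∧ AllGood V := by
  constructor
  · intro hE
    exact ⟨(necessary V hE).2, allGood_of_endo hE⟩
  · rintro ⟨h1, h2⟩
    refine endo_of_allGood h2 ?_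
    intro S _ _ hS
    rcases h with h | h
    · obtain ⟨h3, h4⟩ := h1 h
      exact central_of_P h h3 h4 hS
    · exact h S hS

end EVC
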