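import Pool.Agent.EVC.G3d

/-!
# [EC-G4] subgroups of the members of a variety
-/

set_option autoImplicit false

open EVS

namespace EVC

/-- PROOF.  Let `g`, `k` be group elements with the same idempotent power `d`.  `exists_group2` (EVS/E3.lean) gives a group structure on
`GH S d = {g // om g = d ∧ g * d = g}` with the multiplication of `S`; it is finite and in `V` (`mem_of_div`, EVS/H1.lean, with `D` the set
of these elements and `g s = ⟨s, _⟩` for `s` in `D`, any value otherwise).  `g`, `k` are in it (`isGp_iff`), so they commute by `hG`.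
`g ^ n = 1` in `GH S d` gives `pw g n = g ^ (n + 1) = g` (induction: the value of `g ^ (m + 1)` is `pw g m`). -/
theorem abE_of {V : Set (Wd × Wd)} {n : ℕ}
    (hG : ∀ (G : Type) [Group G] [Finite G], Mem V G → (∀ a b : G, a * b = b * a) ∧ ∀ a : G, a ^ n = 1)
    {S : Type} [Semigroup S] [Finite S] (hc : CentralIdem S) (hS : Mem V S) : AbE S n := by
  classical
  have key : ∀ d : S, d * d = d → (∀ g k : S, om g = d → g * d = g → om k = d → k * d = k → g * k = k * g) ∧
      ∀ g : S, om g = d → g * d = g → pw g n = g := by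
    intro d hd
    obtain ⟨Gr, hGr⟩ := exists_group2 hc hd
    have hmem : Mem V (GH S d) := by
      refine mem_of_div (T := S) {s : S | om s = d ∧ s * d = s}
        (fun s => if h : om s = d ∧ s * d = s then ⟨s, h⟩ else ⟨d, om_of_idem hd, hd⟩) ?_ ?_ ?_ hS
      · rintro a ⟨ha1, ha2⟩ b ⟨hb1, hb2⟩
        exact gh_mul hc hd ha1 ha2 hb1 hb2
      · intro a ha b hb
        have hab := gh_mul hc hd ha.1 ha.2 hb.1 hb.2
        have ha' : om a = d ∧ a * d = a := ha
        have hb' : om b = d ∧ b * d = b := hb
        rw [dif_pos hab, dif_pos ha', dif_pos hb']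
        apply Subtype.ext
        rw [hGr]
      · rintro ⟨s, hs⟩
        exact ⟨s, hs, dif_pos hs⟩
    obtain ⟨h1, h2⟩ := hG (GH S d) hmem
    constructor
    · intro g k hg1 hg2 hk1 hk2
      have := h1 ⟨g, hg1, hg2⟩ ⟨k, hk1, hk2⟩
      have h3 := congrArg (fun u : GH S d => (u : S)) this
      simp only [hGr] at h3
      exact h3
    · intro g hg1 hg2
      have hp : ∀ m : ℕ, (((⟨g, hg1, hg2⟩ : GH S d) ^ (m + 1) : GH S d) : S) = pw g m := by
        intro m
        induction m with
        | zero => rw [zero_add, pow_one]; rfl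
        | succ m ih => rw [pow_succ, hGr, ih, pw_succ]
      have h3 := hp n
      rw [pow_succ, h2, one_mul] at h3
      exact h3.symm
  constructor
  · intro g k hg hk hgk
    have h1 := isGp_iff.1 hg
    have h2 := isGp_iff.1 hk
    exact (key (om g) (om_idem g)).1 g k rfl h1 hgk.symm (by rw [hgk]; exact h2)
  · intro g hg
    exact (key (om g) (om_idem g)).2 g rfl (isGp_iff.1 hg)

end EVC
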