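import Pool.Agent.EVC.Fin1
import Pool.Agent.EVC.G4

/-!
# [EVC] varieties containing `C2` whose finite groups are abelian
-/

set_option autoImplicit false

open EVS

namespace EVC

theorem allGood_of_ab {V : Set (Wd × Wd)} {n : ℕ} (hn : 0 < n) (h8 : ¬ 8 ∣ n)
    (hp : ∀ p : ℕ, p.Prime → p ≠ 2 → ¬ p ^ 2 ∣ n)
    (hG : ∀ (G : Type) [Group G] [Finite G], Mem V G → (∀ a b : G, a * b = b * a) ∧ ∀ a : G, a ^ n = 1) :
    AllGood V := by
  intro S _ _ hS x hx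
  have hab := abE_of hG hx.central hS
  by_cases hU : ∃ g : S, Un g
  · exact good_of_unit hn h8 hp hx hab hU
  · exact good_of_noUnit hx hab fun g hg => hU ⟨g, hg⟩

theorem classification_ab (V : Set (Wd × Wd)) (hC : Mem V C2) {n : ℕ} (hn : 0 < n) (h8 : ¬ 8 ∣ n)
    (hp : ∀ p : ℕ, p.Prime → p ≠ 2 → ¬ p ^ 2 ∣ n)
    (hG : ∀ (G : Type) [Group G] [Finite G], Mem V G → (∀ a b : G, a * b = b * a) ∧ ∀ a : G, a ^ n = 1) :
    Endomorphic V ↔ ¬ Mem V P ∧ ¬ Mem V Pᵐᵒᵖ := by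
  rw [classification V (Or.inl hC)]
  exact ⟨fun h => h.1 hC, fun h => ⟨fun _ => h, allGood_of_ab hn h8 hp hG⟩⟩

end EVC
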