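import Pool.Agent.EVC.W2

/-!
# [EC-W2b] good `W`
-/

set_option autoImplicit false

open EVS

namespace EVC

section
variable {G H K : Type} [AddCommGroup G] [AddCommGroup H] [AddCommGroup K]

/-- the level of an element -/
def w2b_lev : W G H K → ℕ
  | .l i _ => (i : ℕ)
  | .h _ => 3
  | .y _ => 4

theorem w2b_lev_mul (D : WD G H K) (a c : WS D) :
    w2b_lev a ≤ w2b_lev (a * c : WS D) ∧ w2b_lev c ≤ w2b_lev (a * c : WS D) := by
  show w2b_lev a ≤ w2b_lev (D.mul a c) ∧ w2b_lev c ≤ w2b_lev (D.mul a c)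
  rcases a with ⟨i, g⟩ | t | s
  · rcases c with ⟨j, g'⟩ | t' | s'
    · fin_cases i <;> fin_cases j <;> exact ⟨by simp [WD.mul, w2b_lev], by simp [WD.mul, w2b_lev]⟩
    · fin_cases i <;> exact ⟨by simp [WD.mul, w2b_lev], by simp [WD.mul, w2b_lev]⟩
    · fin_cases i <;> exact ⟨by simp [WD.mul, w2b_lev], by simp [WD.mul, w2b_lev]⟩
  · rcases c with ⟨j, g'⟩ | t' | s'
    · fin_cases j <;> exact ⟨by simp [WD.mul, w2b_lev], by simp [WD.mul, w2b_lev]⟩
    · exact ⟨by simp [WD.mul, w2b_lev], by simp [WD.mul, w2b_lev]⟩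
    · exact ⟨by simp [WD.mul, w2b_lev], by simp [WD.mul, w2b_lev]⟩
  · rcases c with ⟨j, g'⟩ | t' | s'
    · fin_cases j <;> exact ⟨by simp [WD.mul, w2b_lev], by simp [WD.mul, w2b_lev]⟩
    · exact ⟨by simp [WD.mul, w2b_lev], by simp [WD.mul, w2b_lev]⟩
    · exact ⟨by simp [WD.mul, w2b_lev], by simp [WD.mul, w2b_lev]⟩

theorem w2b_lev_zero (D : WD G H K) (a : WS D) (h : w2b_lev a ≤ 0) : ∃ g, a = D.ell 0 g := by
  rcases a with ⟨i, g⟩ | t | s
  · fin_cases i
    · exact ⟨g, rfl⟩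
    · simp [w2b_lev] at h
    · simp [w2b_lev] at h
  · simp [w2b_lev] at h
  · simp [w2b_lev] at h

theorem w2b_lev_three (D : WD G H K) (a : WS D) (h : w2b_lev a = 3) : ∃ t, a = D.hh t := by
  rcases a with ⟨i, g⟩ | t | s
  · fin_cases i <;> simp [w2b_lev] at h
  · exact ⟨t, rfl⟩
  · simp [w2b_lev] at h

theorem w2b_lev_four (D : WD G H K) (a : WS D) (h : 4 ≤ w2b_lev a) : ∃ s, a = D.yy s := by
  rcases a with ⟨i, g⟩ | t | s
  · fin_cases i <;> simp [w2b_lev] at h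
  · simp [w2b_lev] at h
  · exact ⟨s, rfl⟩

theorem w2b_ell_inj (D : WD G H K) {i j : Fin 3} {g g' : G} (h : D.ell i g = D.ell j g') :
    i = j ∧ g = g' := by
  have h' : (W.l i g : W G H K) = W.l j g' := h
  injection h' with h1 h2
  exact ⟨h1, h2⟩

theorem w2b_hh_inj (D : WD G H K) {t t' : H} (h : D.hh t = D.hh t') : t = t' := by
  have h' : (W.h t : W G H K) = W.h t' := h
  injection h'

theorem w2b_yy_inj (D : WD G H K) {t t' : K} (h : D.yy t = D.yy t') : t = t' := by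
  have h' : (W.y t : W G H K) = W.y t' := h
  injection h'

/-- `hh 0` is a power of `ell 1 0` -/
theorem w2b_pw (D : WD G H K) (m : ℕ) : pw (D.ell 1 0) (m + 2) = D.hh ((m + 3) • D.k) := by
  induction m with
  | zero =>
    show D.ell 1 0 * D.ell 1 0 * D.ell 1 0 = _
    obtain ⟨-, -, h1, -⟩ := W_table D 0 0 0 0 0 0 0
    rw [h1]
    obtain ⟨-, -, -, -, h2, -⟩ := W_table D 0 (D.u 0 + 0) 0 0 0 0 0
    rw [h2]
    congr 1
    simp only [WD.th, map_zero, add_zero, zero_add]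
    show (2 : ℕ) • D.k + (1 : ℕ) • D.k = 3 • D.k
    rw [← add_smul]
  | succ m ih =>
    rw [show m + 1 + 2 = (m + 2) + 1 from rfl, pw_succ, ih]
    obtain ⟨-, -, -, -, -, -, -, h1, -⟩ := W_table D 1 0 0 ((m + 3) • D.k) 0 0 0
    rw [h1]
    congr 1
    simp only [WD.th, map_zero, add_zero]
    show (m + 3) • D.k + (1 : ℕ) • D.k = (m + 1 + 3) • D.k
    rw [← add_smul]

theorem w2b_pow2 (D : WD G H K) (g : G) (m : ℕ) : ∃ t, pw (D.ell 2 g) (m + 1) = D.hh t := by
  induction m with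
  | zero =>
    obtain ⟨-, -, -, -, -, h1, -⟩ := W_table D 0 g g 0 0 0 0
    exact ⟨_, h1⟩
  | succ m ih =>
    obtain ⟨t, ht⟩ := ih
    obtain ⟨-, -, -, -, -, -, -, h1, -⟩ := W_table D 2 g 0 t 0 0 0
    exact ⟨_, by rw [pw_succ, ht, h1]⟩

/-- The endomorphisms which show that `W` is good.
PROOF.  Let `φ` be as in `Good`, `x = l 1 0`, `b = h 0`, `e = l 0 0`, `c = y 0`.  `φ x` is not a group element, so `φ x = l i g` with
`i = 1` or `2` (`W_gp`, `W_cases`).  `φ (x * x)` is a group element; if `i = 1`, `φ x * φ x = l 2 _` is not: so `φ x = l 2 g`.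
`b` is a power of `x` (see `W_conf`), so `φ b` is the same power of `φ x`, it is `h _` (powers with exponent `≥ 2` of `l 2 g`), and idempotent:
`φ b = b`.  `φ e * φ x = φ x`, `φ e` is idempotent, so `φ e = e` (`W_idem`; `h 0 * l 2 g`, `y 0 * l 2 g` are not `l _ _`).
`φ (l 0 g')`: `φ (l 0 g') * φ (l 0 (-g')) = e` gives `φ (l 0 g') = l 0 (α g')` (only products of two `l 0 _` are `l 0 _`), `α` additive.
`φ (h t)`: `φ (h t) = b * φ (h t)` is `h _` or `y _`, and `φ (h t) * φ (h (-t)) = b = h 0` gives `φ (h t) = h (β t)`, `β` additive.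
`φ c` is idempotent and `b * φ c = φ c` (`b * c = c`), so `φ c = c` or `φ c = b`.  If `φ c = c`: `φ (y s) = c * φ (y s)` is `y (δ s)`,
`δ` additive, and `y (r t) = c * h t` gives `δ (r t) = r (β t)`.  If `φ c = b`: `φ (y s) = b * φ (y s)` and `φ (y s) * φ (y (-s)) = b`
give `φ (y s) = h (δ' s)`, `δ'` additive, and `δ' (r t) = β t` (from `c * h t = y (r t)`); put `δ = r ∘ δ'`.
`l 0 g' * x = x * l 0 (u g')` (table: both are `l 1 (u g')`), so `l 0 (α g') * l 2 g = l 2 g * l 0 (α (u g'))`, i.e.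
`u (u (α g')) + g = g + α (u g')`.  `b * x = h k`: `h (2 • k + π g) = b * l 2 g = h (β k)`.  `b * l 0 g' = h (π g')`:
`β (π g') = π (α g')`. -/
theorem W_good [Finite H] (D : WD G H K) (hg : Good (WS D) (D.ell 1 0)) :
    ∃ (α : G →+ G) (β : H →+ H) (δ : K →+ K) (g : G), (∀ a, α (D.u a) = D.u (D.u (α a))) ∧
      (∀ a, β (D.π a) = D.π (α a)) ∧ (∀ t, D.r (β t) = δ (D.r t)) ∧ β D.k = 2 • D.k + D.π g := by
  obtain ⟨φ, hx, hgp⟩ := hg
  -- step 1
  have hx2 : ∃ g, φ (D.ell 1 0) = D.ell 2 g := by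
    rcases W_cases D (φ (D.ell 1 0)) with ⟨i, g, h1⟩ | ⟨t, h1⟩ | ⟨s, h1⟩
    · have hne : i ≠ 0 := by
        intro h2
        apply hx
        rw [h1, (W_gp D).1]
        exact h2
      by_cases h3 : i = 1
      · exfalso
        have h4 := hgp 1 (D.ell 1 0 * D.ell 1 0) (by rw [mul_one, WithOne.coe_mul])
        rw [map_mul, h1, h3] at h4
        obtain ⟨-, -, h5, -⟩ := W_table D 0 g g 0 0 0 0
        rw [h5, (W_gp D).1] at h4
        exact absurd h4 (by decide)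
      · have h4 : i = 2 := by
          fin_cases i
          · exact absurd rfl hne
          · exact absurd rfl h3
          · rfl
        exact ⟨g, by rw [h1, h4]⟩
    · exact absurd (by rw [h1]; exact (W_gp D).2.1 t) hx
    · exact absurd (by rw [h1]; exact (W_gp D).2.2 s) hx
  obtain ⟨g, hφx⟩ := hx2
  have hlev2 : ∀ g' : G, w2b_lev (D.ell 2 g' : WS D) = 2 := fun _ => rfl
  have hlev0 : ∀ g' : G, w2b_lev (D.ell 0 g' : WS D) = 0 := fun _ => rfl
  have hlevh : ∀ t : H, w2b_lev (D.hh t : WS D) = 3 := fun _ => rfl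
  have hlevy : ∀ s : K, w2b_lev (D.yy s : WS D) = 4 := fun _ => rfl
  have hidem : ∀ f : WS D, f * f = f → φ f * φ f = φ f := fun f hf => by rw [← map_mul, hf]
  have hee : D.ell 0 0 * D.ell 0 0 = D.ell 0 0 := by
    obtain ⟨h1, -⟩ := W_table D 0 0 0 0 0 0 0
    rw [h1]
    congr 1
    show (0 : G) + 0 = 0
    rw [add_zero]
  have hbb : D.hh 0 * D.hh 0 = D.hh 0 := by
    obtain ⟨-, -, -, -, -, -, -, -, h1, -⟩ := W_table D 0 0 0 0 0 0 0
    rw [h1, add_zero]
  have hyy : D.yy 0 * D.yy 0 = D.yy 0 := by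
    obtain ⟨-, -, -, -, -, -, -, -, -, -, -, -, -, h1⟩ := W_table D 0 0 0 0 0 0 0
    rw [h1, add_zero]
  -- step 2
  have hφb : φ (D.hh 0) = D.hh 0 := by
    have hcard : 0 < Nat.card H := Nat.card_pos
    have h1 := w2b_pw D (3 * Nat.card H - 3)
    have h2 : 3 * Nat.card H - 3 + 3 = 3 * Nat.card H := by omega
    have h3 : (3 * Nat.card H) • D.k = 0 := by
      rw [mul_comm, mul_smul, card_nsmul_eq_zero']
    rw [h2, h3] at h1
    obtain ⟨t, ht⟩ := w2b_pow2 D g (3 * Nat.card H - 3 + 1)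
    have h4 : φ (D.hh 0) = D.hh t := by
      rw [← h1, map_pw, hφx, ← ht]
    rcases W_idem D _ (hidem _ hbb) with h5 | h5 | h5
    · rw [h4] at h5
      have := congrArg w2b_lev h5
      rw [hlevh, hlev0] at this
      omega
    · exact h5
    · rw [h4] at h5
      have := congrArg w2b_lev h5
      rw [hlevh, hlevy] at this
      omega
  -- step 3
  have hφe : φ (D.ell 0 0) = D.ell 0 0 := by
    have h1 : D.ell 0 0 * D.ell 1 0 = D.ell 1 0 := by
      obtain ⟨h1, -⟩ := W_table D 1 0 0 0 0 0 0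
      rw [h1]
      congr 1
      show D.u 0 + 0 = 0
      rw [map_zero, add_zero]
    have h2 : φ (D.ell 0 0) * φ (D.ell 1 0) = φ (D.ell 1 0) := by rw [← map_mul, h1]
    have h3 := (w2b_lev_mul D (φ (D.ell 0 0)) (φ (D.ell 1 0))).1
    rw [h2, hφx, hlev2] at h3
    rcases W_idem D _ (hidem _ hee) with h5 | h5 | h5
    · exact h5
    · rw [h5, hlevh] at h3
      omega
    · rw [h5, hlevy] at h3
      omega
  -- step 4
  have hG : ∀ a : G, ∃ a' : G, φ (D.ell 0 a) = D.ell 0 a' := by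
    intro a
    apply w2b_lev_zero
    have h1 : D.ell 0 a * D.ell 0 (-a) = D.ell 0 0 := by
      obtain ⟨h1, -⟩ := W_table D 0 a (-a) 0 0 0 0
      rw [h1]
      congr 1
      show a + -a = 0
      rw [add_neg_cancel]
    have h3 := (w2b_lev_mul D (φ (D.ell 0 a)) (φ (D.ell 0 (-a)))).1
    rw [← map_mul, h1, hφe, hlev0] at h3
    exact h3
  choose α hα using hG
  have hαadd : ∀ a a', α (a + a') = α a + α a' := by
    intro a a'
    have h1 : D.ell 0 a * D.ell 0 a' = D.ell 0 (a + a') := (W_table D 0 a a' 0 0 0 0).1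
    have h2 : D.ell 0 (α a) * D.ell 0 (α a') = D.ell 0 (α a + α a') :=
      (W_table D 0 (α a) (α a') 0 0 0 0).1
    have h3 : φ (D.ell 0 (a + a')) = D.ell 0 (α a + α a') := by
      rw [← h1, map_mul, hα, hα, h2]
    rw [hα] at h3
    exact (w2b_ell_inj D h3).2
  -- step 5
  have hH : ∀ t : H, ∃ t' : H, φ (D.hh t) = D.hh t' := by
    intro t
    apply w2b_lev_three
    obtain ⟨-, -, -, -, -, -, -, -, h1, -⟩ := W_table D 0 0 0 0 t 0 0
    rw [zero_add] at h1
    obtain ⟨-, -, -, -, -, -, -, -, h2, -⟩ := W_table D 0 0 0 t (-t) 0 0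
    rw [add_neg_cancel] at h2
    have h3 := (w2b_lev_mul D (φ (D.hh 0)) (φ (D.hh t))).1
    rw [← map_mul, h1, hφb, hlevh] at h3
    have h4 := (w2b_lev_mul D (φ (D.hh t)) (φ (D.hh (-t)))).1
    rw [← map_mul, h2, hφb, hlevh] at h4
    omega
  choose β hβ using hH
  have hβadd : ∀ t t', β (t + t') = β t + β t' := by
    intro t t'
    obtain ⟨-, -, -, -, -, -, -, -, h1, -⟩ := W_table D 0 0 0 t t' 0 0
    obtain ⟨-, -, -, -, -, -, -, -, h2, -⟩ := W_table D 0 0 0 (β t) (β t') 0 0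
    have h3 : φ (D.hh (t + t')) = D.hh (β t + β t') := by
      rw [← h1, map_mul, hβ, hβ, h2]
    rw [hβ] at h3
    exact w2b_hh_inj D h3
  -- step 6
  have hcy : ∀ s : K, D.yy 0 * D.yy s = D.yy s := by
    intro s
    obtain ⟨-, -, -, -, -, -, -, -, -, -, -, -, -, h1⟩ := W_table D 0 0 0 0 0 0 s
    rw [h1, zero_add]
  have hch : ∀ t : H, D.yy 0 * D.hh t = D.yy (D.r t) := by
    intro t
    obtain ⟨-, -, -, -, -, -, -, -, -, -, -, -, h1, -⟩ := W_table D 0 0 0 t 0 0 0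
    rw [h1, zero_add]
  have hδ : ∃ δ : K →+ K, ∀ t, D.r (β t) = δ (D.r t) := by
    have h1 : D.hh 0 * D.yy 0 = D.yy 0 := by
      obtain ⟨-, -, -, -, -, -, -, -, -, -, -, h1, -⟩ := W_table D 0 0 0 0 0 0 0
      rw [h1, map_zero, add_zero]
    have h2 := (w2b_lev_mul D (φ (D.hh 0)) (φ (D.yy 0))).1
    rw [← map_mul, h1, hφb, hlevh] at h2
    rcases W_idem D _ (hidem _ hyy) with h5 | h5 | h5
    · rw [h5, hlev0] at h2
      omega
    · -- `φ c = b`
      have hK : ∀ s : K, ∃ t' : H, φ (D.yy s) = D.hh t' := by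
        intro s
        apply w2b_lev_three
        obtain ⟨-, -, -, -, -, -, -, -, -, -, -, -, -, h3⟩ := W_table D 0 0 0 0 0 s (-s)
        rw [add_neg_cancel] at h3
        have h4 := (w2b_lev_mul D (φ (D.yy 0)) (φ (D.yy s))).1
        rw [← map_mul, hcy, h5, hlevh] at h4
        have h6 := (w2b_lev_mul D (φ (D.yy s)) (φ (D.yy (-s)))).1
        rw [← map_mul, h3, h5, hlevh] at h6
        omega
      choose δ' hδ' using hK
      have hadd : ∀ s s', δ' (s + s') = δ' s + δ' s' := by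
        intro s s'
        obtain ⟨-, -, -, -, -, -, -, -, -, -, -, -, -, h3⟩ := W_table D 0 0 0 0 0 s s'
        obtain ⟨-, -, -, -, -, -, -, -, h4, -⟩ := W_table D 0 0 0 (δ' s) (δ' s') 0 0
        have h6 : φ (D.yy (s + s')) = D.hh (δ' s + δ' s') := by
          rw [← h3, map_mul, hδ', hδ', h4]
        rw [hδ'] at h6
        exact w2b_hh_inj D h6
      refine ⟨D.r.comp (AddMonoidHom.mk' δ' hadd), fun t => ?_⟩
      show D.r (β t) = D.r (δ' (D.r t))
      congr 1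
      have h6 : φ (D.yy (D.r t)) = D.hh (β t) := by
        rw [← hch, map_mul, h5, hβ]
        obtain ⟨-, -, -, -, -, -, -, -, h4, -⟩ := W_table D 0 0 0 0 (β t) 0 0
        rw [h4, zero_add]
      rw [hδ'] at h6
      exact (w2b_hh_inj D h6).symm
    · -- `φ c = c`
      have hK : ∀ s : K, ∃ t' : K, φ (D.yy s) = D.yy t' := by
        intro s
        apply w2b_lev_four
        have h4 := (w2b_lev_mul D (φ (D.yy 0)) (φ (D.yy s))).1
        rw [← map_mul, hcy, h5, hlevy] at h4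
        exact h4
      choose δ' hδ' using hK
      have hadd : ∀ s s', δ' (s + s') = δ' s + δ' s' := by
        intro s s'
        obtain ⟨-, -, -, -, -, -, -, -, -, -, -, -, -, h3⟩ := W_table D 0 0 0 0 0 s s'
        obtain ⟨-, -, -, -, -, -, -, -, -, -, -, -, -, h4⟩ := W_table D 0 0 0 0 0 (δ' s) (δ' s')
        have h6 : φ (D.yy (s + s')) = D.yy (δ' s + δ' s') := by
          rw [← h3, map_mul, hδ', hδ', h4]
        rw [hδ'] at h6
        exact w2b_yy_inj D h6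
      refine ⟨AddMonoidHom.mk' δ' hadd, fun t => ?_⟩
      show D.r (β t) = δ' (D.r t)
      have h6 : φ (D.yy (D.r t)) = D.yy (D.r (β t)) := by
        rw [← hch, map_mul, h5, hβ, hch]
      rw [hδ'] at h6
      exact (w2b_yy_inj D h6).symm
  obtain ⟨δ, hδ⟩ := hδ
  refine ⟨AddMonoidHom.mk' α hαadd, AddMonoidHom.mk' β hβadd, δ, g, ?_, ?_, hδ, ?_⟩
  · intro a
    show α (D.u a) = D.u (D.u (α a))
    have h1 : D.ell 0 a * D.ell 1 0 = D.ell 1 (D.u a + 0) := (W_table D 1 a 0 0 0 0 0).1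
    have h2 : D.ell 1 0 * D.ell 0 (D.u a) = D.ell 1 (0 + D.u a) := (W_table D 1 0 (D.u a) 0 0 0 0).2.1
    have h3 : D.ell 0 a * D.ell 1 0 = D.ell 1 0 * D.ell 0 (D.u a) := by
      rw [h1, h2, add_comm]
    have h4 : φ (D.ell 0 a) * φ (D.ell 1 0) = φ (D.ell 1 0) * φ (D.ell 0 (D.u a)) := by
      rw [← map_mul, h3, map_mul]
    rw [hα, hα, hφx] at h4
    have h5 : D.ell 0 (α a) * D.ell 2 g = D.ell 2 (D.u (D.u (α a)) + g) :=
      (W_table D 2 (α a) g 0 0 0 0).1
    have h6 : D.ell 2 g * D.ell 0 (α (D.u a)) = D.ell 2 (g + α (D.u a)) :=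
      (W_table D 2 g (α (D.u a)) 0 0 0 0).2.1
    rw [h5, h6] at h4
    have h7 := (w2b_ell_inj D h4).2
    rw [add_comm] at h7
    exact (add_left_cancel h7).symm
  · intro a
    show β (D.π a) = D.π (α a)
    obtain ⟨-, -, -, -, -, -, -, h1, -⟩ := W_table D 0 a 0 0 0 0 0
    obtain ⟨-, -, -, -, -, -, -, h2, -⟩ := W_table D 0 (α a) 0 0 0 0 0
    have h3 : ∀ a', (0 : H) + D.th 0 a' = D.π a' := by
      intro a'
      show (0 : H) + ((0 : ℕ) • D.k + D.π a') = D.π a'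
      rw [zero_smul, zero_add, zero_add]
    rw [h3] at h1 h2
    have h4 : φ (D.hh (D.π a)) = D.hh (D.π (α a)) := by
      rw [← h1, map_mul, hφb, hα, h2]
    rw [hβ] at h4
    exact w2b_hh_inj D h4
  · show β D.k = 2 • D.k + D.π g
    obtain ⟨-, -, -, -, -, -, -, h1, -⟩ := W_table D 1 0 0 0 0 0 0
    obtain ⟨-, -, -, -, -, -, -, h2, -⟩ := W_table D 2 g 0 0 0 0 0
    have h3 : (0 : H) + D.th 1 0 = D.k := by
      show (0 : H) + ((1 : ℕ) • D.k + D.π 0) = D.k
      rw [one_smul, map_zero, zero_add, add_zero]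
    have h4 : (0 : H) + D.th 2 g = 2 • D.k + D.π g := by
      show (0 : H) + ((2 : ℕ) • D.k + D.π g) = 2 • D.k + D.π g
      rw [zero_add]
    rw [h3] at h1
    rw [h4] at h2
    have h5 : φ (D.hh D.k) = D.hh (2 • D.k + D.π g) := by
      rw [← h1, map_mul, hφb, hφx, h2]
    rw [hβ] at h5
    exact w2b_hh_inj D h5

end

end EVC
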