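import Pool.Agent.EVC.W1

/-!
# [EC-W3] the varieties generated by the semigroups `W`
-/

set_option autoImplicit false

open EVS

namespace EVC

section
variable {G H K : Type} [AddCommGroup G] [AddCommGroup H] [AddCommGroup K]

/-- the identities of a semigroup -/
def idsOf (S : Type) [Semigroup S] : Set (Wd × Wd) := {p | Holds S p}

theorem mem_idsOf (S : Type) [Semigroup S] : Mem (idsOf S) S := fun _ hp => hp

/-- the homomorphism onto `C2` -/
private def w3_g : W G H K → C2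
  | .l 0 _ => .one
  | .l 1 _ => .c
  | _ => .o

private theorem w3_g_mul (D : WD G H K) (a b : W G H K) :
    w3_g (D.mul a b) = C2.mul (w3_g a) (w3_g b) := by
  rcases a with ⟨i, g⟩ | t | s <;> rcases b with ⟨j, g'⟩ | t' | s'
  · fin_cases i <;> fin_cases j <;> rfl
  · fin_cases i <;> rfl
  · fin_cases i <;> rfl
  · fin_cases j <;> rfl
  · rfl
  · rfl
  · fin_cases j <;> rfl
  · rfl
  · rfl

/-- PROOF.  `mem_of_div` (EVS/H1.lean) with `D = Set.univ` and `g (l 0 _) = one`, `g (l 1 _) = c`, `g _ = o`. -/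
theorem W_C2 (D : WD G H K) : Mem (idsOf (WS D)) C2 := by
  refine mem_of_div (T := WS D) Set.univ (fun a => w3_g a) (fun _ _ _ _ => trivial)
    (fun a _ b _ => w3_g_mul D a b) ?_ (mem_idsOf (WS D))
  intro s
  cases s
  · exact ⟨D.ell 0 0, trivial, rfl⟩
  · exact ⟨D.ell 1 0, trivial, rfl⟩
  · exact ⟨D.ell 2 0, trivial, rfl⟩

/-- powers in `W`
PROOF.  Induction on `m` with the table (`π (u g) = π g` is not needed; use that `th` of a product is the sum of the `th`). -/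
theorem W_pw (D : WD G H K) (m : ℕ) : (∀ g, pw (D.ell 0 g) m = D.ell 0 ((m + 1) • g)) ∧
    (∀ i g, i ≠ 0 → 2 ≤ m → pw (D.ell i g) m = D.hh ((m + 1) • D.th i g)) ∧
    (∀ t, pw (D.hh t) m = D.hh ((m + 1) • t)) ∧ ∀ s, pw (D.yy s) m = D.yy ((m + 1) • s) := by
  induction m with
  | zero =>
    refine ⟨fun g => ?_, fun i g _ h => absurd h (by omega), fun t => ?_, fun s => ?_⟩
    · rw [zero_add, one_nsmul]
      rfl
    · rw [zero_add, one_nsmul]
      rfl
    · rw [zero_add, one_nsmul]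
      rfl
  | succ m ih =>
    obtain ⟨ih1, ih2, ih3, ih4⟩ := ih
    refine ⟨fun g => ?_, fun i g hi hm => ?_, fun t => ?_, fun s => ?_⟩
    · obtain ⟨-, h1, -⟩ := W_table D 0 ((m + 1) • g) g 0 0 0 0
      rw [pw_succ, ih1, h1, ← succ_nsmul]
    · by_cases hm2 : 2 ≤ m
      · obtain ⟨-, -, -, -, -, -, -, h1, -⟩ := W_table D i g 0 ((m + 1) • D.th i g) 0 0 0
        rw [pw_succ, ih2 i g hi hm2, h1, ← succ_nsmul]
      · have hm1 : m = 1 := by omega
        subst hm1
        have e : pw (D.ell i g) (1 + 1) = D.ell i g * D.ell i g * D.ell i g := rfl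
        rw [e]
        fin_cases i
        · exact absurd rfl hi
        · change D.ell 1 g * D.ell 1 g * D.ell 1 g = D.hh ((1 + 1 + 1) • D.th 1 g)
          obtain ⟨-, -, h1, -⟩ := W_table D 0 g g 0 0 0 0
          obtain ⟨-, -, -, -, h2, -⟩ := W_table D 0 (D.u g + g) g 0 0 0 0
          rw [h1, h2]
          congr 1
          change ((2 : Fin 3) : ℕ) • D.k + D.π (D.u g + g) + (((1 : Fin 3) : ℕ) • D.k + D.π g) =
            (1 + 1 + 1) • (((1 : Fin 3) : ℕ) • D.k + D.π g)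
          rw [map_add, D.hu]
          have e1 : ((1 : Fin 3) : ℕ) = 1 := rfl
          have e2 : ((2 : Fin 3) : ℕ) = 2 := rfl
          rw [e1, e2]
          abel
        · change D.ell 2 g * D.ell 2 g * D.ell 2 g = D.hh ((1 + 1 + 1) • D.th 2 g)
          obtain ⟨-, -, -, -, -, h1, -⟩ := W_table D 0 g g 0 0 0 0
          obtain ⟨-, -, -, -, -, -, -, h2, -⟩ := W_table D 2 g 0 (D.th 2 g + D.th 2 g) 0 0 0
          rw [h1, h2]
          congr 1
          abel
    · obtain ⟨-, -, -, -, -, -, -, -, h1, -⟩ := W_table D 0 0 0 ((m + 1) • t) t 0 0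
      rw [pw_succ, ih3, h1, ← succ_nsmul]
    · obtain ⟨-, -, -, -, -, -, -, -, -, -, -, -, -, h1⟩ := W_table D 0 0 0 0 0 ((m + 1) • s) s
      rw [pw_succ, ih4, h1, ← succ_nsmul]

private theorem w3_hh (D : WD G H K) (t : H) (b : WS D) : D.hh t * b = b * D.hh t := by
  rcases W_cases D b with ⟨i, g, rfl⟩ | ⟨t', rfl⟩ | ⟨s, rfl⟩
  · obtain ⟨-, -, -, -, -, -, h1, h2, -⟩ := W_table D i g 0 t 0 0 0
    rw [h1, h2, add_comm]
  · obtain ⟨-, -, -, -, -, -, -, -, h1, -⟩ := W_table D 0 0 0 t t' 0 0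
    obtain ⟨-, -, -, -, -, -, -, -, h2, -⟩ := W_table D 0 0 0 t' t 0 0
    rw [h1, h2, add_comm]
  · obtain ⟨-, -, -, -, -, -, -, -, -, -, -, h1, h2, -⟩ := W_table D 0 0 0 t 0 s 0
    rw [h1, h2, add_comm]

private theorem w3_yy (D : WD G H K) (s : K) (b : WS D) : D.yy s * b = b * D.yy s := by
  rcases W_cases D b with ⟨i, g, rfl⟩ | ⟨t', rfl⟩ | ⟨s', rfl⟩
  · obtain ⟨-, -, -, -, -, -, -, -, -, h1, h2, -⟩ := W_table D i g 0 0 0 s 0
    rw [h1, h2, add_comm]
  · obtain ⟨-, -, -, -, -, -, -, -, -, -, -, h1, h2, -⟩ := W_table D 0 0 0 t' 0 s 0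
    rw [h1, h2, add_comm]
  · obtain ⟨-, -, -, -, -, -, -, -, -, -, -, -, -, h1⟩ := W_table D 0 0 0 0 0 s s'
    obtain ⟨-, -, -, -, -, -, -, -, -, -, -, -, -, h2⟩ := W_table D 0 0 0 0 0 s' s
    rw [h1, h2, add_comm]

/-- the powers of an element of `W` -/
private theorem w3_cases (D : WD G H K) (m : ℕ) (hm : 2 ≤ m) (a : WS D) :
    (∃ g, a = D.ell 0 g ∧ pw a m = D.ell 0 ((m + 1) • g)) ∨
    (∃ t, pw a m = D.hh ((m + 1) • t) ∧ ∀ m', 2 ≤ m' → pw a m' = D.hh ((m' + 1) • t)) ∨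
    ∃ s, pw a m = D.yy ((m + 1) • s) ∧ ∀ m', 2 ≤ m' → pw a m' = D.yy ((m' + 1) • s) := by
  rcases W_cases D a with ⟨i, g, rfl⟩ | ⟨t', rfl⟩ | ⟨s', rfl⟩
  · by_cases hi : i = 0
    · subst hi
      exact Or.inl ⟨g, rfl, (W_pw D m).1 g⟩
    · exact Or.inr (Or.inl ⟨D.th i g, (W_pw D m).2.1 i g hi hm,
        fun m' hm' => (W_pw D m').2.1 i g hi hm'⟩)
  · exact Or.inr (Or.inl ⟨t', (W_pw D m).2.2.1 t', fun m' _ => (W_pw D m').2.2.1 t'⟩)
  · exact Or.inr (Or.inr ⟨s', (W_pw D m).2.2.2 s', fun m' _ => (W_pw D m').2.2.2 s'⟩)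

private theorem w3_U (D : WD G H K) (i : Fin 3) : D.U i 0 = 0 := by
  fin_cases i
  · rfl
  · exact map_zero D.u
  · change D.u (D.u 0) = 0
    rw [map_zero, map_zero]

private theorem w3_one (D : WD G H K) (b : WS D) : D.ell 0 0 * b = b * D.ell 0 0 := by
  rcases W_cases D b with ⟨i, g, rfl⟩ | ⟨t', rfl⟩ | ⟨s', rfl⟩
  · obtain ⟨h1, -⟩ := W_table D i 0 g 0 0 0 0
    obtain ⟨-, h2, -⟩ := W_table D i g 0 0 0 0 0
    rw [h1, h2, w3_U, zero_add, add_zero]
  · exact (w3_hh D t' _).symm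
  · exact (w3_yy D s' _).symm

/-- a large power is central in `W` -/
private theorem w3_central (D : WD G H K) {n : ℕ} (hG : ∀ a : G, n • a = 0) (m : ℕ) (hm : 2 ≤ m)
    (hn : n ∣ m + 1) (a b : WS D) : pw a m * b = b * pw a m := by
  rcases w3_cases D m hm a with ⟨g, -, h⟩ | ⟨t, h, -⟩ | ⟨s, h, -⟩
  · obtain ⟨c, hc⟩ := hn
    have h0 : (m + 1) • g = 0 := by
      rw [hc, mul_comm, mul_nsmul, hG]
    rw [h, h0]
    exact w3_one D b
  · rw [h]
    exact w3_hh D _ b
  · rw [h]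
    exact w3_yy D _ b

private theorem w3_lift {S : Type} [Semigroup S] (φ : ℕ → S) (i m : ℕ) :
    FreeSemigroup.lift φ (pw (FreeSemigroup.of i) m) = pw (φ i) m := by
  rw [map_pw, FreeSemigroup.lift_of]

private theorem w3_holds (D : WD G H K) {n : ℕ} (hn : 0 < n) (hG : ∀ a : G, n • a = 0) :
    ((pw (FreeSemigroup.of 0) (3 * n - 1) * FreeSemigroup.of 1,
      FreeSemigroup.of 1 * pw (FreeSemigroup.of 0) (3 * n - 1)) : Wd × Wd) ∈ idsOf (WS D) := by
  intro φ
  change FreeSemigroup.lift φ (pw (FreeSemigroup.of 0) (3 * n - 1) * FreeSemigroup.of 1) =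
    FreeSemigroup.lift φ (FreeSemigroup.of 1 * pw (FreeSemigroup.of 0) (3 * n - 1))
  rw [map_mul, map_mul, w3_lift, FreeSemigroup.lift_of]
  refine w3_central D hG (3 * n - 1) (by omega) ⟨3, by omega⟩ _ _

private theorem w3_grp {A : Type} [Group A] (a : A) (m : ℕ) : pw a m = a ^ (m + 1) := by
  induction m with
  | zero =>
    rw [zero_add, pow_one]
    rfl
  | succ m ih => rw [pw_succ, ih, ← pow_succ]

/-- PROOF.  Let `n > 0` kill `G`, `H`, `K`, and `N = 3 * n`.  In `W` the power `w ^ N = pw w (N - 1)` is `l 0 0`, `h 0` or `y 0` (`W_pw`), which is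
central.  So the identity `(x ^ N * y, y * x ^ N)` (words `pw (FreeSemigroup.of 0) (N - 1) * FreeSemigroup.of 1` etc.;
`FreeSemigroup.lift φ (pw w m) = pw (FreeSemigroup.lift φ w) m` by `map_pw`) holds in `W`.  In `P`: `x = f`, `y = y`: `f ^ N = f`
(`pw_of_idem`), `f * y = o`, `y * f = y`, so it fails.  In `Pᵐᵒᵖ` the same with `MulOpposite.op`. -/
theorem W_P (D : WD G H K) {n : ℕ} (hn : 0 < n) (hG : ∀ a : G, n • a = 0) (hH : ∀ a : H, n • a = 0)
    (hK : ∀ a : K, n • a = 0) : ¬ Mem (idsOf (WS D)) P ∧ ¬ Mem (idsOf (WS D)) Pᵐᵒᵖ := by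
  constructor
  · intro h
    have h1 := h _ (w3_holds D hn hG) (fun i => if i = 0 then P.f else P.y)
    change FreeSemigroup.lift _ (pw (FreeSemigroup.of 0) (3 * n - 1) * FreeSemigroup.of 1) =
      FreeSemigroup.lift _ (FreeSemigroup.of 1 * pw (FreeSemigroup.of 0) (3 * n - 1)) at h1
    rw [map_mul, map_mul, w3_lift, FreeSemigroup.lift_of, if_pos rfl, if_neg one_ne_zero,
      pw_of_idem (show P.f * P.f = P.f from rfl)] at h1
    have h2 : P.o = P.y := h1
    exact absurd h2 (by decide)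
  · intro h
    have h1 := h _ (w3_holds D hn hG)
      (fun i => if i = 0 then MulOpposite.op P.f else MulOpposite.op P.y)
    change FreeSemigroup.lift _ (pw (FreeSemigroup.of 0) (3 * n - 1) * FreeSemigroup.of 1) =
      FreeSemigroup.lift _ (FreeSemigroup.of 1 * pw (FreeSemigroup.of 0) (3 * n - 1)) at h1
    rw [map_mul, map_mul, w3_lift, FreeSemigroup.lift_of, if_pos rfl, if_neg one_ne_zero,
      pw_of_idem (show MulOpposite.op P.f * MulOpposite.op P.f = MulOpposite.op P.f from rfl)] at h1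
    have h2 : MulOpposite.op P.y = MulOpposite.op P.o := h1
    exact absurd (MulOpposite.op_injective h2) (by decide)

/-- PROOF.  In `W` the identity `x ^ (3 + n) = x ^ 3` holds (`pw x (n + 2) = pw x 2`; `W_pw`, cases, `n • _ = 0`), so in a group `a ^ n = 1`.  With
`M = 2 * n + 1` the identity `x ^ M y ^ M = y ^ M x ^ M` holds in `W`: `W_pw` for `m = 2 * n ≥ 2` and the table; all cases follow
from `add_comm` (for `l 0 g`, `l 0 g'`: `l 0 (M • g + M • g')`).  In a group with `a ^ n = 1`: `a ^ M = a`. -/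
theorem W_groups (D : WD G H K) {n : ℕ} (hn : 0 < n) (hG : ∀ a : G, n • a = 0) (hH : ∀ a : H, n • a = 0)
    (hK : ∀ a : K, n • a = 0) (A : Type) [Group A] (hA : Mem (idsOf (WS D)) A) :
    (∀ a b : A, a * b = b * a) ∧ ∀ a : A, a ^ n = 1 := by
  have hpow : ∀ a : A, a ^ n = 1 := by
    intro a
    have hid : ((pw (FreeSemigroup.of 0) (n + 2), pw (FreeSemigroup.of 0) 2) : Wd × Wd) ∈
        idsOf (WS D) := by
      intro φ
      change FreeSemigroup.lift φ (pw (FreeSemigroup.of 0) (n + 2)) =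
        FreeSemigroup.lift φ (pw (FreeSemigroup.of 0) 2)
      rw [w3_lift, w3_lift]
      rcases w3_cases D 2 le_rfl (φ 0) with ⟨g, hg, h⟩ | ⟨t, h, h'⟩ | ⟨s, h, h'⟩
      · rw [h, hg, (W_pw D (n + 2)).1 g]
        congr 1
        have e : n + 2 + 1 = n + (2 + 1) := by ring
        rw [e, add_nsmul, hG, zero_add]
      · rw [h, h' (n + 2) (by omega)]
        congr 1
        have e : n + 2 + 1 = n + (2 + 1) := by ring
        rw [e, add_nsmul, hH, zero_add]
      · rw [h, h' (n + 2) (by omega)]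
        congr 1
        have e : n + 2 + 1 = n + (2 + 1) := by ring
        rw [e, add_nsmul, hK, zero_add]
    have h1 := hA _ hid (fun _ => a)
    change FreeSemigroup.lift _ (pw (FreeSemigroup.of 0) (n + 2)) =
        FreeSemigroup.lift _ (pw (FreeSemigroup.of 0) 2) at h1
    rw [w3_lift, w3_lift, w3_grp, w3_grp] at h1
    have e : n + 2 + 1 = n + (2 + 1) := by ring
    rw [e, pow_add] at h1
    exact mul_eq_right.mp h1
  refine ⟨fun a b => ?_, hpow⟩
  have hid : ((pw (FreeSemigroup.of 0) (2 * n) * pw (FreeSemigroup.of 1) (2 * n),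
      pw (FreeSemigroup.of 1) (2 * n) * pw (FreeSemigroup.of 0) (2 * n)) : Wd × Wd) ∈
      idsOf (WS D) := by
    intro φ
    change FreeSemigroup.lift φ (pw (FreeSemigroup.of 0) (2 * n) * pw (FreeSemigroup.of 1) (2 * n)) =
      FreeSemigroup.lift φ (pw (FreeSemigroup.of 1) (2 * n) * pw (FreeSemigroup.of 0) (2 * n))
    rw [map_mul, map_mul, w3_lift, w3_lift]
    rcases w3_cases D (2 * n) (by omega) (φ 0) with ⟨g, -, h⟩ | ⟨t, h, -⟩ | ⟨s, h, -⟩
    · rcases w3_cases D (2 * n) (by omega) (φ 1) with ⟨g', -, h'⟩ | ⟨t', h', -⟩ | ⟨s', h', -⟩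
      · rw [h, h']
        obtain ⟨-, h1, -⟩ := W_table D 0 ((2 * n + 1) • g) ((2 * n + 1) • g') 0 0 0 0
        obtain ⟨-, h2, -⟩ := W_table D 0 ((2 * n + 1) • g') ((2 * n + 1) • g) 0 0 0 0
        rw [h1, h2, add_comm]
      · rw [h']
        exact (w3_hh D _ _).symm
      · rw [h']
        exact (w3_yy D _ _).symm
    · rw [h]
      exact w3_hh D _ _
    · rw [h]
      exact w3_yy D _ _
  have h1 := hA _ hid (fun i => if i = 0 then a else b)
  change FreeSemigroup.lift _ (pw (FreeSemigroup.of 0) (2 * n) * pw (FreeSemigroup.of 1) (2 * n)) =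
      FreeSemigroup.lift _ (pw (FreeSemigroup.of 1) (2 * n) * pw (FreeSemigroup.of 0) (2 * n)) at h1
  rw [map_mul, map_mul, w3_lift, w3_lift, if_pos rfl, if_neg one_ne_zero, w3_grp, w3_grp] at h1
  have hM : ∀ c : A, c ^ (2 * n + 1) = c := by
    intro c
    rw [pow_succ, mul_comm 2 n, pow_mul, hpow, one_pow, one_mul]
  rw [hM, hM] at h1
  exact h1

end

end EVC
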