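import Pool.Agent.EVC.Defs

/-!
# [EC-W1] the semigroups `W`
-/

set_option autoImplicit false
set_option linter.unusedSimpArgs false

open EVS

namespace EVC

/-- elements of `W`: `l k g` stands for `x ^ k * g` (`k = 0, 1, 2`), `h t`, `y s` are elements of two groups below -/
inductive W (G H K : Type) : Type
  | l : Fin 3 → G → W G H K
  | h : H → W G H K
  | y : K → W G H K

section
variable {G H K : Type} [AddCommGroup G] [AddCommGroup H] [AddCommGroup K]

/-- the data: `g x = x (u g)`, `π : G → H`, `r : H → K`, and the element `k` of `H` given by `x` -/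
structure WD (G H K : Type) [AddCommGroup G] [AddCommGroup H] [AddCommGroup K] where
  u : G →+ G
  π : G →+ H
  r : H →+ K
  k : H
  hu : ∀ g : G, π (u g) = π g

/-- iterates of `u` -/
def WD.U (D : WD G H K) : Fin 3 → G → G
  | 0, g => g
  | 1, g => D.u g
  | 2, g => D.u (D.u g)

/-- the image of `x ^ i * g` in `H` -/
def WD.th (D : WD G H K) (i : Fin 3) (g : G) : H := (i : ℕ) • D.k + D.π g

/-- the semigroup: elements of `W` -/
def WS (_D : WD G H K) : Type := W G H K

/-- multiplication -/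
def WD.mul (D : WD G H K) : W G H K → W G H K → W G H K
  | .l 0 g, .l j g' => .l j (D.U j g + g')
  | .l 1 g, .l 0 g' => .l 1 (g + g')
  | .l 1 g, .l 1 g' => .l 2 (D.u g + g')
  | .l 2 g, .l 0 g' => .l 2 (g + g')
  | .l i g, .l j g' => .h (D.th i g + D.th j g')
  | .l i g, .h t => .h (D.th i g + t)
  | .h t, .l i g => .h (t + D.th i g)
  | .h t, .h t' => .h (t + t')
  | .l i g, .y s => .y (D.r (D.th i g) + s)
  | .y s, .l i g => .y (s + D.r (D.th i g))
  | .h t, .y s => .y (D.r t + s)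
  | .y s, .h t => .y (s + D.r t)
  | .y s, .y s' => .y (s + s')

/-- PROOF.  Cases on the constructors and on the elements of `Fin 3` (`fin_cases` or `match`); in every case both sides are
equal by `map_add`, `D.hu`, `add_assoc`, `add_smul`/`abel` after unfolding `WD.U`, `WD.th` (`((1 : Fin 3) : ℕ) = 1`
etc.). -/
theorem WD.mul_assoc' (D : WD G H K) (a b c : W G H K) : D.mul (D.mul a b) c = D.mul a (D.mul b c) := by
  have hv0 : ∀ x : H, (((0 : Fin 3) : ℕ)) • x = 0 := fun x => zero_smul ℕ x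
  have hv1 : ∀ x : H, (((1 : Fin 3) : ℕ)) • x = x := fun x => one_smul ℕ x
  have hv2 : ∀ x : H, (((2 : Fin 3) : ℕ)) • x = x + x := fun x => two_nsmul x
  have hU0 : ∀ g : G, D.U 0 g = g := fun _ => rfl
  have hU1 : ∀ g : G, D.U 1 g = D.u g := fun _ => rfl
  have hU2 : ∀ g : G, D.U 2 g = D.u (D.u g) := fun _ => rfl
  have hi : ∀ i : Fin 3, i = 0 ∨ i = 1 ∨ i = 2 := by decide
  rcases a with ⟨i, g⟩ | t | s <;> rcases b with ⟨j, g'⟩ | t' | s' <;>
    rcases c with ⟨k, g''⟩ | t'' | s''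
  · rcases hi i with rfl | rfl | rfl <;> rcases hi j with rfl | rfl | rfl <;>
      rcases hi k with rfl | rfl | rfl <;>
      simp only [WD.mul, WD.th, hU0, hU1, hU2, map_add, D.hu, hv0, hv1, hv2, zero_add] <;>
      congr 1 <;> abel
  · rcases hi i with rfl | rfl | rfl <;> rcases hi j with rfl | rfl | rfl <;>
      simp only [WD.mul, WD.th, hU0, hU1, hU2, map_add, D.hu, hv0, hv1, hv2, zero_add] <;>
      congr 1 <;> abel
  · rcases hi i with rfl | rfl | rfl <;> rcases hi j with rfl | rfl | rfl <;>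
      simp only [WD.mul, WD.th, hU0, hU1, hU2, map_add, D.hu, hv0, hv1, hv2, zero_add] <;>
      congr 1 <;> abel
  · rcases hi i with rfl | rfl | rfl <;> rcases hi k with rfl | rfl | rfl <;>
      simp only [WD.mul, WD.th, hU0, hU1, hU2, map_add, D.hu, hv0, hv1, hv2, zero_add] <;>
      congr 1 <;> abel
  · rcases hi i with rfl | rfl | rfl <;>
      simp only [WD.mul, WD.th, hU0, hU1, hU2, map_add, D.hu, hv0, hv1, hv2, zero_add] <;>
      congr 1 <;> abel
  · rcases hi i with rfl | rfl | rfl <;>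
      simp only [WD.mul, WD.th, hU0, hU1, hU2, map_add, D.hu, hv0, hv1, hv2, zero_add] <;>
      congr 1 <;> abel
  · rcases hi i with rfl | rfl | rfl <;> rcases hi k with rfl | rfl | rfl <;>
      simp only [WD.mul, WD.th, hU0, hU1, hU2, map_add, D.hu, hv0, hv1, hv2, zero_add] <;>
      congr 1 <;> abel
  · rcases hi i with rfl | rfl | rfl <;>
      simp only [WD.mul, WD.th, hU0, hU1, hU2, map_add, D.hu, hv0, hv1, hv2, zero_add] <;>
      congr 1 <;> abel
  · rcases hi i with rfl | rfl | rfl <;>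
      simp only [WD.mul, WD.th, hU0, hU1, hU2, map_add, D.hu, hv0, hv1, hv2, zero_add] <;>
      congr 1 <;> abel
  · rcases hi j with rfl | rfl | rfl <;> rcases hi k with rfl | rfl | rfl <;>
      simp only [WD.mul, WD.th, hU0, hU1, hU2, map_add, D.hu, hv0, hv1, hv2, zero_add] <;>
      congr 1 <;> abel
  all_goals first
    | (simp only [WD.mul, WD.th, map_add]; congr 1; abel1)
    | (rcases hi j with rfl | rfl | rfl <;> rcases hi k with rfl | rfl | rfl <;>
        simp only [WD.mul, WD.th, hU0, hU1, hU2, map_add, D.hu, hv0, hv1, hv2, zero_add] <;>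
        congr 1 <;> abel)

instance (D : WD G H K) : Semigroup (WS D) where
  mul a b := D.mul a b
  mul_assoc := D.mul_assoc'

/-- PROOF.  `W G H K` embeds into `(Fin 3 × G) ⊕ (H ⊕ K)`. -/
instance [Finite G] [Finite H] [Finite K] (D : WD G H K) : Finite (WS D) := by
  let f : WS D → (Fin 3 × G) ⊕ (H ⊕ K) := fun a => match a with
    | W.l i g => Sum.inl (i, g)
    | W.h t => Sum.inr (Sum.inl t)
    | W.y s => Sum.inr (Sum.inr s)
  refine Finite.of_injective f ?_
  intro a b hab
  rcases a with ⟨i, g⟩ | t | s <;> rcases b with ⟨j, g'⟩ | t' | s'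
  · have h1 : (i, g) = (j, g') := Sum.inl.inj hab
    rw [(Prod.mk.inj h1).1, (Prod.mk.inj h1).2]
  · exact absurd hab (by simp [f])
  · exact absurd hab (by simp [f])
  · exact absurd hab (by simp [f])
  · have h1 : t = t' := Sum.inl.inj (Sum.inr.inj hab)
    rw [h1]
  · exact absurd hab (by simp [f])
  · exact absurd hab (by simp [f])
  · exact absurd hab (by simp [f])
  · have h1 : s = s' := Sum.inr.inj (Sum.inr.inj hab)
    rw [h1]

variable (D : WD G H K)

/-- the elements -/
def WD.ell (i : Fin 3) (g : G) : WS D := W.l i g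
def WD.hh (t : H) : WS D := W.h t
def WD.yy (s : K) : WS D := W.y s

theorem W_cases (a : WS D) : (∃ i g, a = D.ell i g) ∨ (∃ t, a = D.hh t) ∨ ∃ s, a = D.yy s := by
  rcases a with ⟨i, g⟩ | t | s
  · exact Or.inl ⟨i, g, rfl⟩
  · exact Or.inr (Or.inl ⟨t, rfl⟩)
  · exact Or.inr (Or.inr ⟨s, rfl⟩)

/-- the multiplication table (all by `rfl`, some after `fin_cases i`) -/
theorem W_table (i : Fin 3) (g g' : G) (t t' : H) (s s' : K) :
    D.ell 0 g * D.ell i g' = D.ell i (D.U i g + g') ∧
    D.ell i g * D.ell 0 g' = D.ell i (g + g') ∧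
    D.ell 1 g * D.ell 1 g' = D.ell 2 (D.u g + g') ∧
    D.ell 1 g * D.ell 2 g' = D.hh (D.th 1 g + D.th 2 g') ∧
    D.ell 2 g * D.ell 1 g' = D.hh (D.th 2 g + D.th 1 g') ∧
    D.ell 2 g * D.ell 2 g' = D.hh (D.th 2 g + D.th 2 g') ∧
    D.ell i g * D.hh t = D.hh (D.th i g + t) ∧ D.hh t * D.ell i g = D.hh (t + D.th i g) ∧
    D.hh t * D.hh t' = D.hh (t + t') ∧
    D.ell i g * D.yy s = D.yy (D.r (D.th i g) + s) ∧ D.yy s * D.ell i g = D.yy (s + D.r (D.th i g)) ∧
    D.hh t * D.yy s = D.yy (D.r t + s) ∧ D.yy s * D.hh t = D.yy (s + D.r t) ∧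
    D.yy s * D.yy s' = D.yy (s + s') := by
  have hi : i = 0 ∨ i = 1 ∨ i = 2 := by
    revert i
    decide
  refine ⟨?_, ?_, rfl, rfl, rfl, rfl, ?_, ?_, rfl, ?_, ?_, rfl, rfl, rfl⟩ <;>
    rcases hi with rfl | rfl | rfl <;> rfl

end

end EVC
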