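import Mathlib
import Pool.Agent.EVC.W1

/-!
# [EC-W4] two examples
-/

set_option autoImplicit false

open EVS

namespace EVC

/-- the example for an odd prime `p`: `G = H = ZMod (p ^ 2)`, `u = 1 + p`, `π = p`, `k = 1`, `K = 0` -/
def Dp (p : ℕ) : WD (ZMod (p ^ 2)) (ZMod (p ^ 2)) Unit where
  u := AddMonoidHom.mulLeft (1 + p : ZMod (p ^ 2))
  π := AddMonoidHom.mulLeft (p : ZMod (p ^ 2))
  r := 0
  k := 1
  hu := by
    intro g
    show (p : ZMod (p ^ 2)) * ((1 + p) * g) = p * g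
    have h : (p : ZMod (p ^ 2)) * p = 0 := by
      rw [← Nat.cast_mul, ← sq]
      exact ZMod.natCast_self (p ^ 2)
    rw [← mul_assoc, mul_add, mul_one, h, add_zero]

/-- PROOF.  `α g = α (1) * g`-linearity: for `a : ZMod (p ^ 2)` `α a = a * α 1` (`ZMod` additive maps: `a = (a.val : ℕ) • 1`, `map_nsmul`).
`hα` for `a = 1`: `α (1 + p) = (1 + p) ^ 2 α 1`, so `(1 + p) * p * α 1 = 0`, and `1 + p` is a unit (`(1 + p) * (1 - p) = 1` as `p ^ 2 = 0`), so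
`p * α 1 = 0`.  `hβ` for `a = 1`: `β (p) = p * α 1 = 0`, so `p * β 1 = 0`; `β 1 = 2 + p * g`, so `2 * p = 0` in `ZMod (p ^ 2)`, so `p ^ 2 ∣ 2 p`, `p ∣ 2`,
contradiction. -/
theorem Dp_bad {p : ℕ} (hp : p.Prime) (h2 : p ≠ 2) (α : ZMod (p ^ 2) →+ ZMod (p ^ 2))
    (β : ZMod (p ^ 2) →+ ZMod (p ^ 2)) (g : ZMod (p ^ 2)) (hα : ∀ a, α ((Dp p).u a) = (Dp p).u ((Dp p).u (α a)))
    (hβ : ∀ a, β ((Dp p).π a) = (Dp p).π (α a)) (hk : β (Dp p).k = 2 • (Dp p).k + (Dp p).π g) : False := by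
  have h0 : (p : ZMod (p ^ 2)) * p = 0 := by
    rw [← Nat.cast_mul, ← sq]
    exact ZMod.natCast_self (p ^ 2)
  have hlin : ∀ (f : ZMod (p ^ 2) →+ ZMod (p ^ 2)) (a : ZMod (p ^ 2)), f a = a * f 1 := by
    intro f a
    have h1 : ((ZMod.cast a : ℤ) : ZMod (p ^ 2)) = a := ZMod.intCast_zmod_cast a
    have h3 : f ((ZMod.cast a : ℤ) • (1 : ZMod (p ^ 2))) = (ZMod.cast a : ℤ) • f 1 := map_zsmul f _ _
    rw [zsmul_eq_mul, zsmul_eq_mul, mul_one, h1] at h3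
    exact h3
  have h1 : α ((1 + p : ZMod (p ^ 2)) * 1) = (1 + p) * ((1 + p) * α 1) := hα 1
  have h3 : β ((p : ZMod (p ^ 2)) * 1) = p * α 1 := hβ 1
  have h4 : β 1 = 2 • (1 : ZMod (p ^ 2)) + p * g := hk
  rw [mul_one, hlin α] at h1
  rw [mul_one, hlin β, h4] at h3
  rw [two_nsmul] at h3
  have h5 : (p : ZMod (p ^ 2)) * α 1 = 0 := by
    linear_combination -h1 - α 1 * h0
  have h6 : ((2 * p : ℕ) : ZMod (p ^ 2)) = 0 := by
    push_cast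
    linear_combination h3 + h5 - g * h0
  rw [ZMod.natCast_eq_zero_iff, sq] at h6
  have h7 : p ∣ 2 := Nat.dvd_of_mul_dvd_mul_right hp.pos h6
  exact h2 ((Nat.prime_dvd_prime_iff_eq hp Nat.prime_two).1 h7)

end EVC
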