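import Pool.Agent.EVC.W1

/-!
# [EC-W5] the example of exponent 8
-/

set_option autoImplicit false

open EVS

namespace EVC

/-- a vector of `(ZMod 8) ^ 4` -/
abbrev V4 : Type := Fin 4 → ZMod 8

/-- the map `g0 ↦ g2, g1 ↦ 2 g2, g2 ↦ g3, g3 ↦ 2 g1` -/
def nu8 : V4 →+ V4 where
  toFun v := ![0, 2 * v 3, v 0 + 2 * v 1, v 2]
  map_zero' := by ext i; fin_cases i <;> simp
  map_add' := by
    intro v w
    ext i
    fin_cases i <;> simp <;> ring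

/-- the example of exponent 8: `G = (ZMod 8) ^ 4`, `H = (ZMod 8) ^ 2`, `K = ZMod 8`, `u = 1 + nu8`,
`π v = (4 v1, v0)`, `r (s, t) = s + 2 t`, `k = (1, 0)` -/
def D8 : WD V4 (ZMod 8 × ZMod 8) (ZMod 8) where
  u := AddMonoidHom.id V4 + nu8
  π :=
    { toFun := fun v => (4 * v 1, v 0)
      map_zero' := by simp
      map_add' := by intro v w; ext <;> simp; ring }
  r :=
    { toFun := fun s => s.1 + 2 * s.2
      map_zero' := by simp
      map_add' := by intro v w; simp; ring }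
  k := (1, 0)
  hu := by
    intro v
    have h : (4 : ZMod 8) * (2 * v 3) = 0 := by
      rw [← mul_assoc]
      have : (4 : ZMod 8) * 2 = 0 := by decide
      rw [this, zero_mul]
    ext
    · show 4 * (v 1 + 2 * v 3) = 4 * v 1
      rw [mul_add, h, add_zero]
    · show v 0 + 0 = v 0
      rw [add_zero]

/-- PROOF.  Let `μ = 2 ν + ν ^ 2` (`ν = nu8`): `hα` says `α ∘ ν = μ ∘ α`.  Explicitly `μ v = (0, 2 v2 + 4 v3, 2 v0 + 4 v1 + 4 v3, v0 + 2 v1 + 2 v2)`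
(components 0, 1, 2, 3).  Let `a = α (g0)`, `c = α (g1)` (vectors), and `β (1, 0) = (2 + 4 j, i)` with `j = g 1`, `i = g 0` (`hk`).
(0) `α (g2) = μ a`.  (1) `2 α (g2) = μ c`.  (2) `α (g3) = μ (α (g2)) = μ (μ a)`.  (3) `2 α (g1) = α (ν g3) = μ (α (g3)) = μ (μ (μ a))`.
`hβ` for `g0`: `β (0, 1) = (4 a1, a0)`; `hβ` for `g1`: `β (4, 0) = (4 c1, c0)`, and `β (4, 0) = 4 β (1, 0) = (8 + 16 j, 4 i) = (0, 4 i)`.
So `c0 = 4 i`, `4 c1 = 0`.  `hδ`: `r (0, 1) = 2 = 2 r (1, 0)`, so `r (β (0, 1)) = 2 r (β (1, 0))`: `4 a1 + 2 a0 = 2 (2 + 4 j + 2 i) = 4 + 4 i`.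
Now in `ZMod 8`: (1), component 3: `2 a0 + 4 a1 + 4 a2 = c0 + 2 c1 + 2 c2`; component 2: `4 a0 = 2 c0 + 4 c1 + 4 c3` (as
`2 (2 a0 + 4 a1 + 4 a3) = 4 a0`); component 1: `4 a2 = 2 c2 + 4 c3`.  Subtract: `2 a0 + 4 a1 = c0 + 2 c1 - 4 c3`, so
`4 + 4 i = 4 i + 2 c1 - 4 c3`, `2 c1 = 4 + 4 c3`.  Component 2: `4 a0 = 4 c3` (`2 c0 = 0`, `4 c1 = 0`).
From `2 a0 + 4 a1 = 4 + 4 i`: `a0` is even (`4 * (2 a0 + 4 a1) = 0` gives `8 a0 = 0`, no information: multiply by 2: `4 a0 = 8 + 8 i - 8 a1 = 0`).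
So `4 c3 = 4 a0 = 0` and `2 c1 = 4`.  (3), component 1: `2 c1` is component 1 of `μ (μ (μ a))`; compute: `μ (μ (μ a))` is a
combination of the components of `a`, whose component 1 is `2 * (μ (μ a))_2 + 4 * (μ (μ a))_3`
`= 2 (4 (μ a)_1 + 4 (μ a)_3) + 4 (2 (μ a)_1 + 2 (μ a)_2) = 0`.  So `4 = 2 c1 = 0` in `ZMod 8`, contradiction.
(Check the components of `μ`: `ν v = (0, 2 v3, v0 + 2 v1, v2)`, `ν² v = (0, 2 v2, 4 v3, v0 + 2 v1)`; so
`μ v = (0, 4 v3 + 2 v2, 2 v0 + 4 v1 + 4 v3, 2 v2 + v0 + 2 v1)`.) -/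
theorem D8_bad (α : V4 →+ V4) (β : ZMod 8 × ZMod 8 →+ ZMod 8 × ZMod 8) (δ : ZMod 8 →+ ZMod 8) (g : V4)
    (hα : ∀ a, α (D8.u a) = D8.u (D8.u (α a))) (hβ : ∀ a, β (D8.π a) = D8.π (α a))
    (hδ : ∀ t, D8.r (β t) = δ (D8.r t)) (hk : β D8.k = 2 • D8.k + D8.π g) : False := by
  have h8 : (8 : ZMod 8) = 0 := by decide
  have u0 : D8.u ![1, 0, 0, 0] = ![1, 0, 0, 0] + ![0, 0, 1, 0] := by
    ext i
    fin_cases i <;> rfl
  have u1 : D8.u ![0, 1, 0, 0] = ![0, 1, 0, 0] + (![0, 0, 1, 0] + ![0, 0, 1, 0]) := by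
    ext i
    fin_cases i <;> rfl
  have u2 : D8.u ![0, 0, 1, 0] = ![0, 0, 1, 0] + ![0, 0, 0, 1] := by
    ext i
    fin_cases i <;> rfl
  have u3 : D8.u ![0, 0, 0, 1] = ![0, 0, 0, 1] + (![0, 1, 0, 0] + ![0, 1, 0, 0]) := by
    ext i
    fin_cases i <;> rfl
  have m0 : ∀ v : V4, D8.u v 0 = v 0 + 0 := fun v => rfl
  have m1 : ∀ v : V4, D8.u v 1 = v 1 + 2 * v 3 := fun v => rfl
  have m2 : ∀ v : V4, D8.u v 2 = v 2 + (v 0 + 2 * v 1) := fun v => rfl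
  have m3 : ∀ v : V4, D8.u v 3 = v 3 + v 2 := fun v => rfl
  have e0 := hα ![1, 0, 0, 0]
  have e1 := hα ![0, 1, 0, 0]
  have e2 := hα ![0, 0, 1, 0]
  have e3 := hα ![0, 0, 0, 1]
  rw [u0, map_add] at e0
  rw [u1, map_add, map_add] at e1
  rw [u2, map_add] at e2
  rw [u3, map_add, map_add] at e3
  have a0 := congrFun e0 0
  have a1 := congrFun e0 1
  have a2 := congrFun e0 2
  have a3 := congrFun e0 3
  have b1 := congrFun e1 1
  have b2 := congrFun e1 2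
  have b3 := congrFun e1 3
  have c2 := congrFun e2 2
  have c3 := congrFun e2 3
  have d1 := congrFun e3 1
  simp only [Pi.add_apply, m0, m1, m2, m3, add_zero] at a0 a1 a2 a3 b1 b2 b3 c2 c3 d1
  have p0 : β (0, 1) = (4 * α ![1, 0, 0, 0] 1, α ![1, 0, 0, 0] 0) := by
    have h : D8.π ![1, 0, 0, 0] = (0, 1) := rfl
    rw [← h, hβ]
    rfl
  have p1 : β (4, 0) = (4 * α ![0, 1, 0, 0] 1, α ![0, 1, 0, 0] 0) := by
    have h : D8.π ![0, 1, 0, 0] = (4, 0) := rfl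
    rw [← h, hβ]
    rfl
  have hk' : β (1, 0) = (2 + 4 * g 1, g 0) := by
    have h : β (1, 0) = 2 • ((1, 0) : ZMod 8 × ZMod 8) + (4 * g 1, g 0) := hk
    rw [h]
    ext
    · show 2 • (1 : ZMod 8) + 4 * g 1 = 2 + 4 * g 1
      rw [two_nsmul]
      ring
    · show 2 • (0 : ZMod 8) + g 0 = g 0
      rw [smul_zero, zero_add]
  have p2 : β (4, 0) = β (1, 0) + β (1, 0) + β (1, 0) + β (1, 0) := by
    have h : ((4, 0) : ZMod 8 × ZMod 8) = (1, 0) + (1, 0) + (1, 0) + (1, 0) := rfl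
    rw [h, map_add, map_add, map_add]
  rw [p1, hk'] at p2
  have q1 := congrArg Prod.fst p2
  have q2 := congrArg Prod.snd p2
  have r1 : 4 * α ![1, 0, 0, 0] 1 + 2 * α ![1, 0, 0, 0] 0 = δ 1 + δ 1 := by
    have h := hδ (0, 1)
    rw [p0] at h
    have h' : D8.r (0, 1) = 1 + 1 := rfl
    rw [h', map_add] at h
    exact h
  have r2 : (2 + 4 * g 1) + 2 * g 0 = δ 1 := by
    have h := hδ (1, 0)
    rw [hk'] at h
    have h' : D8.r (1, 0) = 1 := rfl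
    rw [h'] at h
    exact h
  simp only [Prod.fst_add, Prod.snd_add] at q1 q2
  set A0 := α ![1, 0, 0, 0] 0
  set A1 := α ![1, 0, 0, 0] 1
  set A2 := α ![1, 0, 0, 0] 2
  set A3 := α ![1, 0, 0, 0] 3
  set C0 := α ![0, 1, 0, 0] 0
  set C1 := α ![0, 1, 0, 0] 1
  set C2 := α ![0, 1, 0, 0] 2
  set C3 := α ![0, 1, 0, 0] 3
  set E0 := α ![0, 0, 1, 0] 0
  set E1 := α ![0, 0, 1, 0] 1
  set E2 := α ![0, 0, 1, 0] 2
  set E3 := α ![0, 0, 1, 0] 3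
  set F0 := α ![0, 0, 0, 1] 0
  set F1 := α ![0, 0, 0, 1] 1
  set F2 := α ![0, 0, 0, 1] 2
  set F3 := α ![0, 0, 0, 1] 3
  have z0 : E0 = 0 := by linear_combination a0
  have z1 : E1 = 2 * A2 + 4 * A3 := by linear_combination a1
  have z2 : E2 = 2 * A0 + 4 * A1 + 4 * A3 := by linear_combination a2
  have z3 : E3 = A0 + 2 * A1 + 2 * A2 := by linear_combination a3
  have y1 : 2 * E1 = 2 * C2 + 4 * C3 := by linear_combination b1
  have y2 : 2 * E2 = 2 * C0 + 4 * C1 + 4 * C3 := by linear_combination b2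
  have y3 : 2 * E3 = C0 + 2 * C1 + 2 * C2 := by linear_combination b3
  have x2 : F2 = 2 * E0 + 4 * E1 + 4 * E3 := by linear_combination c2
  have x3 : F3 = E0 + 2 * E1 + 2 * E2 := by linear_combination c3
  have w1 : 2 * C1 = 2 * F2 + 4 * F3 := by linear_combination d1
  have v1 : 2 * C1 = 0 := by
    rw [w1, x2, x3, z0]
    linear_combination (2 * E1 + E2 + E3) * h8
  have v2 : 4 * A0 = 0 := by
    linear_combination 2 * r1 + 4 * (-r2) + (g 0 + 2 * g 1 + 1 - A1) * h8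
  have v3 : 4 * C3 = 0 := by
    linear_combination -y2 + 2 * z2 - 2 * v1 + v2 - 2 * q2 + (A1 + A3 - g 0) * h8
  have v4 : (4 : ZMod 8) = 2 * C1 - 4 * C3 := by
    linear_combination y3 - y1 - 2 * z3 + 2 * z1 + q2 - r1 + 2 * r2 - (g 1 - A3) * h8
  have v5 : (4 : ZMod 8) = 0 := by
    rw [v4, v1, v3, sub_zero]
  exact absurd v5 (by decide)

end EVC
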