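import Pool.Agent.EVC.Fin2
import Pool.Agent.EVC.W2b
import Pool.Agent.EVC.W3
import Pool.Agent.EVC.W4
import Pool.Agent.EVC.W5

/-!
# [EVC] varieties containing `C2` whose finite groups are abelian: for which exponents the small criterion suffices
-/

set_option autoImplicit false

open EVS

namespace EVC

/-- all finite groups in `V` are abelian of exponent dividing `n` -/
def AbGp (V : Set (Wd × Wd)) (n : ℕ) : Prop :=
  ∀ (G : Type) [Group G] [Finite G], Mem V G → (∀ a b : G, a * b = b * a) ∧ ∀ a : G, a ^ n = 1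

theorem not_endo_W {G H K : Type} [AddCommGroup G] [AddCommGroup H] [AddCommGroup K] [Finite G] [Finite H]
    [Finite K] (D : WD G H K) (hbad : ¬ Good (WS D) (D.ell 1 0)) : ¬ Endomorphic (idsOf (WS D)) := by
  intro hE
  exact hbad (allGood_of_endo hE (WS D) (mem_idsOf _) _ (W_conf D))

theorem example_W {G H K : Type} [AddCommGroup G] [AddCommGroup H] [AddCommGroup K] [Finite G] [Finite H]
    [Finite K] (D : WD G H K) {m n : ℕ} (hm : 0 < m) (hmn : m ∣ n) (hG : ∀ a : G, m • a = 0)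
    (hH : ∀ a : H, m • a = 0) (hK : ∀ a : K, m • a = 0) (hbad : ¬ Good (WS D) (D.ell 1 0))
    (h : ∀ V : Set (Wd × Wd), Mem V C2 → AbGp V n → (Endomorphic V ↔ ¬ Mem V P ∧ ¬ Mem V Pᵐᵒᵖ)) : False := by
  refine not_endo_W D hbad ((h (idsOf (WS D)) (W_C2 D) ?_).2 (W_P D hm hG hH hK))
  intro A _ _ hA
  obtain ⟨h1, h2⟩ := W_groups D hm hG hH hK A hA
  refine ⟨h1, fun a => ?_⟩
  obtain ⟨k, rfl⟩ := hmn
  rw [pow_mul, h2, one_pow]

theorem bad_D8 : ¬ Good (WS D8) (D8.ell 1 0) := by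
  intro hg
  obtain ⟨α, β, δ, g, h1, h2, h3, h4⟩ := W_good D8 hg
  exact D8_bad α β δ g h1 h2 h3 h4

theorem bad_Dp {p : ℕ} (hp : p.Prime) (h2 : p ≠ 2) : ¬ Good (WS (Dp p)) ((Dp p).ell 1 0) := by
  intro hg
  have : NeZero (p ^ 2) := ⟨pow_ne_zero 2 hp.ne_zero⟩
  obtain ⟨α, β, δ, g, h1, h2', -, h4⟩ := W_good (Dp p) hg
  exact Dp_bad hp h2 α β g h1 h2' h4

theorem dichotomy {n : ℕ} (hn : 0 < n) :
    (∀ V : Set (Wd × Wd), Mem V C2 → AbGp V n → (Endomorphic V ↔ ¬ Mem V P ∧ ¬ Mem V Pᵐᵒᵖ)) ↔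
      (¬ 8 ∣ n ∧ ∀ p : ℕ, p.Prime → p ≠ 2 → ¬ p ^ 2 ∣ n) := by
  constructor
  · intro h
    constructor
    · intro h8
      have e8 : ∀ a : ZMod 8, 8 • a = 0 := by decide
      exact example_W D8 (by norm_num) h8 (fun a => funext fun i => e8 (a i))
        (fun a => Prod.ext (e8 a.1) (e8 a.2)) e8 bad_D8 h
    · intro p hp h2 hpn
      have hne : NeZero (p ^ 2) := ⟨pow_ne_zero 2 hp.ne_zero⟩
      have e : ∀ a : ZMod (p ^ 2), (p ^ 2) • a = 0 := by
        intro a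
        rw [nsmul_eq_mul, ZMod.natCast_self, zero_mul]
      exact example_W (Dp p) (pow_pos hp.pos 2) hpn e e (fun _ => rfl) (bad_Dp hp h2) h
  · rintro ⟨h8, hp⟩ V hC hG
    exact classification_ab V hC hn h8 hp hG

end EVC
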