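import Pool.Agent.EVC.Fin1
import Pool.Agent.EVA.Fin

/-!
# [EVC] the classification theorem
-/

set_option autoImplicit false

open EVS

namespace EVC

/-- the four small forbidden or incompatible semigroups (necessary for every endomorphic variety) -/
def Small (V : Set (Wd × Wd)) : Prop :=
  ¬ Mem V A0 ∧ ¬ Mem V B2 ∧ (Mem V Pᵐᵒᵖ → ¬ Mem V C2 ∧ ¬ Mem V R21) ∧
    (Mem V P → ¬ Mem V C2 ∧ ¬ Mem V R21ᵐᵒᵖ)

theorem main (V : Set (Wd × Wd))
    (h : Mem V C2 ∨ (∀ (S : Type) [Semigroup S] [Finite S], Mem V S → Aper S) ∨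
      ∀ (S : Type) [Semigroup S] [Finite S], Mem V S → CentralIdem S) :
    Endomorphic V ↔ Small V ∧ AllGood V := by
  constructor
  · intro hE
    exact ⟨necessary2 V hE, allGood_of_endo hE⟩
  · rintro ⟨⟨h1, h2, h3, h4⟩, h5⟩
    rcases h with h | h | h
    · exact (classification V (Or.inl h)).2
        ⟨fun _ => ⟨fun hP => (h4 hP).1 h, fun hP => (h3 hP).1 h⟩, h5⟩
    · exact sufficient V h h1 h2 h3 h4
    · exact endo_of_allGood h5 h

end EVC
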