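import Mathlib

/-!
# [EC-G1] homomorphisms of abelian groups of bounded exponent; a congruence
-/

set_option autoImplicit false

namespace EVC

open CharacterModule in
private theorem g1_char {A : Type} [AddCommGroup A] (a : A) (h0 : addOrderOf a ≠ 0) :
    ∃ c : CharacterModule A, c a = (((addOrderOf a : ℚ)⁻¹ : ℚ) : AddCircle (1 : ℚ)) := by
  obtain ⟨c, hc⟩ := dual_surjective_of_injective _ (Submodule.injective_subtype (Submodule.span ℤ {a}))
    (ofSpanSingleton a)
  refine ⟨c, ?_⟩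
  have h1 : ofSpanSingleton a ⟨a, Submodule.mem_span_singleton_self a⟩
      = (((addOrderOf a : ℚ)⁻¹ : ℚ) : AddCircle (1 : ℚ)) := by
    erw [ofSpanSingleton, LinearMap.toAddMonoidHom_coe, LinearMap.comp_apply,
      intSpanEquivQuotAddOrderOf_apply_self, Submodule.liftQSpanSingleton_apply,
      AddMonoidHom.coe_toIntLinearMap, int.divByNat, LinearMap.toSpanSingleton_apply_one]
    rw [if_neg h0]
  rw [← h1, ← hc]
  rfl

private theorem g1_val {n : ℕ} (hn : 0 < n) (x : AddCircle (1 : ℚ)) (hx : n • x = 0) :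
    ∃ j : ℤ, x = (((j : ℚ) / n : ℚ) : AddCircle (1 : ℚ)) := by
  obtain ⟨r, rfl⟩ := QuotientAddGroup.mk_surjective x
  have h1 : ((n • r : ℚ) : AddCircle (1 : ℚ)) = 0 := hx
  obtain ⟨j, hj⟩ := (AddCircle.coe_eq_zero_iff _).mp h1
  refine ⟨j, ?_⟩
  have hn' : (n : ℚ) ≠ 0 := Nat.cast_ne_zero.mpr hn.ne'
  have h2 : r = (j : ℚ) / n := by
    rw [eq_div_iff hn', mul_comm]
    rw [nsmul_eq_mul, zsmul_one] at hj
    exact hj.symm
  rw [← h2]

private theorem g1_uniq {n : ℕ} (hn : 0 < n) (j k : ℤ)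
    (h : (((j : ℚ) / n : ℚ) : AddCircle (1 : ℚ)) = (((k : ℚ) / n : ℚ) : AddCircle (1 : ℚ))) :
    (j : ZMod n) = (k : ZMod n) := by
  have h1 : (((j : ℚ) / n - (k : ℚ) / n : ℚ) : AddCircle (1 : ℚ)) = 0 := by
    rw [AddCircle.coe_sub, h, sub_self]
  obtain ⟨m, hm⟩ := (AddCircle.coe_eq_zero_iff _).mp h1
  have hn' : (n : ℚ) ≠ 0 := Nat.cast_ne_zero.mpr hn.ne'
  have h2 : (j : ℚ) - k = m * n := by
    rw [zsmul_one] at hm
    rw [hm]
    field_simp
  have h3 : j - k = m * n := by exact_mod_cast h2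
  have h4 : ((j - k : ℤ) : ZMod n) = 0 := by
    rw [h3, Int.cast_mul, Int.cast_natCast, ZMod.natCast_self, mul_zero]
  rw [Int.cast_sub] at h4
  exact sub_eq_zero.mp h4

/-- PROOF.  Let `o = addOrderOf a`, a positive divisor of `n` (`addOrderOf_dvd_iff_nsmul_eq_zero`).  The character
`CharacterModule.ofSpanSingleton a` of `ℤ ∙ a` (values in `AddCircle (1 : ℚ)`, `a ↦ 1 / o`; compare the proof of
`CharacterModule.exists_character_apply_ne_zero_of_ne_zero` in Mathlib/Algebra/Module/CharacterModule.lean, and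
`CharacterModule.ofSpanSingleton`, `CharacterModule.intSpanEquivQuotAddOrderOf_apply_self`, `CharacterModule.int.divByNat_self`)
extends to a character `c` of `A` (`CharacterModule.dual_surjective_of_injective` for the inclusion of `ℤ ∙ a`).  For `s : A`
`n • c s = c (n • s) = 0`, so `c s` is the class of `j / n` for some integer `j` (`c s` is the class of a rational `r`,
`n * r` is an integer: `AddCircle.coe_eq_zero_iff`), unique modulo `n`; `χ s = (j : ZMod n)` is additive (choice of `j`,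
`ZMod.intCast_eq_intCast_iff`), and for `s = a`: `c a = 1 / o = (n / o) / n`, so `χ a = n / o`.
(Any other proof is welcome.) -/
theorem exists_char {A : Type} [AddCommGroup A] {n : ℕ} (hn : 0 < n) (hA : ∀ x : A, n • x = 0) (a : A) :
    ∃ χ : A →+ ZMod n, χ a = ((n / addOrderOf a : ℕ) : ZMod n) := by
  have hord : addOrderOf a ∣ n := addOrderOf_dvd_iff_nsmul_eq_zero.mpr (hA a)
  have h0 : addOrderOf a ≠ 0 := fun h => hn.ne' (Nat.eq_zero_of_zero_dvd (h ▸ hord))
  obtain ⟨c, hc⟩ := g1_char a h0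
  have hval : ∀ s : A, ∃ j : ℤ, c s = (((j : ℚ) / n : ℚ) : AddCircle (1 : ℚ)) := by
    intro s
    refine g1_val hn (c s) ?_
    rw [← map_nsmul, hA s, map_zero]
  choose j hj using hval
  refine ⟨AddMonoidHom.mk' (fun s => (j s : ZMod n)) ?_, ?_⟩
  · intro s t
    have h1 : (j (s + t) : ZMod n) = ((j s + j t : ℤ) : ZMod n) := by
      apply g1_uniq hn
      rw [← hj (s + t), map_add, hj s, hj t, ← AddCircle.coe_add, Int.cast_add, add_div]
    rw [h1, Int.cast_add]
  · have h2 : (j a : ZMod n) = (((n / addOrderOf a : ℕ) : ℤ) : ZMod n) := by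
      apply g1_uniq hn
      rw [← hj a, hc]
      have hn' : (n : ℚ) ≠ 0 := Nat.cast_ne_zero.mpr hn.ne'
      have ho' : (addOrderOf a : ℚ) ≠ 0 := Nat.cast_ne_zero.mpr h0
      congr 1
      rw [Int.cast_natCast, Nat.cast_div hord ho']
      field_simp
    rw [Int.cast_natCast] at h2
    exact h2

/-- PROOF.  `exists_char` composed with `ZMod.lift n` of the homomorphism `ℤ →+ C`, `j ↦ j • c` (`zmultiplesHom`), which maps
`n` to `0`. -/
theorem exists_hom {A C : Type} [AddCommGroup A] [AddCommGroup C] {n : ℕ} (hn : 0 < n)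
    (hA : ∀ x : A, n • x = 0) (a : A) (c : C) (hc : n • c = 0) :
    ∃ f : A →+ C, f a = (n / addOrderOf a) • c ∧ ∀ s : A, ∃ j : ℤ, f s = j • c := by
  obtain ⟨χ, hχ⟩ := exists_char hn hA a
  let g : ZMod n →+ C := ZMod.lift n ⟨(zmultiplesHom C) c, by
    rw [zmultiplesHom_apply, natCast_zsmul, hc]⟩
  have hg : ∀ j : ℤ, g (j : ZMod n) = j • c := by
    intro j
    change ZMod.lift n _ (j : ZMod n) = j • c
    rw [ZMod.lift_coe]
    rfl
  refine ⟨g.comp χ, ?_, ?_⟩
  · rw [AddMonoidHom.comp_apply, hχ]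
    have h1 := hg ((n / addOrderOf a : ℕ) : ℤ)
    rw [Int.cast_natCast, natCast_zsmul] at h1
    exact h1
  · intro s
    obtain ⟨j, hj⟩ := ZMod.intCast_surjective (χ s)
    refine ⟨j, ?_⟩
    rw [AddMonoidHom.comp_apply, ← hj, hg]

end EVC
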