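import Mathlib

/-!
# [EC-GX] a congruence
-/

set_option autoImplicit false

namespace EVC

/-- PROOF.  `g = gcd (n / o) (n / q) (o q)` divides 2: let `p` be a prime with `p ∣ g`.  If `p` is odd: `p ∣ o q`, so `p ∣ o` or `p ∣ q`;
`p ∣ n`, `p ^ 2 ∤ n`, so if `p ∣ o` then `p ∤ n / o` (as `o * (n / o) = n`), contradiction; the same with `q`.  So `g` is a power
of 2.  If `4 ∣ g`: `4 ∣ n / o` and `8 ∤ n` imply `2 ∤ o`, the same for `q`, so `o q` is odd, contradiction to `4 ∣ o q`.  So `g` is 1 or 2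
(e.g. `Nat.eq_two_pow_or_exists_odd_prime_and_dvd`, or induction).
Now Bezout (`Int.gcd_eq_gcd_ab` twice): `X (n / o) + Y (n / q) + Z (o q) = g`, multiply by `2 / g`. -/
theorem exists_XY {n o q : ℕ} (hn : 0 < n) (h8 : ¬ 8 ∣ n) (hp : ∀ p : ℕ, p.Prime → p ≠ 2 → ¬ p ^ 2 ∣ n)
    (hoq : o * q ∣ n) :
    ∃ X Y Z : ℤ, X * ((n / o : ℕ) : ℤ) + Y * ((n / q : ℕ) : ℤ) + Z * ((o * q : ℕ) : ℤ) = 2 := by
  have ho : o ∣ n := (Dvd.intro q rfl).trans hoq
  have hq : q ∣ n := (Dvd.intro_left o rfl).trans hoq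
  have hoa : o * (n / o) = n := Nat.mul_div_cancel' ho
  have hqb : q * (n / q) = n := Nat.mul_div_cancel' hq
  generalize n / o = a at *
  generalize n / q = b at *
  have hoq0 : o * q ≠ 0 := fun h => by
    rw [h, zero_dvd_iff] at hoq
    omega
  have hg0 : (a.gcd b).gcd (o * q) ≠ 0 := fun h => hoq0 (Nat.gcd_eq_zero_iff.1 h).2
  have hga : (a.gcd b).gcd (o * q) ∣ a := (Nat.gcd_dvd_left _ _).trans (Nat.gcd_dvd_left _ _)
  have hgb : (a.gcd b).gcd (o * q) ∣ b := (Nat.gcd_dvd_left _ _).trans (Nat.gcd_dvd_right _ _)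
  have hgo : (a.gcd b).gcd (o * q) ∣ o * q := Nat.gcd_dvd_right _ _
  have h1 : ∀ {d : ℕ}, d.Prime → d ∣ (a.gcd b).gcd (o * q) → d = 2 := by
    intro p hpp hpg
    by_contra hp2
    rcases (hpp.dvd_mul).1 (hpg.trans hgo) with h | h
    · apply hp p hpp hp2
      rw [← hoa, sq]
      exact mul_dvd_mul h (hpg.trans hga)
    · apply hp p hpp hp2
      rw [← hqb, sq]
      exact mul_dvd_mul h (hpg.trans hgb)
  have h2 := Nat.eq_prime_pow_of_unique_prime_dvd hg0 h1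
  have h4 : ¬ 4 ∣ (a.gcd b).gcd (o * q) := by
    intro h4
    have h2o : ¬ 2 ∣ o := fun h => h8 (by
      rw [← hoa]
      exact mul_dvd_mul h (h4.trans hga : 4 ∣ a))
    have h2q : ¬ 2 ∣ q := fun h => h8 (by
      rw [← hqb]
      exact mul_dvd_mul h (h4.trans hgb : 4 ∣ b))
    rcases (Nat.prime_two.dvd_mul).1 ((Dvd.intro 2 rfl : 2 ∣ 4).trans (h4.trans hgo)) with h | h
    · exact h2o h
    · exact h2q h
  have hg2 : (a.gcd b).gcd (o * q) ∣ 2 := by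
    generalize ((a.gcd b).gcd (o * q)).primeFactorsList.length = k at h2
    rw [h2] at h4 ⊢
    have hk : k ≤ 1 := by
      by_contra hk
      exact h4 (pow_dvd_pow 2 (by omega : 2 ≤ k))
    exact (pow_dvd_pow 2 hk).trans (by norm_num)
  obtain ⟨t, ht⟩ := hg2
  have e1 := Nat.gcd_eq_gcd_ab (a.gcd b) (o * q)
  have e2 := Nat.gcd_eq_gcd_ab a b
  have e3 : ((2 : ℕ) : ℤ) = (((a.gcd b).gcd (o * q) : ℕ) : ℤ) * (t : ℤ) := by
    rw [← Nat.cast_mul, ← ht]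
  refine ⟨a.gcdA b * (a.gcd b).gcdA (o * q) * t, a.gcdB b * (a.gcd b).gcdA (o * q) * t,
    (a.gcd b).gcdB (o * q) * t, ?_⟩
  rw [e1, e2] at e3
  push_cast at e3 ⊢
  linear_combination -e3

end EVC
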