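import Pool.Agent.EVC.G1
import Pool.Agent.EVC.GX

/-!
# [EC-G2] the group lemma
-/

set_option autoImplicit false

namespace EVC

/-- PROOF.  `k' = class of r k` in `K ⧸ B.map r`, `k'' = class of k` in `H ⧸ B`; `o = addOrderOf k'`, `o' = addOrderOf k''`.
`o' • k ∈ B`, so `o' • k' = 0` and `o ∣ o'`; let `o' = o * q`; `o' ∣ n`.  `o • r k = r b0` for some `b0 ∈ B`; let
`m0 = o • k - b0`, so `r m0 = 0`.  `exists_hom` for `A = K ⧸ B.map r`, `a = k'`, `C = H`, `c = k` gives `f1` with `f1 k' = (n / o) • k`; and for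
`A = H ⧸ B`, `a = k''`, `C = H`, `c = m0` gives `f2` with `f2 k'' = (n / (o * q)) • m0` and all values multiples of `m0`.
With `X`, `Y`, `Z` from `exists_XY`: `β s = X • f1 [r s] + Y • f2 [s]`, `δ t = X • r (f1 [t])`.
`r (β s) = X • r (f1 [r s]) + Y • r (f2 [s]) = δ (r s)` since `r m0 = 0`.  `s ∈ B`: `[r s] = 0`, `[s] = 0`.
`β k = (X * (n / o)) • k + (Y * (n / (o q))) • (o • k - b0)`, and `n / (o q) * o = n / q`, so
`β k - 2 • k = (X * (n / o) + Y * (n / q) - 2) • k - (Y * (n / (o q))) • b0 = -(Z * (o q)) • k - (..) • b0`, which is in `B`. -/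
theorem group_lemma {H K : Type} [AddCommGroup H] [AddCommGroup K] {n : ℕ} (hn : 0 < n) (h8 : ¬ 8 ∣ n)
    (hp : ∀ p : ℕ, p.Prime → p ≠ 2 → ¬ p ^ 2 ∣ n) (hH : ∀ s : H, n • s = 0) (hK : ∀ s : K, n • s = 0)
    (r : H →+ K) (B : AddSubgroup H) (k : H) :
    ∃ (β : H →+ H) (δ : K →+ K), (∀ s, r (β s) = δ (r s)) ∧ (∀ s ∈ B, β s = 0) ∧ β k - 2 • k ∈ B := by
  have hA1 : ∀ x : K ⧸ B.map r, n • x = 0 := by
    intro x
    obtain ⟨t, rfl⟩ := QuotientAddGroup.mk_surjective x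
    rw [← QuotientAddGroup.mk_nsmul, hK t, QuotientAddGroup.mk_zero]
  have hA2 : ∀ x : H ⧸ B, n • x = 0 := by
    intro x
    obtain ⟨t, rfl⟩ := QuotientAddGroup.mk_surjective x
    rw [← QuotientAddGroup.mk_nsmul, hH t, QuotientAddGroup.mk_zero]
  set k1 : K ⧸ B.map r := (QuotientAddGroup.mk (r k)) with hk1
  set k2 : H ⧸ B := (QuotientAddGroup.mk k) with hk2
  have ho2n : addOrderOf k2 ∣ n := addOrderOf_dvd_iff_nsmul_eq_zero.2 (hA2 k2)
  have hB2 : addOrderOf k2 • k ∈ B := by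
    have h1 : addOrderOf k2 • k2 = 0 := addOrderOf_nsmul_eq_zero k2
    rw [hk2, ← QuotientAddGroup.mk_nsmul, QuotientAddGroup.eq_zero_iff] at h1
    exact h1
  have ho : addOrderOf k1 ∣ addOrderOf k2 := by
    refine addOrderOf_dvd_iff_nsmul_eq_zero.2 ?_
    rw [hk1, ← QuotientAddGroup.mk_nsmul, QuotientAddGroup.eq_zero_iff, ← map_nsmul]
    exact AddSubgroup.mem_map_of_mem r hB2
  obtain ⟨q, hq⟩ := ho
  have hoB : addOrderOf k1 • r k ∈ B.map r := by
    have h1 : addOrderOf k1 • k1 = 0 := addOrderOf_nsmul_eq_zero k1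
    rw [hk1, ← QuotientAddGroup.mk_nsmul, QuotientAddGroup.eq_zero_iff] at h1
    exact h1
  set o := addOrderOf k1 with hodef
  obtain ⟨b0, hb0, hrb0⟩ := hoB
  have hrm : r (o • k - b0) = 0 := by
    rw [map_sub, map_nsmul, hrb0, sub_self]
  obtain ⟨f1, hf1, -⟩ := exists_hom hn hA1 k1 k (hH k)
  obtain ⟨f2, hf2, hf2'⟩ := exists_hom hn hA2 k2 (o • k - b0) (hH _)
  have hoq : o * q ∣ n := hq ▸ ho2n
  obtain ⟨X, Y, Z, hXYZ⟩ := exists_XY hn h8 hp hoq
  obtain ⟨c, hc⟩ := hoq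
  have ho0 : 0 < o := by
    rcases Nat.eq_zero_or_pos o with h | h
    · rw [h, zero_mul, zero_mul] at hc; omega
    · exact h
  have hq0 : 0 < q := by
    rcases Nat.eq_zero_or_pos q with h | h
    · rw [h, mul_zero, zero_mul] at hc; omega
    · exact h
  have hdiv2 : n / (o * q) = c := by
    rw [hc]; exact Nat.mul_div_cancel_left c (Nat.mul_pos ho0 hq0)
  have hdiv3 : n / q = o * c := by
    rw [hc, show o * q * c = q * (o * c) by ring]; exact Nat.mul_div_cancel_left _ hq0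
  refine ⟨X • (f1.comp ((QuotientAddGroup.mk' (B.map r)).comp r)) + Y • (f2.comp (QuotientAddGroup.mk' B)),
    X • (r.comp (f1.comp (QuotientAddGroup.mk' (B.map r)))), ?_, ?_, ?_⟩
  · intro s
    obtain ⟨j, hj⟩ := hf2' (QuotientAddGroup.mk' B s)
    simp only [AddMonoidHom.add_apply, AddMonoidHom.smul_apply, AddMonoidHom.comp_apply, map_add, map_zsmul, hj, hrm,
      smul_zero, add_zero]
  · intro s hs
    have h1 : (QuotientAddGroup.mk' (B.map r)) (r s) = 0 :=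
      (QuotientAddGroup.eq_zero_iff _).2 (AddSubgroup.mem_map_of_mem r hs)
    have h2 : (QuotientAddGroup.mk' B) s = 0 := (QuotientAddGroup.eq_zero_iff _).2 hs
    simp only [AddMonoidHom.add_apply, AddMonoidHom.smul_apply, AddMonoidHom.comp_apply, h1, h2, map_zero,
      smul_zero, add_zero]
  · have e1 : (QuotientAddGroup.mk' (B.map r)) (r k) = k1 := rfl
    have e2 : (QuotientAddGroup.mk' B) k = k2 := rfl
    simp only [AddMonoidHom.add_apply, AddMonoidHom.smul_apply, AddMonoidHom.comp_apply]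
    rw [e1, e2, hf1, hf2, hq, hdiv2]
    have hkey : X • (n / o) • k + Y • c • (o • k - b0) - 2 • k
        = (-Z) • ((o * q) • k) + (-(Y * (c : ℤ))) • b0 := by
      have h2 : (2 : ℤ) • k = 2 • k := by norm_cast
      rw [← h2, ← hXYZ, hdiv3]
      push_cast
      simp only [← natCast_zsmul]
      module
    rw [hkey]
    refine B.add_mem (B.zsmul_mem ?_ _) (B.zsmul_mem hb0 _)
    rw [← hq]; exact hB2

/-- PROOF.  `group_lemma` for `Additive H`, `Additive K` (`MonoidHom.toAdditive`, `Subgroup.toAddSubgroup`). -/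
theorem group_lemma_mul {H K : Type} [CommGroup H] [CommGroup K] {n : ℕ} (hn : 0 < n) (h8 : ¬ 8 ∣ n)
    (hp : ∀ p : ℕ, p.Prime → p ≠ 2 → ¬ p ^ 2 ∣ n) (hH : ∀ s : H, s ^ n = 1) (hK : ∀ s : K, s ^ n = 1)
    (r : H →* K) (B : Subgroup H) (k : H) :
    ∃ (β : H →* H) (δ : K →* K), (∀ s, r (β s) = δ (r s)) ∧ (∀ s ∈ B, β s = 1) ∧
      ∃ c ∈ B, β k = k * k * c := by
  obtain ⟨β, δ, h1, h2, h3⟩ := group_lemma (H := Additive H) (K := Additive K) hn h8 hp
    (fun s => hH (Additive.toMul s)) (fun s => hK (Additive.toMul s)) (MonoidHom.toAdditive r) (Subgroup.toAddSubgroup B)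
    (Additive.ofMul k)
  refine ⟨MonoidHom.toAdditive.symm β, MonoidHom.toAdditive.symm δ, fun s => h1 (Additive.ofMul s),
    fun s hs => h2 (Additive.ofMul s) hs, Additive.toMul (β (Additive.ofMul k) - 2 • Additive.ofMul k), h3, ?_⟩
  have h4 : β (Additive.ofMul k) = Additive.ofMul k + Additive.ofMul k + (β (Additive.ofMul k) - 2 • Additive.ofMul k) := by
    abel
  exact congrArg Additive.toMul h4

end EVC
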