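import Pool.Agent.EVC.S3
import Pool.Agent.EVC.GO
import Pool.Agent.EVC.G2

/-!
# [EC-G3] configurations with abelian subgroups
-/

set_option autoImplicit false

open EVS

namespace EVC

section
variable {S : Type} [Semigroup S] [Finite S]

/-- subgroups are abelian of exponent dividing `n` -/
def AbE (S : Type) [Semigroup S] [Finite S] (n : ℕ) : Prop :=
  (∀ g k : S, IsGp g → IsGp k → om g = om k → g * k = k * g) ∧ ∀ g : S, IsGp g → pw g n = g

/-- If all `x p x` are group elements, the identity shows that the configuration is good.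
PROOF.  `φ = MulHom.id S`; `h.notGp`. -/
theorem good_id {x : S} (h : Conf S x) (H : ∀ (p : WithOne S) (s : S), (s : WithOne S) = x * p * x → IsGp s) :
    Good S x := by
  refine ⟨MulHom.id S, ?_, ?_⟩
  · exact h.notGp
  · intro p s hs
    exact H p s hs

/-- PROOF.  Let `b = om x`, `hs = sf_of_conf h`.  No unit exists.  `S` is commutative: every `s` is `Lw`, or `x`, or `x * x` (`hs.form`,
`hs.j2form`).  Two `Lw` elements `s`, `t` are group elements (`hs.gp`); their idempotent powers are `b` or `y` (`h.idem`; an identity would be a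
unit); if they are equal use `hab`; if `om s = b`, `om t = y`: `s * t = s * (y * t) = (y * s) * t = t * (y * s) = (t * y) * s = t * s` by `hab` for `y * s`
and `t` (`om (y * s) = y * b = y`).  `x` and `Lw` `s`: `x * s = x * (b * s) = (b * x) * s = s * (b * x) = (s * b) * x = s * x` (`b * x` is
`Lw`).  If `Lw b (x * x)`: `good_id` (`x p x`: `p = 1` clear; otherwise `x * p` is `Lw` or `J2` (`hs.prod`) and then `x p x` is `Lw`
(`hs.j2_low`)).  Otherwise `φ s = s * s` is an endomorphism, `φ x = x * x` is not `Lw` and not a unit, so not a group element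
(`hs.gp`), and for `s = x p x` `J2 x s`, so `s * s` is `Lw` (`hs.j2_low`, no units). -/
theorem good_of_noUnit {n : ℕ} {x : S} (h : Conf S x) (hab : AbE S n) (hU : ∀ g : S, ¬ Un g) : Good S x := by
  have hs : SF S (om x) x := sf_of_conf h
  have hc : CentralIdem S := h.central
  generalize hbx : om x = b at hs
  have hb : b * b = b := hs.hb
  -- the classes of elements
  have hcls : ∀ s : S, Lw b s ∨ s = x ∨ s = x * x := by
    intro s
    by_cases h1 : Lw b s
    · exact Or.inl h1
    · right
      by_cases h2 : J2 x s
      · rcases hs.j2form s h1 h2 with ⟨h3, _⟩ | ⟨p, _, _, hp, _⟩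
        · exact Or.inr h3
        · exact absurd hp (hU p)
      · rcases hs.form s h1 (hU s) h2 with ⟨h3, _⟩ | ⟨g, _, hg, _⟩
        · exact Or.inl h3
        · exact absurd hg (hU g)
  -- the idempotents
  obtain ⟨b', y, m, hpw, hb', hy, hby', hidem⟩ := h.idem
  have hbb : b' = b := by
    rw [← hbx, ← hpw]
    exact (om_eq (by rw [hpw]; exact hb')).symm
  subst hbb
  have hom : ∀ s : S, om s = b' ∨ om s = y := by
    intro s
    rcases hidem (om s) (om_idem s) with h1 | h1 | h1
    · exact Or.inl h1
    · exact Or.inr h1
    · exact absurd h1 (hU s)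
  have gpL : ∀ s : S, Lw b' s → IsGp s := fun s h1 => (hs.gp s).2 (Or.inl h1)
  have hyb : y * b' = y := by rw [← hc b' y hb, hby']
  -- the mixed case
  have mixed : ∀ s t : S, Lw b' s → Lw b' t → om s = b' → om t = y → s * t = t * s := by
    intro s t h1 h2 h3 h4
    have ht : t * y = t := by
      have := isGp_iff.1 (gpL t h2)
      rwa [h4] at this
    have hyt : y * t = t := by rw [hc y t hy, ht]
    have hys : Lw b' (y * s) := by
      unfold Lw
      rw [← mul_assoc, hby']
    have homys : om (y * s) = om t := by
      rw [om_mul hc, om_of_idem hy, h3, h4, hyb]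
    calc s * t = s * (y * t) := by rw [hyt]
      _ = (y * s) * t := by rw [← mul_assoc, hc y s hy]
      _ = t * (y * s) := hab.1 _ _ (gpL _ hys) (gpL _ h2) homys
      _ = t * s := by rw [← mul_assoc, ht]
  have commL : ∀ s t : S, Lw b' s → Lw b' t → s * t = t * s := by
    intro s t h1 h2
    rcases hom s with h3 | h3 <;> rcases hom t with h4 | h4
    · exact hab.1 _ _ (gpL _ h1) (gpL _ h2) (h3.trans h4.symm)
    · exact mixed s t h1 h2 h3 h4
    · exact (mixed t s h2 h1 h4 h3).symm
    · exact hab.1 _ _ (gpL _ h1) (gpL _ h2) (h3.trans h4.symm)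
  have commx : ∀ s : S, Lw b' s → x * s = s * x := by
    intro s h1
    have hbs : b' * s = s := h1
    calc x * s = x * (b' * s) := by rw [hbs]
      _ = (b' * x) * s := by rw [← mul_assoc, hc b' x hb]
      _ = s * (b' * x) := commL _ _ (lw_b hb x) h1
      _ = s * x := by rw [← mul_assoc, ← hc b' s hb, hbs]
  have commxx : ∀ s : S, Lw b' s → (x * x) * s = s * (x * x) := by
    intro s h1
    calc (x * x) * s = x * (x * s) := mul_assoc _ _ _
      _ = x * (s * x) := by rw [commx s h1]
      _ = (x * s) * x := (mul_assoc _ _ _).symm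
      _ = (s * x) * x := by rw [commx s h1]
      _ = s * (x * x) := mul_assoc _ _ _
  have comm : ∀ s t : S, s * t = t * s := by
    intro s t
    rcases hcls s with h1 | rfl | rfl <;> rcases hcls t with h2 | h2 | h2
    · exact commL s t h1 h2
    · subst h2
      exact (commx s h1).symm
    · subst h2
      exact (commxx s h1).symm
    · exact commx t h2
    · subst h2
      rfl
    · subst h2
      exact (mul_assoc _ _ _).symm
    · exact commxx t h2
    · subst h2
      exact mul_assoc _ _ _
    · subst h2
      rfl
  by_cases hxx : Lw b' (x * x)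
  · apply good_id h
    intro p s hps
    have hp : p = 1 ∨ ∃ t : S, p = (t : WithOne S) :=
      WithOne.cases_on p (Or.inl rfl) (fun t => Or.inr ⟨t, rfl⟩)
    rcases hp with rfl | ⟨t, rfl⟩
    · rw [mul_one, ← WithOne.coe_mul, WithOne.coe_inj] at hps
      rw [hps]
      exact gpL _ hxx
    · rw [← WithOne.coe_mul, ← WithOne.coe_mul, WithOne.coe_inj] at hps
      rw [hps]
      apply gpL
      rw [comm x t, mul_assoc]
      exact hxx.mul_left hc hb t
  · refine ⟨⟨fun s => s * s, ?_⟩, ?_, ?_⟩
    · intro s t
      show (s * t) * (s * t) = (s * s) * (t * t)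
      rw [mul_assoc, mul_assoc, ← mul_assoc t s t, comm t s, mul_assoc s t t]
    · show ¬ IsGp (x * x)
      rw [hs.gp]
      rintro (h1 | h1)
      · exact hxx h1
      · exact hU _ h1
    · intro p s hps
      show IsGp (s * s)
      apply gpL
      have hj : J2 x s := ⟨1, p, 1, by rw [one_mul, mul_one]; exact hps⟩
      exact (hs.j2_low s s hj (hU s)).1

end

end EVC
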