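import Pool.Agent.EVC.G3

/-!
# [EC-G3b] configurations with abelian subgroups: an endomorphism
-/

set_option autoImplicit false

open EVS

namespace EVC

section
variable {S : Type} [Semigroup S] [Finite S]

/-- The endomorphism used in the case with units.
PROOF.  Define `ρ s = e` if `Un s`; `β (b * s)` if `¬ Un s` and `om s = b`; `δ (y * s)` otherwise (then `om s = y`: `h.idem`, as `om s`
is not an identity).  Multiplicativity: idempotents are central, `om (s t) = om s om t` (`om_mul`), `om (b * s) = b` if `om s = b`, and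
`om (y * s) = y` for all `s` with `om s ∈ {b, y, identity}`; elements `g` with `om g = b`, `b * g = g` form `G_b`, `om g = y`, `y * g = g`
form `G_y`.  `s t` is a unit iff both are (`om s om t` is an identity iff both are; `hs.un_mul`; if `s` is not a unit then
`om s ≤ b`, and `b` is not an identity as `b * x ≠ x`).
unit, unit: `e * e = e`.  unit `u`, `om t = b`: `ρ (u t) = β (b u t) = β ((b u) (b t)) = β (b u) * β (b t) = b * β (b t) = β (b t)
= e * β (b t)` (`hβB`).  unit `u`, `om t = y`: `ρ (u t) = δ ((y u) (y t)) = δ (y (b u)) δ (y t) = (y * β (b u)) δ (y t) = (y * b) δ (y t)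
= δ (y t)` (`hc`).  `om s = om t = b`: `b s t = (b s) (b t)`.  `om s = b`, `om t = y` (`y ≠ b`): `β (b s) * δ (y t) = β (b s) * (y * δ (y t))
= (y * β (b s)) * δ (y t) = δ (y * (b * s)) * δ (y t) = δ (y s t)`.  Both `y`: clear.  (If `y = b`, the last cases do not occur.) -/
theorem rho_exists {x y e : S} (h : Conf S x) (hy : y * y = y) (hby : om x * y = y)
    (hid : ∀ f : S, f * f = f → f = om x ∨ f = y ∨ ∀ s : S, f * s = s) (he : Un e) (hee : e * e = e)
    (β δ : S → S) (hβ1 : ∀ g, om g = om x → om x * g = g → om (β g) = om x ∧ om x * β g = β g)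
    (hβ2 : ∀ g k, om g = om x → om x * g = g → om k = om x → om x * k = k → β (g * k) = β g * β k)
    (hδ1 : ∀ g, om g = y → y * g = g → om (δ g) = y ∧ y * δ g = δ g)
    (hδ2 : ∀ g k, om g = y → y * g = g → om k = y → y * k = k → δ (g * k) = δ g * δ k)
    (hβB : ∀ u, Un u → β (om x * u) = om x)
    (hc : ∀ g, om g = om x → om x * g = g → y * β g = δ (y * g)) :
    ∃ ρ : S →ₙ* S, (∀ u, Un u → ρ u = e) ∧ (∀ s, ¬ Un s → om s = om x → ρ s = β (om x * s)) ∧
      ∀ s, ¬ Un s → om s ≠ om x → ρ s = δ (y * s) := by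
  classical
  have hci : CentralIdem S := h.central
  have hb : om x * om x = om x := om_idem x
  have hbx : om x * x ≠ x := by
    intro h1
    apply h.notGp
    rw [isGp_iff, ← om_comm]
    exact h1
  have hyb : y * om x = y := by rw [← hci _ y hb, hby]
  have hyU : ∀ s, y * s = y * (om x * s) := fun s => by rw [← mul_assoc, hyb]
  have hoe : ∀ s, e * s = s := by
    intro s
    have := he s
    rwa [om_of_idem hee] at this
  have hoe' : ∀ s, s * e = s := fun s => by rw [← hci e s hee, hoe]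
  have hcls : ∀ s : S, Un s ∨ (¬ Un s ∧ om s = om x) ∨ (¬ Un s ∧ om s ≠ om x ∧ om s = y) := by
    intro s
    by_cases h1 : Un s
    · exact Or.inl h1
    · by_cases h2 : om s = om x
      · exact Or.inr (Or.inl ⟨h1, h2⟩)
      · rcases hid (om s) (om_idem s) with h3 | h3 | h3
        · exact absurd h3 h2
        · exact Or.inr (Or.inr ⟨h1, h2, h3⟩)
        · exact absurd h3 h1
  have hlow : ∀ s : S, ¬ Un s → om x * om s = om s := by
    intro s hs
    rcases hcls s with h1 | h1 | h1
    · exact absurd h1 hs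
    · rw [h1.2, hb]
    · rw [h1.2.2, hby]
  have hUr : ∀ s t, Un t → s * om t = s := fun s t ht => by
    rw [← hci _ s (om_idem t)]
    exact ht s
  have hUmul : ∀ s t : S, Un s → Un t → Un (s * t) := by
    intro s t hs ht r
    rw [om_mul hci, mul_assoc, ht r, hs r]
  have hUl : ∀ s t : S, ¬ Un s → ¬ Un (s * t) := by
    intro s t hs h1
    apply hbx
    have h2 := h1 x
    rw [om_mul hci] at h2
    calc om x * x = om x * (om s * om t * x) := by rw [h2]
      _ = (om x * om s) * om t * x := by simp only [mul_assoc]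
      _ = x := by rw [hlow s hs, h2]
  have hUr' : ∀ s t : S, ¬ Un t → ¬ Un (s * t) := by
    intro s t ht h1
    apply hbx
    have h2 := h1 x
    rw [om_mul hci, hci (om s) _ (om_idem s)] at h2
    calc om x * x = om x * (om t * om s * x) := by rw [h2]
      _ = (om x * om t) * om s * x := by simp only [mul_assoc]
      _ = x := by rw [hlow t ht, h2]
  -- idempotents `f` below
  have hom_b : ∀ s : S, (Un s ∨ om s = om x) → om (om x * s) = om x := by
    intro s hs
    rw [om_mul hci, om_om]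
    rcases hs with hs | hs
    · exact hUr _ s hs
    · rw [hs, hb]
  have hbb : ∀ s, om x * (om x * s) = om x * s := fun s => by rw [← mul_assoc, hb]
  have hom_y : ∀ s, om (y * s) = y := by
    intro s
    rw [om_mul hci, om_of_idem hy]
    rcases hcls s with h1 | h1 | h1
    · exact hUr _ s h1
    · rw [h1.2, hyb]
    · rw [h1.2.2, hy]
  have hyy : ∀ s, y * (y * s) = y * s := fun s => by rw [← mul_assoc, hy]
  have hsplit_b : ∀ s t, om x * (s * t) = (om x * s) * (om x * t) := by
    intro s t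
    rw [mul_assoc (om x) s, ← mul_assoc s, ← hci _ s hb, mul_assoc (om x) s, ← mul_assoc (om x) (om x), hb]
  have hsplit_y : ∀ s t, y * (s * t) = (y * s) * (y * t) := by
    intro s t
    rw [mul_assoc y s, ← mul_assoc s, ← hci _ s hy, mul_assoc y s, ← mul_assoc y y, hy]
  have hβmul : ∀ s t : S, (Un s ∨ om s = om x) → (Un t ∨ om t = om x) →
      β (om x * (s * t)) = β (om x * s) * β (om x * t) := by
    intro s t hs ht
    rw [hsplit_b]
    exact hβ2 _ _ (hom_b s hs) (hbb s) (hom_b t ht) (hbb t)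
  have hδmul : ∀ s t, δ (y * (s * t)) = δ (y * s) * δ (y * t) := by
    intro s t
    rw [hsplit_y]
    exact hδ2 _ _ (hom_y s) (hyy s) (hom_y t) (hyy t)
  have hβfix : ∀ s : S, (Un s ∨ om s = om x) → om x * β (om x * s) = β (om x * s) := fun s hs =>
    (hβ1 _ (hom_b s hs) (hbb s)).2
  have hδfix : ∀ s, y * δ (y * s) = δ (y * s) := fun s => (hδ1 _ (hom_y s) (hyy s)).2
  have hyβ : ∀ s : S, (Un s ∨ om s = om x) → y * β (om x * s) = δ (y * s) := by
    intro s hs
    rw [hc _ (hom_b s hs) (hbb s), ← mul_assoc, hyb]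
  have hδU : ∀ u : S, Un u → δ (y * u) = y := by
    intro u hu
    rw [← hyβ u (Or.inl hu), hβB u hu, hyb]
  let ρ0 : S → S := fun s => if Un s then e else if om s = om x then β (om x * s) else δ (y * s)
  have r1 : ∀ s : S, Un s → ρ0 s = e := fun s hs => if_pos hs
  have r2 : ∀ s : S, ¬ Un s → om s = om x → ρ0 s = β (om x * s) := fun s hs h1 => by
    show (if Un s then e else if om s = om x then β (om x * s) else δ (y * s)) = _
    rw [if_neg hs, if_pos h1]
  have r3 : ∀ s : S, ¬ Un s → om s ≠ om x → ρ0 s = δ (y * s) := fun s hs h1 => by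
    show (if Un s then e else if om s = om x then β (om x * s) else δ (y * s)) = _
    rw [if_neg hs, if_neg h1]
  refine ⟨⟨ρ0, ?_⟩, r1, r2, r3⟩
  intro s t
  have hmul := om_mul hci s t
  rcases hcls s with hs | ⟨hs, hs1⟩ | ⟨hs, hs1, hs2⟩
  · rcases hcls t with ht | ⟨ht, ht1⟩ | ⟨ht, ht1, ht2⟩
    · rw [r1 _ (hUmul s t hs ht), r1 s hs, r1 t ht, hee]
    · rw [r2 _ (hUr' s t ht) (by rw [hmul, ht1]; exact hs _), r1 s hs, r2 t ht ht1, hoe,
        hβmul s t (Or.inl hs) (Or.inr ht1), hβB s hs, hβfix t (Or.inr ht1)]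
    · rw [r3 _ (hUr' s t ht) (by rw [hmul, hs (om t)]; exact ht1), r1 s hs, r3 t ht ht1, hoe,
        hδmul, hδU s hs, hδfix]
  · rcases hcls t with ht | ⟨ht, ht1⟩ | ⟨ht, ht1, ht2⟩
    · rw [r2 _ (hUl s t hs) (by rw [hmul, hs1]; exact hUr _ t ht), r2 s hs hs1, r1 t ht, hoe',
        hβmul s t (Or.inr hs1) (Or.inl ht), hβB t ht, ← hci _ _ hb, hβfix s (Or.inr hs1)]
    · rw [r2 _ (hUl s t hs) (by rw [hmul, hs1, ht1, hb]), r2 s hs hs1, r2 t ht ht1,
        hβmul s t (Or.inr hs1) (Or.inr ht1)]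
    · rw [r3 _ (hUl s t hs) (by
        rw [hmul, hs1, ht2, hby, ← ht2]; exact ht1), r2 s hs hs1, r3 t ht ht1, hδmul,
        ← hyβ s (Or.inr hs1), hci y _ hy, mul_assoc, hδfix]
  · rcases hcls t with ht | ⟨ht, ht1⟩ | ⟨ht, ht1, ht2⟩
    · rw [r3 _ (hUl s t hs) (by rw [hmul, hUr _ t ht]; exact hs1), r3 s hs hs1, r1 t ht, hoe',
        hδmul, hδU t ht, ← hci y _ hy, hδfix]
    · rw [r3 _ (hUl s t hs) (by
        rw [hmul, hs2, ht1, hyb, ← hs2]; exact hs1), r3 s hs hs1, r2 t ht ht1, hδmul,
        ← hyβ t (Or.inr ht1), ← mul_assoc, ← hci y _ hy, hδfix]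
    · rw [r3 _ (hUl s t hs) (by
        rw [hmul, hs2, ht2, hy, ← hs2]; exact hs1), r3 s hs hs1, r3 t ht ht1, hδmul]

end

end EVC
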