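import Pool.Agent.EVC.G3b

/-!
# [EC-G3c] configurations with abelian subgroups: the groups
-/

set_option autoImplicit false

open EVS

namespace EVC

section
variable {S : Type} [Semigroup S] [Finite S]

/-- the group at `d` -/
abbrev g3c_G (S : Type) [Semigroup S] [Finite S] (d : S) : Type := {g : S // om g = d ∧ d * g = g}

theorem g3c_gp (hc : CentralIdem S) {d : S} (hd : d * d = d) (a : g3c_G S d) : IsGp (a : S) := by
  rw [isGp_iff, a.2.1, ← hc d a hd]
  exact a.2.2

theorem g3c_group (hc : CentralIdem S) {n : ℕ} (hab : AbE S n) {d : S} (hd : d * d = d) :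
    ∃ G : CommGroup (g3c_G S d), (∀ a b : g3c_G S d, ((a * b : g3c_G S d) : S) = (a : S) * (b : S)) ∧
      ((1 : g3c_G S d) : S) = d := by
  have hinv : ∀ a : g3c_G S d, ∃ b : g3c_G S d, (b : S) * (a : S) = d := by
    intro a
    obtain ⟨n, hn⟩ := om_eq_pw (a : S)
    refine ⟨⟨pw (a : S) (n + n), ?_, ?_⟩, ?_⟩
    · rw [om_pw, a.2.1]
    · exact c1_left a.2.2 _
    · change pw (a : S) (n + n) * (a : S) = d
      rw [← pw_succ, ← pw_mul_pw, ← hn, om_idem, a.2.1]
  choose inv hinv' using hinv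
  let G : CommGroup (g3c_G S d) :=
    { mul := fun a b => ⟨(a : S) * (b : S), by
        rw [om_mul hc, a.2.1, b.2.1, hd], by rw [← mul_assoc, a.2.2]⟩
      mul_assoc := fun a b c => Subtype.ext (mul_assoc (a : S) b c)
      one := ⟨d, om_of_idem hd, hd⟩
      one_mul := fun a => Subtype.ext a.2.2
      mul_one := fun a => Subtype.ext (by
        change (a : S) * d = a
        rw [← hc d a hd]
        exact a.2.2)
      inv := inv
      inv_mul_cancel := fun a => Subtype.ext (hinv' a)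
      mul_comm := fun a b => Subtype.ext (hab.1 a b (g3c_gp hc hd a) (g3c_gp hc hd b)
        (a.2.1.trans b.2.1.symm)) }
  exact ⟨G, fun a b => rfl, rfl⟩

theorem g3c_pow (hc : CentralIdem S) {n : ℕ} (hab : AbE S n) {d : S} (hd : d * d = d)
    [G : CommGroup (g3c_G S d)]
    (hG : ∀ a b : g3c_G S d, ((a * b : g3c_G S d) : S) = (a : S) * (b : S)) (a : g3c_G S d) :
    a ^ n = 1 := by
  have h1 : ∀ k : ℕ, ((a ^ (k + 1) : g3c_G S d) : S) = pw (a : S) k := by
    intro k
    induction k with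
    | zero => rw [zero_add, pow_one, pw_zero]
    | succ k ih => rw [pow_succ, hG, ih, pw_succ]
  have h2 : a ^ (n + 1) = a := Subtype.ext (by rw [h1, hab.2 a (g3c_gp hc hd a)])
  rw [pow_succ] at h2
  exact mul_eq_right.mp h2

theorem g3c_un {b u : S} (hc : CentralIdem S) (hb : b * b = b) (hu : Un u) :
    om (b * u) = b ∧ b * (b * u) = b * u := by
  refine ⟨?_, by rw [← mul_assoc, hb]⟩
  rw [om_mul hc, om_of_idem hb, ← hc (om u) b (om_idem u)]
  exact hu b

/-- PROOF.  Let `b = om x`, `e = om g` for the unit `g`.  The sets `G_b = {g | om g = b ∧ b * g = g}`, `G_y` are abelian groups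
(`gh_inv`, `gh_mul`; compare `exists_group` in EVS/C3.lean) of exponent dividing `n` (`AbE`: `pw g n = g ^ (n + 1) = g`; elements are
group elements by `isGp_iff`); `r : G_b → G_y`, `g ↦ y * g`, is a homomorphism; `B = {b * u | Un u}` is a subgroup of `G_b`
(`hs.un_mul`, `hs.un_inv`); `k = b * x`.  `group_lemma_mul`. -/
theorem beta_exists {n : ℕ} (hn : 0 < n) (h8 : ¬ 8 ∣ n)
    (hp : ∀ p : ℕ, p.Prime → p ≠ 2 → ¬ p ^ 2 ∣ n) {x y g0 : S} (h : Conf S x) (hab : AbE S n) (hy : y * y = y)
    (hby : om x * y = y) (hg0 : Un g0) :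
    ∃ β δ : S → S, (∀ g, om g = om x → om x * g = g → om (β g) = om x ∧ om x * β g = β g) ∧
    (∀ g k, om g = om x → om x * g = g → om k = om x → om x * k = k → β (g * k) = β g * β k) ∧
    (∀ g, om g = y → y * g = g → om (δ g) = y ∧ y * δ g = δ g) ∧
    (∀ g k, om g = y → y * g = g → om k = y → y * k = k → δ (g * k) = δ g * δ k) ∧
    (∀ u, Un u → β (om x * u) = om x) ∧
    (∀ g, om g = om x → om x * g = g → y * β g = δ (y * g)) ∧
    ∃ u, Un u ∧ β (om x * x) = (om x * x) * (om x * x) * (om x * u) := by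
  classical
  have hs := sf_of_conf h
  have hc := hs.hc
  have hb : om x * om x = om x := om_idem x
  obtain ⟨Gb, hGb, hGb1⟩ := g3c_group hc hab hb
  obtain ⟨Gy, hGy, hGy1⟩ := g3c_group hc hab hy
  have hyb : y * om x = y := by rw [hc y (om x) hy, hby]
  have hr : ∀ g : g3c_G S (om x), om (y * (g : S)) = y ∧ y * (y * (g : S)) = y * (g : S) := by
    intro g
    refine ⟨?_, by rw [← mul_assoc, hy]⟩
    rw [om_mul hc, om_of_idem hy, g.2.1, hyb]
  let r : g3c_G S (om x) →* g3c_G S y :=
    { toFun := fun g => ⟨y * (g : S), hr g⟩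
      map_one' := by
        apply Subtype.ext
        change y * ((1 : g3c_G S (om x)) : S) = ((1 : g3c_G S y) : S)
        rw [hGb1, hGy1, hyb]
      map_mul' := by
        intro a c
        apply Subtype.ext
        rw [hGy]
        change y * ((a * c : g3c_G S (om x)) : S) = y * (a : S) * (y * (c : S))
        rw [hGb]
        calc y * ((a : S) * (c : S)) = y * y * (a : S) * (c : S) := by rw [hy, mul_assoc]
          _ = y * (y * (a : S)) * (c : S) := by simp only [mul_assoc]
          _ = y * ((a : S) * y) * (c : S) := by rw [hc y a hy]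
          _ = y * (a : S) * (y * (c : S)) := by simp only [mul_assoc] }
  let B : Subgroup (g3c_G S (om x)) :=
    { carrier := {g | ∃ u, Un u ∧ (g : S) = om x * u}
      one_mem' := by
        refine ⟨om g0, ?_, ?_⟩
        · intro t
          rw [om_om]
          exact hg0 t
        · rw [hGb1, ← hc (om g0) (om x) (om_idem g0)]
          exact (hg0 (om x)).symm
      mul_mem' := by
        rintro a c ⟨u, hu, hau⟩ ⟨v, hv, hcv⟩
        refine ⟨u * v, hs.un_mul u v hu hv, ?_⟩
        rw [hGb, hau, hcv]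
        calc om x * u * (om x * v) = om x * (u * om x) * v := by simp only [mul_assoc]
          _ = om x * (om x * u) * v := by rw [hc (om x) u hb]
          _ = om x * om x * (u * v) := by simp only [mul_assoc]
          _ = om x * (u * v) := by rw [hb]
      inv_mem' := by
        rintro a ⟨u, hu, hau⟩
        obtain ⟨v, hv, huv, hvu⟩ := hs.un_inv u hu
        refine ⟨v, hv, ?_⟩
        have h1 : (⟨om x * v, g3c_un hc hb hv⟩ : g3c_G S (om x)) * a = 1 := by
          apply Subtype.ext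
          rw [hGb, hGb1, hau]
          calc om x * v * (om x * u) = om x * (v * om x) * u := by simp only [mul_assoc]
            _ = om x * (om x * v) * u := by rw [hc (om x) v hb]
            _ = om x * om x * (v * u) := by simp only [mul_assoc]
            _ = om x := by
              rw [hb, hvu, ← hc (om u) (om x) (om_idem u)]
              exact hu (om x)
        rw [← eq_inv_of_mul_eq_one_left h1] }
  have hk : om (om x * x) = om x ∧ om x * (om x * x) = om x * x := by
    refine ⟨?_, by rw [← mul_assoc, hb]⟩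
    rw [om_mul hc, om_om, hb]
  obtain ⟨β, δ, hβδ, hβB, c, ⟨u, hu, hcu⟩, hβk⟩ := group_lemma_mul hn h8 hp
    (fun s => g3c_pow hc hab hb hGb s) (fun s => g3c_pow hc hab hy hGy s) r B ⟨om x * x, hk⟩
  let β' : S → S := fun g => if h : om g = om x ∧ om x * g = g then ((β ⟨g, h⟩ : g3c_G S (om x)) : S) else g
  let δ' : S → S := fun g => if h : om g = y ∧ y * g = g then ((δ ⟨g, h⟩ : g3c_G S y) : S) else g
  have hβ' : ∀ g : g3c_G S (om x), β' (g : S) = (β g : S) := fun g => dif_pos g.2
  have hδ' : ∀ g : g3c_G S y, δ' (g : S) = (δ g : S) := fun g => dif_pos g.2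
  refine ⟨β', δ', ?_, ?_, ?_, ?_, ?_, ?_, u, hu, ?_⟩
  · intro g h1 h2
    rw [show β' g = (β ⟨g, h1, h2⟩ : S) from hβ' ⟨g, h1, h2⟩]
    exact (β ⟨g, h1, h2⟩).2
  · intro g k h1 h2 h3 h4
    have h5 : ((⟨g, h1, h2⟩ * ⟨k, h3, h4⟩ : g3c_G S (om x)) : S) = g * k := hGb _ _
    rw [← h5, hβ', map_mul, hGb, ← hβ', ← hβ']
  · intro g h1 h2
    rw [show δ' g = (δ ⟨g, h1, h2⟩ : S) from hδ' ⟨g, h1, h2⟩]
    exact (δ ⟨g, h1, h2⟩).2
  · intro g k h1 h2 h3 h4
    have h5 : ((⟨g, h1, h2⟩ * ⟨k, h3, h4⟩ : g3c_G S y) : S) = g * k := hGy _ _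
    rw [← h5, hδ', map_mul, hGy, ← hδ', ← hδ']
  · intro v hv
    rw [show β' (om x * v) = (β ⟨om x * v, g3c_un hc hb hv⟩ : S) from hβ' ⟨om x * v, g3c_un hc hb hv⟩,
      hβB _ ⟨v, hv, rfl⟩, hGb1]
  · intro g h1 h2
    have h3 := congrArg Subtype.val (hβδ ⟨g, h1, h2⟩)
    rw [← hδ'] at h3
    rw [show β' g = (β ⟨g, h1, h2⟩ : S) from hβ' ⟨g, h1, h2⟩]
    exact h3
  · rw [show β' (om x * x) = (β ⟨om x * x, hk⟩ : S) from hβ' ⟨om x * x, hk⟩, hβk, hGb, hGb, hcu]

end

end EVC
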