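import Pool.Agent.EVC.G3c

/-!
# [EC-G3d] configurations with abelian subgroups are good
-/

set_option autoImplicit false

open EVS

namespace EVC

section
variable {S : Type} [Semigroup S] [Finite S]

/-- PROOF.  Let `b = om x`, `hs = sf_of_conf h`, `e = om g0` for a unit `g0` (identity, unit, idempotent).  If `x g x` is `Lw` for all units `g`:
`good_id` (`x p x` for `p = 1`: `x * e * x`; `p` not a unit: `x * p` is `Lw` or `J2` (`hs.prod`), then `x p x` is `Lw`
(`hs.j2_low`)).  Otherwise `z0 = x * t * x` is not `Lw` for a unit `t`.  `y` from `h.idem`.  Take `β`, `δ`, `u` from `beta_exists` and `ρ` from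
`rho_exists`.  Let `t'` be the inverse of `t` (`hs.un_inv`) and `w = (u * t') * z0`.  Apply `good_of` with `ρ`, `w`:
`w` is not `Lw` (otherwise `z0` would be, multiply by the inverse of `u t'`) and not a unit (`J2`), so `om w = b` (`hs.omb`).
`b * w = (b u) (b t') (b x) (b t) (b x) = (b x) (b x) (b u)` (the elements `b * _` are in the abelian group `G_b`,
`(b t') (b t) = b`), which is `β (b x) = ρ x` (`x` is not a unit).  `ρ (om g) * w = e * w = w`.  `ρ g * w = w = w * ρ k`.
For `t` not a unit: `ρ t = β _` or `δ _`, fixed by `b` (`b * y = y`).  `w * ρ g * w = w * e * w = w * w` is `Lw` (`J2`, not a unit: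
`hs.j2_low`). -/
theorem good_of_unit {n : ℕ} (hn : 0 < n) (h8 : ¬ 8 ∣ n)
    (hp : ∀ p : ℕ, p.Prime → p ≠ 2 → ¬ p ^ 2 ∣ n) {x : S} (h : Conf S x) (hab : AbE S n)
    (hU : ∃ g : S, Un g) : Good S x := by
  have hs := sf_of_conf h
  have hc := hs.hc
  have hb := hs.hb
  obtain ⟨g0, hg0⟩ := hU
  have he : Un (om g0) := by
    intro t
    rw [om_om]
    exact hg0 t
  have hee : om g0 * om g0 = om g0 := om_idem g0
  have hel : ∀ t : S, om g0 * t = t := hg0
  have her : ∀ t : S, t * om g0 = t := by
    intro t
    rw [← hc (om g0) t hee]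
    exact hg0 t
  have hxU : ¬ Un x := by
    intro hx
    exact hs.hx (hx x)
  by_cases hA : ∀ g : S, Un g → Lw (om x) (x * g * x)
  · refine good_id h ?_
    intro p s hp'
    rw [hs.gp]
    left
    rcases p with _ | t
    · replace hp' : (s : WithOne S) = x * 1 * x := hp'
      rw [mul_one, ← WithOne.coe_mul, WithOne.coe_inj] at hp'
      have h1 := hA (om g0) he
      rw [her x] at h1
      rw [hp']
      exact h1
    · replace hp' : (s : WithOne S) = x * (t : WithOne S) * x := hp'
      rw [← WithOne.coe_mul, ← WithOne.coe_mul, WithOne.coe_inj] at hp'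
      rw [hp']
      by_cases ht : Un t
      · exact hA t ht
      · rcases hs.prod x t hxU ht with h1 | h1
        · exact h1.mul_right x
        · exact (hs.j2_low (x * t) x h1 hxU).1
  · push Not at hA
    obtain ⟨t, ht, hz⟩ := hA
    obtain ⟨b', y, n', hb', hbb, hyy, hby, hid⟩ := h.idem
    have hbb' : om x = b' := by
      rw [← hb']
      exact om_eq (by rw [hb']; exact hbb)
    subst hbb'
    obtain ⟨β, δ, hβ1, hβ2, hδ1, hδ2, hβB, hc', u, hu, hβx⟩ := beta_exists hn h8 hp h hab hyy hby hg0
    obtain ⟨ρ, hρ1, hρ2, hρ3⟩ := rho_exists h hyy hby hid he hee β δ hβ1 hβ2 hδ1 hδ2 hβB hc'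
    obtain ⟨t', ht', htt', ht't⟩ := hs.un_inv t ht
    have hut' : Un (u * t') := hs.un_mul u t' hu ht'
    obtain ⟨v, hv, hv1, hv2⟩ := hs.un_inv (u * t') hut'
    set w : S := (u * t') * (x * t * x) with hw
    have hwJ : J2 x w := by
      refine ⟨((u * t' : S) : WithOne S), (t : WithOne S), 1, ?_⟩
      rw [mul_one, hw, ← WithOne.coe_mul, ← WithOne.coe_mul, ← WithOne.coe_mul, WithOne.coe_inj]
      simp only [mul_assoc]
    have hwL : ¬ Lw (om x) w := by
      intro h1
      have h2 := Lw.mul_left hc hb h1 v
      rw [hw, ← mul_assoc, hv2] at h2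
      rw [show om (u * t') * (x * t * x) = x * t * x from hut' _] at h2
      exact hz h2
    have hwU : ¬ Un w := fun h1 => hs.un_j2 w h1 hwJ
    have hwo : om w = om x := hs.omb w hwL hwU
    have hbm : ∀ s s' : S, om x * (s * s') = (om x * s) * (om x * s') := by
      intro s s'
      rw [mul_assoc (om x) s, ← mul_assoc s, ← hc (om x) s hb, mul_assoc (om x) s s', ← mul_assoc (om x) (om x), hb]
    have hbG : ∀ s : S, IsGp (om x * s) := fun s => (hs.gp _).2 (Or.inl (lw_b hb s))
    have hobU : ∀ s : S, Un s → om (om x * s) = om x := by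
      intro s hs'
      rw [om_mul hc, om_om, hc (om x) (om s) hb]
      exact hs' (om x)
    have hobx : om (om x * x) = om x := by
      rw [om_mul hc, om_om, hb]
    have hcomm : ∀ s s' : S, om (om x * s) = om x → om (om x * s') = om x →
        (om x * s) * (om x * s') = (om x * s') * (om x * s) := by
      intro s s' h1 h2
      exact hab.1 _ _ (hbG s) (hbG s') (h1.trans h2.symm)
    have hid2 : ∀ s : S, om x * (om x * s) = om x * s := by
      intro s
      rw [← mul_assoc, hb]
    have hTT : (om x * t') * (om x * t) = om x := by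
      rw [← hbm, ht't, hc (om x) (om t) hb]
      exact ht (om x)
    refine good_of hs ρ w hwo hwL ?_ ?_ ?_ ?_ ?_ ?_
    · rw [hρ2 x hxU rfl, hβx, hw, hbm, hbm u t', hbm (x * t) x, hbm x t]
      have c1 := hcomm x t hobx (hobU t ht)
      have c2 := hcomm u x (hobU u hu) hobx
      calc (om x * u) * (om x * t') * ((om x * x) * (om x * t) * (om x * x))
          = (om x * u) * (om x * t') * ((om x * t) * (om x * x) * (om x * x)) := by rw [c1]
        _ = (om x * u) * (((om x * t') * (om x * t)) * ((om x * x) * (om x * x))) := by simp only [mul_assoc]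
        _ = (om x * u) * ((om x * (om x * x)) * (om x * x)) := by rw [hTT]; simp only [mul_assoc]
        _ = (om x * u) * (om x * x) * (om x * x) := by rw [hid2]; simp only [mul_assoc]
        _ = (om x * x) * ((om x * u) * (om x * x)) :=
            (congrArg (fun z => z * (om x * x)) c2).trans (mul_assoc _ _ _)
        _ = (om x * x) * (om x * x) * (om x * u) := by rw [c2, ← mul_assoc]
    · intro g hg
      have h1 : Un (om g) := by
        intro t
        rw [om_om]
        exact hg t
      rw [hρ1 _ h1, hel]
    · intro g k hg hk _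
      rw [hρ1 g hg, hρ1 k hk, hel, her]
    · intro s hsU
      by_cases hso : om s = om x
      · rw [hρ2 s hsU hso]
        refine (hβ1 (om x * s) ?_ (hid2 s)).2
        rw [om_mul hc, om_om, hso, hb]
      · rw [hρ3 s hsU hso]
        have h1 : y * δ (y * s) = δ (y * s) := by
          refine (hδ1 (y * s) ?_ ?_).2
          · rw [om_mul hc, om_of_idem hyy]
            rcases hid (om s) (om_idem s) with h2 | h2 | h2
            · exact absurd h2 hso
            · rw [h2, hyy]
            · exact absurd (fun t => h2 t) hsU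
          · rw [← mul_assoc, hyy]
        calc om x * δ (y * s) = om x * (y * δ (y * s)) := by rw [h1]
          _ = (om x * y) * δ (y * s) := by rw [mul_assoc]
          _ = δ (y * s) := by rw [hby, h1]
    · intro hno
      exact absurd hg0 (hno g0)
    · intro g hg
      rw [hρ1 g hg, her]
      exact (hs.j2_low w w hwJ hwU).1

end

end EVC
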