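import Pool.Agent.EVC.Defs

/-!
# [EC-MV] changing an endomorphism on the orbit of a source
-/

set_option autoImplicit false

open EVS

namespace EVC

variable {S : Type} [Semigroup S] [Finite S]

/-- PROOF.  `moveGen` (EVS/Gen.lean) with `R = {s | Orb2 e x s}`, `UL = UR = {s | UU e s}` and
`κ s = w` for `e = none`; for `e = some e'`: `κ s = ρ g * w * ρ h`, where `g`, `h` are chosen (`Classical.choose`) with
`om g = e'`, `g * e' = g`, `om h = e'`, `h * e' = h`, `e' * s = g * x * h`.
Preliminaries: idempotents are central; `ρ b = b`: `ρ b = ρ (om x) = om (ρ x) = om (b * w) = b * om w = b` (`map_om`,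
`om_mul`, `om_of_idem`).  For `e = some e'`: `e' b = b`; `ρ e' * b = ρ e' * ρ b = ρ (e' * b) = b`; `w * ρ e' = w` (by `h3` with
`g = h = e'`, `e' x = x e'`, and `h1`).
`κ` is well defined: if `g x h = g' x h'` (all in the group at `e'`), then with inverses (`gh_inv`, `gh_mul`)
`(g'⁻¹ g) x = x (h' h⁻¹)` (`e' x = x = x e'`), so `ρ (g'⁻¹ g) w = w ρ (h' h⁻¹)` by `h3`; multiply by `ρ g'` on the left and `ρ h` on
the right: `ρ g w ρ h = ρ g' w ρ h'` (`ρ (g' g'⁻¹ g) = ρ g`, `ρ (h' h⁻¹ h) = ρ (h' e') = ρ h'`).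
h1: `orb2_mul`; h2: `orb2_not_unit`.
h3 (`s ∈ R`, `t` a unit): `e' (s t) = g x (h (e' t))`, so by well-definedness `κ (s t) = ρ g w ρ (h (e' t)) = ρ g w ρ h ρ t`, as
`h (e' t) = h t`.  h4: the same on the left (`(e' t) g = t g`).
h5 (`s ∈ R`, `t` not a unit): `κ s * ρ t = κ s * (b * ρ t) = (b * κ s) * ρ t`, and `b κ s = ρ g (b w) ρ h = ρ (g x h) = ρ (e' s) =
ρ e' * ρ s = ρ e' * (b * ρ s) = b * ρ s = ρ s` (`s` is not a unit, `orb2_not_unit`, `h4`).  For `e = none`: `b κ s = b w = ρ x = ρ s`.
h6: the same.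
h7 (`s, t ∈ R`): `κ s * κ t = ρ g (w ρ (h g') w) ρ h'` is fixed by `b` (`h6'`, `gh_mul`), so it equals
`(b κ s) (b κ t) = ρ s ρ t`.  For `e = none` use `h6`.
Result: `ψ x = κ x = w`: for `e = some e'`: `e' x = x = g x h`; compare with the representation `e' x e'`. -/
theorem MV (hc : CentralIdem S) {b : S} (hb : b * b = b) {e : Option S} (he : OkE b e) {x : S}
    (hx : Src2 b e x) (hxb : om x = b) (ρ : S →ₙ* S) (w : S) (hw : om w = b) (h2 : b * w = ρ x)
    (h1 : ∀ e', e = some e' → ρ e' * w = w)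
    (h3 : ∀ e' g h : S, e = some e' → om g = e' → g * e' = g → om h = e' → h * e' = h → g * x = x * h →
      ρ g * w = w * ρ h)
    (h4 : ∀ t, ¬ UU e t → b * ρ t = ρ t) (h6 : e = none → b * (w * w) = w * w)
    (h6' : ∀ e' g : S, e = some e' → om g = e' → g * e' = g → b * (w * ρ g * w) = w * ρ g * w) :
    ∃ ψ : S →ₙ* S, (∀ s, ¬ Orb2 e x s → ψ s = ρ s) ∧ ψ x = w := by
  classical
  have hcb : ∀ t : S, b * t = t * b := fun t => hc b t hb
  cases e with
  | none =>
    obtain ⟨ψ, hψ1, hψ2⟩ := moveGen ρ (fun _ => w) {s | Orb2 none x s} {s | UU none s}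
      {s | UU none s}
      (fun s t => orb2_mul hc he hx s t)
      (fun s h => ⟨orb2_not_unit hc he hx h, orb2_not_unit hc he hx h⟩)
      (fun s _ t ht => absurd ht (by simp [UU]))
      (fun s hs => absurd hs (by simp [UU]))
      (by
        intro s hs t ht
        have e1 : s = x := hs
        rw [e1, ← h2, ← h4 t ht]
        calc w * (b * ρ t) = (w * b) * (b * ρ t) := by
              rw [mul_assoc, ← mul_assoc b b, hb]
          _ = (b * w) * (b * ρ t) := by rw [hcb w])
      (by
        intro s hs t ht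
        have e1 : t = x := ht
        rw [e1, ← h2, ← h4 s hs]
        calc b * ρ s * w = (ρ s * b) * w := by rw [hcb]
          _ = (ρ s * (b * b)) * w := by rw [hb]
          _ = (b * ρ s) * (b * w) := by rw [hcb (ρ s)]; simp only [mul_assoc])
      (by
        intro s hs t ht
        have e1 : s = x := hs
        have e2 : t = x := ht
        show w * w = ρ s * ρ t
        rw [e1, e2, ← h2]
        calc w * w = b * (w * w) := (h6 rfl).symm
          _ = (b * b) * (w * w) := by rw [hb]
          _ = b * (b * w) * w := by simp only [mul_assoc]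
          _ = b * (w * b) * w := by rw [hcb w]
          _ = (b * w) * (b * w) := by simp only [mul_assoc])
    exact ⟨ψ, hψ2, hψ1 x (orb2_self hc he hx)⟩
  | some e =>
    obtain ⟨hee, heb⟩ := he e rfl
    have hex : e * x = x := hx.2.2.1
    have hxe : x * e = x := by rw [← hc e x hee, hex]
    have hρb : ρ b = b := by
      rw [← hxb, map_om, ← h2, om_mul hc, om_of_idem hb, hw, hxb, hb]
    have hρe : ρ e * b = b := by
      have := map_mul ρ e b
      rw [heb, hρb] at this
      exact this.symm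
    have hew : ρ e * w = w := h1 e rfl
    have hwe : w * ρ e = w := by
      rw [← h3 e e e rfl (om_of_idem hee) hee (om_of_idem hee) hee (by rw [hex, hxe]), hew]
    have heg : ∀ g : S, g * e = g → e * g = g := fun g hg => by rw [hc e g hee, hg]
    -- well-definedness
    have WD : ∀ g k g' k' : S, om g = e → g * e = g → om k = e → k * e = k → om g' = e →
        g' * e = g' → om k' = e → k' * e = k' → g * x * k = g' * x * k' →
        ρ g * w * ρ k = ρ g' * w * ρ k' := by
      intro g k g' k' g1 g2 k1 k2 g1' g2' k1' k2' hE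
      obtain ⟨v, v1, v2, v3, v4⟩ := gh_inv g1' g2'
      obtain ⟨u, u1, u2, u3, u4⟩ := gh_inv k1 k2
      obtain ⟨a1, a2⟩ := gh_mul hc hee v1 v2 g1 g2
      obtain ⟨b1, b2⟩ := gh_mul hc hee k1' k2' u1 u2
      have E1 : (v * g) * x = x * (k' * u) := by
        calc (v * g) * x = (v * g) * (x * e) := by rw [hxe]
          _ = v * (g * x * k) * u := by rw [← u3]; simp only [mul_assoc]
          _ = (v * g') * x * (k' * u) := by rw [hE]; simp only [mul_assoc]
          _ = x * (k' * u) := by rw [v4, hex]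
      have E2 := h3 e (v * g) (k' * u) rfl a1 a2 b1 b2 E1
      have E3 : g' * (v * g) = g := by rw [← mul_assoc, v3, heg g g2]
      have E4 : (k' * u) * k = k' := by rw [mul_assoc, u4, k2']
      calc ρ g * w * ρ k = ρ (g' * (v * g)) * w * ρ k := by rw [E3]
        _ = ρ g' * (ρ (v * g) * w) * ρ k := by rw [map_mul ρ g']; simp only [mul_assoc]
        _ = ρ g' * w * ρ ((k' * u) * k) := by rw [E2, map_mul ρ (k' * u)]; simp only [mul_assoc]
        _ = ρ g' * w * ρ k' := by rw [E4]
    have hex2 : ∀ s : S, ∃ v : S, ∀ g k : S, om g = e → g * e = g → om k = e → k * e = k →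
        e * s = g * x * k → v = ρ g * w * ρ k := by
      intro s
      by_cases h : ∃ g k : S, om g = e ∧ g * e = g ∧ om k = e ∧ k * e = k ∧ e * s = g * x * k
      · obtain ⟨g, k, g1, g2, k1, k2, hgk⟩ := h
        refine ⟨ρ g * w * ρ k, ?_⟩
        intro g' k' g1' g2' k1' k2' hgk'
        exact WD g k g' k' g1 g2 k1 k2 g1' g2' k1' k2' (hgk.symm.trans hgk')
      · exact ⟨w, fun g k g1 g2 k1 k2 hgk => absurd ⟨g, k, g1, g2, k1, k2, hgk⟩ h⟩
    choose κ hκ using hex2
    have hbκ : ∀ s, Orb2 (some e) x s → b * κ s = ρ s := by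
      intro s hs
      have hsu := orb2_not_unit hc he hx hs
      obtain ⟨g, k, g1, g2, k1, k2, hgk⟩ := hs
      rw [hκ s g k g1 g2 k1 k2 hgk]
      calc b * (ρ g * w * ρ k) = (b * ρ g) * w * ρ k := by simp only [mul_assoc]
        _ = ρ g * (b * w) * ρ k := by rw [hcb (ρ g)]; simp only [mul_assoc]
        _ = ρ (g * x * k) := by rw [h2, map_mul, map_mul]
        _ = ρ e * (b * ρ s) := by rw [← hgk, map_mul, h4 s hsu]
        _ = ρ s := by rw [← mul_assoc, hρe, h4 s hsu]
    obtain ⟨ψ, hψ1, hψ2⟩ := moveGen ρ κ {s | Orb2 (some e) x s} {s | UU (some e) s}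
      {s | UU (some e) s}
      (fun s t => orb2_mul hc he hx s t)
      (fun s h => ⟨orb2_not_unit hc he hx h, orb2_not_unit hc he hx h⟩)
      (by
        intro s hs t ht
        obtain ⟨g, k, g1, g2, k1, k2, hgk⟩ := hs
        obtain ⟨u1, u2⟩ := gh_unit hc hee (show e * om t = e from ht)
        obtain ⟨c1, c2⟩ := gh_mul hc hee k1 k2 u1 u2
        have hmul : e * (s * t) = (e * s) * (e * t) := by
          rw [mul_assoc, ← mul_assoc s, ← hc e s hee, mul_assoc e s t, ← mul_assoc e e, hee]
        rw [hκ (s * t) g (k * (e * t)) g1 g2 c1 c2 (by rw [hmul, hgk]; simp only [mul_assoc]),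
          hκ s g k g1 g2 k1 k2 hgk, ← mul_assoc k e t, k2, map_mul]
        simp only [mul_assoc])
      (by
        intro s hs t ht
        obtain ⟨g, k, g1, g2, k1, k2, hgk⟩ := ht
        obtain ⟨u1, u2⟩ := gh_unit hc hee (show e * om s = e from hs)
        obtain ⟨c1, c2⟩ := gh_mul hc hee u1 u2 g1 g2
        have hmul : e * (s * t) = (e * s) * (e * t) := by
          rw [mul_assoc, ← mul_assoc s, ← hc e s hee, mul_assoc e s t, ← mul_assoc e e, hee]
        have e5 : (e * s) * g = s * g := by rw [hc e s hee, mul_assoc, heg g g2]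
        rw [hκ (s * t) ((e * s) * g) k c1 c2 k1 k2 (by rw [hmul, hgk]; simp only [mul_assoc]),
          hκ t g k g1 g2 k1 k2 hgk, e5, map_mul]
        simp only [mul_assoc])
      (by
        intro s hs t ht
        calc κ s * ρ t = κ s * (b * ρ t) := by rw [h4 t ht]
          _ = (b * κ s) * ρ t := by rw [hcb (κ s), mul_assoc]
          _ = ρ s * ρ t := by rw [hbκ s hs])
      (by
        intro s hs t ht
        calc ρ s * κ t = (b * ρ s) * κ t := by rw [h4 s hs]
          _ = ρ s * (b * κ t) := by rw [hcb (ρ s), mul_assoc]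
          _ = ρ s * ρ t := by rw [hbκ t ht])
      (by
        intro s hs t ht
        rw [← hbκ s hs, ← hbκ t ht]
        obtain ⟨g, k, g1, g2, k1, k2, hgk⟩ := hs
        obtain ⟨g', k', g1', g2', k1', k2', hgk'⟩ := ht
        obtain ⟨c1, c2⟩ := gh_mul hc hee k1 k2 g1' g2'
        have h8 := h6' e (k * g') rfl c1 c2
        have h9 : κ s * κ t = ρ g * (w * ρ (k * g') * w) * ρ k' := by
          rw [hκ s g k g1 g2 k1 k2 hgk, hκ t g' k' g1' g2' k1' k2' hgk', map_mul]
          simp only [mul_assoc]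
        have h10 : b * (κ s * κ t) = κ s * κ t := by
          rw [h9]
          calc b * (ρ g * (w * ρ (k * g') * w) * ρ k') =
                (b * ρ g) * (w * ρ (k * g') * w) * ρ k' := by simp only [mul_assoc]
            _ = ρ g * (b * (w * ρ (k * g') * w)) * ρ k' := by
                rw [hcb (ρ g)]; simp only [mul_assoc]
            _ = _ := by rw [h8]
        calc κ s * κ t = b * (κ s * κ t) := h10.symm
          _ = (b * b) * (κ s * κ t) := by rw [hb]
          _ = b * (b * κ s) * κ t := by simp only [mul_assoc]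
          _ = b * (κ s * b) * κ t := by rw [hcb (κ s)]
          _ = (b * κ s) * (b * κ t) := by simp only [mul_assoc])
    refine ⟨ψ, hψ2, ?_⟩
    rw [hψ1 x (orb2_self hc he hx), hκ x e e (om_of_idem hee) hee (om_of_idem hee) hee
      (by rw [hex, hxe]), hew, hwe]

end EVC
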