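import Pool.Agent.EVC.Defs

/-!
# [EC-Q1] the subsemigroup generated by an element and groups
-/

set_option autoImplicit false

open EVS

namespace EVC

section
variable {S : Type} [Semigroup S] [Finite S]

/-- `b`, `z` are idempotents, `z ≤ b`, `w` is a nonregular element with idempotent power `b`; `Γ` is a subgroup with identity
`e'` (if `e = some e'`; then `e' w = w`) or empty (if `e = none`). -/
structure QD (b z w : S) (e : Option S) (Γ : Set S) : Prop where
  hc : CentralIdem S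
  hb : b * b = b
  hz : z * z = z
  hbz : b * z = z
  hw : om w = b
  hwb : b * w ≠ w
  he : OkE b e
  hew : act e w = w
  g0 : e = none → Γ = ∅
  g1 : ∀ e' : S, e = some e' → e' ∈ Γ
  g2 : ∀ e' g : S, e = some e' → g ∈ Γ → om g = e' ∧ g * e' = g
  g3 : ∀ g ∈ Γ, ∀ k ∈ Γ, g * k ∈ Γ

/-- the generators -/
def Gn (b z w : S) (Γ : Set S) (a : S) : Prop :=
  a = w ∨ a ∈ Γ ∨ (om a = b ∧ b * a = a) ∨ (om a = z ∧ z * a = a)

/-- the generated subsemigroup -/
def S1 (b z w : S) (Γ : Set S) : Set S := {s | ∃ l : List S, (∀ a ∈ l, Gn b z w Γ a) ∧ prd l = (s : WithOne S)}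

/-- the generated subsemigroup with `1` -/
def S1w (b z w : S) (Γ : Set S) : Set (WithOne S) := {u | u = 1 ∨ ∃ s ∈ S1 b z w Γ, u = (s : WithOne S)}

/-- products with at least `m` factors `w` -/
def KK (b z w : S) (Γ : Set S) : ℕ → Set (WithOne S)
  | 0 => S1w b z w Γ
  | m + 1 => {u | ∃ p ∈ S1w b z w Γ, ∃ q ∈ KK b z w Γ m, u = p * (w : WithOne S) * q}

variable {b z w : S} {e : Option S} {Γ : Set S}

/-- PROOF.  Lists of length 1; `om w`, `om b = b` (`om_of_idem`). -/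
theorem s1_gen : w ∈ S1 b z w Γ ∧ (∀ g ∈ Γ, g ∈ S1 b z w Γ) ∧
    (∀ a : S, om a = b → b * a = a → a ∈ S1 b z w Γ) ∧ (∀ a : S, om a = z → z * a = a → a ∈ S1 b z w Γ) := by
  refine ⟨⟨[w], ?_, prd_singleton w⟩, fun g hg => ⟨[g], ?_, prd_singleton g⟩,
    fun a h1 h2 => ⟨[a], ?_, prd_singleton a⟩, fun a h1 h2 => ⟨[a], ?_, prd_singleton a⟩⟩
  · intro a ha
    rw [List.mem_singleton] at ha
    exact Or.inl ha
  · intro a ha
    rw [List.mem_singleton] at ha
    subst ha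
    exact Or.inr (Or.inl hg)
  · intro a' ha
    rw [List.mem_singleton] at ha
    subst ha
    exact Or.inr (Or.inr (Or.inl ⟨h1, h2⟩))
  · intro a' ha
    rw [List.mem_singleton] at ha
    subst ha
    exact Or.inr (Or.inr (Or.inr ⟨h1, h2⟩))

/-- PROOF.  `prd_append`. -/
theorem s1_mul {s t : S} (hs : s ∈ S1 b z w Γ) (ht : t ∈ S1 b z w Γ) : s * t ∈ S1 b z w Γ := by
  obtain ⟨l, h1, h2⟩ := hs
  obtain ⟨l', h1', h2'⟩ := ht
  refine ⟨l ++ l', fun a ha => ?_, ?_⟩
  · rcases List.mem_append.1 ha with ha | ha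
    · exact h1 a ha
    · exact h1' a ha
  · rw [prd_append, h2, h2', WithOne.coe_mul]

/-- PROOF.  cases. -/
theorem s1w_mul {s t : WithOne S} (hs : s ∈ S1w b z w Γ) (ht : t ∈ S1w b z w Γ) : s * t ∈ S1w b z w Γ := by
  rcases hs with rfl | ⟨s', hs', rfl⟩
  · rw [one_mul]
    exact ht
  · rcases ht with rfl | ⟨t', ht', rfl⟩
    · rw [mul_one]
      exact Or.inr ⟨s', hs', rfl⟩
    · exact Or.inr ⟨s' * t', s1_mul hs' ht', (WithOne.coe_mul s' t').symm⟩

/-- PROOF.  Induction on `m` (left factor: absorb in `p`; right factor: by induction in `q`). -/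
theorem kk_ideal {m : ℕ} {s u : WithOne S} (hs : s ∈ KK b z w Γ m) (hu : u ∈ S1w b z w Γ) :
    u * s ∈ KK b z w Γ m ∧ s * u ∈ KK b z w Γ m := by
  induction m generalizing s with
  | zero => exact ⟨s1w_mul hu hs, s1w_mul hs hu⟩
  | succ m ih =>
    obtain ⟨p, hp, q, hq, rfl⟩ := hs
    refine ⟨⟨u * p, s1w_mul hu hp, q, hq, by simp only [mul_assoc]⟩, ⟨p, hp, q * u, (ih hq).2, by simp only [mul_assoc]⟩⟩

/-- PROOF.  Induction on `m`, `kk_ideal` for `m = 0`. -/
theorem kk_mul {m k : ℕ} {s t : WithOne S} (hs : s ∈ KK b z w Γ m) (ht : t ∈ KK b z w Γ k) :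
    s * t ∈ KK b z w Γ (m + k) := by
  induction m generalizing s with
  | zero =>
    rw [Nat.zero_add]
    exact (kk_ideal ht hs).1
  | succ m ih =>
    obtain ⟨p, hp, q, hq, rfl⟩ := hs
    have e : m + 1 + k = (m + k) + 1 := by omega
    rw [e]
    exact ⟨p, hp, q * t, ih hq, by simp only [mul_assoc]⟩

/-- PROOF.  For `m = 0`: `p * w * q` with `p`, `q` in `S1w` is in `S1w` (`s1w_mul`, `s1_gen`).  Induction on `m`. -/
theorem kk_anti {m k : ℕ} (hmk : m ≤ k) {s : WithOne S} (hs : s ∈ KK b z w Γ k) : s ∈ KK b z w Γ m := by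
  have step : ∀ (m : ℕ) (s : WithOne S), s ∈ KK b z w Γ (m + 1) → s ∈ KK b z w Γ m := by
    intro m
    induction m with
    | zero =>
      rintro s ⟨p, hp, q, hq, rfl⟩
      exact s1w_mul (s1w_mul hp (Or.inr ⟨w, s1_gen.1, rfl⟩)) hq
    | succ m ih =>
      rintro s ⟨p, hp, q, hq, rfl⟩
      exact ⟨p, hp, q, ih q hq, rfl⟩
  induction k, hmk using Nat.le_induction with
  | base => exact hs
  | succ k _ ih => exact ih (step k s hs)

end

end EVC
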