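import Pool.Agent.EVC.Q1

/-!
# [EC-Q1b] the generated subsemigroup: classification of the elements
-/

set_option autoImplicit false

open EVS

namespace EVC

section
variable {S : Type} [Semigroup S] [Finite S] {b z w : S} {e : Option S} {Γ : Set S}

/-- the classification of an element of the generated subsemigroup -/
private def q1b_C (b z w : S) (e : Option S) (Γ : Set S) (s : S) : Prop :=
  act e s = s ∧ (s ∈ Γ ∨ (Lw b s ∧ (om s = b ∨ (om s = z ∧ z * s = s))) ∨
      (¬ Lw b s ∧ om s = b ∧ (s : WithOne S) ∈ KK b z w Γ 1))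

private theorem q1b_ez (h : QD b z w e Γ) {e' : S} (he : e = some e') :
    e' * e' = e' ∧ e' * b = b ∧ b * e' = b ∧ e' * z = z := by
  obtain ⟨h1, h2⟩ := h.he e' he
  refine ⟨h1, h2, ?_, ?_⟩
  · rw [h.hc b e' h.hb, h2]
  · calc e' * z = e' * (b * z) := by rw [h.hbz]
      _ = z := by rw [← mul_assoc, h2, h.hbz]

private theorem q1b_gam (h : QD b z w e Γ) {g : S} (hg : g ∈ Γ) : ∃ e', e = some e' ∧ om g = e' ∧ g * e' = g := by
  cases e with
  | none =>
    rw [h.g0 rfl] at hg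
    exact absurd hg (Set.notMem_empty g)
  | some e' => exact ⟨e', rfl, h.g2 e' g rfl hg⟩

private theorem q1b_gen (h : QD b z w e Γ) {a : S} (ha : Gn b z w Γ a) : q1b_C b z w e Γ a := by
  rcases ha with rfl | ha | ⟨h1, h2⟩ | ⟨h1, h2⟩
  · refine ⟨h.hew, Or.inr (Or.inr ⟨h.hwb, h.hw, ?_⟩)⟩
    exact ⟨1, Or.inl rfl, 1, Or.inl rfl, by rw [one_mul, mul_one]⟩
  · obtain ⟨e', rfl, h3, h4⟩ := q1b_gam h ha
    refine ⟨?_, Or.inl ha⟩
    show e' * a = a
    rw [h.hc e' a (q1b_ez h rfl).1, h4]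
  · refine ⟨?_, Or.inr (Or.inl ⟨h2, Or.inl h1⟩)⟩
    cases e with
    | none => rfl
    | some e' =>
      show e' * a = a
      calc e' * a = e' * (b * a) := by rw [h2]
        _ = a := by rw [← mul_assoc, (q1b_ez h rfl).2.1, h2]
  · refine ⟨?_, Or.inr (Or.inl ⟨?_, Or.inr ⟨h1, h2⟩⟩)⟩
    · cases e with
      | none => rfl
      | some e' =>
        show e' * a = a
        calc e' * a = e' * (z * a) := by rw [h2]
          _ = a := by rw [← mul_assoc, (q1b_ez h rfl).2.2.2, h2]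
    · show b * a = a
      calc b * a = b * (z * a) := by rw [h2]
        _ = a := by rw [← mul_assoc, h.hbz, h2]

private theorem q1b_omz (h : QD b z w e Γ) {s : S} (hs : q1b_C b z w e Γ s) : om s * z = z := by
  rcases hs.2 with hs | ⟨_, h1 | ⟨h1, _⟩⟩ | ⟨_, h1, _⟩
  · obtain ⟨e', rfl, h3, _⟩ := q1b_gam h hs
    rw [h3, (q1b_ez h rfl).2.2.2]
  · rw [h1, h.hbz]
  · rw [h1, h.hz]
  · rw [h1, h.hbz]

private theorem q1b_mul (h : QD b z w e Γ) {s t : S} (hs1 : s ∈ S1 b z w Γ) (ht1 : t ∈ S1 b z w Γ)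
    (hs : q1b_C b z w e Γ s) (ht : q1b_C b z w e Γ t) : q1b_C b z w e Γ (s * t) := by
  refine ⟨?_, ?_⟩
  · rw [(act_mul h.hc (fun e' he => (h.he e' he).1) s t).2.1, hs.1]
  have hom := om_mul h.hc s t
  have hzb : z * b = z := by rw [h.hc z b h.hz, h.hbz]
  have hKK : (s : WithOne S) ∈ KK b z w Γ 1 ∨ (t : WithOne S) ∈ KK b z w Γ 1 →
      ((s * t : S) : WithOne S) ∈ KK b z w Γ 1 := by
    rintro (h1 | h1)
    · rw [WithOne.coe_mul]
      exact (kk_ideal h1 (Or.inr ⟨t, ht1, rfl⟩)).2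
    · rw [WithOne.coe_mul]
      exact (kk_ideal h1 (Or.inr ⟨s, hs1, rfl⟩)).1
  have fin : om (s * t) = b → Lw b (s * t) ∨ ((s * t : S) : WithOne S) ∈ KK b z w Γ 1 →
      (s * t ∈ Γ ∨ (Lw b (s * t) ∧ (om (s * t) = b ∨ (om (s * t) = z ∧ z * (s * t) = s * t))) ∨
      (¬ Lw b (s * t) ∧ om (s * t) = b ∧ ((s * t : S) : WithOne S) ∈ KK b z w Γ 1)) := by
    intro h1 h2
    by_cases h3 : Lw b (s * t)
    · exact Or.inr (Or.inl ⟨h3, Or.inl h1⟩)
    · exact Or.inr (Or.inr ⟨h3, h1, h2.resolve_left h3⟩)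
  -- the case of a left factor fixed by `z`
  have caseL : om s = z → z * s = s → (s * t ∈ Γ ∨ (Lw b (s * t) ∧ (om (s * t) = b ∨ (om (s * t) = z ∧ z * (s * t) = s * t))) ∨
      (¬ Lw b (s * t) ∧ om (s * t) = b ∧ ((s * t : S) : WithOne S) ∈ KK b z w Γ 1)) := by
    intro h1 h2
    have h3 : z * (s * t) = s * t := by rw [← mul_assoc, h2]
    refine Or.inr (Or.inl ⟨?_, Or.inr ⟨?_, h3⟩⟩)
    · show b * (s * t) = s * t
      calc b * (s * t) = b * (z * (s * t)) := by rw [h3]
        _ = s * t := by rw [← mul_assoc, h.hbz, h3]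
    · rw [hom, h1, h.hc z _ h.hz]
      exact q1b_omz h ht
  have caseR : om t = z → z * t = t → (s * t ∈ Γ ∨ (Lw b (s * t) ∧ (om (s * t) = b ∨ (om (s * t) = z ∧ z * (s * t) = s * t))) ∨
      (¬ Lw b (s * t) ∧ om (s * t) = b ∧ ((s * t : S) : WithOne S) ∈ KK b z w Γ 1)) := by
    intro h1 h2
    have h3 : z * (s * t) = s * t := by rw [← mul_assoc, h.hc z s h.hz, mul_assoc, h2]
    refine Or.inr (Or.inl ⟨?_, Or.inr ⟨?_, h3⟩⟩)
    · show b * (s * t) = s * t
      calc b * (s * t) = b * (z * (s * t)) := by rw [h3]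
        _ = s * t := by rw [← mul_assoc, h.hbz, h3]
    · rw [hom, h1]
      exact q1b_omz h hs
  rcases hs.2 with hs2 | ⟨hs2, h1 | ⟨h1, h1'⟩⟩ | ⟨hs2, h1, hk⟩
  · -- `s` in `Γ`
    obtain ⟨e', he', h3, h4⟩ := q1b_gam h hs2
    have hz' := q1b_ez h he'
    rcases ht.2 with ht2 | ⟨ht2, h5 | ⟨h5, h5'⟩⟩ | ⟨ht2, h5, hk⟩
    · exact Or.inl (h.g3 s hs2 t ht2)
    · exact fin (by rw [hom, h3, h5, hz'.2.1]) (Or.inl (ht2.mul_left h.hc h.hb s))
    · exact caseR h5 h5'
    · exact fin (by rw [hom, h3, h5, hz'.2.1]) (Or.inr (hKK (Or.inr hk)))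
  · -- `Lw b s`, `om s = b`
    rcases ht.2 with ht2 | ⟨ht2, h5 | ⟨h5, h5'⟩⟩ | ⟨ht2, h5, hk⟩
    · obtain ⟨e', he', h3, h4⟩ := q1b_gam h ht2
      exact fin (by rw [hom, h1, h3, (q1b_ez h he').2.2.1]) (Or.inl (hs2.mul_right t))
    · exact fin (by rw [hom, h1, h5, h.hb]) (Or.inl (hs2.mul_right t))
    · exact caseR h5 h5'
    · exact fin (by rw [hom, h1, h5, h.hb]) (Or.inl (hs2.mul_right t))
  · exact caseL h1 h1'
  · rcases ht.2 with ht2 | ⟨ht2, h5 | ⟨h5, h5'⟩⟩ | ⟨ht2, h5, hk'⟩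
    · obtain ⟨e', he', h3, h4⟩ := q1b_gam h ht2
      exact fin (by rw [hom, h1, h3, (q1b_ez h he').2.2.1]) (Or.inr (hKK (Or.inl hk)))
    · exact fin (by rw [hom, h1, h5, h.hb]) (Or.inl (ht2.mul_left h.hc h.hb s))
    · exact caseR h5 h5'
    · exact fin (by rw [hom, h1, h5, h.hb]) (Or.inr (hKK (Or.inl hk)))

/-- PROOF.  Idempotents are central; for `e = some e'`: `e' * b = b` (`h.he`), `e' * z = e' * (b * z) = z`.
First `act e s = s` for all `s` in `S1`, by induction on the list: `e' * w = w`; `e' * g = g` for `g` in `Γ` (`h.g2`); `om a = b`,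
`b * a = a`: `e' * a = e' * (b * a) = a`; `z * a = a`: `e' * a = e' * z * a = a`.
Then the classification, by induction on the list `l`, for every nonempty list of generators and `prd l = s`.  Generators: `w` is
of the third kind (`w = 1 * w * 1`), elements of `Γ` of the first, the others of the second (`z * a = a`: `b * a = b * (z * a) =
z * a = a`).  Step `s = a * t`, with `om_mul`.  `Γ * Γ`: `h.g3`.  A factor of the second kind: the product is `Lw`
(`Lw.mul_right`, `Lw.mul_left`); if one factor has `om = z`, `z * _ = _`, then the product has the same (`z` times `b`, `e'` or `z` is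
`z`); otherwise `om = b` (`e' * b = b`).  Two factors of the third kind: `om = b`, and the product is in `KK 1` (`kk_ideal`), so it
is of the second or of the third kind.  One factor `g` in `Γ`, the other, `t`, of the third kind: `om = e' * b = b`, in `KK 1`
(`kk_ideal`), not `Lw`: otherwise multiply by the inverse of `g` (`gh_inv`): `e' * t = t` would be `Lw`. -/
theorem s1_cases (h : QD b z w e Γ) {s : S} (hs : s ∈ S1 b z w Γ) :
    act e s = s ∧ (s ∈ Γ ∨ (Lw b s ∧ (om s = b ∨ (om s = z ∧ z * s = s))) ∨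
      (¬ Lw b s ∧ om s = b ∧ (s : WithOne S) ∈ KK b z w Γ 1)) := by
  obtain ⟨l, hl, hp⟩ := hs
  have key : ∀ (l : List S), (∀ a ∈ l, Gn b z w Γ a) → ∀ s : S, prd l = (s : WithOne S) → q1b_C b z w e Γ s := by
    intro l
    induction l with
    | nil =>
      intro _ s hs
      exact absurd rfl (ne_nil_of_prd hs)
    | cons a l ih =>
      intro hl s hs
      have ha := hl a List.mem_cons_self
      by_cases hl0 : l = []
      · subst hl0
        rw [prd_singleton, WithOne.coe_inj] at hs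
        rw [← hs]
        exact q1b_gen h ha
      · obtain ⟨t, ht⟩ := exists_prd hl0
        have hl' : ∀ a ∈ l, Gn b z w Γ a := fun x hx => hl x (List.mem_cons_of_mem _ hx)
        have ht' := ih hl' t ht
        rw [prd_cons, ht, ← WithOne.coe_mul, WithOne.coe_inj] at hs
        rw [← hs]
        refine q1b_mul h ⟨[a], ?_, prd_singleton a⟩ ⟨l, hl', ht⟩ (q1b_gen h ha) ht'
        intro x hx
        rw [List.mem_singleton] at hx
        rw [hx]
        exact ha
  exact key l hl s hp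

/-- PROOF.  `s = p * w * q`: write it as a product in `S` and use `om_mul`: `om s = (om p) b (om q)` and `b * b = b`, idempotents
commute (`p`, `q` may be `1`). -/
theorem kk_om (h : QD b z w e Γ) {s : S} (hs : (s : WithOne S) ∈ KK b z w Γ 1) : b * om s = om s := by
  obtain ⟨p, hp, q, hq, hs⟩ := hs
  have hx : ∃ x : S, om s = b * x := by
    rcases hp with rfl | ⟨p', _, rfl⟩
    · rcases hq with rfl | ⟨q', _, rfl⟩
      · rw [one_mul, mul_one, WithOne.coe_inj] at hs
        exact ⟨b, by rw [hs, h.hw, h.hb]⟩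
      · rw [one_mul, ← WithOne.coe_mul, WithOne.coe_inj] at hs
        exact ⟨om q', by rw [hs, om_mul h.hc, h.hw]⟩
    · rcases hq with rfl | ⟨q', _, rfl⟩
      · rw [mul_one, ← WithOne.coe_mul, WithOne.coe_inj] at hs
        exact ⟨om p', by rw [hs, om_mul h.hc, h.hw, h.hc b _ h.hb]⟩
      · rw [← WithOne.coe_mul, ← WithOne.coe_mul, WithOne.coe_inj] at hs
        refine ⟨om p' * om q', ?_⟩
        rw [hs, om_mul h.hc, om_mul h.hc, h.hw, ← h.hc b _ h.hb, mul_assoc]
  obtain ⟨x, hx⟩ := hx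
  rw [hx, ← mul_assoc, h.hb]

/-- PROOF.  If `g` is in `Γ` and in `KK 1`, then `e = some e'`, `om g = e'`, and by `kk_om` `b * e' = e'`, but `e' * b = b` (`h.he`), so
`e' = b` (idempotents commute) and `b * w = e' * w = w`, contradiction. -/
theorem gam_not (h : QD b z w e Γ) {g : S} (hg : g ∈ Γ) : (g : WithOne S) ∉ KK b z w Γ 1 ∧ ¬ Lw b g := by
  obtain ⟨e', he', h1, h2⟩ := q1b_gam h hg
  have hz := q1b_ez h he'
  have key : b * e' ≠ e' := by
    intro h3
    rw [hz.2.2.1] at h3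
    have h4 := h.hew
    rw [he', ← h3] at h4
    exact h.hwb h4
  constructor
  · intro hk
    have := kk_om h hk
    rw [h1] at this
    exact key this
  · intro hl
    apply key
    obtain ⟨n, hn⟩ := om_eq_pw g
    rw [← h1, hn]
    exact c1_left hl n

/-- PROOF.  Suppose `w = p w q w r w t` with `p, q, r, t` in `S1w` (unfold `KK`).  Then `w = p * w * v` with `v = q w r w t` (an
element of `S`), so `w = p ^ n * w * v ^ n` for all `n` (in `WithOne S`), so `w = p ^ n * w * om v` for some `n` (`om_eq_pw`, `coe_pw`).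
`om v = b * om v` (`kk_om`), so `w * b = w` (idempotents commute), contradiction. -/
theorem w_not (h : QD b z w e Γ) : (w : WithOne S) ∉ KK b z w Γ 3 := by
  rintro ⟨p, hp, v, hv, hw⟩
  obtain ⟨v', hv'⟩ : ∃ v' : S, v = (v' : WithOne S) := by
    obtain ⟨p2, hp2, q2, hq2, rfl⟩ := hv
    rcases hp2 with rfl | ⟨p2', _, rfl⟩
    · rcases eq_or_ne q2 1 with rfl | hq
      · exact ⟨w, by rw [one_mul, mul_one]⟩
      · obtain ⟨q2', rfl⟩ := WithOne.ne_one_iff_exists.mp hq
        exact ⟨w * q2', by rw [one_mul, WithOne.coe_mul]⟩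
    · rcases eq_or_ne q2 1 with rfl | hq
      · exact ⟨p2' * w, by rw [mul_one, WithOne.coe_mul]⟩
      · obtain ⟨q2', rfl⟩ := WithOne.ne_one_iff_exists.mp hq
        exact ⟨p2' * w * q2', by rw [WithOne.coe_mul, WithOne.coe_mul]⟩
  subst hv'
  have hv1 : (v' : WithOne S) ∈ KK b z w Γ 1 := kk_anti (by norm_num) hv
  have key : ∀ n : ℕ, (w : WithOne S) = p ^ n * (w : WithOne S) * (v' : WithOne S) ^ n := by
    intro n
    induction n with
    | zero => rw [pow_zero, pow_zero, one_mul, mul_one]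
    | succ n ih =>
      calc (w : WithOne S) = p * (w : WithOne S) * (v' : WithOne S) := hw
        _ = p * (p ^ n * (w : WithOne S) * (v' : WithOne S) ^ n) * (v' : WithOne S) := by rw [← ih]
        _ = p ^ (n + 1) * (w : WithOne S) * (v' : WithOne S) ^ (n + 1) := by
          rw [pow_succ' p n, pow_succ (v' : WithOne S) n]
          simp only [mul_assoc]
  obtain ⟨n, hn⟩ := om_eq_pw v'
  have h1 := key (n + 1)
  rw [← coe_pw, ← hn] at h1
  have h2 : om v' * b = om v' := by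
    rw [← h.hc b _ h.hb]
    exact kk_om h hv1
  have h3 : (w : WithOne S) * (b : WithOne S) = (w : WithOne S) := by
    calc (w : WithOne S) * (b : WithOne S) = p ^ (n + 1) * (w : WithOne S) * ((om v' : S) : WithOne S) * (b : WithOne S) := by
          rw [← h1]
      _ = p ^ (n + 1) * (w : WithOne S) * ((om v' * b : S) : WithOne S) := by rw [WithOne.coe_mul, mul_assoc]
      _ = (w : WithOne S) := by rw [h2, ← h1]
  rw [← WithOne.coe_mul, WithOne.coe_inj] at h3
  apply h.hwb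
  rw [h.hc b w h.hb, h3]

end

end EVC
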