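import Pool.Agent.EVC.Q1b

/-!
# [EC-Q1c] long products are regular
-/

set_option autoImplicit false

open EVS

namespace EVC

section
variable {S : Type} [Semigroup S] [Finite S] {b z w : S} {e : Option S} {Γ : Set S}

private theorem q1c_coe {m : ℕ} {v : WithOne S} (hv : v ∈ KK b z w Γ (m + 1)) : ∃ v' : S, v = (v' : WithOne S) := by
  obtain ⟨p2, hp2, q2, hq2, rfl⟩ := hv
  rcases eq_or_ne p2 1 with rfl | hp
  · rcases eq_or_ne q2 1 with rfl | hq
    · exact ⟨w, by rw [one_mul, mul_one]⟩
    · obtain ⟨q2', rfl⟩ := WithOne.ne_one_iff_exists.mp hq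
      exact ⟨w * q2', by rw [one_mul, WithOne.coe_mul]⟩
  · obtain ⟨p2', rfl⟩ := WithOne.ne_one_iff_exists.mp hp
    rcases eq_or_ne q2 1 with rfl | hq
    · exact ⟨p2' * w, by rw [mul_one, WithOne.coe_mul]⟩
    · obtain ⟨q2', rfl⟩ := WithOne.ne_one_iff_exists.mp hq
      exact ⟨p2' * w * q2', by rw [WithOne.coe_mul, WithOne.coe_mul]⟩

private theorem q1c_left (h : QD b z w e Γ) (x : WithOne S) :
    ∃ v : S, (v : WithOne S) = x * (w : WithOne S) ∧ b * om v = om v := by
  rcases eq_or_ne x 1 with rfl | hx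
  · exact ⟨w, by rw [one_mul], by rw [h.hw, h.hb]⟩
  · obtain ⟨x', rfl⟩ := WithOne.ne_one_iff_exists.mp hx
    refine ⟨x' * w, by rw [WithOne.coe_mul], ?_⟩
    rw [om_mul h.hc, h.hw, ← mul_assoc, h.hc b _ h.hb, mul_assoc, h.hb]

private def q1c_L (s : S) : Set S := {t : S | ∃ u : WithOne S, (t : WithOne S) = u * (s : WithOne S)}

private theorem q1c_main (h : QD b z w e Γ) (m : ℕ) : ∀ s : S, (s : WithOne S) ∈ KK b z w Γ (m + 1) → ¬ Lw b s →
    (q1c_L s).ncard + m ≤ Nat.card S := by
  induction m with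
  | zero =>
    intro s _ _
    rw [Nat.add_zero, ← Set.ncard_univ]
    exact Set.ncard_le_ncard (Set.subset_univ _) (Set.toFinite _)
  | succ m ih =>
    intro s hs hl
    obtain ⟨p, hp, q, hq, hsp⟩ := hs
    obtain ⟨q', rfl⟩ := q1c_coe hq
    obtain ⟨r, hr, _⟩ := q1c_left h p
    have hsr : s = r * q' := by
      rw [← hr, ← WithOne.coe_mul, WithOne.coe_inj] at hsp
      exact hsp
    have hq' : ¬ Lw b q' := by
      intro h1
      apply hl
      rw [hsr]
      exact h1.mul_left h.hc h.hb r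
    have hsub : q1c_L s ⊆ q1c_L q' := by
      rintro t ⟨u, hu⟩
      refine ⟨u * (r : WithOne S), ?_⟩
      rw [hu, hsr, WithOne.coe_mul, mul_assoc]
    have hmem : q' ∈ q1c_L q' := ⟨1, by rw [one_mul]⟩
    have hnot : q' ∉ q1c_L s := by
      rintro ⟨u, hu⟩
      obtain ⟨v, hv, hbv⟩ := q1c_left h (u * p)
      have h1 : (q' : WithOne S) = (v : WithOne S) * (q' : WithOne S) := by
        rw [hv]
        calc (q' : WithOne S) = u * (s : WithOne S) := hu
          _ = u * p * (w : WithOne S) * (q' : WithOne S) := by rw [hsp]; simp only [mul_assoc]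
      have h2 : ∀ n : ℕ, (q' : WithOne S) = (v : WithOne S) ^ n * (q' : WithOne S) := by
        intro n
        induction n with
        | zero => rw [pow_zero, one_mul]
        | succ n ih2 => rw [pow_succ, mul_assoc, ← h1, ← ih2]
      obtain ⟨n, hn⟩ := om_eq_pw v
      have h3 := h2 (n + 1)
      rw [← coe_pw, ← hn, ← WithOne.coe_mul, WithOne.coe_inj] at h3
      apply hq'
      show b * q' = q'
      calc b * q' = b * (om v * q') := by rw [← h3]
        _ = q' := by rw [← mul_assoc, hbv, ← h3]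
    have hlt : (q1c_L s).ncard < (q1c_L q').ncard := by
      apply Set.ncard_lt_ncard _ (Set.toFinite _)
      exact ⟨hsub, fun h1 => hnot (h1 hmem)⟩
    have := ih q' hq hq'
    omega

/-- long products are regular
PROOF.  For `s : S` let `L s = {t : S | ∃ u : WithOne S, (t : WithOne S) = u * s}`.  Claim, by induction on `m`: if `s` is in
`KK (m + 1)` and not `Lw`, then `Nat.card (L s) + m ≤ Nat.card S`.  `m = 0`: clear.  Step: `s = p * w * q` with `q` in `KK (m + 1)`; `q` is
an element of `S` (it has a factor `w`), and not `Lw` (otherwise `s` is, `Lw.mul_left`).  `L s ⊆ L q`, and `q ∈ L q`, `q ∉ L s`: if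
`q = u * s = (u * p * w) * q`, let `v = u * p * w` (an element of `S`), `q = v * q`, so `q = om v * q`, and `om v = b * om v` (as in
`kk_om`), so `q` is `Lw`, contradiction.  So `Nat.card (L s) + 1 ≤ Nat.card (L q)`.
`L s` is nonempty, so `m + 1 ≤ Nat.card S`. -/
theorem kk_long (h : QD b z w e Γ) {s : S} (hs : (s : WithOne S) ∈ KK b z w Γ (Nat.card S + 1)) : Lw b s := by
  by_contra hl
  have h1 := q1c_main h (Nat.card S) s hs hl
  have h2 : 0 < (q1c_L s).ncard := by
    rw [Set.ncard_pos (Set.toFinite _)]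
    exact ⟨s, 1, by rw [one_mul]⟩
  omega

end

end EVC
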