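import Pool.Agent.EVC.Q1b

/-!
# [EC-Q2] the quotient in which all products with three factors `w` are regular
-/

set_option autoImplicit false

open EVS

namespace EVC

section
variable {S : Type} [Semigroup S] [Finite S]

open Classical in
/-- multiplication by `b` on the products with three factors `w` -/
noncomputable def th (b z w : S) (Γ : Set S) (s : S) : S :=
  if (s : WithOne S) ∈ KK b z w Γ 3 then b * s else s

variable {b z w : S} {e : Option S} {Γ : Set S}

/-- the quotient, as a subset of `S` -/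
def QT (_h : QD b z w e Γ) : Type := {s : S // s ∈ S1 b z w Γ ∧ ((s : WithOne S) ∉ KK b z w Γ 3 ∨ b * s = s)}

theorem th_fix {s : S} (hs : (s : WithOne S) ∉ KK b z w Γ 3 ∨ b * s = s) : th b z w Γ s = s := by
  unfold th
  split_ifs with h1
  · rcases hs with h2 | h2
    · exact absurd h1 h2
    · exact h2
  · rfl

theorem q2_b_mem (h : QD b z w e Γ) : b ∈ S1 b z w Γ :=
  (s1_gen (b := b) (z := z) (w := w) (Γ := Γ)).2.2.1 b (om_of_idem h.hb) h.hb

theorem q2_th_kk {s : S} (hs : (s : WithOne S) ∈ KK b z w Γ 3) : th b z w Γ s = b * s := by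
  unfold th
  rw [if_pos hs]

theorem q2_th_not {s : S} (hs : (s : WithOne S) ∉ KK b z w Γ 3) : th b z w Γ s = s := by
  unfold th
  rw [if_neg hs]

/-- PROOF.  If `s` is in `KK 3`: `b * s` is in `S1` (`b` is, `s1_gen`, `s1_mul`) and `b * (b * s) = b * s`. -/
theorem th_mem (h : QD b z w e Γ) {s : S} (hs : s ∈ S1 b z w Γ) :
    th b z w Γ s ∈ S1 b z w Γ ∧
      (((th b z w Γ s : S) : WithOne S) ∉ KK b z w Γ 3 ∨ b * th b z w Γ s = th b z w Γ s) := by
  by_cases h1 : (s : WithOne S) ∈ KK b z w Γ 3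
  · rw [q2_th_kk h1]
    exact ⟨s1_mul (q2_b_mem h) hs, Or.inr (by rw [← mul_assoc, h.hb])⟩
  · rw [q2_th_not h1]
    exact ⟨hs, Or.inl h1⟩

/-- PROOF.  If `s` is not in `KK 3`, then `th s = s`.  If it is, `s * t` is in `KK 3` (`kk_ideal`), `th (s * t) = b * (s * t)`, and
`th s * t = b * s * t` is fixed by `b`, so `th (b * s * t) = b * s * t` (`th_fix`). -/
theorem th_mul_left (h : QD b z w e Γ) {s t : S} (hs : s ∈ S1 b z w Γ) (ht : t ∈ S1 b z w Γ) :
    th b z w Γ (th b z w Γ s * t) = th b z w Γ (s * t) := by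
  by_cases h1 : (s : WithOne S) ∈ KK b z w Γ 3
  · have h2 : ((s * t : S) : WithOne S) ∈ KK b z w Γ 3 := by
      rw [WithOne.coe_mul]
      exact (kk_ideal h1 (Or.inr ⟨t, ht, rfl⟩)).2
    rw [q2_th_kk h1, q2_th_kk h2, th_fix (Or.inr (by rw [← mul_assoc, ← mul_assoc, h.hb])), mul_assoc]
  · rw [q2_th_not h1]

/-- PROOF.  As `th_mul_left`; `s * (b * t) = b * (s * t)`. -/
theorem th_mul_right (h : QD b z w e Γ) {s t : S} (hs : s ∈ S1 b z w Γ) (ht : t ∈ S1 b z w Γ) :
    th b z w Γ (s * th b z w Γ t) = th b z w Γ (s * t) := by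
  by_cases h1 : (t : WithOne S) ∈ KK b z w Γ 3
  · have h2 : ((s * t : S) : WithOne S) ∈ KK b z w Γ 3 := by
      rw [WithOne.coe_mul]
      exact (kk_ideal h1 (Or.inr ⟨s, hs, rfl⟩)).1
    have e1 : s * (b * t) = b * (s * t) := by
      rw [← mul_assoc, ← h.hc b s h.hb, mul_assoc]
    rw [q2_th_kk h1, q2_th_kk h2, e1, th_fix (Or.inr (by rw [← mul_assoc, h.hb]))]
  · rw [q2_th_not h1]

noncomputable instance (h : QD b z w e Γ) : Semigroup (QT h) where
  mul s t := ⟨th b z w Γ (s.1 * t.1), th_mem h (s1_mul s.2.1 t.2.1)⟩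
  mul_assoc := by
    intro r s t
    apply Subtype.ext
    show th b z w Γ (th b z w Γ (r.1 * s.1) * t.1) = th b z w Γ (r.1 * th b z w Γ (s.1 * t.1))
    rw [th_mul_left h (s1_mul r.2.1 s.2.1) t.2.1, th_mul_right h r.2.1 (s1_mul s.2.1 t.2.1), mul_assoc]

theorem qt_mul (h : QD b z w e Γ) (s t : QT h) : (s * t).1 = th b z w Γ (s.1 * t.1) := rfl

instance (h : QD b z w e Γ) : Finite (QT h) := by
  unfold QT
  infer_instance

/-- PROOF.  `mem_of_div` (EVS/H1.lean) with `D = S1` and `g s = ⟨th s, _⟩` for `s` in `S1` (any value otherwise; `QT h` is nonempty):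
`g (s * t) = g s * g t` by `th_mul_left`, `th_mul_right`; `g s.1 = s` for `s : QT h` by `th_fix`. -/
theorem mem_QT {V : Set (Wd × Wd)} (hV : Mem V S) (h : QD b z w e Γ) : Mem V (QT h) := by
  classical
  have hne : Nonempty (QT h) := ⟨⟨th b z w Γ b, th_mem h (q2_b_mem h)⟩⟩
  let g : S → QT h := fun s => if hs : s ∈ S1 b z w Γ then ⟨th b z w Γ s, th_mem h hs⟩ else Classical.arbitrary _
  have hg : ∀ s (hs : s ∈ S1 b z w Γ), g s = ⟨th b z w Γ s, th_mem h hs⟩ := fun s hs => dif_pos hs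
  refine mem_of_div (S1 b z w Γ) g (fun a ha c hc => s1_mul ha hc) ?_ ?_ hV
  · intro a ha c hc
    rw [hg _ (s1_mul ha hc), hg _ ha, hg _ hc]
    apply Subtype.ext
    show th b z w Γ (a * c) = th b z w Γ (th b z w Γ a * th b z w Γ c)
    rw [th_mul_right h (th_mem h ha).1 hc, th_mul_left h ha hc]
  · intro s
    refine ⟨s.1, s.2.1, ?_⟩
    rw [hg _ s.2.1]
    exact Subtype.ext (th_fix s.2.2)

/-- elements of the quotient -/
def qmk (h : QD b z w e Γ) (s : S) (hs : s ∈ S1 b z w Γ) (hs' : (s : WithOne S) ∉ KK b z w Γ 3 ∨ b * s = s) :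
    QT h := ⟨s, hs, hs'⟩

end

end EVC
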