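import Pool.Agent.EVC.Q2

/-!
# [EC-Q2b] the group elements of the quotient
-/

set_option autoImplicit false

open EVS

namespace EVC

section
variable {S : Type} [Semigroup S] [Finite S] {b z w : S} {e : Option S} {Γ : Set S}

theorem q2b_om (h : QD b z w e Γ) (C : S → Prop) (hC : ∀ s t, C s → C t → C (s * t))
    (hfix : ∀ s, C s → th b z w Γ s = s) (t : QT h) (ht : C t.1) : (om t).1 = om t.1 := by
  have h1 : ∀ n, C (pw t.1 n) := by
    intro n
    induction n with
    | zero => exact ht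
    | succ n ih => rw [pw_succ]; exact hC _ _ ih ht
  have h2 : ∀ n, (pw t n).1 = pw t.1 n := by
    intro n
    induction n with
    | zero => rfl
    | succ n ih =>
      rw [pw_succ, qt_mul, ih, pw_succ]
      exact hfix _ (hC _ _ (h1 n) ht)
  obtain ⟨n, hn⟩ := om_eq_pw t
  have h3 : (om t).1 = pw t.1 n := by rw [hn, h2]
  have h4 := congrArg Subtype.val (om_idem t)
  have h5 : th b z w Γ ((om t).1 * (om t).1) = (om t).1 := h4
  rw [h3, hfix _ (hC _ _ (h1 n) (h1 n))] at h5
  rw [h3]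
  exact (om_eq h5).symm

theorem q2b_gam (h : QD b z w e Γ) {g : S} (hg : g ∈ Γ) : th b z w Γ g = g :=
  th_fix (Or.inl fun h1 => (gam_not h hg).1 (kk_anti (by norm_num) h1))

theorem q2b_val (h : QD b z w e Γ) (s : S) : th b z w Γ s = s ∨ th b z w Γ s = b * s := by
  unfold th
  split_ifs
  · exact Or.inr rfl
  · exact Or.inl rfl

/-- PROOF.  `→`: let `ε`, `η` with `ε * ε = ε`, `ε * t = t`, `t * ε = t`, `t * η = ε`.  Suppose that `t.1` is not in `Γ` and not `Lw`.  By
`s1_cases` `om t.1 = b`.  `ε.1 = th (t.1 * η.1)` is `t.1 * η.1` or `b` times this, so `om ε.1 = b * _` and `b * om ε.1 = om ε.1`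
(`om_mul`, centrality).  `ε.1 = th (ε.1 * ε.1)`: either `ε.1 = b * (ε.1 * ε.1)`, then `Lw b ε.1`; or `ε.1 = ε.1 * ε.1`, then
`om ε.1 = ε.1` (`om_of_idem`), so `b * ε.1 = ε.1`.  Hence `ε.1 * t.1` is `Lw`, and `t.1 = th (ε.1 * t.1) = ε.1 * t.1` (`th_fix`) is `Lw`,
contradiction.
`←`: `t.1` in `Γ`: `om t.1 = e'`, `t.1 * e' = t.1`.  All powers of `t.1` are in `Γ` (`h.g3`), so not in `KK 3` (`gam_not`, `kk_anti`), so
powers in `QT h` have the same values as in `S` (`th_fix`), by induction; so in `QT h` `om t` has the value `om t.1 = e'`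
(`om_eq`, `om_eq_pw`) and `t * om t = t`; `isGp_iff`.  `t.1` is `Lw`: products of `Lw` elements in `QT h` have the same
values as in `S` (`th_fix`), so again `om t` has the value `om t.1`; by `s1_cases` `om t.1 = b` or (`om t.1 = z` and `z * t.1 = t.1`)
(`Γ` is impossible by `gam_not`), so `t.1 * om t.1 = t.1`. -/
theorem gp_QT (h : QD b z w e Γ) (t : QT h) : IsGp t ↔ t.1 ∈ Γ ∨ Lw b t.1 := by
  constructor
  · rintro ⟨ε, η, hε, h1, -, h3, -⟩
    by_contra hcon
    push Not at hcon
    obtain ⟨hc1, hc2⟩ := hcon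
    rcases (s1_cases h t.2.1).2 with h5 | ⟨h5, -⟩ | ⟨-, hom, -⟩
    · exact hc1 h5
    · exact hc2 h5
    have e1 : th b z w Γ (t.1 * η.1) = ε.1 := congrArg Subtype.val h3
    have e2 : b * om ε.1 = om ε.1 := by
      rcases q2b_val h (t.1 * η.1) with h6 | h6
      · rw [h6] at e1
        rw [← e1, om_mul h.hc, hom, ← mul_assoc, h.hb]
      · rw [h6] at e1
        rw [← e1, om_mul h.hc, om_of_idem h.hb, ← mul_assoc, h.hb]
    have e3 : th b z w Γ (ε.1 * ε.1) = ε.1 := congrArg Subtype.val hε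
    have e4 : Lw b ε.1 := by
      rcases q2b_val h (ε.1 * ε.1) with h6 | h6
      · rw [h6] at e3
        rw [om_of_idem e3] at e2
        exact e2
      · rw [h6] at e3
        have h7 : b * (b * (ε.1 * ε.1)) = b * (ε.1 * ε.1) := by rw [← mul_assoc, h.hb]
        rw [e3] at h7
        exact h7
    have e5 : th b z w Γ (ε.1 * t.1) = t.1 := congrArg Subtype.val h1
    have e6 : Lw b (ε.1 * t.1) := e4.mul_right t.1
    rw [th_fix (Or.inr e6)] at e5
    rw [e5] at e6
    exact hc2 e6
  · intro ht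
    rw [isGp_iff]
    apply Subtype.ext
    rw [qt_mul]
    rcases ht with ht | ht
    · rw [q2b_om h (fun s => s ∈ Γ) (fun s t hs ht => h.g3 s hs t ht) (fun s hs => q2b_gam h hs) t ht]
      rcases hce : e with _ | e'
      · exact absurd ((h.g0 hce).le ht) (Set.notMem_empty _)
      · obtain ⟨h1, h2⟩ := h.g2 e' t.1 hce ht
        rw [h1, h2]
        exact th_fix t.2.2
    · rw [q2b_om h (Lw b) (fun s t hs _ => hs.mul_right t) (fun s hs => th_fix (Or.inr hs)) t ht]
      have h1 : t.1 * om t.1 = t.1 := by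
        rcases (s1_cases h t.2.1).2 with h5 | ⟨-, h5 | ⟨h5, h6⟩⟩ | ⟨h5, -⟩
        · exact absurd ht (gam_not h h5).2
        · rw [h5, ← h.hc b t.1 h.hb]
          exact ht
        · rw [h5, ← h.hc z t.1 h.hz]
          exact h6
        · exact absurd ht h5
      rw [h1]
      exact th_fix t.2.2

end

end EVC
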