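import Pool.Agent.EVC.Q2b

/-!
# [EC-Q3] the quotient is a configuration
-/

set_option autoImplicit false

open EVS

namespace EVC

section
variable {S : Type} [Semigroup S] [Finite S] {b z w : S} {e : Option S} {Γ : Set S}

/-- `w` as an element of the quotient -/
def qw (h : QD b z w e Γ) : QT h := ⟨w, s1_gen.1, Or.inl (w_not h)⟩

theorem q3_single (h : QD b z w e Γ) {A : QT h} (hA : Gn b z w Γ A.1) : IsGp A ∨ A = qw h := by
  rcases hA with hA | hA | ⟨-, hA⟩ | ⟨-, hA⟩
  · exact Or.inr (Subtype.ext hA)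
  · exact Or.inl ((gp_QT h A).2 (Or.inl hA))
  · exact Or.inl ((gp_QT h A).2 (Or.inr hA))
  · refine Or.inl ((gp_QT h A).2 (Or.inr ?_))
    show b * A.1 = A.1
    have h1 : b * (z * A.1) = z * A.1 := by rw [← mul_assoc, h.hbz]
    rw [hA] at h1
    exact h1

theorem q3_list (h : QD b z w e Γ) : ∀ (l : List S), (∀ a ∈ l, Gn b z w Γ a) → ∀ s : QT h,
    (s.1 : WithOne S) ∉ KK b z w Γ 3 → prd l = (s.1 : WithOne S) →
    ∃ l : List (QT h), (∀ a ∈ l, IsGp a ∨ a = qw h) ∧ prd l = (s : WithOne (QT h)) := by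
  intro l
  induction l with
  | nil =>
    intro _ s _ hl
    rw [prd_nil] at hl
    exact absurd hl WithOne.one_ne_coe
  | cons a l ih =>
    intro hG s hs hl
    by_cases hnil : l = []
    · subst hnil
      rw [prd_singleton, WithOne.coe_inj] at hl
      refine ⟨[s], ?_, prd_singleton s⟩
      intro c hc
      rw [List.mem_singleton] at hc
      subst hc
      refine q3_single h ?_
      rw [← hl]
      exact hG a (List.mem_singleton.2 rfl)
    · obtain ⟨t, ht⟩ := exists_prd hnil
      have haS : a ∈ S1 b z w Γ :=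
        ⟨[a], fun c hc => by rw [List.mem_singleton] at hc; rw [hc]; exact hG a List.mem_cons_self, prd_singleton a⟩
      have htS : t ∈ S1 b z w Γ := ⟨l, fun c hc => hG c (List.mem_cons_of_mem _ hc), ht⟩
      rw [prd_cons, ht] at hl
      have hak : (a : WithOne S) ∉ KK b z w Γ 3 := by
        intro h1
        apply hs
        rw [← hl]
        exact (kk_ideal h1 (Or.inr ⟨t, htS, rfl⟩)).2
      have htk : (t : WithOne S) ∉ KK b z w Γ 3 := by
        intro h1
        apply hs
        rw [← hl]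
        exact (kk_ideal h1 (Or.inr ⟨a, haS, rfl⟩)).1
      obtain ⟨l', hl1, hl2⟩ := ih (fun c hc => hG c (List.mem_cons_of_mem _ hc)) ⟨t, htS, Or.inl htk⟩ htk ht
      refine ⟨(⟨a, haS, Or.inl hak⟩ : QT h) :: l', ?_, ?_⟩
      · intro c hc
        rcases List.mem_cons.1 hc with rfl | hc
        · exact q3_single h (hG a List.mem_cons_self)
        · exact hl1 c hc
      · rw [prd_cons, hl2, ← WithOne.coe_mul, WithOne.coe_inj]
        apply Subtype.ext
        rw [qt_mul]
        rw [← WithOne.coe_mul, WithOne.coe_inj] at hl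
        show th b z w Γ (a * t) = s.1
        rw [hl]
        exact th_fix s.2.2

theorem q3_fin (h : QD b z w e Γ) {s : QT h} {x : S} (hx : (x : WithOne S) ∈ KK b z w Γ 3)
    (hsx : s.1 = th b z w Γ x) : IsGp s := by
  rw [gp_QT]
  right
  rw [hsx]
  unfold th
  rw [if_pos hx]
  exact lw_b h.hb x

theorem q3_w : (w : WithOne S) ∈ KK b z w Γ 1 := ⟨1, Or.inl rfl, 1, Or.inl rfl, by rw [one_mul, mul_one]⟩

theorem q3_kk {p q : WithOne S} (hp : p ∈ S1w b z w Γ) (hq : q ∈ S1w b z w Γ) :
    (w : WithOne S) * p * w * q * w ∈ KK b z w Γ 3 :=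
  kk_mul (m := 2) (k := 1) (kk_ideal (kk_mul (m := 1) (k := 1) (kk_ideal q3_w hp).2 q3_w) hq).2 q3_w

theorem q3_step (h : QD b z w e Γ) {s : QT h} {x : S} (hx : x ∈ S1 b z w Γ) (hsx : s.1 = th b z w Γ x) (t : QT h) :
    (s * t).1 = th b z w Γ (x * t.1) := by
  rw [qt_mul, hsx, th_mul_left h hx t.2.1]

/-- PROOF.  Induction on `l`: for every nonempty list `l` of generators (`Gn`) with `prd l = s`, `s` not in `KK 3`:
there is a list `l'` in `QT h` with entries group elements or `qw`, with product `⟨s, _⟩`.  A single generator: `w` is `qw`; the others are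
in `Γ` or `Lw` (`z * a = a` gives `b * a = a`), so they are group elements of `QT h` by `gp_QT` (not in `KK 3`, or fixed by `b`).
`s = a * t`: `t` is not in `KK 3` (`kk_ideal`), and `⟨a, _⟩ * ⟨t, _⟩ = ⟨a * t, _⟩` by `th_fix` (`a` is a generator: in `QT h` by `w_not`,
`gam_not`, or fixed by `b`).  Elements `s` with `b * s = s` are group elements (`gp_QT`): the list `[s]`. -/
theorem gen_QT (h : QD b z w e Γ) (s : QT h) :
    ∃ l : List (QT h), (∀ a ∈ l, IsGp a ∨ a = qw h) ∧ prd l = (s : WithOne (QT h)) := by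
  by_cases hs : (s.1 : WithOne S) ∈ KK b z w Γ 3
  · refine ⟨[s], ?_, prd_singleton s⟩
    intro c hc
    rw [List.mem_singleton] at hc
    rw [hc]
    left
    rw [gp_QT]
    right
    rcases s.2.2 with h1 | h1
    · exact absurd hs h1
    · exact h1
  · obtain ⟨l, hl1, hl2⟩ := s.2.1
    exact q3_list h l hl1 s hs hl2

/-- PROOF.  In `QT h` the value of `x * p * x * q * x` (`x = qw`) is `th` of the product of the values (`th_mul_left`,
`th_mul_right`), which is in `KK 3` (the values of `p`, `q` are in `S1`), so the value is `b * _`, which is `Lw`: `gp_QT`. -/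
theorem cls_QT (h : QD b z w e Γ) (p q : WithOne (QT h)) (s : QT h)
    (hs : (s : WithOne (QT h)) = qw h * p * qw h * q * qw h) : IsGp s := by
  have hw1 : (qw h).1 ∈ S1 b z w Γ := (qw h).2.1
  have e0 : (qw h).1 = th b z w Γ (qw h).1 := (th_fix (qw h).2.2).symm
  have hS1 : ∀ t : QT h, t.1 ∈ S1 b z w Γ := fun t => t.2.1
  revert hs
  refine WithOne.cases_on p ?_ ?_
  · refine WithOne.cases_on q ?_ ?_
    · intro hs
      rw [mul_one, mul_one, ← WithOne.coe_mul, ← WithOne.coe_mul, WithOne.coe_inj] at hs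
      have e1 := q3_step h hw1 e0 (qw h)
      have e2 := q3_step h (s1_mul hw1 hw1) e1 (qw h)
      rw [← hs] at e2
      refine q3_fin h ?_ e2
      have h1 := q3_kk (b := b) (z := z) (w := w) (Γ := Γ) (p := 1) (q := 1) (Or.inl rfl) (Or.inl rfl)
      rw [mul_one, mul_one] at h1
      rw [WithOne.coe_mul, WithOne.coe_mul]
      exact h1
    · intro q hs
      rw [mul_one, ← WithOne.coe_mul, ← WithOne.coe_mul, ← WithOne.coe_mul, WithOne.coe_inj] at hs
      have e1 := q3_step h hw1 e0 (qw h)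
      have e2 := q3_step h (s1_mul hw1 hw1) e1 q
      have e3 := q3_step h (s1_mul (s1_mul hw1 hw1) (hS1 q)) e2 (qw h)
      rw [← hs] at e3
      refine q3_fin h ?_ e3
      have h1 := q3_kk (b := b) (z := z) (w := w) (Γ := Γ) (p := 1) (q := (q.1 : WithOne S)) (Or.inl rfl)
        (Or.inr ⟨q.1, hS1 q, rfl⟩)
      rw [mul_one] at h1
      rw [WithOne.coe_mul, WithOne.coe_mul, WithOne.coe_mul]
      exact h1
  · intro p
    refine WithOne.cases_on q ?_ ?_
    · intro hs
      rw [mul_one, ← WithOne.coe_mul, ← WithOne.coe_mul, ← WithOne.coe_mul, WithOne.coe_inj] at hs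
      have e1 := q3_step h hw1 e0 p
      have e2 := q3_step h (s1_mul hw1 (hS1 p)) e1 (qw h)
      have e3 := q3_step h (s1_mul (s1_mul hw1 (hS1 p)) hw1) e2 (qw h)
      rw [← hs] at e3
      refine q3_fin h ?_ e3
      have h1 := q3_kk (b := b) (z := z) (w := w) (Γ := Γ) (p := (p.1 : WithOne S)) (q := 1)
        (Or.inr ⟨p.1, hS1 p, rfl⟩) (Or.inl rfl)
      rw [mul_one] at h1
      rw [WithOne.coe_mul, WithOne.coe_mul, WithOne.coe_mul]
      exact h1
    · intro q hs
      rw [← WithOne.coe_mul, ← WithOne.coe_mul, ← WithOne.coe_mul, ← WithOne.coe_mul, WithOne.coe_inj] at hs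
      have e1 := q3_step h hw1 e0 p
      have e2 := q3_step h (s1_mul hw1 (hS1 p)) e1 (qw h)
      have e3 := q3_step h (s1_mul (s1_mul hw1 (hS1 p)) hw1) e2 q
      have e4 := q3_step h (s1_mul (s1_mul (s1_mul hw1 (hS1 p)) hw1) (hS1 q)) e3 (qw h)
      rw [← hs] at e4
      refine q3_fin h ?_ e4
      have h1 := q3_kk (b := b) (z := z) (w := w) (Γ := Γ) (p := (p.1 : WithOne S)) (q := (q.1 : WithOne S))
        (Or.inr ⟨p.1, hS1 p, rfl⟩) (Or.inr ⟨q.1, hS1 q, rfl⟩)
      rw [WithOne.coe_mul, WithOne.coe_mul, WithOne.coe_mul, WithOne.coe_mul]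
      exact h1

end

end EVC
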