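import Pool.Agent.EVC.Q3

/-!
# [EC-Q3b] the idempotents of the quotient
-/

set_option autoImplicit false

open EVS

namespace EVC

section
variable {S : Type} [Semigroup S] [Finite S] {b z w : S} {e : Option S} {Γ : Set S}

theorem q3b_b_mem (h : QD b z w e Γ) : b ∈ S1 b z w Γ :=
  (s1_gen (b := b) (z := z) (w := w) (Γ := Γ)).2.2.1 b (om_of_idem h.hb) h.hb

theorem q3b_z_mem (h : QD b z w e Γ) : z ∈ S1 b z w Γ :=
  (s1_gen (b := b) (z := z) (w := w) (Γ := Γ)).2.2.2 z (om_of_idem h.hz) h.hz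

theorem q3b_pw (h : QD b z w e Γ) (k : ℕ) : pw w k ∈ S1 b z w Γ ∧ (pw (qw h) k).1 = th b z w Γ (pw w k) := by
  induction k with
  | zero => exact ⟨(qw h).2.1, (th_fix (qw h).2.2).symm⟩
  | succ k ih =>
    obtain ⟨h1, h2⟩ := ih
    have h3 : w ∈ S1 b z w Γ := (qw h).2.1
    refine ⟨by rw [pw_succ]; exact s1_mul h1 h3, ?_⟩
    rw [pw_succ, qt_mul, h2, pw_succ]
    exact th_mul_left h h1 h3

/-- PROOF.  Let `w^(n+1) = om w = b` in `S` (`om_eq_pw`).  In `QT h` the power `pw (qw h) k` has the value `th (pw w k)` (induction,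
`th_mul_left`), so for `k = n` the value is `th b = b` (`th_fix`).  `y = ⟨z, _⟩`.  Let `f` be an idempotent of `QT h`; it is a group
element, so by `gp_QT` `f.1` is in `Γ` or `Lw`.  If `f.1` is in `Γ`: `f.1 * f.1` is in `Γ`, so not in `KK 3`, so `f.1 * f.1 = f.1`,
`om f.1 = f.1` (`om_of_idem`), and `om f.1 = e'` (`h.g2`, `e = some e'`), so `f.1 = e'`, which is an identity for all elements of `S1` (`s1_cases`:
`act e s = s`), and `th s = s` on `QT h`.  If `f.1` is `Lw`: `th (f.1 * f.1) = f.1 * f.1 = f.1`, so `om f.1 = f.1` is `b` or `z` by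
`s1_cases` (`Γ` is excluded by `gam_not`). -/
theorem idem_QT (h : QD b z w e Γ) : ∃ (b' y : QT h) (n : ℕ), pw (qw h) n = b' ∧ b' * b' = b' ∧ y * y = y ∧
    b' * y = y ∧ b'.1 = b ∧ ∀ f : QT h, f * f = f → f = b' ∨ f = y ∨ ∀ s : QT h, f * s = s := by
  obtain ⟨n, hn⟩ := om_eq_pw w
  rw [h.hw] at hn
  have hzb : b * z = z := h.hbz
  refine ⟨⟨b, q3b_b_mem h, Or.inr h.hb⟩, ⟨z, q3b_z_mem h, Or.inr hzb⟩, n, ?_, ?_, ?_, ?_, rfl, ?_⟩
  · apply Subtype.ext
    rw [(q3b_pw h n).2, ← hn]
    exact th_fix (Or.inr h.hb)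
  · apply Subtype.ext
    rw [qt_mul]
    show th b z w Γ (b * b) = b
    rw [h.hb]
    exact th_fix (Or.inr h.hb)
  · apply Subtype.ext
    rw [qt_mul]
    show th b z w Γ (z * z) = z
    rw [h.hz]
    exact th_fix (Or.inr hzb)
  · apply Subtype.ext
    rw [qt_mul]
    show th b z w Γ (b * z) = z
    rw [hzb]
    exact th_fix (Or.inr hzb)
  · intro f hf
    have hff : th b z w Γ (f.1 * f.1) = f.1 := congrArg Subtype.val hf
    rcases (gp_QT h f).1 ⟨f, f, hf, hf, hf, hf, hf⟩ with h1 | h1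
    · right; right
      have h2 : f.1 * f.1 ∈ Γ := h.g3 _ h1 _ h1
      have h3 : ((f.1 * f.1 : S) : WithOne S) ∉ KK b z w Γ 3 := fun h4 =>
        (gam_not h h2).1 (kk_anti (by norm_num) h4)
      rw [th_fix (Or.inl h3)] at hff
      have hcases : e = none ∨ ∃ e', e = some e' := by
        cases e with
        | none => exact Or.inl rfl
        | some e' => exact Or.inr ⟨e', rfl⟩
      rcases hcases with hce | ⟨e', hce⟩
      · exact absurd ((h.g0 hce).le h1) (Set.notMem_empty _)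
      · have h4 := (h.g2 e' f.1 hce h1).1
        rw [om_of_idem hff] at h4
        intro s
        have h5 := (s1_cases h s.2.1).1
        have h6 : e' * s.1 = s.1 := by
          have h7 : act (some e') s.1 = s.1 := by rw [← hce]; exact h5
          exact h7
        apply Subtype.ext
        rw [qt_mul, h4, h6]
        exact th_fix s.2.2
    · rw [th_fix (Or.inr (h1.mul_right f.1))] at hff
      rcases (s1_cases h f.2.1).2 with h2 | ⟨-, h2 | ⟨h2, -⟩⟩ | ⟨h2, -⟩
      · exact absurd h1 (gam_not h h2).2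
      · left
        rw [om_of_idem hff] at h2
        exact Subtype.ext h2
      · right; left
        rw [om_of_idem hff] at h2
        exact Subtype.ext h2
      · exact absurd h1 h2

/-- the quotient is a configuration -/
theorem conf_QT (h : QD b z w e Γ) (hc : CentralIdem (QT h)) : Conf (QT h) (qw h) where
  central := hc
  notGp := by
    rw [gp_QT]
    rintro (h1 | h1)
    · have h1' : w ∈ Γ := h1
      exact (gam_not h h1').1 ⟨1, Or.inl rfl, 1, Or.inl rfl, by simp⟩
    · exact h.hwb h1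
  gen := gen_QT h
  cls := cls_QT h
  idem := by
    obtain ⟨b', y, n, h1, h2, h3, h4, -, h5⟩ := idem_QT h
    exact ⟨b', y, n, h1, h2, h3, h4, h5⟩

end

end EVC
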