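import Pool.Agent.EVC.Q3b

/-!
# [EC-Q4] pairs `(ρ, w)`
-/

set_option autoImplicit false

open EVS

namespace EVC

section
variable {S : Type} [Semigroup S] [Finite S]

/-- the pair `(ρ, w)`: `ρ` is an endomorphism, `w` will be the new image of `x` -/
structure Inv (b z : S) (e : Option S) (x : S) (ρ : S →ₙ* S) (w : S) : Prop where
  hw : om w = b
  hwb : b * w ≠ w
  hew : act e w = w
  h2 : b * w = ρ x
  hρe : ∀ e' : S, e = some e' → ρ e' = e'
  hρA : ∀ t : S, UU e t → ρ (act e t) = ρ t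
  hρN : ∀ t : S, ¬ UU e t → b * ρ t = ρ t ∧ (om (ρ t) = b ∨ (om (ρ t) = z ∧ z * ρ t = ρ t))
  h3 : ∀ e' g k : S, e = some e' → om g = e' → g * e' = g → om k = e' → k * e' = k → g * x = x * k →
    ρ g * w = w * ρ k

/-- the image of the group at `e` -/
def Gam (e : Option S) (ρ : S →ₙ* S) : Set S :=
  {a | ∃ e' g : S, e = some e' ∧ om g = e' ∧ g * e' = g ∧ a = ρ g}

/-- products with `m` factors `w` are regular -/
def AA (b z : S) (e : Option S) (ρ : S →ₙ* S) (w : S) (m : ℕ) : Prop :=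
  ∀ s : S, (s : WithOne S) ∈ KK b z w (Gam e ρ) m → b * s = s

variable {b z x w : S} {e : Option S} {ρ : S →ₙ* S}

/-- PROOF.  `g1`: `e' = ρ e'`.  `g2`: `om (ρ g) = ρ (om g) = ρ e' = e'` (`map_om`), `ρ g * e' = ρ (g * e')`.  `g3`: `gh_mul`. -/
theorem qd_of (hc : CentralIdem S) (hb : b * b = b) (hz : z * z = z) (hbz : b * z = z) (he : OkE b e)
    (h : Inv b z e x ρ w) : QD b z w e (Gam e ρ) := by
  refine ⟨hc, hb, hz, hbz, h.hw, h.hwb, he, h.hew, ?_, ?_, ?_, ?_⟩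
  · intro h0
    ext a
    constructor
    · rintro ⟨e', g, h1, -⟩
      rw [h0] at h1
      exact absurd h1 (by simp)
    · intro ha
      exact absurd ha (Set.notMem_empty a)
  · intro e' h1
    have hee := (he e' h1).1
    exact ⟨e', e', h1, om_of_idem hee, hee, (h.hρe e' h1).symm⟩
  · rintro e' a h1 ⟨e'', g, h2, h3, h4, rfl⟩
    have h5 : e'' = e' := by
      rw [h1] at h2
      exact (Option.some.inj h2).symm
    subst h5
    constructor
    · rw [← map_om, h3, h.hρe e'' h1]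
    · conv_lhs => rw [← h.hρe e'' h1]
      rw [← map_mul, h4]
  · rintro a ⟨e', g, h1, h2, h3, rfl⟩ a' ⟨e'', g', h1', h2', h3', rfl⟩
    have h5 : e'' = e' := by
      rw [h1] at h1'
      exact (Option.some.inj h1').symm
    subst h5
    obtain ⟨q1, q2⟩ := gh_mul hc (he e'' h1).1 h2 h3 h2' h3'
    exact ⟨e'', g * g', h1, q1, q2, (map_mul ρ g g').symm⟩

/-- PROOF.  If `UU e t`, `e = some e'`: `ρ t = ρ (e' * t)` (`hρA`) and `e' * t` is in the group at `e'` (`gh_unit`), so `ρ t ∈ Gam e ρ`;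
`s1_gen`, `gam_not`, `kk_anti`.  Otherwise `hρN`, `s1_gen`. -/
theorem rho_QT (hc : CentralIdem S) (he : OkE b e) (h : Inv b z e x ρ w) (h' : QD b z w e (Gam e ρ)) (t : S) :
    ρ t ∈ S1 b z w (Gam e ρ) ∧ (((ρ t : S) : WithOne S) ∉ KK b z w (Gam e ρ) 3 ∨ b * ρ t = ρ t) := by
  by_cases hu : UU e t
  · cases e with
    | none => exact absurd hu (by simp [UU])
    | some e' =>
      have hee := (he e' rfl).1
      obtain ⟨q1, q2⟩ := gh_unit hc hee (show e' * om t = e' from hu)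
      have hG : ρ t ∈ Gam (some e') ρ :=
        ⟨e', e' * t, rfl, q1, q2, (h.hρA t hu).symm⟩
      exact ⟨s1_gen.2.1 _ hG, Or.inl (fun hk => (gam_not h' hG).1 (kk_anti (by norm_num) hk))⟩
  · obtain ⟨h1, h2⟩ := h.hρN t hu
    refine ⟨?_, Or.inr h1⟩
    rcases h2 with h2 | ⟨h2, h3⟩
    · exact s1_gen.2.2.1 _ h2 h1
    · exact s1_gen.2.2.2 _ h2 h3

end

end EVC
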