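import Pool.Agent.EVC.Q4

/-!
# [EC-Q4b] the step: the new pair
-/

set_option autoImplicit false

open EVS

namespace EVC

section
variable {S : Type} [Semigroup S] [Finite S] {b z x w : S} {e : Option S} {ρ : S →ₙ* S}

/-- membership in `S1` gives membership in `S1w` -/
theorem q4b_s1w {Γ : Set S} {s : S} (hs : s ∈ S1 b z w Γ) : (s : WithOne S) ∈ S1w b z w Γ :=
  Or.inr ⟨s, hs, rfl⟩

theorem q4b_act {e : Option S} {e' : S} (hee : e = some e') (t : S) : act e t = e' * t := by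
  rw [hee]
  rfl

theorem q4b_gp_map {T T' : Type} [Semigroup T] [Finite T] [Semigroup T'] [Finite T'] (φ : T →ₙ* T')
    {g : T} (hg : IsGp g) : IsGp (φ g) := by
  rw [isGp_iff] at hg ⊢
  rw [← map_om, ← map_mul, hg]

theorem q4b_idem_gp {T : Type} [Semigroup T] [Finite T] {g : T} (hg : g * g = g) : IsGp g := by
  rw [isGp_iff, om_of_idem hg, hg]

/-- the product of two elements of the quotient which are in `Γ` or fixed by `b` -/
theorem q4b_mul {Γ : Set S} (h' : QD b z w e Γ) {u v : QT h'} (hu : u.1 ∈ Γ ∨ Lw b u.1)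
    (hv : v.1 ∈ Γ ∨ Lw b v.1) : (u * v).1 = u.1 * v.1 := by
  rw [qt_mul]
  apply th_fix
  rcases hu with hu | hu
  · rcases hv with hv | hv
    · left
      intro h1
      exact (gam_not h' (h'.g3 _ hu _ hv)).1 (kk_anti (by norm_num) h1)
    · right
      exact hv.mul_left h'.hc h'.hb _
  · right
    exact hu.mul_right _

/-- the product with an element fixed by `b` -/
theorem q4b_mul_lw {Γ : Set S} (h' : QD b z w e Γ) {u v : QT h'} (hu : Lw b u.1) :
    (u * v).1 = u.1 * v.1 := by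
  rw [qt_mul]
  exact th_fix (Or.inr (hu.mul_right _))

theorem q4b_pw_mem {Γ : Set S} {u : S} (hu : u ∈ S1 b z w Γ) (n : ℕ) : pw u n ∈ S1 b z w Γ := by
  induction n with
  | zero => exact hu
  | succ n ih => rw [pw_succ]; exact s1_mul ih hu

theorem q4b_pw {Γ : Set S} (h' : QD b z w e Γ) (u : QT h') (n : ℕ) :
    (pw u n).1 = th b z w Γ (pw u.1 n) := by
  induction n with
  | zero => exact (th_fix u.2.2).symm
  | succ n ih =>
    rw [pw_succ, qt_mul, ih, pw_succ, th_mul_left h' (q4b_pw_mem u.2.1 n) u.2.1]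

/-- the value of `ρ` is in the group or fixed by `b` -/
theorem q4b_rho (hc : CentralIdem S) (he : OkE b e) (h : Inv b z e x ρ w) (t : S) :
    ρ t ∈ Gam e ρ ∨ Lw b (ρ t) := by
  by_cases ht : UU e t
  · left
    rcases e with _ | e'
    · exact absurd ht (by simp [UU])
    · have h1 := h.hρA t ht
      obtain ⟨h2, h3⟩ := gh_unit hc (he e' rfl).1 ht
      exact ⟨e', e' * t, rfl, h2, h3, h1.symm⟩
  · right
    exact (h.hρN t ht).1

/-- the images of the elements fixed by `b` etc. -/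
theorem q4b_fix {Γ : Set S} (h' : QD b z w e Γ) (φ : QT h' →ₙ* QT h') (hφ : ¬ IsGp (φ (qw h'))) :
    ∃ b' : QT h', b'.1 = b ∧ φ b' = b' := by
  obtain ⟨b', y, n, h1, h2, h3, h4, h5, h6⟩ := idem_QT h'
  refine ⟨b', h5, ?_⟩
  have hw' := hφ
  rw [gp_QT] at hw'
  push Not at hw'
  obtain ⟨hact, hcase⟩ := s1_cases h' (φ (qw h')).2.1
  have homw : om (φ (qw h')).1 = b := by
    rcases hcase with h7 | h7 | h7
    · exact absurd h7 hw'.1
    · exact absurd h7.1 hw'.2
    · exact h7.2.1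
  have hidem : φ b' * φ b' = φ b' := by rw [← map_mul, h2]
  have hval : (φ b').1 = th b z w Γ (pw (φ (qw h')).1 n) := by
    rw [← h1, map_pw, q4b_pw]
  have hom : om (φ b').1 = b := by
    rw [hval]
    unfold th
    split_ifs
    · rw [om_mul h'.hc, om_pw, homw, om_of_idem h'.hb, h'.hb]
    · rw [om_pw, homw]
  have hlw : Lw b (φ b').1 := by
    rcases (gp_QT h' _).1 (q4b_idem_gp hidem) with h7 | h7
    · exfalso
      rcases he : e with _ | e'
      · exact Set.eq_empty_iff_forall_notMem.1 (h'.g0 he) _ h7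
      · obtain ⟨h8, h9⟩ := h'.g2 e' _ he h7
        rw [hom] at h8
        subst h8
        apply (gam_not h' h7).2
        unfold Lw
        rw [h'.hc b _ h'.hb]
        exact h9
    · exact h7
  have h7 : (φ b').1 * (φ b').1 = (φ b').1 := by
    rw [← q4b_mul_lw h' hlw, hidem]
  apply Subtype.ext
  rw [h5, ← om_of_idem h7, hom]

/-- The first part of the step: the new pair.
PROOF.  Let `Γ = Gam e ρ` and `φ : QT h' →ₙ* QT h'` with `hφ`.  Let `w' = (φ (qw h')).1` and `ρ' s = (φ ⟨ρ s, rho_QT ..⟩).1`.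
`ρ'` is multiplicative: `⟨ρ s, _⟩ * ⟨ρ t, _⟩ = ⟨ρ (s * t), _⟩` in `QT h'` by `th_fix` and `rho_QT` for `s * t`; and
`φ ⟨ρ s, _⟩`, `φ ⟨ρ t, _⟩` are group elements (images of group elements, `gp_QT`; `ρ s` is in `Γ` or `Lw`), so their values are in `Γ` or
`Lw`, and the value of the product is the product of the values (`th_fix`: a product of elements of `Γ` is in `Γ`, `gam_not`,
`kk_anti`; otherwise it is fixed by `b`).
`w'` is not in `Γ` and not `Lw` (`gp_QT`, `hφ`), so by `s1_cases` `om w' = b`, `act e w' = w'`, `w'` is in `KK 1`.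
`φ ⟨b, _⟩ = ⟨b, _⟩`: with `idem_QT`: `b' = pw (qw h') n` has value `b` and `b' * qw = ⟨b * w, _⟩`; `φ b' = pw (φ qw) n` is an idempotent of
`QT h'` and (by induction, `th_mul_left`) its value is `th (pw w' n)`; it is not in `Γ` (`om` of it is below `b`) so it is `Lw`; as
`pw w' n` has `om = b` (`om_pw`), `th (pw w' n)`, an idempotent, is equal to its `om`, which is `b` (`om (b * s) = b * om s`).
`h2`: `b * w' = th (b * w')` is the value of `φ b' * φ qw = φ (b' * qw) = φ ⟨b * w, _⟩ = φ ⟨ρ x, _⟩`.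
`hρe`: `φ ⟨e', _⟩` is an idempotent of `QT h'`, its value is in `Γ` or `Lw`; `⟨e', _⟩ * qw = qw` (`hew`), so `φ ⟨e', _⟩ * φ qw = φ qw`; if its value
were `Lw`, then `w'` would be `Lw` (`th_fix`); so its value is an idempotent in `Γ`, i.e. `e'` (`g2`, `om_of_idem`).
`hρA`: `ρ (act e t) = ρ t`.
`hρN`: `ρ t` is `Lw`, so `⟨ρ t, _⟩ = b' * ⟨ρ t, _⟩`, so the value of its image is `Lw` (`φ b' = b'`, `th_fix`); `s1_cases` gives the
condition for `om` (not in `Γ` by `gam_not`).
`h3`: `ρ g * w = w * ρ k`; in `QT h'`: `⟨ρ g, _⟩ * qw = qw * ⟨ρ k, _⟩` (both have value `th` of the same element), apply `φ`: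
`th (ρ' g * w') = th (w' * ρ' k)`, where `ρ' g`, `ρ' k` are in `Γ` (`ρ' g * ρ' g⁻¹ = ρ' e' = e'`, so not `Lw`).  `w'` is not in `KK 3`
(it is in `QT h'` and not `Lw`), so `ρ' g * w'` is not in `KK 3` (multiply by the inverse, `kk_ideal`, `act e w' = w'`), the same for
`w' * ρ' k`; so `ρ' g * w' = w' * ρ' k`. -/
theorem step_inv (hc : CentralIdem S) (hb : b * b = b) (hz : z * z = z) (hbz : b * z = z) (he : OkE b e)
    (h : Inv b z e x ρ w) (h' : QD b z w e (Gam e ρ)) (φ : QT h' →ₙ* QT h') (hφ : ¬ IsGp (φ (qw h'))) :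
    ∃ ρ' : S →ₙ* S, Inv b z e x ρ' (φ (qw h')).1 ∧
      ∀ s : S, ρ' s = (φ ⟨ρ s, rho_QT hc he h h' s⟩).1 := by
  let R : S → QT h' := fun t => ⟨ρ t, rho_QT hc he h h' t⟩
  have hRv : ∀ t, (R t).1 = ρ t := fun t => rfl
  have hR : ∀ t, IsGp (R t) := fun t => (gp_QT h' (R t)).2 (q4b_rho hc he h t)
  have hRmul : ∀ s t, R (s * t) = R s * R t := by
    intro s t
    apply Subtype.ext
    rw [qt_mul, hRv, hRv, hRv, ← map_mul]
    exact (th_fix (rho_QT hc he h h' (s * t)).2).symm
  have hφR : ∀ t, (φ (R t)).1 ∈ Gam e ρ ∨ Lw b (φ (R t)).1 := fun t =>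
    (gp_QT h' _).1 (q4b_gp_map φ (hR t))
  let ρ' : S →ₙ* S :=
    { toFun := fun t => (φ (R t)).1
      map_mul' := fun s t => by
        rw [hRmul, map_mul]
        exact q4b_mul h' (hφR s) (hφR t) }
  have hρ' : ∀ t, ρ' t = (φ (R t)).1 := fun t => rfl
  have hw' := hφ
  rw [gp_QT] at hw'
  push Not at hw'
  obtain ⟨hact, hcase⟩ := s1_cases h' (φ (qw h')).2.1
  have hcase' : om (φ (qw h')).1 = b ∧
      (((φ (qw h')).1 : S) : WithOne S) ∈ KK b z w (Gam e ρ) 1 := by
    rcases hcase with h7 | h7 | h7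
    · exact absurd h7 hw'.1
    · exact absurd h7.1 hw'.2
    · exact h7.2
  have hw3 : (((φ (qw h')).1 : S) : WithOne S) ∉ KK b z w (Gam e ρ) 3 := by
    rcases (φ (qw h')).2.2 with h7 | h7
    · exact h7
    · exact absurd h7 hw'.2
  obtain ⟨b', hb'1, hφb⟩ := q4b_fix h' φ hφ
  have hb'lw : Lw b b'.1 := by
    unfold Lw
    rw [hb'1, hb]
  -- `ρ' e' = e'`
  have hρe : ∀ e' : S, e = some e' → ρ' e' = e' := by
    intro e' hee
    have hi : R e' * R e' = R e' := by rw [← hRmul, (he e' hee).1]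
    have hi' : φ (R e') * φ (R e') = φ (R e') := by rw [← map_mul, hi]
    have hRe : (R e').1 = e' := by rw [hRv, h.hρe e' hee]
    have hfix : R e' * qw h' = qw h' := by
      apply Subtype.ext
      rw [qt_mul, hRe]
      have h7 : e' * (qw h').1 = (qw h').1 := by
        have h8 := h.hew
        rw [hee] at h8
        exact h8
      rw [h7]
      exact th_fix (qw h').2.2
    have hfix' : φ (R e') * φ (qw h') = φ (qw h') := by rw [← map_mul, hfix]
    have hG : (φ (R e')).1 ∈ Gam e ρ := by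
      rcases hφR e' with h7 | h7
      · exact h7
      · exfalso
        apply hw'.2
        rw [← hfix', q4b_mul_lw h' h7]
        exact h7.mul_right _
    have h8 : (φ (R e')).1 * (φ (R e')).1 = (φ (R e')).1 := by
      rw [← q4b_mul h' (hφR e') (hφR e'), hi']
    have h9 := (h'.g2 e' _ hee hG).1
    rw [om_of_idem h8] at h9
    exact h9
  -- the group at `e'`
  have hG : ∀ e' g : S, e = some e' → om g = e' → g * e' = g → ρ' g ∈ Gam e ρ := by
    intro e' g hee h1 h2
    rcases hφR g with h7 | h7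
    · exact h7
    · exfalso
      obtain ⟨g', h3, h4, h5, h6⟩ := gh_inv h1 h2
      have h8 : ρ' g * ρ' g' = e' := by rw [← map_mul, h5, hρe e' hee]
      have h9 : Lw b e' := by
        rw [← h8]
        exact Lw.mul_right h7 _
      exact (gam_not h' (h'.g1 e' hee)).2 h9
  refine ⟨ρ', ⟨hcase'.1, fun h7 => hw'.2 h7, hact, ?_, hρe, ?_, ?_, ?_⟩, fun t => rfl⟩
  · -- `b * w' = ρ' x`
    have h1 : b' * qw h' = R x := by
      apply Subtype.ext
      rw [q4b_mul_lw h' hb'lw, hb'1, hRv, ← h.h2]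
      rfl
    have h2 : b' * φ (qw h') = φ (R x) := by rw [← h1, map_mul, hφb]
    rw [hρ', ← h2, q4b_mul_lw h' hb'lw, hb'1]
  · intro t ht
    rw [hρ', hρ']
    have h1 : R (act e t) = R t := Subtype.ext (h.hρA t ht)
    rw [h1]
  · intro t ht
    have h1 : b' * R t = R t := by
      apply Subtype.ext
      rw [q4b_mul_lw h' hb'lw, hb'1, hRv]
      exact (h.hρN t ht).1
    have h2 : b' * φ (R t) = φ (R t) := by
      rw [← hφb, ← map_mul, h1]
    have h3 : Lw b (φ (R t)).1 := by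
      rw [← h2, q4b_mul_lw h' hb'lw, hb'1]
      exact lw_b hb _
    refine ⟨h3, ?_⟩
    rcases (s1_cases h' (φ (R t)).2.1).2 with h4 | h4 | h4
    · exact absurd h3 (gam_not h' h4).2
    · exact h4.2
    · exact absurd h3 h4.1
  · intro e' g k hee hg1 hg2 hk1 hk2 hgk
    have h1 := h.h3 e' g k hee hg1 hg2 hk1 hk2 hgk
    have h2 : R g * qw h' = qw h' * R k := by
      apply Subtype.ext
      rw [qt_mul, qt_mul]
      show th b z w (Gam e ρ) (ρ g * w) = th b z w (Gam e ρ) (w * ρ k)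
      rw [h1]
    have h3 : φ (R g) * φ (qw h') = φ (qw h') * φ (R k) := by
      rw [← map_mul, h2, map_mul]
    have h4 : th b z w (Gam e ρ) (ρ' g * (φ (qw h')).1) =
        th b z w (Gam e ρ) ((φ (qw h')).1 * ρ' k) := by
      have := congrArg Subtype.val h3
      rw [qt_mul, qt_mul] at this
      exact this
    obtain ⟨g', hg3, hg4, hg5, hg6⟩ := gh_inv hg1 hg2
    obtain ⟨k', hk3, hk4, hk5, hk6⟩ := gh_inv hk1 hk2
    have hew' : e' * (φ (qw h')).1 = (φ (qw h')).1 := by
      exact (q4b_act hee _).symm.trans hact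
    have hmem : ∀ u ∈ Gam e ρ, (u : WithOne S) ∈ S1w b z w (Gam e ρ) := fun u hu =>
      q4b_s1w (s1_gen.2.1 u hu)
    have h5 : ((ρ' g * (φ (qw h')).1 : S) : WithOne S) ∉ KK b z w (Gam e ρ) 3 := by
      intro h6
      apply hw3
      have h7 := (kk_ideal h6 (hmem _ (hG e' g' hee hg3 hg4))).1
      rw [← WithOne.coe_mul, ← mul_assoc, ← map_mul, hg6, hρe e' hee, hew'] at h7
      exact h7
    have h6 : (((φ (qw h')).1 * ρ' k : S) : WithOne S) ∉ KK b z w (Gam e ρ) 3 := by
      intro h6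
      apply hw3
      have h7 := (kk_ideal h6 (hmem _ (hG e' k' hee hk3 hk4))).2
      rw [← WithOne.coe_mul, mul_assoc, ← map_mul, hk5, hρe e' hee,
        ← hc e' _ (he e' hee).1, hew'] at h7
      exact h7
    rw [th_fix (Or.inl h5), th_fix (Or.inl h6)] at h4
    exact h4

end

end EVC
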