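import Pool.Agent.EVC.Q4b

/-!
# [EC-Q4c] the step: fewer factors
-/

set_option autoImplicit false

open EVS

namespace EVC

section
variable {S : Type} [Semigroup S] [Finite S] {b z x w : S} {e : Option S} {ρ : S →ₙ* S}

theorem q4c_coe {T : Type} [Semigroup T] (p q : WithOne T) (w : T) :
    ∃ t : T, (t : WithOne T) = p * w * q := by
  cases p with
  | one =>
    cases q with
    | one => exact ⟨w, by rw [one_mul, mul_one]⟩
    | coe q => exact ⟨w * q, by rw [one_mul, WithOne.coe_mul]⟩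
  | coe p =>
    cases q with
    | one => exact ⟨p * w, by rw [mul_one, WithOne.coe_mul]⟩
    | coe q => exact ⟨p * w * q, by rw [WithOne.coe_mul, WithOne.coe_mul]⟩

theorem q4c_lw {T : Type} [Semigroup T] (hc : CentralIdem T) {b : T} (hb : b * b = b) {t s : T}
    (ht : Lw b t) {p r : WithOne T} (hs : (s : WithOne T) = p * t * r) : Lw b s := by
  cases p with
  | one =>
    cases r with
    | one =>
      rw [one_mul, mul_one, WithOne.coe_inj] at hs
      rw [hs]
      exact ht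
    | coe r =>
      rw [one_mul, ← WithOne.coe_mul, WithOne.coe_inj] at hs
      rw [hs]
      exact ht.mul_right r
  | coe p =>
    cases r with
    | one =>
      rw [mul_one, ← WithOne.coe_mul, WithOne.coe_inj] at hs
      rw [hs]
      exact ht.mul_left hc hb p
    | coe r =>
      rw [← WithOne.coe_mul, ← WithOne.coe_mul, WithOne.coe_inj] at hs
      rw [hs]
      exact (ht.mul_left hc hb p).mul_right r

theorem q4c_sub {Γ Γ' : Set S} {w' : S} (hw : w' ∈ S1 b z w Γ) (hΓ : ∀ g ∈ Γ', g ∈ Γ) {s : S}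
    (hs : s ∈ S1 b z w' Γ') : s ∈ S1 b z w Γ := by
  obtain ⟨l, hl, hs⟩ := hs
  have hgen : ∀ a, Gn b z w' Γ' a → a ∈ S1 b z w Γ := by
    rintro a (h1 | h1 | h1 | h1)
    · rw [h1]
      exact hw
    · exact s1_gen.2.1 a (hΓ a h1)
    · exact s1_gen.2.2.1 a h1.1 h1.2
    · exact s1_gen.2.2.2 a h1.1 h1.2
  induction l generalizing s with
  | nil => exact absurd rfl (ne_nil_of_prd hs)
  | cons a l ih =>
    by_cases hn : l = []
    · subst hn
      rw [prd_singleton, WithOne.coe_inj] at hs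
      rw [← hs]
      exact hgen a (hl a (by simp))
    · obtain ⟨t, ht⟩ := exists_prd hn
      rw [prd_cons, ht, ← WithOne.coe_mul, WithOne.coe_inj] at hs
      rw [← hs]
      exact s1_mul (hgen a (hl a (by simp))) (ih (fun c hc => hl c (List.mem_cons_of_mem a hc)) ht)

theorem q4c_subw {Γ Γ' : Set S} {w' : S} (hw : w' ∈ S1 b z w Γ) (hΓ : ∀ g ∈ Γ', g ∈ Γ)
    {u : WithOne S} (hs : u ∈ S1w b z w' Γ') : u ∈ S1w b z w Γ := by
  rcases hs with h1 | ⟨s, h1, h2⟩
  · exact Or.inl h1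
  · exact Or.inr ⟨s, q4c_sub hw hΓ h1, h2⟩

/-- The second part of the step: products with `m - 1` factors `w'` are regular.
PROOF.  `Γ = Gam e ρ`, `Γ' = Gam e ρ'`.  (1) `Γ' ⊆ Γ`: the value `ρ' g` of `φ ⟨ρ g, _⟩` for `g` in the group at `e'` is in `Γ` or `Lw`
(`gp_QT`; the image of a group element), and not `Lw` since `ρ' g` has an inverse in `Γ'` with product `ρ' e' = e'`
(`hinv.hρe`, `gam_not`).  (2) `w'` is in `KK b z w Γ 1` (`s1_cases`, `gp_QT`).  (3) So `S1 b z w' Γ' ⊆ S1 b z w Γ` (lists;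
`w' ∈ S1 b z w Γ`).  (4) For `p` in `S1w b z w' Γ'` the element `w' * p * w'` is `Lw` or in `KK b z w Γ 3`: by `s1_cases` for
`qd_of hinv` (for `p ≠ 1`) `p` is `1`, or in `Γ'`, or `Lw` (then clear), or in `KK b z w' Γ' 1`; in the last case `w' p w'` has three
factors `w'`, each in `KK b z w Γ 1`: `kk_mul`, `kk_ideal`, `kk_anti`.  If `p = ρ' g` (or `p = 1`): by `hφ2` the element
`φ (qw * ⟨ρ g, _⟩ * qw)` (or `φ (qw * qw)`) is a group element, its value is `th (w' * p * w')` (`th_mul_left`); if `w' p w'` is not in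
`KK 3`, the value is `w' p w'`, which is in `Γ` or `Lw` (`gp_QT`), and it is not in `Γ` by `gam_not` as it is in `KK 1`.
(5) Claim: for all `j`, an element of `KK b z w' Γ' (j + 2)` is `Lw` (as an element of `S`) or in `KK b z w Γ (j + 3)`.  Induction on `j`:
`j = 0`: `p w' q w' r` with `p, q, r ∈ S1w b z w' Γ'`: (4), (3), `kk_ideal`.  Step: `p * w' * q` with `q ∈ KK b z w' Γ' (j + 2)`: if `q` is
`Lw` then the product is; otherwise `kk_mul` with `w' ∈ KK 1`, `kk_anti`.  (6) With `m = j + 3`: `AA .. ρ' w' (j + 2)` from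
`AA .. ρ w (j + 3)`. -/
theorem step_AA (hc : CentralIdem S) (hb : b * b = b) (hz : z * z = z) (hbz : b * z = z) (he : OkE b e)
    (h : Inv b z e x ρ w) (h' : QD b z w e (Gam e ρ)) (φ : QT h' →ₙ* QT h') (hφ : ¬ IsGp (φ (qw h')))
    (hφ2 : ∀ (p : WithOne (QT h')) (s : QT h'), (s : WithOne (QT h')) = qw h' * p * qw h' → IsGp (φ s))
    (ρ' : S →ₙ* S) (hinv : Inv b z e x ρ' (φ (qw h')).1)
    (hρ' : ∀ s : S, ρ' s = (φ ⟨ρ s, rho_QT hc he h h' s⟩).1) {j : ℕ}
    (hA : AA b z e ρ w (j + 3)) : AA b z e ρ' (φ (qw h')).1 (j + 2) := by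
  have hw' := hφ
  rw [gp_QT] at hw'
  push Not at hw'
  have hw1 : (((φ (qw h')).1 : S) : WithOne S) ∈ KK b z w (Gam e ρ) 1 := by
    rcases (s1_cases h' (φ (qw h')).2.1).2 with h7 | h7 | h7
    · exact absurd h7 hw'.1
    · exact absurd h7.1 hw'.2
    · exact h7.2.2
  have hwS : (φ (qw h')).1 ∈ S1 b z w (Gam e ρ) := (φ (qw h')).2.1
  have hgp : ∀ g : S, ρ' g ∈ Gam e ρ ∨ Lw b (ρ' g) := by
    intro g
    rw [hρ']
    let R : QT h' := ⟨ρ g, rho_QT hc he h h' g⟩
    have hR : IsGp R := (gp_QT h' R).2 (q4b_rho hc he h g)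
    exact (gp_QT h' (φ R)).1 (q4b_gp_map φ hR)
  -- (1)
  have hΓ : ∀ a ∈ Gam e ρ', a ∈ Gam e ρ := by
    rintro a ⟨e', g, hee, hg1, hg2, rfl⟩
    rcases hgp g with h7 | h7
    · exact h7
    · exfalso
      obtain ⟨g', h3, h4, h5, h6⟩ := gh_inv hg1 hg2
      have h8 : ρ' g * ρ' g' = e' := by rw [← map_mul, h5, hinv.hρe e' hee]
      have h9 : Lw b e' := by
        rw [← h8]
        exact Lw.mul_right h7 _
      exact (gam_not h' (h'.g1 e' hee)).2 h9
  have hsub : ∀ u ∈ S1w b z (φ (qw h')).1 (Gam e ρ'), u ∈ S1w b z w (Gam e ρ) := fun u hu =>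
    q4c_subw hwS hΓ hu
  have h'' : QD b z (φ (qw h')).1 e (Gam e ρ') := qd_of hc hb hz hbz he hinv
  -- the value of a product
  have hval : ∀ (s : S) (t : QT h'), t.1 = th b z w (Gam e ρ) s → IsGp t →
      (s : WithOne S) ∈ KK b z w (Gam e ρ) 1 →
      Lw b s ∨ (s : WithOne S) ∈ KK b z w (Gam e ρ) 3 := by
    intro s t ht hg h1
    by_cases h3 : (s : WithOne S) ∈ KK b z w (Gam e ρ) 3
    · exact Or.inr h3
    · rw [th_fix (Or.inl h3)] at ht
      rcases (gp_QT h' t).1 hg with h4 | h4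
      · rw [ht] at h4
        exact absurd h1 (gam_not h' h4).1
      · rw [ht] at h4
        exact Or.inl h4
  -- (4)
  have h4 : ∀ (p : WithOne S) (s : S), p ∈ S1w b z (φ (qw h')).1 (Gam e ρ') →
      (s : WithOne S) = ((φ (qw h')).1 : S) * p * ((φ (qw h')).1 : S) →
      Lw b s ∨ (s : WithOne S) ∈ KK b z w (Gam e ρ) 3 := by
    intro p s hp hs
    have hs1 : (s : WithOne S) ∈ KK b z w (Gam e ρ) 1 := by
      rw [hs, mul_assoc]
      refine (kk_ideal hw1 ?_).2
      have h5 : (((φ (qw h')).1 : S) : WithOne S) ∈ S1w b z w (Gam e ρ) := q4b_s1w hwS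
      exact s1w_mul (hsub p hp) h5
    rcases hp with hp | ⟨t, ht, hp⟩
    · -- `p = 1`
      have h5 : IsGp (φ (qw h' * qw h')) := hφ2 1 _ (by rw [mul_one, WithOne.coe_mul])
      rw [hp, mul_one, ← WithOne.coe_mul, WithOne.coe_inj] at hs
      refine hval s (φ (qw h' * qw h')) ?_ h5 hs1
      rw [map_mul, qt_mul, hs]
    · rw [hp, ← WithOne.coe_mul, ← WithOne.coe_mul, WithOne.coe_inj] at hs
      rcases (s1_cases h'' ht).2 with h6 | h6 | h6
      · obtain ⟨e', g, hee, hg1, hg2, hg3⟩ := h6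
        let R : QT h' := ⟨ρ g, rho_QT hc he h h' g⟩
        have h5 : IsGp (φ (qw h' * R * qw h')) := hφ2 R _ (by
          rw [WithOne.coe_mul, WithOne.coe_mul])
        refine hval s (φ (qw h' * R * qw h')) ?_ h5 hs1
        have hR : (φ R).1 = t := by
          rw [hg3, hρ']
        rw [map_mul, map_mul, qt_mul, qt_mul, hR, hs]
        have htS : t ∈ S1 b z w (Gam e ρ) := q4c_sub hwS hΓ ht
        exact th_mul_left h' (s1_mul hwS htS) hwS
      · left
        rw [hs]
        exact (h6.1.mul_left hc hb _).mul_right _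
      · right
        have h7 : (t : WithOne S) ∈ KK b z w (Gam e ρ) 1 := by
          obtain ⟨p1, hp1, q1, hq1, h8⟩ := h6.2.2
          rw [h8]
          have h9 := (kk_ideal hw1 (hsub p1 hp1)).1
          exact (kk_ideal h9 (hsub q1 hq1)).2
        rw [hs, WithOne.coe_mul, WithOne.coe_mul]
        exact kk_mul (kk_mul hw1 h7) hw1
  -- (5)
  have h5 : ∀ (j : ℕ) (s : S), (s : WithOne S) ∈ KK b z (φ (qw h')).1 (Gam e ρ') (j + 2) →
      Lw b s ∨ (s : WithOne S) ∈ KK b z w (Gam e ρ) (j + 3) := by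
    intro j
    induction j with
    | zero =>
      intro s hs
      obtain ⟨p, hp, u, hu, hs⟩ := hs
      obtain ⟨q, hq, r, hr, hu⟩ := hu
      obtain ⟨t, ht⟩ : ∃ t : S, (t : WithOne S) = ((φ (qw h')).1 : S) * q * ((φ (qw h')).1 : S) := by
        obtain ⟨t, ht⟩ := q4c_coe ((((φ (qw h')).1 : S) : WithOne S) * q) 1 (φ (qw h')).1
        exact ⟨t, by rw [ht, mul_one]⟩
      have hst : (s : WithOne S) = p * t * r := by
        rw [hs, hu, ht]
        simp only [mul_assoc]
      rcases h4 q t hq ht with h6 | h6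
      · left
        exact q4c_lw hc hb h6 hst
      · right
        rw [hst]
        exact (kk_ideal (kk_ideal h6 (hsub p hp)).1 (hsub r hr)).2
    | succ j ih =>
      intro s hs
      obtain ⟨p, hp, u, hu, hs⟩ := hs
      obtain ⟨t, ht⟩ : ∃ t : S, (t : WithOne S) = u := by
        have hu' := hu
        obtain ⟨p', hp', u', hu', hu''⟩ := hu'
        rw [hu'']
        exact q4c_coe p' u' (φ (qw h')).1
      rw [← ht] at hu hs
      rcases ih t hu with h6 | h6
      · left
        refine q4c_lw hc hb h6 (p := p * ((φ (qw h')).1 : S)) (r := 1) ?_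
        rw [mul_one, hs]
      · right
        rw [hs]
        have h7 := kk_mul (kk_ideal hw1 (hsub p hp)).1 h6
        have h8 : 1 + (j + 3) = j + 1 + 3 := by omega
        rw [h8] at h7
        exact h7
  intro s hs
  rcases h5 j s hs with h6 | h6
  · exact h6
  · exact hA s h6

end

end EVC
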