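import Pool.Agent.EVC.Q4c
import Pool.Agent.EVC.Q1c
import Pool.Agent.EVC.MV

/-!
# [EC-Q5] moving a source
-/

set_option autoImplicit false

open EVS

namespace EVC

section
variable {S : Type} [Semigroup S] [Finite S]

/-- the base endomorphism
PROOF.  `ρ s = act e s` if `UU e s`; `b * s` if `¬ UU e s` and `b * om s = b`; `z * s` otherwise.  Multiplicative (as in the
docstring of `moveP2` in EVS/E4.lean): for units `s`, `t`: `UU_mul`, `act_mul`.  `s` a unit, `t` not, above `b`: `s t` is above `b`
(`above_mul`, `above_of_UU`), not a unit, `(e s) (b t) = b s t` (`b e = b`).  One of `s`, `t` not above `b`: then `s t` is not above `b`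
(`above_mul`), and `(z s) (p t) = z s t` for `p ∈ {e, b, z}` as `z p = z`.
`Inv` with `w = x`: `b * x = ρ x`: `x` is not a unit (`hx`), `b * om x = b`.  `ρ e' = e' * e' = e'`.  `ρ (act e t) = ρ t` for units:
`act_mul`; `act e t` is a unit.  `hρN`: `b * (b * t) = b * t`, `om (b * t) = b * om t = b` (`om_mul`, `om_of_idem`); `b * (z * t) = z * t`
(`z * b = z`, `hz.2`), `om (z * t) = z * om t = z`, `z * (z * t) = z * t`.  `h3`: `ρ g = e' * g = g` (`UU e g` as `om g = e'`). -/
theorem inv_start (hc : CentralIdem S) {b z x : S} (hb : b * b = b) (hz : IsZ z) {e : Option S} (he : OkE b e)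
    (hx : Src2 b e x) (hxb : om x = b) (hxn : b * x ≠ x) : ∃ ρ : S →ₙ* S, Inv b z e x ρ x := by
  classical
  obtain ⟨hz, hz'⟩ := hz
  have heo : ∀ e', e = some e' → e' * e' = e' := fun e' h => (he e' h).1
  have hzb : z * b = z := hz' b hb
  have hbz : b * z = z := by rw [hc b z hb, hzb]
  -- products with central idempotents
  have P : ∀ p q r : S, p * p = p → q * q = q → p * q = r → ∀ s t : S, (p * s) * (q * t) = r * (s * t) := by
    intro p q r hp hq hr s t
    rw [mul_assoc, ← mul_assoc s, ← hc q s hq, mul_assoc q s t, ← mul_assoc p q, hr]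
  -- `act e` and multiplication by `b` or `z`
  have A1 : ∀ q : S, q * q = q → (∀ e', e = some e' → e' * q = q) → ∀ s t : S,
      act e s * (q * t) = q * (s * t) := by
    intro q hq h s t
    cases e with
    | none =>
      show s * (q * t) = q * (s * t)
      rw [← mul_assoc, ← hc q s hq, mul_assoc]
    | some e => exact P e q q (heo e rfl) hq (h e rfl) s t
  have A2 : ∀ q : S, q * q = q → (∀ e', e = some e' → e' * q = q) → ∀ s t : S,
      (q * s) * act e t = q * (s * t) := by
    intro q hq h s t
    cases e with
    | none => exact mul_assoc _ _ _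
    | some e => exact P q e q hq (heo e rfl) (by rw [hc q e hq]; exact h e rfl) s t
  have heb : ∀ e', e = some e' → e' * b = b := fun e' h => (he e' h).2
  have hez : ∀ e', e = some e' → e' * z = z := by
    intro e' h
    rw [hc e' z (heo e' h)]
    exact hz' e' (heo e' h)
  let f : S → S := fun s => if UU e s then act e s else if b * om s = b then b * s else z * s
  have f1 : ∀ s, UU e s → f s = act e s := fun s h => by simp only [f, if_pos h]
  have f2 : ∀ s, ¬ UU e s → b * om s = b → f s = b * s := fun s h h' => by
    simp only [f, if_neg h, if_pos h']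
  have f3 : ∀ s, ¬ b * om s = b → f s = z * s := fun s h => by
    have : ¬ UU e s := fun h' => h (above_of_UU hc hb he h')
    simp only [f, if_neg h, if_neg this]
  have fmul : ∀ s t, f (s * t) = f s * f t := by
    intro s t
    by_cases hU : UU e (s * t)
    · obtain ⟨hUs, hUt⟩ := (UU_mul hc heo s t).1 hU
      rw [f1 _ hU, f1 _ hUs, f1 _ hUt]
      exact (act_mul hc heo s t).1
    · by_cases hB : b * om (s * t) = b
      · obtain ⟨hs1, ht1⟩ := (above_mul hc hb s t).1 hB
        rw [f2 _ hU hB]
        by_cases hUs : UU e s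
        · by_cases hUt : UU e t
          · exact absurd ((UU_mul hc heo s t).2 ⟨hUs, hUt⟩) hU
          · rw [f1 _ hUs, f2 _ hUt ht1]
            exact (A1 b hb heb s t).symm
        · by_cases hUt : UU e t
          · rw [f2 _ hUs hs1, f1 _ hUt]
            exact (A2 b hb heb s t).symm
          · rw [f2 _ hUs hs1, f2 _ hUt ht1]
            exact (P b b b hb hb hb s t).symm
      · rw [f3 _ hB]
        by_cases hs1 : b * om s = b
        · by_cases ht1 : b * om t = b
          · exact absurd ((above_mul hc hb s t).2 ⟨hs1, ht1⟩) hB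
          · rw [f3 t ht1]
            by_cases hUs : UU e s
            · rw [f1 _ hUs]
              exact (A1 z hz hez s t).symm
            · rw [f2 _ hUs hs1]
              exact (P b z z hb hz hbz s t).symm
        · rw [f3 s hs1]
          by_cases ht1 : b * om t = b
          · by_cases hUt : UU e t
            · rw [f1 _ hUt]
              exact (A2 z hz hez s t).symm
            · rw [f2 _ hUt ht1]
              exact (P z b z hz hb hzb s t).symm
          · rw [f3 t ht1]
            exact (P z z z hz hz hz s t).symm
  have huu : ∀ t : S, UU e t → UU e (act e t) := by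
    intro t ht
    cases e with
    | none => exact ht
    | some e' =>
      have h1 : e' * om t = e' := ht
      have h2 : e' * e' = e' := heo e' rfl
      show e' * om (e' * t) = e'
      rw [om_mul hc, om_of_idem h2, ← mul_assoc, h2, h1]
  refine ⟨⟨f, fmul⟩, ⟨hxb, hxn, hx.2.2.1, (f2 x hx.2.1 hx.1).symm, ?_, ?_, ?_, ?_⟩⟩
  · intro e' h
    have h1 : UU e e' := by
      rw [h]
      show e' * om e' = e'
      rw [om_of_idem (heo e' h), heo e' h]
    show f e' = e'
    rw [f1 e' h1, h]
    exact heo e' h
  · intro t ht
    show f (act e t) = f t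
    rw [f1 t ht, f1 _ (huu t ht)]
    exact (act_mul hc heo t t).2.2.2
  · intro t ht
    show b * f t = f t ∧ (om (f t) = b ∨ (om (f t) = z ∧ z * f t = f t))
    by_cases h1 : b * om t = b
    · rw [f2 t ht h1]
      refine ⟨by rw [← mul_assoc, hb], Or.inl ?_⟩
      rw [om_mul hc, om_of_idem hb, h1]
    · rw [f3 t h1]
      refine ⟨by rw [← mul_assoc, hbz], Or.inr ⟨?_, by rw [← mul_assoc, hz]⟩⟩
      rw [om_mul hc, om_of_idem hz]
      exact hz' _ (om_idem t)
  · intro e' g k h h1 h2 h3 h4 h5
    have k1 : ∀ g : S, om g = e' → g * e' = g → f g = g := by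
      intro g h1 h2
      have h6 : UU e g := by
        rw [h]
        show e' * om g = e'
        rw [h1, heo e' h]
      rw [f1 g h6, h]
      show e' * g = g
      rw [hc e' g (heo e' h), h2]
    show f g * x = x * f k
    rw [k1 g h1 h2, k1 k h3 h4]
    exact h5

end

end EVC
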