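import Pool.Agent.EVC.Q5

/-!
# [EC-Q5b] moving a source: conclusion
-/

set_option autoImplicit false

open EVS

namespace EVC

section
variable {S : Type} [Semigroup S] [Finite S]

/-- PROOF.  Let `m` be minimal such that some pair `(ρ, w)` with `Inv` and `AA .. (m + 2)` exists (it exists by `inv_start` and
`kk_long` with `qd_of`: `AA .. (Nat.card S + 1)`; use `kk_anti` to have `m + 2 ≥ Nat.card S + 1`).  If `m = j + 1`: the quotient `QT h'`
(`h' = qd_of`) is in `V` (`mem_QT`), so it is a configuration (`conf_QT`, `hcV`), hence good (`hV`), which gives `φ` as in `step_inv`,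
`step_AA`, and `AA .. (j + 2)` for the new pair, contradiction to minimality.  (Or: induction on `m`.) -/
theorem inv_two {V : Set (Wd × Wd)} (hV : AllGood V)
    (hcV : ∀ (S : Type) [Semigroup S] [Finite S], Mem V S → CentralIdem S) (hS : Mem V S)
    {b z x : S} (hb : b * b = b) (hz : IsZ z) {e : Option S} (he : OkE b e)
    (hx : Src2 b e x) (hxb : om x = b) (hxn : b * x ≠ x) :
    ∃ (ρ : S →ₙ* S) (w : S), Inv b z e x ρ w ∧ AA b z e ρ w 2 := by
  have hc : CentralIdem S := hcV S hS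
  have hzz : z * z = z := hz.1
  have hbz : b * z = z := by rw [hc b z hb, hz.2 b hb]
  have key : ∀ m : ℕ, (∃ (ρ : S →ₙ* S) (w : S), Inv b z e x ρ w ∧ AA b z e ρ w (m + 2)) →
      ∃ (ρ : S →ₙ* S) (w : S), Inv b z e x ρ w ∧ AA b z e ρ w 2 := by
    intro m
    induction m with
    | zero => exact id
    | succ j ih =>
      rintro ⟨ρ, w, hinv, hA⟩
      apply ih
      have h' := qd_of hc hb hzz hbz he hinv
      have hm : Mem V (QT h') := mem_QT hS h'
      have hconf : Conf (QT h') (qw h') := conf_QT h' (hcV (QT h') hm)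
      obtain ⟨φ, hφ, hφ2⟩ := hV (QT h') hm (qw h') hconf
      obtain ⟨ρ', hinv', hρ'⟩ := step_inv hc hb hzz hbz he hinv h' φ hφ
      exact ⟨ρ', _, hinv', step_AA hc hb hzz hbz he hinv h' φ hφ hφ2 ρ' hinv' hρ' hA⟩
  obtain ⟨ρ, hinv⟩ := inv_start hc hb hz he hx hxb hxn
  apply key (Nat.card S)
  refine ⟨ρ, x, hinv, ?_⟩
  intro s hs
  exact kk_long (qd_of hc hb hzz hbz he hinv) (kk_anti (by omega) hs)

/-- PROOF.  Take `ρ`, `w` from `inv_two` (`z` from `exists_isZ`) and apply `MV` with `hxb`, `h.hw`, `h.h2`.  `h1`: `ρ e' * w = e' * w = w`.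
`h4`: `hρN`.  `h6`: `w * w` is in `KK 2` (`w * w = 1 * w * (1 * w * 1)`).  `h6'`: `w * ρ g * w` is in `KK 2`: `ρ g` is in `Gam e ρ`, so in
`S1` (`s1_gen`).  The result `ψ`: `ψ x = w`, `b * w ≠ w`.  For `y` as in the statement: `ψ y = ρ y`, and `y` is not a unit
(second component of `Src2`), so `b * ρ y = ρ y`. -/
theorem moveP3 {V : Set (Wd × Wd)} (hV : AllGood V)
    (hcV : ∀ (S : Type) [Semigroup S] [Finite S], Mem V S → CentralIdem S) (hS : Mem V S)
    {b : S} {e : Option S} (hb : b * b = b)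
    (he : OkE b e) {x : S} (hx : Src2 b e x) (hxb : om x = b) (hxn : b * x ≠ x) :
    ∃ ψ : S →ₙ* S, b * ψ x ≠ ψ x ∧
      ∀ y, om y = b → Src2 b e y → ¬ Orb2 e x y → b * ψ y = ψ y := by
  have hc : CentralIdem S := hcV S hS
  have : Nonempty S := ⟨b⟩
  obtain ⟨z, hz⟩ := exists_isZ (S := S) hc
  obtain ⟨ρ, w, hinv, hA⟩ := inv_two hV hcV hS hb hz he hx hxb hxn
  obtain ⟨ψ, hψ1, hψ2⟩ := MV hc hb he hx hxb ρ w hinv.hw hinv.h2
    (by
      intro e' h
      rw [hinv.hρe e' h]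
      have h1 := hinv.hew
      rw [h] at h1
      exact h1)
    hinv.h3
    (fun t ht => (hinv.hρN t ht).1)
    (by
      intro _
      apply hA
      refine ⟨1, Or.inl rfl, (w : WithOne S), ⟨1, Or.inl rfl, 1, Or.inl rfl, ?_⟩, ?_⟩
      · rw [one_mul, mul_one]
      · rw [one_mul, WithOne.coe_mul])
    (by
      intro e' g h h1 h2
      apply hA
      have h3 : ρ g ∈ S1 b z w (Gam e ρ) := s1_gen.2.1 _ ⟨e', g, h, h1, h2, rfl⟩
      refine ⟨1, Or.inl rfl, ((ρ g : S) : WithOne S) * (w : WithOne S), ⟨((ρ g : S) : WithOne S), Or.inr ⟨_, h3, rfl⟩, 1, Or.inl rfl, ?_⟩, ?_⟩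
      · rw [mul_one]
      · rw [one_mul, WithOne.coe_mul, WithOne.coe_mul, mul_assoc])
  refine ⟨ψ, ?_, ?_⟩
  · rw [hψ2]
    exact hinv.hwb
  · intro y _ hy hno
    rw [hψ1 y hno]
    exact (hinv.hρN y hy.2.1).1

end

end EVC
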