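import Pool.Agent.EVC.Q5b

/-!
# [EC-Q6] sufficiency: all configurations good
-/

set_option autoImplicit false

open EVS

namespace EVC

variable {S : Type} [Semigroup S] [Finite S]

/-- all sources can be moved (the conclusion of `moveP3`) -/
def Mov (S : Type) [Semigroup S] [Finite S] : Prop :=
  ∀ (b : S) (e : Option S), b * b = b → OkE b e → ∀ x : S, Src2 b e x → om x = b → b * x ≠ x →
    ∃ ψ : S →ₙ* S, b * ψ x ≠ ψ x ∧ ∀ y, om y = b → Src2 b e y → ¬ Orb2 e x y → b * ψ y = ψ y

/-- as `card_src_le2` -/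
theorem card_src_le3 (hm : Mov S) {b : S} {e : Option S} (hb : b * b = b)
    (he : OkE b e) {L : ℕ} (hL : ∀ d : S, d * d = d → Nat.card (GG S d) ≤ L) :
    Nat.card {x : S // om x = b ∧ b * x ≠ x ∧ Src2 b e x} ≤ nEnd S * (L ^ 2 + 1) := by
  classical
  have hfe := finite_end (S := S)
  have : Fintype S := Fintype.ofFinite S
  have : Fintype (S →ₙ* S) := Fintype.ofFinite _
  choose ψ h1 h2 using fun x : {x : S // om x = b ∧ b * x ≠ x ∧ Src2 b e x} =>
    hm b e hb he x.1 x.2.2.2 x.2.1 x.2.2.1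
  have key : ∀ φ : S →ₙ* S,
      (Finset.univ.filter fun x : {x : S // om x = b ∧ b * x ≠ x ∧ Src2 b e x} => ψ x = φ).card ≤
        L ^ 2 + 1 := by
    intro φ
    by_cases hne : (Finset.univ.filter
        fun x : {x : S // om x = b ∧ b * x ≠ x ∧ Src2 b e x} => ψ x = φ).Nonempty
    · obtain ⟨x, hx⟩ := hne
      rw [Finset.mem_filter] at hx
      refine le_trans ?_ (e6_orb_card he hL x.1)
      rw [← Fintype.card_coe, ← Nat.card_eq_fintype_card]
      have inj : ∀ y : {x : {x : S // om x = b ∧ b * x ≠ x ∧ Src2 b e x} //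
          x ∈ (Finset.univ.filter fun x : {x : S // om x = b ∧ b * x ≠ x ∧ Src2 b e x} => ψ x = φ)},
          act e y.1.1 = y.1.1 ∧ Orb2 e x.1 y.1.1 := by
        intro y
        have hy := y.2
        rw [Finset.mem_filter] at hy
        refine ⟨y.1.2.2.2.2.2.1, ?_⟩
        by_contra hno
        have h3 := h2 x y.1.1 y.1.2.1 y.1.2.2.2 hno
        have h4 : ψ x = ψ y.1 := hx.2.trans hy.2.symm
        rw [h4] at h3
        exact h1 y.1 h3
      refine Nat.card_le_card_of_injective (fun y => (⟨y.1.1, inj y⟩ :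
        {y : S // act e y = y ∧ Orb2 e x.1 y})) ?_
      intro y y' h
      apply Subtype.ext
      apply Subtype.ext
      have h5 := congrArg (fun w : {y : S // act e y = y ∧ Orb2 e x.1 y} => w.1) h
      exact h5
    · rw [Finset.not_nonempty_iff_eq_empty] at hne
      rw [hne]
      exact Nat.zero_le _
  have h3 := Finset.card_eq_sum_card_fiberwise (f := ψ)
    (s := (Finset.univ : Finset {x : S // om x = b ∧ b * x ≠ x ∧ Src2 b e x})) (t := Finset.univ)
    (fun _ _ => Finset.mem_coe.2 (Finset.mem_univ _))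
  rw [Nat.card_eq_fintype_card, ← Finset.card_univ, h3]
  refine le_trans (Finset.sum_le_card_nsmul _ _ _ fun φ _ => key φ) ?_
  rw [Finset.card_univ, smul_eq_mul, ← Nat.card_eq_fintype_card]
  exact le_refl _

/-- as `card_typ_le2` -/
theorem card_typ_le4 (hci : CentralIdem S) (hm : Mov S) {b : S} {e : Option S} (hb : b * b = b)
    (he : OkE b e) {L : ℕ} (hL : ∀ d : S, d * d = d → Nat.card (GG S d) ≤ L) :
    Nat.card {x : S // om x = b ∧ b * x ≠ x ∧ IsTyp e x} ≤
      (above b + nEnd S * (L ^ 2 + 1) + 1) ^ ((above b + 1) * (L * (2 * nEnd S + 1))) := by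
  have hA : Nat.card ↥({s : S | b * om s = b ∧ om s ≠ b} ∪ {x : S | om x = b ∧ b * x ≠ x ∧ Src2 b e x}) ≤
      above b + nEnd S * (L ^ 2 + 1) := by
    have h1 : Set.ncard ({s : S | b * om s = b ∧ om s ≠ b} ∪
        {x : S | om x = b ∧ b * x ≠ x ∧ Src2 b e x}) ≤ Set.ncard {s : S | b * om s = b ∧ om s ≠ b} +
        Set.ncard {x : S | om x = b ∧ b * x ≠ x ∧ Src2 b e x} := Set.ncard_union_le _ _
    have h2 : Set.ncard {x : S | om x = b ∧ b * x ≠ x ∧ Src2 b e x} ≤ nEnd S * (L ^ 2 + 1) :=
      card_src_le3 hm hb he hL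
    exact h1.trans (Nat.add_le_add_left h2 _)
  refine le_trans ?_ ((card_prd_le ({s : S | b * om s = b ∧ om s ≠ b} ∪
    {x : S | om x = b ∧ b * x ≠ x ∧ Src2 b e x})
    ((above b + 1) * (L * (2 * nEnd S + 1)))).trans
    (Nat.pow_le_pow_left (Nat.add_le_add_right hA 1) _))
  have h3 : Set.ncard {x : S | om x = b ∧ b * x ≠ x ∧ IsTyp e x} ≤
      Set.ncard {x : S | ∃ l : List S, l.length ≤ (above b + 1) * (L * (2 * nEnd S + 1)) ∧
        (∀ a ∈ l, a ∈ ({s : S | b * om s = b ∧ om s ≠ b} ∪
          {x : S | om x = b ∧ b * x ≠ x ∧ Src2 b e x})) ∧ prd l = (x : WithOne S)} := by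
    apply Set.ncard_le_ncard _ (Set.toFinite _)
    rintro x ⟨hx1, hx2, hx3⟩
    obtain ⟨l, hl, -, hls⟩ := fac2 hci hb he hx1 hx2 hx3
    refine ⟨l, len_le2 hci hb he (hL b hb) hx1 hx2 hx3 l hl (fun a ha => ⟨(hls a ha).2.2.1, (hls a ha).2.1⟩),
      ?_, hl⟩
    intro a ha
    by_cases hab : om a = b
    · right
      exact ⟨hab, fun hba => hx2 (c11_fix (hci) hb hl ha hba), hls a ha⟩
    · left
      exact ⟨(hls a ha).1, hab⟩
  exact h3

/-- as `level3` -/
theorem level4 (hci : CentralIdem S) (hm : Mov S) {b : S} (hb : b * b = b) {L : ℕ}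
    (hL : ∀ d : S, d * d = d → Nat.card (GG S d) ≤ L) :
    Nat.card {s : S // om s = b} ≤ Psi3 L (above b) (nEnd S) := by
  classical
  have : Fintype S := Fintype.ofFinite S
  -- the types
  have hT : (Finset.univ.filter (fun e : Option S => OkE b e)).card ≤ nEnd S + 1 := by
    have h1 : (Finset.univ.filter (fun e : Option S => OkE b e)) ⊆
        insert none ((Finset.univ.filter (fun e : S => e * e = e)).image some) := by
      intro e he
      rw [Finset.mem_filter] at he
      rcases e with _ | e'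
      · exact Finset.mem_insert_self _ _
      · apply Finset.mem_insert_of_mem
        rw [Finset.mem_image]
        exact ⟨e', Finset.mem_filter.2 ⟨Finset.mem_univ _, (he.2 e' rfl).1⟩, rfl⟩
    refine (Finset.card_le_card h1).trans ((Finset.card_insert_le _ _).trans ?_)
    apply Nat.add_le_add_right
    refine Finset.card_image_le.trans ?_
    have h2 := card_idem_le (S := S)
    rw [Nat.card_eq_fintype_card, Fintype.card_subtype] at h2
    exact h2
  have hU : (Finset.univ.filter (fun s : S => om s = b)) ⊆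
      (Finset.univ.filter (fun s : S => om s = b ∧ s * b = s)) ∪
      (Finset.univ.filter (fun e : Option S => OkE b e)).biUnion
        (fun e => Finset.univ.filter (fun x : S => om x = b ∧ b * x ≠ x ∧ IsTyp e x)) := by
    intro s hs
    rw [Finset.mem_filter] at hs
    rw [Finset.mem_union]
    by_cases h1 : b * s = s
    · left
      rw [Finset.mem_filter]
      exact ⟨Finset.mem_univ _, hs.2, by rw [← hci b s hb]; exact h1⟩
    · right
      obtain ⟨e, he1, he2⟩ := exists_typ hci s
      rw [hs.2] at he1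
      rw [Finset.mem_biUnion]
      exact ⟨e, Finset.mem_filter.2 ⟨Finset.mem_univ _, he1⟩,
        Finset.mem_filter.2 ⟨Finset.mem_univ _, hs.2, h1, he2⟩⟩
  have hG : (Finset.univ.filter (fun s : S => om s = b ∧ s * b = s)).card ≤ L := by
    have h2 := hL b hb
    rw [Nat.card_eq_fintype_card, Fintype.card_subtype] at h2
    exact h2
  have hN : ∀ e ∈ Finset.univ.filter (fun e : Option S => OkE b e),
      (Finset.univ.filter (fun x : S => om x = b ∧ b * x ≠ x ∧ IsTyp e x)).card ≤
      (above b + nEnd S * (L ^ 2 + 1) + 1) ^ ((above b + 1) * (L * (2 * nEnd S + 1))) := by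
    intro e he
    rw [Finset.mem_filter] at he
    have h2 := card_typ_le4 hci hm hb he.2 hL
    rw [Nat.card_eq_fintype_card, Fintype.card_subtype] at h2
    exact h2
  rw [Nat.card_eq_fintype_card, Fintype.card_subtype]
  refine (Finset.card_le_card hU).trans ((Finset.card_union_le _ _).trans ?_)
  unfold Psi3
  apply Nat.add_le_add hG
  refine Finset.card_biUnion_le.trans ((Finset.sum_le_card_nsmul _ _ _ hN).trans ?_)
  rw [smul_eq_mul]
  exact Nat.mul_le_mul_right _ hT

/-- as `suff3` -/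
theorem endo_of_allGood {V : Set (Wd × Wd)} (hV : AllGood V)
    (hcV : ∀ (S : Type) [Semigroup S] [Finite S], Mem V S → CentralIdem S) : Endomorphic V := by
  intro B
  obtain ⟨L, hL⟩ := card_gp_le2 B
  refine ⟨(∑ c ∈ Finset.range (B + 1), G (fun m => Psi3 L m c) c) + 1, ?_⟩
  intro S _ _ hS hn
  have hci := hcV S hS
  have hm : Mov S := fun b e hb he x hx hxb hxn => moveP3 hV hcV hS hb he hx hxb hxn
  by_contra hB
  have hB' : nEnd S ∈ Finset.range (B + 1) := Finset.mem_range.2 (by omega)
  have h1 : Nat.card S ≤ G (fun m => Psi3 L m (nEnd S)) (nEnd S) :=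
    glob (fun e f he _ => hci e f he) (Psi3_mono L (nEnd S)) card_idem_le
      (fun b hb => level4 hci hm hb (hL S hci (by omega)))
  have h2 : G (fun m => Psi3 L m (nEnd S)) (nEnd S) ≤
      ∑ c ∈ Finset.range (B + 1), G (fun m => Psi3 L m c) c :=
    Finset.single_le_sum (f := fun c => G (fun m => Psi3 L m c) c) (fun _ _ => Nat.zero_le _) hB'
  omega

end EVC
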