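import Pool.Agent.EVC.Defs

/-!
# [EC-S1] the elements of a configuration
-/

set_option autoImplicit false

open EVS

namespace EVC

variable {S : Type} [Semigroup S] [Finite S]

/-- elements of subgroups are units or fixed by `b`
PROOF.  `om x = b` with the `b` of `h.idem` (`om_eq`).  If `IsGp s`, then `s * om s = s` (`isGp_iff`), and the idempotent
`om s` (`om_idem`) is `b`, or `y`, or an identity.  An identity: `Un s`.  `om s = b`: `b * s = s * b = s`
(centrality).  `om s = y`: `b * s = b * (s * y) = ...= (b * y) * s = y * s = s`. -/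
theorem conf_gp {x : S} (h : Conf S x) {s : S} (hs : IsGp s) : Lw (om x) s ∨ Un s := by
  obtain ⟨b, y, n, hpw, hb, hy, hby, hid⟩ := h.idem
  have hx : om x = b := by
    rw [← hpw]
    exact om_eq (by rw [hpw]; exact hb)
  have hs' : s * om s = s := isGp_iff.1 hs
  rw [hx]
  rcases hid (om s) (om_idem s) with e | e | e
  · left
    show b * s = s
    rw [e] at hs'
    rw [h.central b s hb]
    exact hs'
  · left
    show b * s = s
    rw [e] at hs'
    have h1 : y * s = s := by rw [h.central y s hy, hs']
    calc b * s = b * (y * s) := by rw [h1]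
      _ = y * s := by rw [← mul_assoc, hby]
      _ = s := h1
  · right
    exact e

private theorem s1_un_mul (hc : CentralIdem S) {g k : S} (hg : Un g) (hk : Un k) : Un (g * k) := by
  intro t
  rw [om_mul hc, mul_assoc, hk, hg]

omit [Semigroup S] [Finite S] in
private theorem s1_cases (a : WithOne S) : a = 1 ∨ ∃ s : S, a = (s : WithOne S) :=
  WithOne.cases_on a (Or.inl rfl) (fun s => Or.inr ⟨s, rfl⟩)

omit [Finite S] in
private theorem s1_coe_left (a : WithOne S) (x : S) :
    ∃ g : S, (g : WithOne S) = a * (x : WithOne S) := by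
  rcases s1_cases a with h | ⟨a, h⟩
  · exact ⟨x, by rw [h, one_mul]⟩
  · exact ⟨a * x, by rw [h, WithOne.coe_mul]⟩

/-- PROOF.  Let `b = om x`.  Take the list `l` of `h.gen s`; every `a ∈ l` satisfies `Lw b a` or `Un a` (`conf_gp`) or
`a = x`.  Induction on the list (for all lists `l` with these entries and all `s` with `prd l = s`; `l = []` is
impossible as `1` is not in `S`, `l = [a]` is clear: `x = 1 * x * 1`).  Step `s = a * t` with `prd l = t`: if
`Lw b a` or `Lw b t`, then `Lw b s` (`Lw.mul_right`, `Lw.mul_left`).  Otherwise `a` is a unit or `x`, and `t` is a unit,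
or `t = p x r` with `p`, `r` units or empty, or `J2 x t`.  unit * unit is a unit:  `om (g h) = om g * om h` (`om_mul`), and
`om g * om h * t = t`.  Unit times `p x r`: `(g p) x r`.  `x * unit`: `1 * x * g`.  `x * (p x r)`: `J2` with `1, p, r`.
`J2 x t` implies `J2 x (a * t)` (multiply `p` by `a`). -/
theorem conf_class {x : S} (h : Conf S x) (s : S) : Lw (om x) s ∨ Un s ∨ J2 x s ∨
    ∃ p r : WithOne S, (p = 1 ∨ ∃ g : S, Un g ∧ p = (g : WithOne S)) ∧
      (r = 1 ∨ ∃ g : S, Un g ∧ r = (g : WithOne S)) ∧ (s : WithOne S) = p * x * r := by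
  obtain ⟨l, hl, hs⟩ := h.gen s
  have hb := om_idem x
  induction l generalizing s with
  | nil => exact absurd rfl (ne_nil_of_prd hs)
  | cons a l ih =>
    have ha : Lw (om x) a ∨ Un a ∨ a = x := by
      rcases hl a (by simp) with ha | ha
      · rcases conf_gp h ha with ha | ha
        · exact Or.inl ha
        · exact Or.inr (Or.inl ha)
      · exact Or.inr (Or.inr ha)
    by_cases hnil : l = []
    · subst hnil
      rw [prd_singleton, WithOne.coe_inj] at hs
      subst hs
      rcases ha with ha | ha | ha
      · exact Or.inl ha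
      · exact Or.inr (Or.inl ha)
      · refine Or.inr (Or.inr (Or.inr ⟨1, 1, Or.inl rfl, Or.inl rfl, ?_⟩))
        rw [ha, one_mul, mul_one]
    · obtain ⟨t, ht⟩ := exists_prd hnil
      have hst : s = a * t := by
        rw [prd_cons, ht, ← WithOne.coe_mul, WithOne.coe_inj] at hs
        exact hs.symm
      have hK := ih t (fun c hc => hl c (by simp [hc])) ht
      subst hst
      rcases ha with ha | ha | ha
      · exact Or.inl (ha.mul_right t)
      · rcases hK with hK | hK | ⟨p, q, r, hK⟩ | ⟨p, r, hp, hr, hK⟩
        · exact Or.inl (Lw.mul_left h.central hb hK a)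
        · exact Or.inr (Or.inl (s1_un_mul h.central ha hK))
        · refine Or.inr (Or.inr (Or.inl ⟨a * p, q, r, ?_⟩))
          rw [WithOne.coe_mul, hK]
          simp only [mul_assoc]
        · refine Or.inr (Or.inr (Or.inr ⟨a * p, r, ?_, hr, ?_⟩))
          · rcases hp with hp | ⟨g, hg, hp⟩
            · exact Or.inr ⟨a, ha, by rw [hp, mul_one]⟩
            · exact Or.inr ⟨a * g, s1_un_mul h.central ha hg, by rw [hp, WithOne.coe_mul]⟩
          · rw [WithOne.coe_mul, hK]
            simp only [mul_assoc]
      · rcases hK with hK | hK | ⟨p, q, r, hK⟩ | ⟨p, r, hp, hr, hK⟩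
        · exact Or.inl (Lw.mul_left h.central hb hK a)
        · refine Or.inr (Or.inr (Or.inr ⟨1, t, Or.inl rfl, Or.inr ⟨t, hK, rfl⟩, ?_⟩))
          rw [WithOne.coe_mul, ha, one_mul]
        · refine Or.inr (Or.inr (Or.inl ⟨1, p, q * x * r, ?_⟩))
          rw [WithOne.coe_mul, hK, ha, one_mul]
          simp only [mul_assoc]
        · refine Or.inr (Or.inr (Or.inl ⟨1, p, r, ?_⟩))
          rw [WithOne.coe_mul, hK, ha, one_mul]
          simp only [mul_assoc]

/-- PROOF.  Let `g = x p x q x` (an element of `S`), `b = om x`.  By `h.cls` `IsGp g`, so `g * om g = g` (`isGp_iff`).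
`om g = b * om g`: write `g = x * g'` in `S` and use `om_mul` (`om g = om x * om g' = b * om g'`, `b * b = b`).
Hence `b * g = b * om g * g = om g * g = g` (idempotents are central), i.e. `Lw b g`.  Now multiply on both sides
(`Lw.mul_right`, `Lw.mul_left`). -/
theorem conf_lw3 {x : S} (h : Conf S x) {u v p q : WithOne S} {s : S}
    (hs : (s : WithOne S) = u * (x * p * x * q * x) * v) : Lw (om x) s := by
  have hb := om_idem x
  obtain ⟨g', hg'⟩ := s1_coe_left (p * (x : WithOne S) * q) x
  have hg : ((x * g' : S) : WithOne S) = x * p * x * q * x := by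
    rw [WithOne.coe_mul, hg']
    simp only [mul_assoc]
  have h1 := isGp_iff.1 (h.cls p q (x * g') hg)
  have h2 : om x * om (x * g') = om (x * g') := by
    rw [om_mul h.central, ← mul_assoc, hb]
  have h3 : om (x * g') * (x * g') = x * g' := by rw [om_comm, h1]
  have h4 : Lw (om x) (x * g') := by
    show om x * (x * g') = x * g'
    calc om x * (x * g') = om x * (om (x * g') * (x * g')) := by rw [h3]
      _ = om (x * g') * (x * g') := by rw [← mul_assoc, h2]
      _ = x * g' := h3
  rw [← hg] at hs
  rcases s1_cases u with hu | ⟨u, hu⟩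
  · rcases s1_cases v with hv | ⟨v, hv⟩
    · rw [hu, hv, one_mul, mul_one, WithOne.coe_inj] at hs
      rw [hs]
      exact h4
    · rw [hu, hv, one_mul, ← WithOne.coe_mul, WithOne.coe_inj] at hs
      rw [hs]
      exact h4.mul_right v
  · rcases s1_cases v with hv | ⟨v, hv⟩
    · rw [hu, hv, mul_one, ← WithOne.coe_mul, WithOne.coe_inj] at hs
      rw [hs]
      exact Lw.mul_left h.central hb h4 u
    · rw [hu, hv, ← WithOne.coe_mul, ← WithOne.coe_mul, WithOne.coe_inj] at hs
      rw [hs]
      exact (Lw.mul_left h.central hb h4 u).mul_right v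

end EVC
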