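import Pool.Agent.EVC.S1

/-!
# [EC-S2] the facts about configurations, first part
-/

set_option autoImplicit false

open EVS

namespace EVC

variable {S : Type} [Semigroup S] [Finite S]

/-- auxiliary -/
theorem s2_low (hc : CentralIdem S) {g x : S} {p r : WithOne S}
    (h : (g : WithOne S) = p * x * r) : om x * om g = om g := by
  have h1 := om_idem x
  rcases p with _ | p
  · rcases r with _ | r
    · have h2 : (g : WithOne S) = x := by
        refine h.trans ?_
        change (1 : WithOne S) * x * 1 = x
        rw [one_mul, mul_one]
      rw [coe_inj.mp h2, h1]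
    · have h2 : (g : WithOne S) = ((x * r : S) : WithOne S) := by
        refine h.trans ?_
        change (1 : WithOne S) * x * (r : WithOne S) = _
        rw [one_mul, WithOne.coe_mul]
      rw [coe_inj.mp h2, om_mul hc, ← mul_assoc, h1]
  · rcases r with _ | r
    · have h2 : (g : WithOne S) = ((p * x : S) : WithOne S) := by
        refine h.trans ?_
        change (p : WithOne S) * x * 1 = _
        rw [mul_one, WithOne.coe_mul]
      rw [coe_inj.mp h2, om_mul hc, ← mul_assoc, hc (om x) (om p) h1, mul_assoc, h1]
    · have h2 : (g : WithOne S) = ((p * x * r : S) : WithOne S) := by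
        refine h.trans ?_
        change (p : WithOne S) * x * (r : WithOne S) = _
        rw [WithOne.coe_mul, WithOne.coe_mul]
      rw [coe_inj.mp h2, om_mul hc, om_mul hc, ← mul_assoc, ← mul_assoc,
        hc (om x) (om p) h1, mul_assoc (om p), h1]

/-- PROOF.  Let `b = om x` (`om_idem`).  `IsGp x` would follow from `b * x = x` (`isGp_iff`: `x * om x = x`, centrality). -/
theorem sf_hx {x : S} (h : Conf S x) : om x * x ≠ x := by
  intro h1
  apply h.notGp
  rw [isGp_iff, ← om_comm]
  exact h1

/-- PROOF.  `e = om g` is idempotent and a left identity, by centrality also a right identity; `om e = e` (`om_om`). -/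
theorem un_om' (hc : CentralIdem S) {g : S} (hg : Un g) : Un (om g) ∧ ∀ t : S, t * om g = t := by
  refine ⟨fun t => ?_, fun t => ?_⟩
  · rw [om_om]
    exact hg t
  · rw [← hc (om g) t (om_idem g)]
    exact hg t

/-- PROOF.  `om g` and `om h` are identities (also on the right), so `om g = om g * om h = om h`.
`om (g h) = om g * om h` (`om_mul`) is an identity.  The inverse: `gh_inv` (EVS/E0.lean) with `e = om g`, `g * e = g`. -/
theorem sf_un (hc : CentralIdem S) {g h : S} (hg : Un g) (hh : Un h) :
    om g = om h ∧ Un (g * h) ∧ ∃ k : S, Un k ∧ g * k = om g ∧ k * g = om g := by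
  have hg' := (un_om' hc hg).2
  have hh' := (un_om' hc hh).2
  refine ⟨?_, ?_, ?_⟩
  · rw [← hh' (om g)]
    exact hg (om h)
  · intro t
    rw [om_mul hc, mul_assoc, hh t, hg t]
  · obtain ⟨k, h1, _, h3, h4⟩ := gh_inv (rfl : om g = om g) (hg' g)
    exact ⟨k, fun t => by rw [h1]; exact hg t, h3, h4⟩

/-- PROOF.  `Un g`, `b * g = g` (`b = om x`): let `k` be the inverse (`sf_un`): `b * om g = b * (g * k) = g * k = om g`, so
`b = b * om g = om g` is an identity, and `b * x = x`, contradiction to `sf_hx`.
`J2 x g`: `g = p x q x r`; then `om g = b * om g`: write `g = p' * (x * r')` in `WithOne S` and use `om_mul` (idempotents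
commute, `b * b = b`); again `b` is an identity. -/
theorem sf_un_not {x : S} (h : Conf S x) {g : S} (hg : Un g) : ¬ Lw (om x) g ∧ ¬ J2 x g := by
  have hc := h.central
  have key : om x * om g ≠ om g := by
    intro h1
    have h2 : om x = om g := by
      rw [← (un_om' hc hg).2 (om x)]
      exact h1
    apply sf_hx h
    rw [h2]
    exact hg x
  refine ⟨fun h1 => ?_, fun h1 => ?_⟩
  · obtain ⟨_, _, k, _, hk, _⟩ := sf_un hc hg hg
    apply key
    rw [← hk, ← mul_assoc, h1]
  · obtain ⟨p, q, r, hpqr⟩ := h1
    apply key
    refine s2_low hc (p := p) (r := q * x * r) ?_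
    rw [hpqr]
    simp only [mul_assoc]

/-- PROOF.  If `x = p x q x r`, then `x = p (p x q x r) q x r = (p p) (x q x (r q) x) r`, and `conf_lw3` gives
`Lw b x`, contradiction to `sf_hx`. -/
theorem sf_xj2 {x : S} (h : Conf S x) : ¬ J2 x x := by
  rintro ⟨p, q, r, h1⟩
  apply sf_hx h
  refine conf_lw3 h (u := p * p) (v := r) (p := q) (q := r * q) (s := x) ?_
  have h2 : (x : WithOne S) = p * (p * x * q * x * r) * q * x * r := by
    rw [← h1]
    exact h1
  refine h2.trans ?_
  simp only [mul_assoc]

/-- PROOF.  `→` is `conf_gp`.  `←`: `Un s`: `s * om s = s`, `isGp_iff`.  `Lw b s` (`b = om x`): take `l` with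
`prd l = s` from `h.gen`, all entries group elements or `x`.  Show by induction on `l`: for every nonempty `l` with these
entries and `prd l = t` the element `b * t` is a group element (then `s = b * s` is).  `b * a` is a group element for
`IsGp a` (`(b a) * om (b a) = b * a * om a = b * a`, using `om_mul`, `om_of_idem`), and for `a = x` (`om (b x) = b`);
products of group elements `u`, `v` are group elements (`u v om (u v) = u v (om u) (om v) = (u om u) (v om v) = u v`), and
`b (a t) = (b a) (b t)`. -/
theorem sf_gp {x : S} (h : Conf S x) (s : S) : IsGp s ↔ Lw (om x) s ∨ Un s := by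
  have hc := h.central
  have hb := om_idem x
  constructor
  · exact conf_gp h
  · rintro (h1 | h1)
    · have hmul : ∀ {u v : S}, IsGp u → IsGp v → IsGp (u * v) := by
        intro u v hu hv
        rw [isGp_iff] at hu hv ⊢
        rw [om_mul hc]
        calc u * v * (om u * om v) = u * (v * om u) * om v := by simp only [mul_assoc]
          _ = (u * om u) * (v * om v) := by
            rw [← hc (om u) v (om_idem u)]; simp only [mul_assoc]
          _ = u * v := by rw [hu, hv]
      have hent : ∀ a : S, (IsGp a ∨ a = x) → IsGp (om x * a) := by
        rintro a (ha | rfl)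
        · have h2 : IsGp (om x) := by
            rw [isGp_iff, om_om, hb]
          exact hmul h2 ha
        · rw [isGp_iff, om_mul hc, om_om, hb]
          calc om a * a * om a = om a * (a * om a) := by rw [mul_assoc]
            _ = om a * (om a * a) := by rw [om_comm]
            _ = om a * a := by rw [← mul_assoc, hb]
      have hlist : ∀ (l : List S), (∀ a ∈ l, IsGp a ∨ a = x) → ∀ t : S,
          prd l = (t : WithOne S) → IsGp (om x * t) := by
        intro l
        induction l with
        | nil =>
          intro _ t ht
          exact absurd rfl (ne_nil_of_prd ht)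
        | cons a l ih =>
          intro hl t ht
          have ha := hent a (hl a List.mem_cons_self)
          by_cases hl0 : l = []
          · subst hl0
            rw [prd_singleton, coe_inj] at ht
            rw [← ht]
            exact ha
          · obtain ⟨t', ht'⟩ := exists_prd hl0
            have h3 := ih (fun b hb' => hl b (List.mem_cons_of_mem a hb')) t' ht'
            rw [prd_cons, ht', ← WithOne.coe_mul, coe_inj] at ht
            have h4 : om x * t = (om x * a) * (om x * t') := by
              calc om x * t = om x * om x * a * t' := by rw [← ht, hb, mul_assoc]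
                _ = om x * (om x * a) * t' := by simp only [mul_assoc]
                _ = om x * (a * om x) * t' := by rw [hc (om x) a hb]
                _ = _ := by simp only [mul_assoc]
            rw [h4]
            exact hmul ha h3
      obtain ⟨l, hl, hs⟩ := h.gen s
      have h5 := hlist l hl s hs
      have h6 : om x * s = s := h1
      rwa [h6] at h5
    · rw [isGp_iff]
      exact (un_om' hc h1).2 s

end EVC
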