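import Pool.Agent.EVC.W1

/-!
# [EC-W2] `W` is a configuration
-/

set_option autoImplicit false

open EVS

namespace EVC

section
variable {G H K : Type} [AddCommGroup G] [AddCommGroup H] [AddCommGroup K]

/-- the level of an element -/
def w2_lv {D : WD G H K} (a : WS D) : ℕ :=
  match a with
  | W.l i _ => (i : ℕ)
  | W.h _ => 3
  | W.y _ => 3

theorem w2_fin (i : Fin 3) : i = 0 ∨ i = 1 ∨ i = 2 := by
  revert i
  decide

theorem w2_lv_ell (D : WD G H K) (i : Fin 3) (g : G) : w2_lv (D.ell i g) = (i : ℕ) := rfl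

theorem w2_lv_hh (D : WD G H K) (t : H) : w2_lv (D.hh t) = 3 := rfl

theorem w2_lv_yy (D : WD G H K) (s : K) : w2_lv (D.yy s) = 3 := rfl

theorem w2_lv_mul (D : WD G H K) (a b : WS D) : w2_lv (a * b) = min 3 (w2_lv a + w2_lv b) := by
  rcases W_cases D a with ⟨i, g, rfl⟩ | ⟨t, rfl⟩ | ⟨s, rfl⟩ <;>
    rcases W_cases D b with ⟨j, g', rfl⟩ | ⟨t', rfl⟩ | ⟨s', rfl⟩
  · obtain ⟨h1, h2, h3, h4, h5, h6, -⟩ := W_table D i g g' 0 0 0 0
    obtain ⟨k1, k2, k3, k4, k5, k6, -⟩ := W_table D j g g' 0 0 0 0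
    rcases w2_fin i with rfl | rfl | rfl
    · rw [k1, w2_lv_ell, w2_lv_ell, w2_lv_ell]
      change (j : ℕ) = min 3 (0 + (j : ℕ))
      have := j.2
      omega
    · rcases w2_fin j with rfl | rfl | rfl
      · rw [h2]; rfl
      · rw [h3]; rfl
      · rw [h4]; rfl
    · rcases w2_fin j with rfl | rfl | rfl
      · rw [h2]; rfl
      · rw [h5]; rfl
      · rw [h6]; rfl
  · rw [(W_table D i g 0 t' 0 0 0).2.2.2.2.2.2.1, w2_lv_hh, w2_lv_hh]
    omega
  · rw [(W_table D i g 0 0 0 s' 0).2.2.2.2.2.2.2.2.2.1, w2_lv_yy, w2_lv_yy]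
    omega
  · rw [(W_table D j g' 0 t 0 0 0).2.2.2.2.2.2.2.1, w2_lv_hh, w2_lv_hh]
    omega
  · rw [(W_table D 0 0 0 t t' 0 0).2.2.2.2.2.2.2.2.1, w2_lv_hh, w2_lv_hh]
    omega
  · rw [(W_table D 0 0 0 t 0 s' 0).2.2.2.2.2.2.2.2.2.2.2.1, w2_lv_yy, w2_lv_yy]
    omega
  · rw [(W_table D j g' 0 0 0 s 0).2.2.2.2.2.2.2.2.2.2.1, w2_lv_yy, w2_lv_yy]
    omega
  · rw [(W_table D 0 0 0 t' 0 s 0).2.2.2.2.2.2.2.2.2.2.2.2.1, w2_lv_yy, w2_lv_yy]
    omega
  · rw [(W_table D 0 0 0 0 0 s s').2.2.2.2.2.2.2.2.2.2.2.2.2, w2_lv_yy, w2_lv_yy]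
    omega

theorem w2_th00 (D : WD G H K) : D.th 0 0 = 0 := by
  change (((0 : Fin 3) : ℕ)) • D.k + D.π 0 = 0
  rw [map_zero, add_zero]
  exact zero_smul ℕ D.k

theorem w2_U0 (D : WD G H K) (i : Fin 3) : D.U i 0 = 0 := by
  rcases w2_fin i with rfl | rfl | rfl
  · rfl
  · exact map_zero D.u
  · change D.u (D.u 0) = 0
    rw [map_zero, map_zero]

theorem w2_one_mul (D : WD G H K) (a : WS D) : D.ell 0 0 * a = a := by
  rcases W_cases D a with ⟨i, g, rfl⟩ | ⟨t, rfl⟩ | ⟨s, rfl⟩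
  · rw [(W_table D i 0 g 0 0 0 0).1, w2_U0, zero_add]
  · rw [(W_table D 0 0 0 t 0 0 0).2.2.2.2.2.2.1, w2_th00, zero_add]
  · rw [(W_table D 0 0 0 0 0 s 0).2.2.2.2.2.2.2.2.2.1, w2_th00, map_zero, zero_add]

theorem w2_mul_one (D : WD G H K) (a : WS D) : a * D.ell 0 0 = a := by
  rcases W_cases D a with ⟨i, g, rfl⟩ | ⟨t, rfl⟩ | ⟨s, rfl⟩
  · rw [(W_table D i g 0 0 0 0 0).2.1, add_zero]
  · rw [(W_table D 0 0 0 t 0 0 0).2.2.2.2.2.2.2.1, w2_th00, add_zero]
  · rw [(W_table D 0 0 0 0 0 s 0).2.2.2.2.2.2.2.2.2.2.1, w2_th00, map_zero, add_zero]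

theorem w2_hh (D : WD G H K) (t t' : H) : D.hh t * D.hh t' = D.hh (t + t') :=
  (W_table D 0 0 0 t t' 0 0).2.2.2.2.2.2.2.2.1

theorem w2_yy (D : WD G H K) (s s' : K) : D.yy s * D.yy s' = D.yy (s + s') :=
  (W_table D 0 0 0 0 0 s s').2.2.2.2.2.2.2.2.2.2.2.2.2

theorem w2_gp_hh (D : WD G H K) (t : H) : IsGp (D.hh t) :=
  ⟨D.hh 0, D.hh (-t), by rw [w2_hh, add_zero], by rw [w2_hh, zero_add], by rw [w2_hh, add_zero],
    by rw [w2_hh, add_neg_cancel], by rw [w2_hh, neg_add_cancel]⟩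

theorem w2_gp_yy (D : WD G H K) (t : K) : IsGp (D.yy t) :=
  ⟨D.yy 0, D.yy (-t), by rw [w2_yy, add_zero], by rw [w2_yy, zero_add], by rw [w2_yy, add_zero],
    by rw [w2_yy, add_neg_cancel], by rw [w2_yy, neg_add_cancel]⟩

theorem w2_ell0 (D : WD G H K) (g g' : G) : D.ell 0 g * D.ell 0 g' = D.ell 0 (g + g') :=
  (W_table D 0 g g' 0 0 0 0).2.1

theorem w2_gp_ell (D : WD G H K) (g : G) : IsGp (D.ell 0 g) :=
  ⟨D.ell 0 0, D.ell 0 (-g), by rw [w2_ell0, add_zero], by rw [w2_ell0, zero_add],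
    by rw [w2_ell0, add_zero], by rw [w2_ell0, add_neg_cancel], by rw [w2_ell0, neg_add_cancel]⟩

theorem w2_gp_of_lv (D : WD G H K) (a : WS D) (h : 3 ≤ w2_lv a) : IsGp a := by
  rcases W_cases D a with ⟨i, g, rfl⟩ | ⟨t, rfl⟩ | ⟨s, rfl⟩
  · rw [w2_lv_ell] at h
    have := i.2
    omega
  · exact w2_gp_hh D t
  · exact w2_gp_yy D s

/-- PROOF.  If `(i, g)` with `i ≠ 0` were a group element with identity `ε` and inverse `η`, then `ε = a * η` and `a = ε * a = a * η * a`;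
as `i ≠ 0`: from the table, a product of two elements, which has two factors of level `≥ 1` (`l i g` with `i ≥ 1`, `h`, `y`) and ... Simplest:
`a * a * a` is `h _`; `a = ε * a`, `a * η = ε`, so `ε = ε * ε * ε = (a η)(a η)(a η)` and with `W_cases` for `η` the element `ε` is `h _` or
`y _` (three factors `a` of level `≥ 1`), so `a = ε * a` is `h _` or `y _`, contradiction.  Conversely `l 0 g`: identity `l 0 0`, inverse
`l 0 (-g)`; `h t`: `h 0`, `h (-t)`; `y s`: `y 0`, `y (-s)`. -/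
theorem W_gp (D : WD G H K) : (∀ i g, IsGp (D.ell i g) ↔ i = 0) ∧ (∀ t, IsGp (D.hh t)) ∧ ∀ s, IsGp (D.yy s) := by
  refine ⟨fun i g => ⟨?_, ?_⟩, w2_gp_hh D, w2_gp_yy D⟩
  · rintro ⟨e, k, he, h1, h2, h3, h4⟩
    have e1 := congrArg w2_lv he
    have e2 := congrArg w2_lv h1
    have e3 := congrArg w2_lv h3
    rw [w2_lv_mul] at e1 e2 e3
    rw [w2_lv_ell] at e2 e3
    have h5 := i.2
    apply Fin.ext
    change (i : ℕ) = 0
    omega
  · rintro rfl
    exact w2_gp_ell D g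

/-- PROOF.  From the table: `l i g * l i g = l i g` only for `i = 0`, `g = 0` (`l 0 g * l 0 g = l 0 (g + g)`); `h (t + t) = h t` gives
`t = 0`. -/
theorem W_idem (D : WD G H K) (f : WS D) (hf : f * f = f) : f = D.ell 0 0 ∨ f = D.hh 0 ∨ f = D.yy 0 := by
  rcases W_cases D f with ⟨i, g, rfl⟩ | ⟨t, rfl⟩ | ⟨s, rfl⟩
  · left
    have e1 := congrArg w2_lv hf
    rw [w2_lv_mul, w2_lv_ell] at e1
    have h5 := i.2
    have h6 : i = 0 := Fin.ext (by change (i : ℕ) = 0; omega)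
    subst h6
    rw [w2_ell0] at hf
    have h7 : g + g = g := (W.l.inj hf).2
    have h8 : g = 0 := by
      have h9 := congrArg (fun z => z - g) h7
      simpa using h9
    rw [h8]
  · right; left
    rw [w2_hh] at hf
    have h7 : t + t = t := W.h.inj hf
    have h8 : t = 0 := by
      have h9 := congrArg (fun z => z - t) h7
      simpa using h9
    rw [h8]
  · right; right
    rw [w2_yy] at hf
    have h7 : s + s = s := W.y.inj hf
    have h8 : s = 0 := by
      have h9 := congrArg (fun z => z - s) h7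
      simpa using h9
    rw [h8]

/-- PROOF.  `central`: `W_idem`; `l 0 0` is an identity (`D.u 0 = 0`), `h 0` and `y 0` commute with all (`add_comm`).  `notGp`:
`W_gp`.  `gen`: `l 0 g`, `h t`, `y s` are group elements; `l 1 g = l 1 0 * l 0 g`, `l 2 g = l 1 0 * l 1 0 * l 0 g`.  `cls`: from the
table every product `x p x q x` (`x = l 1 0`, `p`, `q` empty or in `W`) is `h _` or `y _` (cases, `W_cases`, `WithOne.cases_on`).
`idem`: `b = h 0`, `y = y 0`, `n` with `pw x n = h 0`: `pw x m = h ((m + 1) • k)` for `m ≥ 2`, take `m + 1 = 3 * Nat.card H`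
(`card_nsmul_eq_zero'`); `h 0 * y 0 = y (r 0 + 0) = y 0`; `W_idem`; `l 0 0` is an identity. -/
theorem W_conf [Finite H] (D : WD G H K) : Conf (WS D) (D.ell 1 0) := by
  have hlx : w2_lv (D.ell 1 0) = 1 := rfl
  have hx0 : ∀ g : G, D.ell 1 0 * D.ell 0 g = D.ell 1 g := fun g => by
    rw [(W_table D 1 0 g 0 0 0 0).2.1, zero_add]
  have hxx : D.ell 1 0 * D.ell 1 0 = D.ell 2 0 := by
    rw [(W_table D 0 0 0 0 0 0 0).2.2.1, map_zero, zero_add]
  have hth1 : D.th 1 0 = D.k := by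
    change (((1 : Fin 3) : ℕ)) • D.k + D.π 0 = D.k
    rw [map_zero, add_zero]
    exact one_smul ℕ D.k
  have hth2 : D.th 2 0 = 2 • D.k := by
    change (((2 : Fin 3) : ℕ)) • D.k + D.π 0 = 2 • D.k
    rw [map_zero, add_zero]
    rfl
  constructor
  · -- central
    intro e a he
    rcases W_idem D e he with rfl | rfl | rfl
    · rw [w2_one_mul, w2_mul_one]
    · rcases W_cases D a with ⟨i, g, rfl⟩ | ⟨t, rfl⟩ | ⟨s, rfl⟩
      · rw [(W_table D i g 0 0 0 0 0).2.2.2.2.2.2.1, (W_table D i g 0 0 0 0 0).2.2.2.2.2.2.2.1,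
          add_comm]
      · rw [w2_hh, w2_hh, add_comm]
      · rw [(W_table D 0 0 0 0 0 s 0).2.2.2.2.2.2.2.2.2.2.2.1,
          (W_table D 0 0 0 0 0 s 0).2.2.2.2.2.2.2.2.2.2.2.2.1, add_comm]
    · rcases W_cases D a with ⟨i, g, rfl⟩ | ⟨t, rfl⟩ | ⟨s, rfl⟩
      · rw [(W_table D i g 0 0 0 0 0).2.2.2.2.2.2.2.2.2.1,
          (W_table D i g 0 0 0 0 0).2.2.2.2.2.2.2.2.2.2.1, add_comm]
      · rw [(W_table D 0 0 0 t 0 0 0).2.2.2.2.2.2.2.2.2.2.2.1,
          (W_table D 0 0 0 t 0 0 0).2.2.2.2.2.2.2.2.2.2.2.2.1, add_comm]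
      · rw [w2_yy, w2_yy, add_comm]
  · -- notGp
    intro h
    have h1 := ((W_gp D).1 1 0).1 h
    exact absurd h1 (by decide)
  · -- gen
    intro a
    rcases W_cases D a with ⟨i, g, rfl⟩ | ⟨t, rfl⟩ | ⟨s, rfl⟩
    · rcases w2_fin i with rfl | rfl | rfl
      · refine ⟨[D.ell 0 g], ?_, prd_singleton _⟩
        intro c hc
        rw [List.mem_singleton] at hc
        rw [hc]
        exact Or.inl (w2_gp_ell D g)
      · refine ⟨[D.ell 1 0, D.ell 0 g], ?_, ?_⟩
        · intro c hc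
          simp only [List.mem_cons, List.not_mem_nil, or_false] at hc
          rcases hc with rfl | rfl
          · exact Or.inr rfl
          · exact Or.inl (w2_gp_ell D g)
        · rw [prd_cons, prd_singleton, ← WithOne.coe_mul, hx0]
      · refine ⟨[D.ell 1 0, D.ell 1 0, D.ell 0 g], ?_, ?_⟩
        · intro c hc
          simp only [List.mem_cons, List.not_mem_nil, or_false] at hc
          rcases hc with rfl | rfl | rfl
          · exact Or.inr rfl
          · exact Or.inr rfl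
          · exact Or.inl (w2_gp_ell D g)
        · rw [prd_cons, prd_cons, prd_singleton, ← WithOne.coe_mul, ← WithOne.coe_mul, ← mul_assoc,
            hxx, (W_table D 2 0 g 0 0 0 0).2.1, zero_add]
    · refine ⟨[D.hh t], ?_, prd_singleton _⟩
      intro c hc
      rw [List.mem_singleton] at hc
      rw [hc]
      exact Or.inl (w2_gp_hh D t)
    · refine ⟨[D.yy s], ?_, prd_singleton _⟩
      intro c hc
      rw [List.mem_singleton] at hc
      rw [hc]
      exact Or.inl (w2_gp_yy D s)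
  · -- cls
    intro p q s hs
    apply w2_gp_of_lv
    rcases p with _ | p <;> rcases q with _ | q
    · change ((s : WS D) : WithOne (WS D)) = ((D.ell 1 0 : WS D) : WithOne (WS D)) * 1 *
        ((D.ell 1 0 : WS D) : WithOne (WS D)) * 1 * ((D.ell 1 0 : WS D) : WithOne (WS D)) at hs
      rw [mul_one, mul_one, ← WithOne.coe_mul, ← WithOne.coe_mul, WithOne.coe_inj] at hs
      rw [hs, w2_lv_mul, w2_lv_mul, hlx]
      omega
    · change ((s : WS D) : WithOne (WS D)) = ((D.ell 1 0 : WS D) : WithOne (WS D)) * 1 *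
        ((D.ell 1 0 : WS D) : WithOne (WS D)) * ((q : WS D) : WithOne (WS D)) *
          ((D.ell 1 0 : WS D) : WithOne (WS D)) at hs
      rw [mul_one, ← WithOne.coe_mul, ← WithOne.coe_mul, ← WithOne.coe_mul,
        WithOne.coe_inj] at hs
      rw [hs, w2_lv_mul, w2_lv_mul, w2_lv_mul, hlx]
      omega
    · change ((s : WS D) : WithOne (WS D)) = ((D.ell 1 0 : WS D) : WithOne (WS D)) *
        ((p : WS D) : WithOne (WS D)) * ((D.ell 1 0 : WS D) : WithOne (WS D)) * 1 *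
          ((D.ell 1 0 : WS D) : WithOne (WS D)) at hs
      rw [mul_one, ← WithOne.coe_mul, ← WithOne.coe_mul, ← WithOne.coe_mul,
        WithOne.coe_inj] at hs
      rw [hs, w2_lv_mul, w2_lv_mul, w2_lv_mul, hlx]
      omega
    · change ((s : WS D) : WithOne (WS D)) = ((D.ell 1 0 : WS D) : WithOne (WS D)) *
        ((p : WS D) : WithOne (WS D)) * ((D.ell 1 0 : WS D) : WithOne (WS D)) *
          ((q : WS D) : WithOne (WS D)) * ((D.ell 1 0 : WS D) : WithOne (WS D)) at hs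
      rw [← WithOne.coe_mul, ← WithOne.coe_mul, ← WithOne.coe_mul, ← WithOne.coe_mul,
        WithOne.coe_inj] at hs
      rw [hs, w2_lv_mul, w2_lv_mul, w2_lv_mul, w2_lv_mul, hlx]
      omega
  · -- idem
    have hpw : ∀ m : ℕ, pw (D.ell 1 0) (m + 2) = D.hh ((m + 3) • D.k) := by
      intro m
      induction m with
      | zero =>
        rw [zero_add, zero_add]
        change D.ell 1 0 * D.ell 1 0 * D.ell 1 0 = _
        rw [hxx, (W_table D 0 0 0 0 0 0 0).2.2.2.2.1, hth1, hth2]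
        congr 1
        exact (succ_nsmul D.k 2).symm
      | succ m ih =>
        have e1 : m + 1 + 2 = (m + 2) + 1 := by omega
        rw [e1, pw_succ, ih, (W_table D 1 0 0 _ 0 0 0).2.2.2.2.2.2.2.1, hth1]
        congr 1
        exact (succ_nsmul D.k (m + 3)).symm
    have hcard : 0 < Nat.card H := Nat.card_pos
    refine ⟨D.hh 0, D.yy 0, 3 * Nat.card H - 1, ?_, ?_, ?_, ?_, ?_⟩
    · have e1 : 3 * Nat.card H - 1 = (3 * Nat.card H - 3) + 2 := by omega
      have e2 : (3 * Nat.card H - 3) + 3 = 3 * Nat.card H := by omega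
      rw [e1, hpw, e2, mul_nsmul, card_nsmul_eq_zero']
    · rw [w2_hh, add_zero]
    · rw [w2_yy, add_zero]
    · rw [(W_table D 0 0 0 0 0 0 0).2.2.2.2.2.2.2.2.2.2.2.1, map_zero, add_zero]
    · intro f hf
      rcases W_idem D f hf with rfl | rfl | rfl
      · exact Or.inr (Or.inr (w2_one_mul D))
      · exact Or.inl rfl
      · exact Or.inr (Or.inl rfl)

end

end EVC
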